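import Pool.Agent.C4E.Basic

/-!
# C4E-Cnt: the row sums of `E = q I + J - A²`

PLAN. `ee_eq`: three cases (`x = y`; `N x ∩ N y = ∅`; else `card_inter_eq` with `mem_Sf`: the
cardinality is 1).
`card_Sf`: count the pairs `(z, y)` with `z ∈ N x`, `y ∈ N z`. For fixed `z` there are `|N z|`; for
fixed `y` there are `|N x ∩ N y|` (`z ∈ N x` and `z ∈ N y`, by `Cls.mem_comm`), which is `|N x|` for
`y = x` and `1` or `0` for `y ≠ x` (`card_inter_eq`: 0 exactly for `y ∈ Sf N x`). So
`∑ z ∈ N x, |N z| = |N x| + (n - 1 - |Sf N x|)`; with `|N z| = q + 1 - dl z` the left side is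
`(q + 1)|N x| - ff x`, and `|N x| = q + 1 - dl x`. Solve for `|Sf N x|`.
(You can use `sum_nb_comm h (N x) (fun _ => 1)` of Basic.)
-/

set_option linter.unusedSectionVars false

namespace Pool.Agent.C4E

open Finset

variable {V : Type} [Fintype V] [DecidableEq V]

theorem ee_eq (q : ℕ) {N : V → Finset V} (h : Cls N) (x y : V) :
    ee q N x y = (if x = y then (q : ℤ) else 0) + 1 - (N x ∩ N y).card := by
  unfold ee
  by_cases h1 : x = y
  · subst h1
    rw [if_pos rfl, if_pos rfl, inter_self]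
    unfold dl
    ring
  · rw [if_neg h1, if_neg h1]
    by_cases h2 : N x ∩ N y = ∅
    · rw [if_pos h2, h2]
      simp
    · rw [if_neg h2]
      have h3 := h.cod x y h1
      have h4 : 0 < (N x ∩ N y).card := card_pos.2 (nonempty_iff_ne_empty.2 h2)
      have h5 : (N x ∩ N y).card = 1 := by omega
      rw [h5]
      simp

theorem card_Sf (q b : ℕ) {N : V → Finset V} (h : Cls N)
    (hn : Fintype.card V = q ^ 2 + q + 1 + b) (x : V) :
    ((Sf N x).card : ℤ) = b + q * dl q N x + ff q N x := by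
  have h0 := sum_nb_comm h (N x) (fun _ => 1)
  have h1 : ∑ z ∈ N x, ∑ _w ∈ N z, (1 : ℤ) = ((q : ℤ) + 1) * (N x).card - ff q N x := by
    have h2 : ∀ z ∈ N x, ∑ _w ∈ N z, (1 : ℤ) = ((q : ℤ) + 1) - dl q N z := by
      intro z _
      rw [sum_const, nsmul_eq_mul, mul_one, card_N q N z]
    rw [sum_congr rfl h2, sum_sub_distrib, sum_const, nsmul_eq_mul]
    unfold ff
    ring
  have h3 : ∑ z, ((N z ∩ N x).card : ℤ) * 1
      = ((N x).card : ℤ) - 1 + (Fintype.card V : ℤ) - (Sf N x).card := by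
    have h4 : ∀ z ∈ (univ : Finset V), ((N z ∩ N x).card : ℤ) * 1
        = (if z = x then ((N x).card : ℤ) - 1 else 0) + 1 - (if z ∈ Sf N x then 1 else 0) := by
      intro z _
      by_cases hz : z = x
      · subst hz
        rw [if_pos rfl, if_neg (not_mem_Sf_self z), inter_self]
        ring
      · rw [if_neg hz, inter_comm, card_inter_eq h hz]
        by_cases hs : z ∈ Sf N x
        · rw [if_pos hs, if_pos hs]; simp
        · rw [if_neg hs, if_neg hs]; simp
    rw [sum_congr rfl h4, sum_sub_distrib, sum_add_distrib, sum_ite_eq' univ x,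
      if_pos (mem_univ x), sum_const, nsmul_eq_mul, mul_one, card_univ]
    have h5 : ∑ z, (if z ∈ Sf N x then (1 : ℤ) else 0) = (Sf N x).card := by
      rw [← sum_filter, sum_const, nsmul_eq_mul, mul_one]
      congr 2
      ext z
      simp
    rw [h5]
  rw [h1, h3] at h0
  have h6 := card_N q N x
  have h7 : (Fintype.card V : ℤ) = (q : ℤ) ^ 2 + q + 1 + b := by rw [hn]; push_cast; ring
  rw [h7] at h0
  have h8 : ((Sf N x).card : ℤ) = ((N x).card : ℤ) - 1 + ((q : ℤ) ^ 2 + q + 1 + b)
      - (((q : ℤ) + 1) * (N x).card - ff q N x) := by linarith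
  rw [h8, h6]
  ring

end Pool.Agent.C4E
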