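import Pool.Agent.C4E.Par
import Pool.Agent.C4E.Cnt

/-!
# C4E-AFull: full vertices in Case A

The number of neighbours of a full vertex is odd, and the parity lemma.
-/

set_option linter.unusedSectionVars false

namespace Pool.Agent.C4E

open Finset

variable {V : Type} [Fintype V] [DecidableEq V]

private theorem fl_aux {q m : ℕ} {N : V → Finset V} {M : Finset V} (s : SysA q m N M) {x : V}
    (hx : dl q N x = 0) : ((Sf N x).card : ℤ) = ff q N x ∧ 1 ≤ (N x ∩ Sf N x).card := by
  have h1 := card_Sf q 0 s.cls (by rw [s.card]) x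
  rw [hx] at h1
  have h2 := card_N q N x
  rw [hx] at h2
  have h3 : (N x).card = q + 1 := by
    have h4 : ((N x).card : ℤ) = ((q + 1 : ℕ) : ℤ) := by rw [h2]; push_cast; ring
    exact_mod_cast h4
  have h5 := parity s.cls s.nol x
  have h6 := card_sdiff_add_card_inter (N x) (Sf N x)
  refine ⟨by rw [h1]; push_cast; ring, ?_⟩
  by_contra hcon
  have h7 : (N x ∩ Sf N x).card = 0 := by omega
  rw [h7, add_zero, h3] at h6
  rw [h6] at h5
  exact (Nat.not_even_iff_odd.2 (Even.add_one s.even)) h5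

theorem full_ff {q m : ℕ} {N : V → Finset V} {M : Finset V} (s : SysA q m N M) {x : V}
    (hx : dl q N x = 0) : 1 ≤ ff q N x := by
  obtain ⟨h1, h2⟩ := fl_aux s hx
  have h3 : (N x ∩ Sf N x).card ≤ (Sf N x).card := card_le_card inter_subset_right
  omega

theorem full_t {q m : ℕ} {N : V → Finset V} {M : Finset V} (s : SysA q m N M) {x : V}
    (hx : dl q N x = 0) (hf : ff q N x = 1) : ∃ t, Sf N x = {t} ∧ t ∈ N x := by
  obtain ⟨h1, h2⟩ := fl_aux s hx
  have h3 : (Sf N x).card = 1 := by omega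
  obtain ⟨t, ht⟩ := card_eq_one.1 h3
  obtain ⟨c, hc⟩ := card_pos.1 (by omega : 0 < (N x ∩ Sf N x).card)
  refine ⟨t, ht, ?_⟩
  rw [mem_inter, ht, mem_singleton] at hc
  rw [← hc.2]
  exact hc.1

end Pool.Agent.C4E
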