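import Pool.Agent.C4E.Sq
import Pool.Agent.C4E.AFull

/-!
# C4E-ABud: the budget inequality of Case A
-/

set_option linter.unusedSectionVars false

namespace Pool.Agent.C4E

open Finset

variable {V : Type} [Fintype V] [DecidableEq V]

private theorem bud_split (q : ℕ) (N : V → Finset V) (g : V → ℤ) :
    ∑ x, g x = ∑ x ∈ Yd q N, g x + ∑ x ∈ Fl q N, g x + ∑ x ∈ Hv q N, g x := by
  have h1 : Yd q N ∪ Fl q N ∪ Hv q N = univ := by
    ext x
    simp only [mem_union, mem_Yd, mem_Fl, mem_Hv, mem_univ, iff_true]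
    omega
  have h2 : Disjoint (Yd q N) (Fl q N) := by
    rw [disjoint_left]; intro x; rw [mem_Yd, mem_Fl]; omega
  have h3 : Disjoint (Yd q N ∪ Fl q N) (Hv q N) := by
    rw [disjoint_left]; intro x; rw [mem_union, mem_Yd, mem_Fl, mem_Hv]; omega
  rw [← sum_union h2, ← sum_union h3, h1]

theorem bud {q m : ℕ} {N : V → Finset V} {M : Finset V} (s : SysA q m N M) :
    ∑ x ∈ Fl q N, (ff q N x - 1) + ∑ x ∈ Yd q N, pp q N x + QQ q N ≤
      q + 2 * m * (q + 1) + 2 * HH q N + (Yd q N).card := by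
  have h1 := sum_ff q s.cls
  have h2 := sum_ph q s.cls
  rw [bud_split q N] at h1
  have h3 : (q : ℤ) * HH q N ≤ ∑ x ∈ Hv q N, ff q N x := by
    have h4 : HH q N = ∑ x ∈ Hv q N, hh q N x := by
      unfold HH
      symm
      apply sum_subset (subset_univ _)
      intro x _ hx
      rw [mem_Hv] at hx
      exact hh_of_nonneg (by omega)
    rw [h4, mul_sum]
    refine sum_le_sum fun x hx => ?_
    have h5 := ff_heavy q 0 s.cls s.card x (by have := mem_Hv.1 hx; omega)
    simp only [Nat.cast_zero, sub_zero] at h5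
    exact h5
  have h4 : ∑ x ∈ Yd q N, ff q N x = ∑ x ∈ Yd q N, pp q N x - ∑ x ∈ Yd q N, ph q N x := by
    rw [← sum_sub_distrib]
    exact sum_congr rfl fun x _ => ff_eq q N x
  have h5 : ∑ x ∈ Yd q N, ph q N x ≤ ∑ x, ph q N x :=
    sum_le_sum_of_subset_of_nonneg (subset_univ _) fun z _ _ => ph_nonneg q N z
  have h6 : ∑ x ∈ Fl q N, (ff q N x - 1) = ∑ x ∈ Fl q N, ff q N x - (Fl q N).card := by
    rw [sum_sub_distrib]
    simp
  have h7 : ((Yd q N).card : ℤ) + (Fl q N).card + (Hv q N).card = (q : ℤ) ^ 2 + q + 1 := by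
    have h8 := card_parts q N
    rw [s.card] at h8
    exact_mod_cast h8
  have h8 := card_Hv_le q N
  have h9 : ((q : ℤ) + 1) * ∑ x, dl q N x ≤ (q + 1) * (q + 1 + 2 * m) :=
    mul_le_mul_of_nonneg_left s.sum (by positivity)
  have h10 : ((q : ℤ) + 1) * (q + 1 + 2 * m) = (q : ℤ) ^ 2 + q + 1 + (q + 2 * m * (q + 1)) := by ring
  have h11 : ((q : ℤ) + 1) * HH q N = q * HH q N + HH q N := by ring
  linarith

end Pool.Agent.C4E
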