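import Pool.Agent.C4E.Basic

/-!
# C4E-Cn: counting tools

Three double counting inequalities.
-/

set_option linter.unusedSectionVars false

namespace Pool.Agent.C4E

open Finset

variable {V : Type} [Fintype V] [DecidableEq V]

private theorem sum_ind (s : Finset V) (f : V → ℤ) : ∑ z ∈ s, f z = ∑ z, if z ∈ s then f z else 0 := by
  rw [← sum_filter]
  exact sum_congr (by ext z; simp) fun _ _ => rfl

theorem nb_cnt {N : V → Finset V} (h : Cls N) (v : V → ℤ) (hv : ∀ x, 0 ≤ v x) (y : V) :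
    ∑ x ∈ N y, ∑ z ∈ (N x).erase y, v z ≤ ∑ z ∈ univ.erase y, v z := by
  have h1 : ∀ x ∈ N y, ∑ z ∈ (N x).erase y, v z = ∑ z ∈ univ.erase y, if z ∈ N x then v z else 0 := by
    intro x _
    rw [← sum_filter]
    refine sum_congr ?_ fun _ _ => rfl
    ext z
    simp only [mem_erase, mem_filter, mem_univ, and_true]
  rw [sum_congr rfl h1, sum_comm]
  refine sum_le_sum fun z hz => ?_
  have hzy : z ≠ y := (mem_erase.1 hz).1
  rw [← sum_filter, sum_const, nsmul_eq_mul]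
  have h2 : (N y).filter (fun x => z ∈ N x) = N z ∩ N y := by
    ext x
    simp only [mem_filter, mem_inter]
    rw [h.mem_comm (x := x) (y := z)]
    exact and_comm
  rw [h2]
  have h3 := h.cod z y hzy
  have h4 : (((N z ∩ N y).card : ℕ) : ℤ) ≤ 1 := by exact_mod_cast h3
  have h5 := hv z
  nlinarith

private theorem hub_trip {N : V → Finset V} (h : Cls N) (W : Finset V) :
    ∑ z, ((N z ∩ W).card : ℤ) * ((N z ∩ W).card - 1) ≤ (W.card : ℤ) * (W.card - 1) := by
  have hoff : ∀ s : Finset V, (s.offDiag.card : ℤ) = (s.card : ℤ) * (s.card - 1) := by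
    intro s
    have h1 := offDiag_card s
    have h2 : s.card ≤ s.card * s.card := Nat.le_mul_self _
    have h3 : (s.offDiag.card : ℤ) = (s.card : ℤ) * s.card - s.card := by
      rw [h1, Nat.cast_sub h2, Nat.cast_mul]
    rw [h3]
    ring
  rw [← hoff W]
  have h1 : ∀ z, ((N z ∩ W).card : ℤ) * ((N z ∩ W).card - 1) =
      ∑ p ∈ W.offDiag, if p.1 ∈ N z ∧ p.2 ∈ N z then 1 else 0 := by
    intro z
    rw [← hoff, ← sum_filter, sum_const, nsmul_eq_mul, mul_one]
    congr 2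
    ext p
    simp only [mem_offDiag, mem_filter, mem_inter]
    tauto
  rw [sum_congr rfl fun z _ => h1 z, sum_comm]
  have h2 : (W.offDiag.card : ℤ) = ∑ _p ∈ W.offDiag, (1 : ℤ) := by
    rw [sum_const, nsmul_eq_mul, mul_one]
  rw [h2]
  refine sum_le_sum fun p hp => ?_
  rw [mem_offDiag] at hp
  rw [← sum_filter, sum_const, nsmul_eq_mul, mul_one]
  have h3 : univ.filter (fun z => p.1 ∈ N z ∧ p.2 ∈ N z) = N p.1 ∩ N p.2 := by
    ext z
    simp only [mem_filter, mem_univ, true_and, mem_inter]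
    rw [h.mem_comm (x := z) (y := p.1), h.mem_comm (x := z) (y := p.2)]
  rw [h3]
  exact_mod_cast h.cod p.1 p.2 hp.2.2

theorem hub_cnt {N : V → Finset V} (h : Cls N) (v : V → ℤ) (hv : ∀ x, 0 ≤ v x) (M : ℤ)
    (hM : ∀ x, v x ≤ M) (W : Finset V) :
    2 * ∑ x ∈ W, ∑ z ∈ N x, v z ≤ 2 * ∑ z, v z + (W.card : ℤ) * (W.card - 1) * M := by
  rcases isEmpty_or_nonempty V with hE | ⟨⟨x0⟩⟩
  · have hW : W = ∅ := by
      ext x
      exact hE.elim x
    subst hW
    simp
  have hM0 : 0 ≤ M := (hv x0).trans (hM x0)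
  rw [sum_nb_comm h W v]
  have h1 : 2 * ∑ z, ((N z ∩ W).card : ℤ) * v z ≤
      2 * ∑ z, v z + (∑ z, ((N z ∩ W).card : ℤ) * ((N z ∩ W).card - 1)) * M := by
    rw [mul_sum, mul_sum, sum_mul, ← sum_add_distrib]
    refine sum_le_sum fun z _ => ?_
    obtain ⟨t, ht⟩ : ∃ t : ℕ, t = (N z ∩ W).card := ⟨_, rfl⟩
    rw [← ht]
    have h2 : (0 : ℤ) ≤ ((t : ℤ) - 1) * ((t : ℤ) - 2) := by
      rcases Nat.lt_or_ge t 2 with h3 | h3
      · interval_cases t <;> norm_num
      · have h4 : (2 : ℤ) ≤ t := by exact_mod_cast h3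
        exact mul_nonneg (by omega) (by omega)
    have h5 : (0 : ℤ) ≤ (t : ℤ) * ((t : ℤ) - 1) := by
      rcases Nat.eq_zero_or_pos t with h3 | h3
      · rw [h3]
        norm_num
      · have h4 : (1 : ℤ) ≤ t := by exact_mod_cast h3
        exact mul_nonneg (by omega) (by omega)
    have h6 := mul_nonneg h2 (hv z)
    have h7 := mul_le_mul_of_nonneg_left (hM z) h5
    nlinarith
  refine h1.trans ?_
  have h2 := mul_le_mul_of_nonneg_right (hub_trip h W) hM0
  linarith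

theorem pr_cnt {N : V → Finset V} (h : Cls N) (v : V → ℤ) (hv : ∀ x, 0 ≤ v x) :
    ∑ x, ∑ z ∈ N x, ∑ z' ∈ (N x).erase z, v z * v z' ≤ (∑ z, v z) ^ 2 := by
  have h1 : ∑ x, ∑ z ∈ N x, ∑ z' ∈ (N x).erase z, v z * v z' =
      ∑ z, v z * ∑ x ∈ N z, ∑ z' ∈ (N x).erase z, v z' := by
    rw [sum_congr rfl fun x _ => sum_ind (N x) fun z => ∑ z' ∈ (N x).erase z, v z * v z', sum_comm]
    refine sum_congr rfl fun z _ => ?_
    rw [mul_sum, sum_ind (N z)]
    refine sum_congr rfl fun x _ => ?_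
    simp only [h.mem_comm (x := x) (y := z)]
    split_ifs
    · rw [mul_sum]
    · rfl
  rw [h1, sq, sum_mul]
  refine sum_le_sum fun z _ => mul_le_mul_of_nonneg_left ?_ (hv z)
  exact (nb_cnt h v hv z).trans (sum_le_sum_of_subset_of_nonneg (erase_subset _ _) fun x _ _ => hv x)

end Pool.Agent.C4E
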