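import Pool.Agent.C4E.AX
import Pool.Agent.C4E.Cn

/-!
# C4E-AD: the maximal deficiency in Case A
-/

set_option linter.unusedSectionVars false

namespace Pool.Agent.C4E

open Finset

variable {V : Type} [Fintype V] [DecidableEq V]

theorem dl_A {q m : ℕ} {N : V → Finset V} {M : Finset V} (s : SysA q m N M) (x : V) :
    dl q N x ≤ 3 * m := by
  by_contra hcon
  obtain ⟨y, k, hk, hk1⟩ : ∃ (y : V) (k : ℤ), k = dl q N y ∧ 3 * (m : ℤ) + 1 ≤ k := ⟨x, _, rfl, by omega⟩
  have h := s.cls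
  have hbig := s.big
  have hmlo := s.mlo
  have hmhi := s.mhi
  have hq1 : (100 : ℤ) ≤ q := by
    have : 100 ≤ q := le_trans (by norm_num) hbig
    exact_mod_cast this
  have hm1 : (4 : ℤ) ≤ m := by
    have : 4 ≤ m := le_trans (by norm_num) hmlo
    exact_mod_cast this
  have hmq : (10 ^ 4 : ℤ) * m ≤ q := by exact_mod_cast hmhi
  have hdy : dp q N y = k := by
    rw [dp_of_pos (by omega), hk]
  have hhy : hh q N y = 0 := hh_of_nonneg (by omega)
  -- k is small
  have hQ := QQ_A s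
  have hX := XX_A s
  have hHX := HH_le_XX q N
  have hk2 : k ^ 2 ≤ QQ q N := by
    rw [← hdy]
    unfold QQ
    exact single_le_sum (f := fun x => dp q N x ^ 2) (fun z _ => sq_nonneg _) (mem_univ y)
  have hk50 : 50 * k ≤ q := by
    by_contra hc
    have h1 : (q : ℤ) + 1 ≤ 50 * k := by omega
    have h2 : ((q : ℤ) + 1) * (q + 1) ≤ (50 * k) * (50 * k) := by
      refine mul_le_mul h1 h1 (by omega) (by omega)
    have h3 : (10 ^ 4 : ℤ) * m * q ≤ q * q := mul_le_mul_of_nonneg_right hmq (by omega)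
    nlinarith
  -- the budget restricted to the neighbours of y
  have hbud := bud s
  have hYQ : ((Yd q N).card : ℤ) ≤ QQ q N := (card_Yd_le q N).trans (DP_le_QQ q N)
  have e1 : ∑ x ∈ N y ∩ Fl q N, (ff q N x - 1) ≤ ∑ x ∈ Fl q N, (ff q N x - 1) := by
    refine sum_le_sum_of_subset_of_nonneg inter_subset_right fun z hz _ => ?_
    have := full_ff s (mem_Fl.1 hz)
    omega
  have e2 : ∑ x ∈ N y ∩ Yd q N, pp q N x ≤ ∑ x ∈ Yd q N, pp q N x :=
    sum_le_sum_of_subset_of_nonneg inter_subset_right fun z _ _ => pp_nonneg q N z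
  have hpp : ∀ x ∈ N y, k ≤ pp q N x := by
    intro x hx
    rw [← hdy]
    unfold pp
    exact single_le_sum (f := fun z => dp q N z) (fun z _ => dp_nonneg q N z) (h.symm _ _ hx)
  have e3 : ∑ x ∈ N y ∩ Fl q N, (k - 1 - ph q N x) ≤ ∑ x ∈ N y ∩ Fl q N, (ff q N x - 1) := by
    refine sum_le_sum fun z hz => ?_
    have h1 := hpp z (mem_inter.1 hz).1
    have h2 := ff_eq q N z
    omega
  have e4 : ∑ x ∈ N y ∩ Yd q N, (k - 1 - ph q N x) ≤ ∑ x ∈ N y ∩ Yd q N, pp q N x := by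
    refine sum_le_sum fun z hz => ?_
    have h1 := hpp z (mem_inter.1 hz).1
    have h2 := ph_nonneg q N z
    omega
  have e5 : ∑ x ∈ N y ∩ Fl q N, (k - 1 - ph q N x) + ∑ x ∈ N y ∩ Yd q N, (k - 1 - ph q N x) =
      (((N y ∩ Fl q N).card : ℤ) + (N y ∩ Yd q N).card) * (k - 1) -
        (∑ x ∈ N y ∩ Fl q N, ph q N x + ∑ x ∈ N y ∩ Yd q N, ph q N x) := by
    simp only [sum_sub_distrib, sum_const, nsmul_eq_mul]
    ring
  have e6 : ∑ x ∈ N y ∩ Fl q N, ph q N x + ∑ x ∈ N y ∩ Yd q N, ph q N x ≤ ∑ x ∈ N y, ph q N x := by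
    have hd : Disjoint (N y ∩ Fl q N) (N y ∩ Yd q N) := by
      rw [disjoint_left]
      intro z hz1 hz2
      have h1 := mem_Fl.1 (mem_inter.1 hz1).2
      have h2 := mem_Yd.1 (mem_inter.1 hz2).2
      omega
    rw [← sum_union hd]
    exact sum_le_sum_of_subset_of_nonneg (union_subset inter_subset_left inter_subset_left)
      fun z _ _ => ph_nonneg q N z
  have e7 : ∑ x ∈ N y, ph q N x ≤ HH q N := by
    have h1 : ∀ x ∈ N y, ph q N x = ∑ z ∈ (N x).erase y, hh q N z := by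
      intro x hx
      unfold ph
      rw [← add_sum_erase (N x) (fun z => hh q N z) (h.symm _ _ hx), hhy, zero_add]
    rw [sum_congr rfl h1]
    exact (nb_cnt h (fun z => hh q N z) (hh_nonneg q N) y).trans
      (sum_le_sum_of_subset_of_nonneg (erase_subset _ _) fun z _ _ => hh_nonneg q N z)
  have hsp := card_split q N (N y)
  have hHv : ((N y ∩ Hv q N).card : ℤ) ≤ 9 * m := by
    have h1 : (N y ∩ Hv q N).card ≤ (Hv q N).card := card_le_card inter_subset_right
    have h2 := card_Hv_le q N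
    omega
  have hNy := card_N q N y
  obtain ⟨A, hA⟩ : ∃ A : ℤ, A = ((N y ∩ Fl q N).card : ℤ) + (N y ∩ Yd q N).card := ⟨_, rfl⟩
  have hA1 : (q : ℤ) + 1 - k - 9 * m ≤ A := by omega
  rw [← hA] at e5
  have hA2 : 97 * (q : ℤ) ≤ 100 * A := by omega
  have e8 : A * (k - 1) ≤ q + 2 * m * (q + 1) + 27 * m := by omega
  have e9 : A * (3 * m) ≤ A * (k - 1) := mul_le_mul_of_nonneg_left (by omega) (by omega)
  have e10 : 97 * (q : ℤ) * (3 * m) ≤ 100 * A * (3 * m) := mul_le_mul_of_nonneg_right hA2 (by omega)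
  have e11 : (4 : ℤ) * q ≤ m * q := mul_le_mul_of_nonneg_right hm1 (by omega)
  have e12 : (100 : ℤ) * m ≤ q * m := mul_le_mul_of_nonneg_right hq1 (by omega)
  nlinarith

end Pool.Agent.C4E
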