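import Pool.Agent.C4E.AD

/-!
# C4E-AH: at most one heavy vertex in Case A

PLAN. Let `t` be the largest value of `hh` (so `t² ≤ XX`), `Σ = ∑ x, hh x * pp x`. For every `x`:
`hh x * pp x ≥ hh x * ff x ≥ q hh x ^ 2` (`ff_le_pp`, `ff_heavy` with `b = 0` if `hh x > 0`), so
`Σ ≥ q XX`. Exchange the sums: `Σ = ∑ z, dp z * ph z`. Cauchy-Schwarz
(`(∑ dp z ph z)² ≤ (∑ dp z)(∑ dp z ph z ²)`, `Finset.sum_mul_sq_le_sq_mul_sq` style, or
`∑∑ dp z dp z' (ph z - ph z')² ≥ 0`): `Σ² ≤ DP * ∑ z, dp z * ph z ^ 2`, and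
`∑ z, dp z * ph z ^ 2 = ∑ x, ∑ x', hh x hh x' (∑_{z ∈ N x ∩ N x'} dp z)`; the terms `x = x'` give
`∑ hh x ^ 2 pp x ≤ t Σ`, the terms `x ≠ x'` at most `hh x hh x' * 3 m` (`cod`, `dl_A`), total
`≤ 3 m HH² ≤ 3 m XX²`. So `Σ² ≤ DP (t Σ + 3 m XX²)`, `DP = ∑ dl + HH ≤ q + 1 + 2 m + 9 m`, i.e.
`1000 DP ≤ 1002 q`. `XX ≤ Σ / q` gives `3 m DP XX² ≤ 0.0004 Σ²` (`10^4 m ≤ q`). If `Σ > 0`:
`Σ (1 - 0.0004) ≤ 1.002 q t`, `q XX ≤ Σ ≤ 1.003 q t`, so `XX ≤ 1.003 t`; with `t² ≤ XX`: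
`t ≤ 1`, hence `XX ≤ 1.003`, `XX ≤ 1`. If `Σ ≤ 0`: `XX ≤ 0`.
-/

set_option linter.unusedSectionVars false

namespace Pool.Agent.C4E

open Finset

variable {V : Type} [Fintype V] [DecidableEq V]

private theorem ah_dp {q m : ℕ} {N : V → Finset V} {M : Finset V} (s : SysA q m N M) (x : V) :
    dp q N x ≤ 3 * m := by
  unfold dp
  have h1 := dl_A s x
  have h2 : (0 : ℤ) ≤ 3 * m := by positivity
  exact max_le h1 h2

private theorem ah_term {q m : ℕ} {N : V → Finset V} {M : Finset V} (s : SysA q m N M) (x : V) :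
    (q : ℤ) * hh q N x ^ 2 ≤ hh q N x * pp q N x := by
  rcases le_or_gt 0 (dl q N x) with h0 | h0
  · rw [hh_of_nonneg h0]; simp
  · have h1 := ff_heavy q 0 s.cls (by rw [s.card]) x h0.le
    have h2 := ff_le_pp q N x
    have h3 := hh_nonneg q N x
    have h4 : (q : ℤ) * hh q N x ≤ pp q N x := by
      push_cast at h1
      linarith
    have h5 := mul_le_mul_of_nonneg_left h4 h3
    calc (q : ℤ) * hh q N x ^ 2 = hh q N x * ((q : ℤ) * hh q N x) := by ring
      _ ≤ _ := h5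

private theorem ah_swap {q : ℕ} {N : V → Finset V} (h : Cls N) :
    ∑ x, hh q N x * pp q N x = ∑ z, dp q N z * ph q N z := by
  have h1 : ∀ x ∈ (univ : Finset V), hh q N x * pp q N x
      = ∑ z, if z ∈ N x then hh q N x * dp q N z else 0 := by
    intro x _
    unfold pp
    rw [mul_sum, ← sum_filter]
    exact sum_congr (by ext z; simp) fun _ _ => rfl
  have h2 : ∀ z ∈ (univ : Finset V), dp q N z * ph q N z
      = ∑ x, if x ∈ N z then hh q N x * dp q N z else 0 := by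
    intro z _
    unfold ph
    rw [mul_sum, ← sum_filter]
    refine sum_congr (by ext x; simp) fun _ _ => ?_
    ring
  rw [sum_congr rfl h1, sum_congr rfl h2, sum_comm]
  refine sum_congr rfl fun z _ => sum_congr rfl fun x _ => ?_
  exact if_congr h.mem_comm rfl rfl

private theorem ah_R {q m : ℕ} {N : V → Finset V} {M : Finset V} (s : SysA q m N M) (t : ℤ)
    (ht : ∀ x, hh q N x ≤ t) :
    ∑ z, dp q N z * ph q N z ^ 2 ≤ t * (∑ z, dp q N z * ph q N z) + 3 * m * HH q N ^ 2 := by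
  have h1 : ∀ z ∈ (univ : Finset V), dp q N z * ph q N z ^ 2
      ≤ t * (dp q N z * ph q N z)
        + 3 * m * (∑ x ∈ N z, ∑ x' ∈ (N z).erase x, hh q N x * hh q N x') := by
    intro z _
    have h2 : ph q N z ^ 2 = ∑ x ∈ N z, hh q N x * hh q N x
        + ∑ x ∈ N z, ∑ x' ∈ (N z).erase x, hh q N x * hh q N x' := by
      rw [← sum_add_distrib, sq]
      unfold ph
      rw [sum_mul]
      refine sum_congr rfl fun x hx => ?_
      rw [mul_sum, ← add_sum_erase _ _ hx]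
    have h3 : ∑ x ∈ N z, hh q N x * hh q N x ≤ t * ph q N z := by
      unfold ph
      rw [mul_sum]
      exact sum_le_sum fun x _ => mul_le_mul_of_nonneg_right (ht x) (hh_nonneg q N x)
    have h4 : 0 ≤ ∑ x ∈ N z, ∑ x' ∈ (N z).erase x, hh q N x * hh q N x' :=
      sum_nonneg fun x _ => sum_nonneg fun x' _ => mul_nonneg (hh_nonneg q N x) (hh_nonneg q N x')
    have h5 := mul_le_mul_of_nonneg_right (ah_dp s z) h4
    have h6 := mul_le_mul_of_nonneg_left h3 (dp_nonneg q N z)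
    rw [h2, mul_add]
    have h7 : dp q N z * (t * ph q N z) = t * (dp q N z * ph q N z) := by ring
    rw [h7] at h6
    exact add_le_add h6 h5
  have h2 := sum_le_sum h1
  rw [sum_add_distrib, ← mul_sum, ← mul_sum] at h2
  have h3 := pr_cnt s.cls (fun x => hh q N x) (fun x => hh_nonneg q N x)
  have h4 : (0 : ℤ) ≤ 3 * m := by positivity
  have h5 := mul_le_mul_of_nonneg_left h3 h4
  refine h2.trans ?_
  unfold HH
  linarith

theorem XX_one {q m : ℕ} {N : V → Finset V} {M : Finset V} (s : SysA q m N M) :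
    XX q N ≤ 1 := by
  have hcl := s.cls
  have hne : (univ : Finset V).Nonempty := by
    rw [← card_pos, card_univ, s.card]
    positivity
  obtain ⟨x0, _, hx0⟩ := exists_max_image univ (fun x => hh q N x) hne
  obtain ⟨t, htd⟩ : ∃ t, t = hh q N x0 := ⟨_, rfl⟩
  have ht : ∀ x, hh q N x ≤ t := fun x => by rw [htd]; exact hx0 x (mem_univ x)
  have ht0 : 0 ≤ t := by rw [htd]; exact hh_nonneg q N x0
  have htX : t ^ 2 ≤ XX q N := by
    rw [htd]
    exact single_le_sum (f := fun x => hh q N x ^ 2) (fun z _ => sq_nonneg _) (mem_univ x0)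
  obtain ⟨S, hS⟩ : ∃ S, S = ∑ z, dp q N z * ph q N z := ⟨_, rfl⟩
  obtain ⟨R, hR⟩ : ∃ R, R = ∑ z, dp q N z * ph q N z ^ 2 := ⟨_, rfl⟩
  obtain ⟨X, hX⟩ : ∃ X, X = XX q N := ⟨_, rfl⟩
  have h1 : (q : ℤ) * X ≤ S := by
    rw [hX, hS, ← ah_swap hcl]
    unfold XX
    rw [mul_sum]
    exact sum_le_sum fun x _ => ah_term s x
  have h2 : S ^ 2 ≤ DP q N * R := by
    rw [hS, hR]
    unfold DP
    refine sum_sq_le_sum_mul_sum_of_sq_le_mul univ (fun z _ => dp_nonneg q N z)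
      (fun z _ => mul_nonneg (dp_nonneg q N z) (sq_nonneg _)) fun z _ => le_of_eq ?_
    ring
  have h3 : R ≤ t * S + 3 * m * HH q N ^ 2 := by
    rw [hS, hR]
    exact ah_R s t ht
  have hHX : HH q N ≤ X := by rw [hX]; exact HH_le_XX q N
  have hH0 := HH_nonneg q N
  have hX9 : X ≤ 9 * m := by rw [hX]; exact XX_A s
  have hD : DP q N ≤ q + 1 + 11 * m := by
    rw [DP_eq]
    have := s.sum
    linarith
  have hmq : (10 : ℤ) ^ 4 * m ≤ q := by exact_mod_cast s.mhi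
  have hq : (10 : ℤ) ^ 100 ≤ q := by exact_mod_cast s.big
  have hq0 : (0 : ℤ) < q := lt_of_lt_of_le (by norm_num) hq
  have hm0 : (0 : ℤ) ≤ m := by positivity
  have hD2 : 1000 * DP q N ≤ 1002 * q := by
    have : (10 : ℤ) ^ 4 ≤ q := le_trans (by norm_num) hq
    norm_num at hmq this
    linarith
  have hX0 : 0 ≤ X := by rw [hX]; exact XX_nonneg q N
  have hD0 := DP_nonneg q N
  rw [← hX] at htX ⊢
  by_contra hcon
  have hX2 : 2 ≤ X := by omega
  have hS0 : 0 < S := by nlinarith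
  -- 3 m HH² ≤ 3 m X²
  have h4 : HH q N ^ 2 ≤ X ^ 2 := by nlinarith
  have h5 : 3 * (m : ℤ) * HH q N ^ 2 ≤ 3 * m * X ^ 2 :=
    mul_le_mul_of_nonneg_left h4 (by positivity)
  have h6 : R ≤ t * S + 3 * m * X ^ 2 := by linarith
  have hT0 : 0 ≤ t * S + 3 * m * X ^ 2 := by positivity
  have h7 : 1000 * S ^ 2 ≤ 1002 * q * (t * S + 3 * m * X ^ 2) := by
    have h8 : DP q N * R ≤ DP q N * (t * S + 3 * m * X ^ 2) := mul_le_mul_of_nonneg_left h6 hD0
    have h9 := mul_le_mul_of_nonneg_right hD2 hT0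
    linarith
  have h8 : 10 ^ 4 * ((q : ℤ) * (3 * m * X ^ 2)) ≤ 3 * S ^ 2 := by
    have h9 : (q * X) ^ 2 ≤ S ^ 2 := by
      have : 0 ≤ (q : ℤ) * X := by positivity
      nlinarith
    have h10 : 3 * ((q : ℤ) * X ^ 2) * (10 ^ 4 * m) ≤ 3 * ((q : ℤ) * X ^ 2) * q :=
      mul_le_mul_of_nonneg_left hmq (by positivity)
    nlinarith
  have h9 : (10 ^ 7 - 3006) * S ^ 2 ≤ 10020000 * (q * t * S) := by
    nlinarith
  have h10 : (10 ^ 7 - 3006) * S ≤ 10020000 * (q * t) := by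
    have h11 : ((10 ^ 7 - 3006) * S) * S ≤ (10020000 * (q * t)) * S := by
      calc ((10 ^ 7 - 3006) * S) * S = (10 ^ 7 - 3006) * S ^ 2 := by ring
        _ ≤ 10020000 * (q * t * S) := h9
        _ = _ := by ring
    exact le_of_mul_le_mul_right h11 hS0
  have h11 : (10 ^ 7 - 3006) * X ≤ 10020000 * t := by
    have h12 : ((10 ^ 7 - 3006) * X) * q ≤ (10020000 * t) * q := by
      calc ((10 ^ 7 - 3006) * X) * q = (10 ^ 7 - 3006) * (q * X) := by ring
        _ ≤ (10 ^ 7 - 3006) * S := mul_le_mul_of_nonneg_left h1 (by norm_num)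
        _ ≤ 10020000 * (q * t) := h10
        _ = _ := by ring
    exact le_of_mul_le_mul_right h12 hq0
  norm_num at h11
  have h12 : t ≤ 1 := by
    by_contra hc
    have : 2 ≤ t := by omega
    nlinarith
  omega

end Pool.Agent.C4E
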