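import Pool.Agent.C4E.Defs2
import Pool.Agent.C4E.AH

/-!
# C4E-AFh: at most 8 vertices with `f ≥ q / 8` (Case A)
-/

set_option linter.unusedSectionVars false

namespace Pool.Agent.C4E

open Finset

variable {V : Type} [Fintype V] [DecidableEq V]

theorem card_Fh_A {q m : ℕ} {N : V → Finset V} {M : Finset V} (s : SysA q m N M) :
    (Fh q N).card ≤ 8 := by
  by_contra hcon
  obtain ⟨W, hW, hW9⟩ := exists_subset_card_eq (show 9 ≤ (Fh q N).card by omega)
  have h1 : (9 : ℤ) * q ≤ 8 * ∑ x ∈ W, ff q N x := by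
    rw [mul_sum]
    calc (9 : ℤ) * q = ∑ _x ∈ W, (q : ℤ) := by
          rw [sum_const, hW9, nsmul_eq_mul]
          norm_num
      _ ≤ ∑ x ∈ W, 8 * ff q N x := sum_le_sum fun x hx => mem_Fh.1 (hW hx)
  have h2 : ∑ x ∈ W, ff q N x ≤ ∑ x ∈ W, pp q N x := sum_le_sum fun x _ => ff_le_pp q N x
  have hm0 : (0 : ℤ) ≤ m := Int.natCast_nonneg m
  have h3 := hub_cnt s.cls (dp q N) (dp_nonneg q N) (3 * m) (fun x => by
    unfold dp
    exact max_le (dl_A s x) (by omega)) W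
  rw [hW9] at h3
  have h4 : ∑ x ∈ W, ∑ z ∈ N x, dp q N z = ∑ x ∈ W, pp q N x := rfl
  have h5 : ∑ z, dp q N z = DP q N := rfl
  rw [h4, h5] at h3
  have h6 := DP_eq q N
  have h7 := (HH_le_XX q N).trans (XX_one s)
  have h8 := s.sum
  have h9 : (10 : ℤ) ^ 29 ≤ m := by exact_mod_cast s.mlo
  have h10 : (10 : ℤ) ^ 4 * m ≤ q := by exact_mod_cast s.mhi
  norm_num at h3 h9 h10
  linarith

end Pool.Agent.C4E
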