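import Pool.Agent.C4E.QuadZ

/-!
# C4E-Ex: the exceptional vertex bound

PLAN. `quad_zero` for `x, y` with the common neighbour `c0`: `|Sf x ∩ Sf y| ≥ 0`, and
`sg N x y = ∑ a ∈ N x, |Sf N a ∩ N y| ≥ |Sf N c ∩ N y| ≥ |P|` (`single_le_sum`; `P ⊆ Sf N c ∩ N y`).
-/

set_option linter.unusedSectionVars false

namespace Pool.Agent.C4E

open Finset

variable {V : Type} [Fintype V] [DecidableEq V]

theorem ex_bound (q b : ℕ) {N : V → Finset V} (h : Cls N)
    (hn : Fintype.card V = q ^ 2 + q + 1 + b) {x y c0 c : V} (hxy : x ≠ y) (h0x : c0 ∈ N x)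
    (h0y : c0 ∈ N y) (hc : c ∈ N x) (P : Finset V) (hP : P ⊆ N y) (hPc : ∀ z ∈ P, z ∈ Sf N c) :
    (P.card : ℤ) ≤ b + dl q N x * dl q N y + ff q N x + ff q N y - dl q N c0 := by
  have h1 := quad_zero q b h hn hxy h0x h0y
  have h2 : P.card ≤ sg N x y := by
    calc P.card ≤ (Sf N c ∩ N y).card :=
          card_le_card fun z hz => mem_inter.2 ⟨hPc z hz, hP hz⟩
      _ ≤ sg N x y := single_le_sum (f := fun a => (Sf N a ∩ N y).card) (fun _ _ => Nat.zero_le _) hc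
  have h3 : (P.card : ℤ) ≤ (sg N x y : ℤ) := by exact_mod_cast h2
  have h4 : (0 : ℤ) ≤ ((Sf N x ∩ Sf N y).card : ℤ) := Int.natCast_nonneg _
  linarith

end Pool.Agent.C4E
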