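import Pool.Agent.C4E.AP1
import Pool.Agent.C4E.Ex

/-!
# C4E-AP3: `a` is not its own partner (Case A)

The many good neighbours of `a` would be in `Sf N a`, which contradicts `ex_bound` for a neighbour `w` of `a`
with a common neighbour with `a`.
-/

set_option linter.unusedSectionVars false

namespace Pool.Agent.C4E

open Finset

variable {V : Type} [Fintype V] [DecidableEq V]

theorem no_self {q m : ℕ} {N : V → Finset V} {M : Finset V} (s : SysA q m N M) {a : V}
    (hF : a ∉ Fh q N) (hLb : a ∉ Lb q N) (h1 : dl q (lp N (Lo q N)) a = 1)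
    (hc : ∀ z ∈ PA q (lp N (Lo q N)) a, a ∈ Sf (lp N (Lo q N)) z) : False := by
  have hm := s.mlo
  have hm' : 10 ^ 3 ≤ m := le_trans (by norm_num) hm
  have hq := s.mhi
  have hcls := cls_As s
  have hcard := card_PA s (a := a) (by omega) (by omega)
  have hPne : (PA q (lp N (Lo q N)) a).Nonempty := card_pos.1 (by omega)
  -- `a` has no loop
  have hLo : a ∉ Lo q N := by
    intro ha
    obtain ⟨z, hz⟩ := hPne
    have h3 : z ∈ lp N (Lo q N) a := (mem_filter.1 hz).1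
    have h4 : a ∈ lp N (Lo q N) z := hcls.symm a z h3
    have h5 : a ∈ lp N (Lo q N) a := mem_lp.2 (Or.inr ⟨rfl, ha⟩)
    exact not_Sf_of_common h4 h5 (hc z hz)
  have hdl : dl q N a = 1 := by
    have h3 := dl_lp q (L := Lo q N) s.nol a
    rw [if_neg hLo, h1] at h3
    omega
  have hNs : lp N (Lo q N) a = N a := if_neg hLo
  -- the vertex `w`
  have hns : ¬ N a ⊆ Sf N a := fun h3 => hLo (mem_Lo.2 ⟨hF, by omega, by omega, h3⟩)
  obtain ⟨z, hz, hzS⟩ := not_subset.1 hns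
  obtain ⟨w, hw, hwS, hwF⟩ : ∃ w ∈ N a, w ∉ Sf N a ∧ w ∉ Fh q N := by
    by_contra hcon
    apply hLb
    refine mem_Lb.2 ⟨hF, by omega, ⟨z, hz, hzS⟩, fun w hw hwS => ?_⟩
    by_contra hwF
    exact hcon ⟨w, hw, hwS, hwF⟩
  have hwa : w ≠ a := fun h3 => s.nol a (h3 ▸ hw)
  obtain ⟨c0, h0a, h0w⟩ := exists_common hwa hwS
  have hPS : ∀ z ∈ PA q (lp N (Lo q N)) a, z ∈ Sf N a := fun z hz =>
    Sf_symm.2 (Sf_lp_sub z (hc z hz))
  have hPN : PA q (lp N (Lo q N)) a ⊆ N a := by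
    intro z hz
    have h3 : z ∈ lp N (Lo q N) a := (mem_filter.1 hz).1
    rw [hNs] at h3
    exact h3
  have hex := ex_bound q 0 s.cls s.card hwa h0w h0a (s.cls.symm a w hw)
    (PA q (lp N (Lo q N)) a) hPN hPS
  rw [hdl, mul_one] at hex
  have h3 := dl_A s w
  have h4 : ¬ (q : ℤ) ≤ 8 * ff q N w := fun h => hwF (mem_Fh.2 h)
  have h5 : ¬ (q : ℤ) ≤ 8 * ff q N a := fun h => hF (mem_Fh.2 h)
  have h6 : -1 ≤ dl q N c0 := by
    have h7 := neg_hh_le q (lp N (Lo q N)) c0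
    have h8 := hh_le_HH q (lp N (Lo q N)) c0
    have h9 := HH_As s
    have h10 := dl_lp q (L := Lo q N) s.nol c0
    split_ifs at h10 <;> omega
  push_cast at hex
  omega

end Pool.Agent.C4E
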