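import Pool.Agent.C4E.AP2
import Pool.Agent.C4E.AP3

/-!
# C4E-AFin: Case A is impossible (assembly, proved)
-/

set_option linter.unusedSectionVars false

namespace Pool.Agent.C4E

open Finset

variable {V : Type} [Fintype V] [DecidableEq V]

theorem caseA {q m : ℕ} {N : V → Finset V} {M : Finset V} (s : SysA q m N M) : False := by
  obtain ⟨a, _, hF, hLb, h1, h2, h3⟩ := exists_a s
  obtain ⟨C, hC, hCz⟩ := exists_C s h1 h2
  by_cases hex : ∃ c ∈ C, c ≠ a
  · obtain ⟨c, hc, hca⟩ := hex
    exact no_other s h1 h2 h3 hca (hCz c hc)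
  · push Not at hex
    have hsub : C ⊆ {a} := fun c hc => mem_singleton.2 (hex c hc)
    have hcard : C.card ≤ 1 := by simpa using card_le_card hsub
    have hk : dl q (lp N (Lo q N)) a = 1 := by
      have : (C.card : ℤ) ≤ 1 := by exact_mod_cast hcard
      omega
    have hne : C.Nonempty := by
      rw [← card_pos]
      have : (1 : ℤ) ≤ (C.card : ℤ) := by omega
      exact_mod_cast this
    obtain ⟨c, hc⟩ := hne
    have hca := hex c hc
    subst hca
    exact no_self s hF hLb hk (hCz c hc)

end Pool.Agent.C4E
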