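import Pool.Agent.C4E.Basic

/-!
# C4E-Par: parity in loopless systems

PLAN. Let `B = N x \ Sf N x`. Every `a ∈ B` satisfies `a ≠ x` (no loops), so `a` and `x` have a
common neighbour `c` (`exists_common`), unique by `Cls.uniq`. Then `c ∈ N x`, `c ≠ a` (no loop at
`a`), `a ∈ N c` (symmetry), so `a` is a common neighbour of `c` and `x`: `c ∉ Sf N x`
(`not_Sf_of_common`), `c ∈ B`, and the common neighbour of `c` and `x` is `a`. So `a ↦ c` is a fixed
point free involution of `B`; conclude with `Finset.sum_involution` in `ZMod 2` (sum of ones) or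
`Finset.card_involution`-type lemmas. `card_two`: if `B` is nonempty it contains `a ≠ c`, both
neighbours of `x`.
-/

set_option linter.unusedSectionVars false

namespace Pool.Agent.C4E

open Finset

variable {V : Type} [Fintype V] [DecidableEq V]

theorem parity {N : V → Finset V} (h : Cls N) (nol : ∀ x, x ∉ N x) (x : V) :
    Even (N x \ Sf N x).card := by
  have hex : ∀ a ∈ N x \ Sf N x, ∃ c, c ∈ N x ∧ c ∈ N a := by
    intro a ha
    obtain ⟨h1, h2⟩ := mem_sdiff.1 ha
    exact exists_common (fun e : a = x => nol x (by rw [e] at h1; exact h1)) h2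
  choose g hg1 hg2 using hex
  have hax : ∀ a, a ∈ N x → x ≠ a := fun a ha e => nol x (by rw [e] at ha ⊢; exact ha)
  have hgB : ∀ a (ha : a ∈ N x \ Sf N x), g a ha ∈ N x \ Sf N x := by
    intro a ha
    obtain ⟨h1, h2⟩ := mem_sdiff.1 ha
    refine mem_sdiff.2 ⟨hg1 a ha, ?_⟩
    exact not_Sf_of_common (c := a) h1 (h.symm a _ (hg2 a ha))
  have hgg : ∀ a (ha : a ∈ N x \ Sf N x), g (g a ha) (hgB a ha) = a := by
    intro a ha
    obtain ⟨h1, h2⟩ := mem_sdiff.1 ha
    exact h.uniq (hax _ (hg1 a ha)) (hg1 _ (hgB a ha)) (hg2 _ (hgB a ha)) h1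
      (h.symm a _ (hg2 a ha))
  have hs : ∑ _a ∈ N x \ Sf N x, (1 : ZMod 2) = 0 := by
    refine sum_involution g (fun a ha => ?_) (fun a ha _ e => ?_) hgB hgg
    · decide
    · have h3 := hg2 a ha
      rw [e] at h3
      exact nol a h3
  rw [sum_const, nsmul_eq_mul, mul_one] at hs
  exact (ZMod.natCast_eq_zero_iff_even).1 hs

/-- a neighbour outside `Sf` has a partner -/
theorem partner_nb {N : V → Finset V} (h : Cls N) (nol : ∀ x, x ∉ N x) {x a : V} (ha : a ∈ N x)
    (haS : a ∉ Sf N x) : ∃ c, c ≠ a ∧ c ∈ N x ∧ c ∉ Sf N x := by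
  obtain ⟨c, h1, h2⟩ := exists_common (fun e : a = x => nol x (by rw [e] at ha; exact ha)) haS
  refine ⟨c, fun e => nol a (by rw [e] at h2; exact h2), h1, ?_⟩
  exact not_Sf_of_common (c := a) ha (h.symm a _ h2)

end Pool.Agent.C4E
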