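import Pool.Agent.C4E.Defs2
import Pool.Agent.C4E.Par

/-!
# C4E-LbC: there are few exceptional deficient vertices

PLAN. For `x ∈ Lb` there is `z ∈ N x` with `z ∉ Sf N x`; by `partner_nb` there is `c ≠ z`, `c ∈ N x`,
`c ∉ Sf N x`. Both lie in `Fh`, and `x ∈ N z ∩ N c` (symmetry). The map `x ↦ (z, c)` into
`{(z, c) : z, c ∈ Fh, z ≠ c}` (`Finset.offDiag`, cardinality `|Fh|² - |Fh|`) is injective by
`Cls.uniq`. This gives `|Lb| ≤ |Fh| (|Fh| - 1)` (enough here).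
-/

set_option linter.unusedSectionVars false

namespace Pool.Agent.C4E

open Finset

variable {V : Type} [Fintype V] [DecidableEq V]

private theorem exists_pair (q : ℕ) {N : V → Finset V} (h : Cls N) (nol : ∀ x, x ∉ N x) (x : V)
    (hx : x ∈ Lb q N) :
    ∃ p : V × V, p.1 ≠ p.2 ∧ p.1 ∈ Fh q N ∧ p.2 ∈ Fh q N ∧ x ∈ N p.1 ∧ x ∈ N p.2 := by
  obtain ⟨-, -, ⟨z, hz, hzS⟩, hall⟩ := mem_Lb.1 hx
  obtain ⟨c, hcz, hc, hcS⟩ := partner_nb h nol hz hzS
  exact ⟨(z, c), fun e => hcz e.symm, hall z hz hzS, hall c hc hcS, h.symm x z hz, h.symm x c hc⟩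

theorem card_Lb (q : ℕ) {N : V → Finset V} (h : Cls N) (nol : ∀ x, x ∉ N x) :
    (Lb q N).card ≤ (Fh q N).card * ((Fh q N).card - 1) := by
  classical
  let φ : V → V × V := fun x => if hx : x ∈ Lb q N then (exists_pair q h nol x hx).choose else (x, x)
  have hφ : ∀ x ∈ Lb q N, (φ x).1 ≠ (φ x).2 ∧ (φ x).1 ∈ Fh q N ∧ (φ x).2 ∈ Fh q N ∧
      x ∈ N (φ x).1 ∧ x ∈ N (φ x).2 := by
    intro x hx
    have e : φ x = (exists_pair q h nol x hx).choose := dif_pos hx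
    rw [e]
    exact (exists_pair q h nol x hx).choose_spec
  have h1 : (Lb q N).card ≤ (Fh q N).offDiag.card := by
    refine card_le_card_of_injOn φ ?_ ?_
    · intro x hx
      obtain ⟨a, b, c, -, -⟩ := hφ x hx
      exact mem_coe.2 (mem_offDiag.2 ⟨b, c, a⟩)
    · intro x hx y hy hxy
      obtain ⟨a, -, -, d, e⟩ := hφ x hx
      obtain ⟨-, -, -, d', e'⟩ := hφ y hy
      rw [← hxy] at d' e'
      exact h.uniq a d e d' e'
  rw [offDiag_card] at h1
  calc (Lb q N).card ≤ (Fh q N).card * (Fh q N).card - (Fh q N).card := h1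
    _ = (Fh q N).card * ((Fh q N).card - 1) := by rw [Nat.mul_sub, Nat.mul_one]

end Pool.Agent.C4E
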