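import Pool.Agent.C4E.AT
import Pool.Agent.C4E.Ex
import Pool.Agent.C4E.LbC

/-!
# C4E-ALo: many loop vertices in Case A
-/

set_option linter.unusedSectionVars false

namespace Pool.Agent.C4E

open Finset

variable {V : Type} [Fintype V] [DecidableEq V]

private theorem mem_Lo_aux {q m : ℕ} {N : V → Finset V} {M : Finset V} (s : SysA q m N M) {t : V}
    (h1 : 1 ≤ dl q N t) (hF : t ∉ Fh q N) (hZ : 4 * (N t ∩ Zb q N).card < q)
    (hS : ∀ x ∈ N t, x ∉ Zb q N → x ∈ Sf N t) (h300 : dl q N t ≤ 300) (hLb : t ∉ Lb q N) :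
    t ∈ Lo q N := by
  have h := s.cls
  rw [mem_Lo]
  refine ⟨hF, h1, h300, ?_⟩
  by_contra hcon
  rw [not_subset] at hcon
  obtain ⟨z, hz, hzS⟩ := hcon
  obtain ⟨w, hw, hwS, hwF⟩ : ∃ w, w ∈ N t ∧ w ∉ Sf N t ∧ w ∉ Fh q N := by
    by_contra hno
    push Not at hno
    refine hLb (mem_Lb.2 ⟨hF, h1, ⟨z, hz, hzS⟩, fun w hw hwS => hno w hw hwS⟩)
  have hwt : w ≠ t := by
    rintro rfl
    exact s.nol _ hw
  obtain ⟨c0, hc0t, hc0w⟩ := exists_common hwt hwS
  have htw : t ∈ N w := h.symm _ _ hw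
  have hP : N t \ Zb q N ⊆ N t := sdiff_subset
  have hPc : ∀ y ∈ N t \ Zb q N, y ∈ Sf N t := by
    intro y hy
    rw [mem_sdiff] at hy
    exact hS y hy.1 hy.2
  have hE := ex_bound q 0 h (by rw [s.card]) hwt hc0w hc0t htw _ hP hPc
  have h5 := card_sdiff_add_card_inter (N t) (Zb q N)
  have h6 := card_N q N t
  have h7 := dl_A s w
  have h8 := XX_one s
  have h9 := HH_le_XX q N
  have h10 := hh_le_HH q N c0
  have h11 := neg_hh_le q N c0
  have hmhi := s.mhi
  have hbig := s.big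
  rw [mem_Fh] at hF hwF
  have h12 : dl q N w * dl q N t ≤ 900 * m := by
    have h13 : dl q N w * dl q N t ≤ 3 * m * dl q N t := mul_le_mul_of_nonneg_right h7 (by omega)
    have h14 : 3 * (m : ℤ) * dl q N t ≤ 3 * m * 300 := mul_le_mul_of_nonneg_left h300 (by positivity)
    linarith
  push_cast at hE
  omega

theorem card_Lo {q m : ℕ} {N : V → Finset V} {M : Finset V} (s : SysA q m N M) :
    q ≤ (Lo q N).card + 12 * m := by
  obtain ⟨L0, hL0, hp⟩ := exists_L0 s
  have hsub : L0 ⊆ (L0.filter fun t => 301 ≤ dl q N t) ∪ Lb q N ∪ Lo q N := by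
    intro t ht
    obtain ⟨h1, h2, h3, h4⟩ := hp t ht
    rw [mem_union, mem_union, mem_filter]
    by_cases h5 : 301 ≤ dl q N t
    · exact Or.inl (Or.inl ⟨ht, h5⟩)
    · by_cases h6 : t ∈ Lb q N
      · exact Or.inl (Or.inr h6)
      · exact Or.inr (mem_Lo_aux s h1 h2 h3 h4 (by omega) h6)
  have hc := card_le_card hsub
  have hc1 := card_union_le ((L0.filter fun t => 301 ≤ dl q N t) ∪ Lb q N) (Lo q N)
  have hc2 := card_union_le (L0.filter fun t => 301 ≤ dl q N t) (Lb q N)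
  have hLb := card_Lb q s.cls s.nol
  have hFh := card_Fh_A s
  have hLb2 : (Fh q N).card * ((Fh q N).card - 1) ≤ 8 * 7 := Nat.mul_le_mul hFh (by omega)
  have hsum : (L0.card : ℤ) + 300 * ((L0.filter fun t => 301 ≤ dl q N t).card : ℤ) ≤ DP q N := by
    have e1 : ∑ t ∈ L0, (1 + if 301 ≤ dl q N t then (300 : ℤ) else 0) =
        (L0.card : ℤ) + 300 * ((L0.filter fun t => 301 ≤ dl q N t).card : ℤ) := by
      rw [sum_add_distrib, ← sum_filter, sum_const, sum_const, nsmul_eq_mul, nsmul_eq_mul]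
      ring
    rw [← e1]
    have e2 : ∑ t ∈ L0, (1 + if 301 ≤ dl q N t then (300 : ℤ) else 0) ≤ ∑ t ∈ L0, dp q N t := by
      refine sum_le_sum fun t ht => ?_
      have h1 := (hp t ht).1
      have h2 := dl_le_dp q N t
      split_ifs with h3
      · omega
      · omega
    refine e2.trans ?_
    exact sum_le_sum_of_subset_of_nonneg (subset_univ _) fun t _ _ => dp_nonneg q N t
  have hDP := DP_eq q N
  have h8 := XX_one s
  have h9 := HH_le_XX q N
  have hs := s.sum
  have hmlo := s.mlo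
  omega

end Pool.Agent.C4E
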