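import Pool.Agent.C4E.Basic
import Pool.Agent.C4E.Cnt

/-!
# C4E-Quad: the quadratic identity `E² + AEA = qE + (...)`
-/

set_option linter.unusedSectionVars false

namespace Pool.Agent.C4E

open Finset

variable {V : Type} [Fintype V] [DecidableEq V]

/-- the adjacency matrix -/
private def AA (N : V → Finset V) : Matrix V V ℤ := fun x y => if y ∈ N x then 1 else 0

/-- the matrix `E` -/
private def EE (q : ℕ) (N : V → Finset V) : Matrix V V ℤ := fun x y => ee q N x y

private theorem AA_symm {N : V → Finset V} (h : Cls N) (x y : V) : AA N x y = if x ∈ N y then 1 else 0 := by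
  unfold AA
  exact if_congr h.mem_comm rfl rfl

/-- the all-one matrix -/
private def JJ (V : Type) : Matrix V V ℤ := fun _ _ => 1

private theorem AA_mul_left (N : V → Finset V) (M : Matrix V V ℤ) (x y : V) :
    (AA N * M) x y = ∑ a ∈ N x, M a y := by
  rw [Matrix.mul_apply]
  have h1 : ∀ z, AA N x z * M z y = if z ∈ N x then M z y else 0 := by
    intro z
    unfold AA
    split_ifs
    · rw [one_mul]
    · rw [zero_mul]
  rw [sum_congr rfl fun z _ => h1 z, ← sum_filter]
  refine sum_congr ?_ fun _ _ => rfl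
  ext z
  simp

private theorem AA_mul_right {N : V → Finset V} (h : Cls N) (M : Matrix V V ℤ) (x y : V) :
    (M * AA N) x y = ∑ a ∈ N y, M x a := by
  rw [Matrix.mul_apply]
  have h1 : ∀ z, M x z * AA N z y = if z ∈ N y then M x z else 0 := by
    intro z
    rw [AA_symm h]
    split_ifs
    · rw [mul_one]
    · rw [mul_zero]
  rw [sum_congr rfl fun z _ => h1 z, ← sum_filter]
  refine sum_congr ?_ fun _ _ => rfl
  ext z
  simp

private theorem AA_sq {N : V → Finset V} (h : Cls N) (x y : V) :
    (AA N * AA N) x y = ((N x ∩ N y).card : ℤ) := by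
  rw [AA_mul_left]
  have h1 : ∀ a ∈ N x, AA N a y = if a ∈ N y then 1 else 0 := fun a _ => AA_symm h a y
  rw [sum_congr rfl h1, ← sum_filter, sum_const, nsmul_eq_mul, mul_one, filter_mem_eq_inter]

private theorem E_eq (q : ℕ) {N : V → Finset V} (h : Cls N) :
    EE q N = (q : ℤ) • (1 : Matrix V V ℤ) + JJ V - AA N * AA N := by
  ext x y
  rw [Matrix.sub_apply, Matrix.add_apply, AA_sq h, Matrix.smul_apply, Matrix.one_apply]
  unfold EE JJ
  rw [ee_eq q h]
  split_ifs
  · simp
  · simp

private theorem nc (t : ℤ) (A J : Matrix V V ℤ) :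
    (t • (1 : Matrix V V ℤ) + J - A * A) * (t • (1 : Matrix V V ℤ) + J - A * A) +
      A * (t • (1 : Matrix V V ℤ) + J - A * A) * A =
    t • (t • (1 : Matrix V V ℤ) + J - A * A) + (t • (1 : Matrix V V ℤ) + J - A * A) * J + A * J * A -
      J * (A * A) := by
  simp only [mul_add, add_mul, mul_sub, sub_mul, smul_mul_assoc, mul_smul_comm, one_mul, mul_one,
    smul_add, smul_sub, Matrix.mul_assoc]
  abel

private theorem row_sum (q b : ℕ) {N : V → Finset V} (h : Cls N)
    (hn : Fintype.card V = q ^ 2 + q + 1 + b) (x : V) :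
    ∑ z, ee q N x z = b + (q + 1) * dl q N x + ff q N x := by
  have h1 : ∀ z, ee q N x z = (if x = z then dl q N x else 0) + if z ∈ Sf N x then 1 else 0 := by
    intro z
    unfold ee
    by_cases hz : x = z
    · rw [if_pos hz, if_pos hz, if_neg, add_zero]
      rw [← hz]
      exact not_mem_Sf_self x
    · rw [if_neg hz, if_neg hz, zero_add]
      by_cases h2 : N x ∩ N z = ∅
      · rw [if_pos h2, if_pos (mem_Sf.2 ⟨fun h3 => hz h3.symm, h2⟩)]
      · rw [if_neg h2, if_neg fun h3 => h2 (mem_Sf.1 h3).2]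
  rw [sum_congr rfl fun z _ => h1 z, sum_add_distrib, sum_ite_eq, if_pos (mem_univ _), ← sum_filter]
  have h2 : univ.filter (fun z => z ∈ Sf N x) = Sf N x := by
    ext z
    simp
  rw [h2, sum_const, nsmul_eq_mul, mul_one, card_Sf q b h hn x]
  ring

private theorem deg_sum (q : ℕ) (N : V → Finset V) (y : V) :
    ∑ z ∈ N y, ((N z).card : ℤ) = (q + 1) * (N y).card - ff q N y := by
  have h1 : ∀ z ∈ N y, ((N z).card : ℤ) = (q + 1) - dl q N z := fun z _ => card_N q N z
  rw [sum_congr rfl h1, sum_sub_distrib, sum_const, nsmul_eq_mul]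
  unfold ff
  ring

theorem quad (q b : ℕ) {N : V → Finset V} (h : Cls N)
    (hn : Fintype.card V = q ^ 2 + q + 1 + b) (x y : V) :
    ∑ z, ee q N x z * ee q N z y + ∑ a ∈ N x, ∑ c ∈ N y, ee q N a c =
      q * ee q N x y + b + dl q N x * dl q N y + ff q N x + ff q N y := by
  have hE := E_eq q h
  have hm := nc (q : ℤ) (AA N) (JJ V)
  rw [← hE] at hm
  have hxy := congrFun (congrFun hm x) y
  rw [Matrix.add_apply, Matrix.sub_apply, Matrix.add_apply, Matrix.add_apply, Matrix.smul_apply] at hxy
  have e1 : (EE q N * EE q N) x y =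
      ∑ z, ee q N x z * ee q N z y := Matrix.mul_apply
  have e2 : (AA N * EE q N * AA N) x y =
      ∑ a ∈ N x, ∑ c ∈ N y, ee q N a c := by
    rw [AA_mul_right h, sum_comm]
    exact sum_congr rfl fun c _ => AA_mul_left N _ x c
  have e3 : (EE q N * JJ V) x y = b + (q + 1) * dl q N x + ff q N x := by
    rw [Matrix.mul_apply, ← row_sum q b h hn x]
    exact sum_congr rfl fun z _ => mul_one _
  have e4 : (AA N * JJ V * AA N) x y = ((N x).card : ℤ) * (N y).card := by
    rw [AA_mul_right h]
    have h1 : ∀ a ∈ N y, (AA N * JJ V) x a = ((N x).card : ℤ) := by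
      intro a _
      rw [AA_mul_left]
      unfold JJ
      rw [sum_const, nsmul_eq_mul, mul_one]
    rw [sum_congr rfl h1, sum_const, nsmul_eq_mul, mul_comm]
  have e5 : (JJ V * (AA N * AA N)) x y = (q + 1) * (N y).card - ff q N y := by
    rw [← Matrix.mul_assoc, AA_mul_right h, ← deg_sum q N y]
    refine sum_congr rfl fun a _ => ?_
    rw [AA_mul_right h]
    unfold JJ
    rw [sum_const, nsmul_eq_mul, mul_one]
  rw [e1, e2, e3, e4, e5, card_N q N x, card_N q N y] at hxy
  have e6 : EE q N x y = ee q N x y := rfl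
  rw [hxy, e6, smul_eq_mul]
  ring

end Pool.Agent.C4E
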