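import Pool.Agent.C4E.Basic
import Pool.Agent.C4E.Quad

/-!
# C4E-QuadZ: the quadratic identity, combinatorial form

PLAN. Use `quad`. For `x ≠ y`: `∑ z, ee x z * ee z y`: the terms `z = x` and `z = y` give
`dl x * ee x y + ee x y * dl y`; for other `z` the product is `1` iff `z ∈ Sf N x ∩ Sf N y`
(`Sf_symm`), and `x, y ∉ Sf N x ∩ Sf N y`. So the sum is `|Sf N x ∩ Sf N y| + ee x y * (dl x + dl y)`.
`∑ a ∈ N x, ∑ c ∈ N y, ee a c`: the terms with `a ≠ c` give `1` iff `c ∈ Sf N a`: total `sg N x y`
(definition `sg`; `a ∉ Sf N a`); the terms `a = c` (common neighbours of `x` and `y`) give `dl a`.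
In `quad_zero` there is exactly one common neighbour `c` (`Cls.uniq`) and `ee x y = 0`; in `quad_one`
there is none and `ee x y = 1`.
-/

set_option linter.unusedSectionVars false

namespace Pool.Agent.C4E

open Finset

variable {V : Type} [Fintype V] [DecidableEq V]

private theorem ee_split (q : ℕ) (N : V → Finset V) (x z : V) :
    ee q N x z = (if x = z then dl q N x else 0) + if z ∈ Sf N x then 1 else 0 := by
  unfold ee
  by_cases hz : x = z
  · rw [if_pos hz, if_pos hz, if_neg, add_zero]
    rw [← hz]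
    exact not_mem_Sf_self x
  · rw [if_neg hz, if_neg hz, zero_add]
    by_cases h2 : N x ∩ N z = ∅
    · rw [if_pos h2, if_pos (mem_Sf.2 ⟨fun e => hz e.symm, h2⟩)]
    · rw [if_neg h2, if_neg (fun h3 => h2 (mem_Sf.1 h3).2)]

private theorem ee_symm (q : ℕ) (N : V → Finset V) (x z : V) : ee q N x z = ee q N z x := by
  unfold ee
  by_cases hz : x = z
  · rw [if_pos hz, if_pos hz.symm, hz]
  · rw [if_neg hz, if_neg (show ¬ z = x from fun e => hz e.symm), inter_comm]

private theorem ee_ne (q : ℕ) (N : V → Finset V) {x z : V} (hz : x ≠ z) :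
    ee q N x z = if z ∈ Sf N x then 1 else 0 := by
  rw [ee_split, if_neg hz, zero_add]

private theorem sumE (q : ℕ) (N : V → Finset V) {x y : V} (hxy : x ≠ y) :
    ∑ z, ee q N x z * ee q N z y =
      ((Sf N x ∩ Sf N y).card : ℤ) + ee q N x y * (dl q N x + dl q N y) := by
  have h1 : ∀ z, ee q N x z * ee q N z y =
      (if x = z then dl q N x * ee q N x y else 0) +
        ((if y = z then ee q N x y * dl q N y else 0) +
          if z ∈ Sf N x ∩ Sf N y then 1 else 0) := by
    intro z
    by_cases hx : x = z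
    · subst hx
      have h2 : ee q N x x = dl q N x := by unfold ee; rw [if_pos rfl]
      have h3 : x ∉ Sf N x ∩ Sf N y := fun h4 => not_mem_Sf_self x (mem_inter.1 h4).1
      rw [if_pos rfl, if_neg (fun e => hxy e.symm), if_neg h3, h2]
      ring
    · rw [if_neg hx, zero_add]
      by_cases hy : y = z
      · subst hy
        have h2 : ee q N y y = dl q N y := by unfold ee; rw [if_pos rfl]
        have h3 : y ∉ Sf N x ∩ Sf N y := fun h4 => not_mem_Sf_self y (mem_inter.1 h4).2
        rw [if_pos rfl, if_neg h3, h2]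
        ring
      · rw [if_neg hy, zero_add, ee_ne q N hx, ee_symm q N z y, ee_ne q N hy]
        by_cases h1 : z ∈ Sf N x <;> by_cases h2 : z ∈ Sf N y <;> simp [h1, h2]
  rw [sum_congr rfl fun z _ => h1 z, sum_add_distrib, sum_add_distrib, sum_ite_eq univ x,
    sum_ite_eq univ y, if_pos (mem_univ x), if_pos (mem_univ y), ← sum_filter, sum_const,
    nsmul_eq_mul, mul_one, filter_mem_eq_inter, univ_inter]
  ring

private theorem sumS (q : ℕ) (N : V → Finset V) (x y : V) :
    ∑ a ∈ N x, ∑ c ∈ N y, ee q N a c = (sg N x y : ℤ) + ∑ c ∈ N x ∩ N y, dl q N c := by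
  have h1 : ∀ a ∈ N x, ∑ c ∈ N y, ee q N a c =
      ((Sf N a ∩ N y).card : ℤ) + if a ∈ N y then dl q N a else 0 := by
    intro a _
    rw [sum_congr rfl fun c _ => ee_split q N a c, sum_add_distrib, sum_ite_eq (N y) a,
      ← sum_filter, sum_const, nsmul_eq_mul, mul_one, filter_mem_eq_inter, inter_comm, add_comm]
  rw [sum_congr rfl h1, sum_add_distrib, ← sum_filter, filter_mem_eq_inter]
  unfold sg
  push_cast
  rfl

theorem quad_zero (q b : ℕ) {N : V → Finset V} (h : Cls N)
    (hn : Fintype.card V = q ^ 2 + q + 1 + b) {x y c : V} (hxy : x ≠ y) (hcx : c ∈ N x)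
    (hcy : c ∈ N y) :
    ((Sf N x ∩ Sf N y).card : ℤ) + sg N x y + dl q N c =
      b + dl q N x * dl q N y + ff q N x + ff q N y := by
  have hS : y ∉ Sf N x := not_Sf_of_common hcx hcy
  have hI : N x ∩ N y = {c} := by
    ext z
    rw [mem_inter, mem_singleton]
    constructor
    · rintro ⟨h1, h2⟩
      exact h.uniq hxy h1 h2 hcx hcy
    · rintro rfl
      exact ⟨hcx, hcy⟩
  have h1 := quad q b h hn x y
  rw [sumE q N hxy, sumS q N x y, hI, sum_singleton, ee_ne q N hxy, if_neg hS] at h1
  linarith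

theorem quad_one (q b : ℕ) {N : V → Finset V} (h : Cls N)
    (hn : Fintype.card V = q ^ 2 + q + 1 + b) {x y : V} (hS : y ∈ Sf N x) :
    ((Sf N x ∩ Sf N y).card : ℤ) + sg N x y + dl q N x + dl q N y =
      q + b + dl q N x * dl q N y + ff q N x + ff q N y := by
  have hxy : x ≠ y := fun e => by
    rw [mem_Sf] at hS
    exact hS.1 e.symm
  have h1 := quad q b h hn x y
  rw [sumE q N hxy, sumS q N x y, (mem_Sf.1 hS).2, sum_empty, ee_ne q N hxy, if_pos hS] at h1
  linarith

end Pool.Agent.C4E
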