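import Pool.Agent.C4E.Defs2
import Pool.Agent.C4E.QuadZ

/-!
# C4E-LoI: the loop vertices are pairwise non-adjacent
-/

set_option linter.unusedSectionVars false

namespace Pool.Agent.C4E

open Finset

variable {V : Type} [Fintype V] [DecidableEq V]

private theorem lo_sg {N : V → Finset V} (h : Cls N) {t t' : V} (ht : N t ⊆ Sf N t)
    (ht' : N t' ⊆ Sf N t') (htt : t' ∈ N t) : (N t').card + ((N t).card - 1) ≤ sg N t t' := by
  unfold sg
  rw [← Finset.add_sum_erase _ _ htt]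
  refine Nat.add_le_add ?_ ?_
  · rw [inter_eq_right.2 ht']
  · rw [← card_erase_of_mem htt, Finset.card_eq_sum_ones]
    refine Finset.sum_le_sum fun a ha => ?_
    have h1 : a ∈ N t := mem_of_mem_erase ha
    have h2 : t ∈ Sf N a := Sf_symm.1 (ht h1)
    exact card_pos.2 ⟨t, mem_inter.2 ⟨h2, h.symm t t' htt⟩⟩

theorem Lo_indep (q b : ℕ) {N : V → Finset V} (h : Cls N) (hb : b ≤ 1)
    (hn : Fintype.card V = q ^ 2 + q + 1 + b) (hq : 10 ^ 6 ≤ q) (nol : ∀ x, x ∉ N x) :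
    ∀ t ∈ Lo q N, ∀ t' ∈ Lo q N, t' ∉ N t := by
  have _ := nol
  intro t ht t' ht' htt
  obtain ⟨h1, h2, h3, h4⟩ := mem_Lo.1 ht
  obtain ⟨h1', h2', h3', h4'⟩ := mem_Lo.1 ht'
  rw [mem_Fh, not_le] at h1 h1'
  have h5 := quad_one q b h hn (h4 htt)
  have h6 := lo_sg h h4 h4' htt
  have h7 := card_N q N t
  have h8 := card_N q N t'
  have h9 : dl q N t * dl q N t' ≤ 300 * 300 :=
    mul_le_mul h3 h3' (by omega) (by norm_num)
  have h10 : (b : ℤ) ≤ 1 := by exact_mod_cast hb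
  have h11 : (1000000 : ℤ) ≤ q := by
    have : (10 ^ 6 : ℤ) ≤ q := by exact_mod_cast hq
    linarith
  have h12 : (0 : ℤ) ≤ ((Sf N t ∩ Sf N t').card : ℤ) := Nat.cast_nonneg _
  have h13 : ((N t').card : ℤ) + (N t).card - 1 ≤ sg N t t' := by omega
  linarith

end Pool.Agent.C4E
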