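import Pool.Agent.C4E.Basic

/-!
# C4E-LpB: adding loops

PLAN. Hypotheses: `N` in the class, without loops, `L` a set of pairwise non-adjacent vertices with
`N t ⊆ Sf N t` for `t ∈ L`. `lp N L x = insert x (N x)` for `x ∈ L`, `N x` else.
`cls_lp`: symmetry clear (`y ∈ lp N L x ↔ y ∈ N x ∨ (y = x ∧ x ∈ L)`). Codegree for `x ≠ y`: a common
neighbour `c` in `lp` is one in `N`, or `c = x ∈ L` and `x ∈ N y`, or `c = y ∈ L` and `y ∈ N x`. In
the last two cases `x, y` are adjacent, one of them is in `L`, so they have no common neighbour in `N`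
(`N t ⊆ Sf N t`) and not both are in `L`: the common neighbour is unique.
`dl_lp`, `hh_lp`, `dp_lp`: cardinality of `insert` (for the last two: `dl ≥ 1` on `L`).
`ff_lp`: sum over `insert`; for `x ∈ L`: `N x ∩ L = ∅`.
`Sf_lp_sub`: `N x ⊆ lp N L x`. `Sf_lp_of`: if `y ∈ Sf N x`, `y ∉ N x`, then no new common neighbour.
`DP_lp`, `HH_lp`: sums.
-/

set_option linter.unusedSectionVars false

namespace Pool.Agent.C4E

open Finset

variable {V : Type} [Fintype V] [DecidableEq V]

theorem mem_lp {N : V → Finset V} {L : Finset V} {x y : V} :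
    y ∈ lp N L x ↔ y ∈ N x ∨ (y = x ∧ x ∈ L) := by
  unfold lp
  split_ifs with hx
  · rw [mem_insert]; tauto
  · tauto

theorem sub_lp (N : V → Finset V) (L : Finset V) (x : V) : N x ⊆ lp N L x := fun _ hy =>
  mem_lp.2 (Or.inl hy)

theorem cls_lp {N : V → Finset V} {L : Finset V} (h : Cls N) (nol : ∀ x, x ∉ N x)
    (hL : ∀ t ∈ L, N t ⊆ Sf N t) (hi : ∀ t ∈ L, ∀ t' ∈ L, t' ∉ N t) : Cls (lp N L) := by
  have _ := nol
  constructor
  · intro x y hy
    rw [mem_lp] at hy ⊢
    rcases hy with hy | ⟨rfl, hx⟩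
    · exact Or.inl (h.symm x y hy)
    · exact Or.inr ⟨rfl, hx⟩
  · intro x y hxy
    -- an edge at an element of `L` excludes common neighbours
    have key : ∀ t ∈ L, ∀ u ∈ N t, ∀ c, c ∈ N t → c ∈ N u → False := by
      intro t ht u hu c hc hc'
      have h1 := (mem_Sf.1 (hL t ht hu)).2
      have h2 : c ∈ N t ∩ N u := mem_inter.2 ⟨hc, hc'⟩
      rw [h1] at h2
      exact notMem_empty _ h2
    rw [card_le_one]
    intro c hc c' hc'
    rw [mem_inter, mem_lp, mem_lp] at hc hc'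
    obtain ⟨h1, h2⟩ := hc
    obtain ⟨h3, h4⟩ := hc'
    rcases h1 with h1 | ⟨h1, hx⟩
    · rcases h2 with h2 | ⟨h2, hy⟩
      · rcases h3 with h3 | ⟨h3, hx⟩
        · rcases h4 with h4 | ⟨h4, hy⟩
          · exact h.uniq hxy h1 h2 h3 h4
          · rw [h4] at h3
            exact (key y hy x (h.symm _ _ h3) c h2 h1).elim
        · rcases h4 with h4 | ⟨h4, hy⟩
          · rw [h3] at h4
            exact (key x hx y (h.symm _ _ h4) c h1 h2).elim
          · exact absurd (h3.symm.trans h4) hxy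
      · rw [h2] at h1
        rcases h3 with h3 | ⟨h3, hx⟩
        · rcases h4 with h4 | ⟨h4, _⟩
          · exact (key y hy x (h.symm _ _ h1) c' h4 h3).elim
          · rw [h2, h4]
        · exact absurd h1 (hi x hx y hy)
    · rcases h2 with h2 | ⟨h2, hy⟩
      · rw [h1] at h2
        rcases h3 with h3 | ⟨h3, _⟩
        · rcases h4 with h4 | ⟨h4, hy⟩
          · exact (key x hx y (h.symm _ _ h2) c' h3 h4).elim
          · exact absurd h2 (hi y hy x hx)
        · rw [h1, h3]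
      · exact absurd (h1.symm.trans h2) hxy

theorem dl_lp (q : ℕ) {N : V → Finset V} {L : Finset V} (nol : ∀ x, x ∉ N x) (x : V) :
    dl q (lp N L) x = dl q N x - if x ∈ L then 1 else 0 := by
  unfold dl lp
  split_ifs with hx
  · rw [card_insert_of_notMem (nol x)]
    push_cast
    ring
  · ring

theorem hh_lp (q : ℕ) {N : V → Finset V} {L : Finset V} (nol : ∀ x, x ∉ N x)
    (hp : ∀ t ∈ L, 1 ≤ dl q N t) (x : V) : hh q (lp N L) x = hh q N x := by
  have h1 := dl_lp q (L := L) nol x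
  by_cases hx : x ∈ L
  · rw [if_pos hx] at h1
    have h2 := hp x hx
    rw [hh_of_nonneg (q := q) (N := lp N L) (by omega), hh_of_nonneg (q := q) (N := N) (by omega)]
  · rw [if_neg hx, sub_zero] at h1
    unfold hh
    rw [h1]

theorem dp_lp (q : ℕ) {N : V → Finset V} {L : Finset V} (nol : ∀ x, x ∉ N x)
    (hp : ∀ t ∈ L, 1 ≤ dl q N t) (x : V) :
    dp q (lp N L) x = dp q N x - if x ∈ L then 1 else 0 := by
  have h1 := dl_lp q (L := L) nol x
  by_cases hx : x ∈ L
  · rw [if_pos hx] at h1 ⊢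
    have h2 := hp x hx
    rw [dp_of_pos (q := q) (N := lp N L) (by omega), dp_of_pos (q := q) (N := N) (by omega), h1]
  · rw [if_neg hx, sub_zero] at h1 ⊢
    unfold dp
    rw [h1]

theorem HH_lp (q : ℕ) {N : V → Finset V} {L : Finset V} (nol : ∀ x, x ∉ N x)
    (hp : ∀ t ∈ L, 1 ≤ dl q N t) : HH q (lp N L) = HH q N :=
  sum_congr rfl fun x _ => hh_lp q nol hp x

theorem DP_lp (q : ℕ) {N : V → Finset V} {L : Finset V} (nol : ∀ x, x ∉ N x)
    (hp : ∀ t ∈ L, 1 ≤ dl q N t) : DP q (lp N L) = DP q N - L.card := by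
  unfold DP
  rw [sum_congr rfl fun x _ => dp_lp q nol hp x, sum_sub_distrib]
  congr 1
  rw [sum_ite_mem, univ_inter, sum_const, nsmul_eq_mul, mul_one]

private theorem lpb_sum (q : ℕ) {N : V → Finset V} {L : Finset V} (nol : ∀ x, x ∉ N x) (x : V) :
    ∑ z ∈ N x, dl q (lp N L) z = ff q N x - (N x ∩ L).card := by
  unfold ff
  rw [sum_congr rfl fun z _ => dl_lp q (L := L) nol z, sum_sub_distrib]
  congr 1
  rw [sum_ite_mem, sum_const, nsmul_eq_mul, mul_one]

theorem ff_lp (q : ℕ) {N : V → Finset V} {L : Finset V} (nol : ∀ x, x ∉ N x)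
    (hi : ∀ t ∈ L, ∀ t' ∈ L, t' ∉ N t) (x : V) :
    ff q (lp N L) x = ff q N x - (N x ∩ L).card + if x ∈ L then dl q N x - 1 else 0 := by
  have _ := hi
  have h1 := lpb_sum q (L := L) nol x
  have h2 := dl_lp q (L := L) nol x
  by_cases hx : x ∈ L
  · rw [if_pos hx] at h2 ⊢
    have h3 : lp N L x = insert x (N x) := if_pos hx
    have h4 : ff q (lp N L) x = ∑ z ∈ insert x (N x), dl q (lp N L) z := by
      unfold ff
      rw [h3]
    rw [h4, sum_insert (nol x), h1, h2]
    ring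
  · rw [if_neg hx, add_zero]
    have h3 : lp N L x = N x := if_neg hx
    have h4 : ff q (lp N L) x = ∑ z ∈ N x, dl q (lp N L) z := by
      unfold ff
      rw [h3]
    rw [h4, h1]

theorem Sf_lp_sub {N : V → Finset V} {L : Finset V} (x : V) : Sf (lp N L) x ⊆ Sf N x := by
  intro y hy
  rw [mem_Sf] at hy ⊢
  refine ⟨hy.1, ?_⟩
  have h1 : N x ∩ N y ⊆ lp N L x ∩ lp N L y := inter_subset_inter (sub_lp N L x) (sub_lp N L y)
  rw [hy.2] at h1
  exact subset_empty.1 h1

theorem Sf_lp_of {N : V → Finset V} {L : Finset V} (h : Cls N) {x y : V} (hy : y ∈ Sf N x)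
    (hna : y ∉ N x) : y ∈ Sf (lp N L) x := by
  rw [mem_Sf] at hy ⊢
  refine ⟨hy.1, ?_⟩
  rw [eq_empty_iff_forall_notMem]
  intro c hc
  rw [mem_inter, mem_lp, mem_lp] at hc
  obtain ⟨h1, h2⟩ := hc
  rcases h1 with h1 | ⟨h1, _⟩
  · rcases h2 with h2 | ⟨h2, _⟩
    · have h3 : c ∈ N x ∩ N y := mem_inter.2 ⟨h1, h2⟩
      rw [hy.2] at h3
      exact notMem_empty _ h3
    · rw [h2] at h1
      exact hna h1
  · rcases h2 with h2 | ⟨h2, _⟩
    · rw [h1] at h2
      exact hna (h.symm _ _ h2)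
    · exact hy.1 (h2.symm.trans h1)

end Pool.Agent.C4E
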