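import Pool.Agent.C4E.ALo
import Pool.Agent.C4E.LoI
import Pool.Agent.C4E.LpB

/-!
# C4E-AM: a good vertex of `M` (Case A)

PLAN. `L = Lo q N`, `Ns = lp N L` (use `Lo_indep` with `b = 0`, `mem_Lo`, `cls_lp`, `dl_lp`, ...).
`DP_As`: `DP_lp`, `DP q N = ∑ dl + HH ≤ q + 2 + 2 m`, `card_Lo`: `≤ 14 m + 2 ≤ 15 m`.
`HH_As`: `HH_lp`, `HH ≤ XX ≤ 1`.
`exists_a`: `∑_{a ∈ M} pp q Ns a = ∑_z |Ns z ∩ M| dp q Ns z ≤ 2 DP q Ns ≤ 30 m` (`sum_nb_comm`;
`|lp N L z ∩ M| ≤ |N z ∩ M| + 1 ≤ 2`, `s.mdeg`), so at most `0.3 m` elements `a ∈ M` have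
`pp q Ns a > 100`; `∑_{a ∈ M} dp q Ns a ≤ 15 m`: at most `0.15 m` have `dp q Ns a > 100`. `|M| = m`,
`|Fh| ≤ 8`, `|Lb| ≤ 56`: there is `a ∈ M`, `a ∉ Fh`, `a ∉ Lb`, `pp ≤ 100`, `dl ≤ dp ≤ 100`.
`dl q Ns a ≥ 1`: otherwise `card_Sf` (class `Ns`, `b = 0`): `|Sf Ns a| ≤ ff q Ns a ≤ pp q Ns a ≤ 100`
(`ff_le_pp`). But for `c ∈ M`, `c ≠ a`, `c ∉ N a`: `c ∈ Sf N a` (`s.mcl`), so `c ∈ Sf Ns a`
(`Sf_lp_of`); and `|N a ∩ M| ≤ 1`: `|Sf Ns a| ≥ m - 2 > 100`.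
-/

set_option linter.unusedSectionVars false

namespace Pool.Agent.C4E

open Finset

variable {V : Type} [Fintype V] [DecidableEq V]

private theorem am_indep {q m : ℕ} {N : V → Finset V} {M : Finset V} (s : SysA q m N M) :
    ∀ t ∈ Lo q N, ∀ t' ∈ Lo q N, t' ∉ N t :=
  Lo_indep q 0 s.cls (by norm_num) (by rw [s.card]) (le_trans (by norm_num) s.big) s.nol

private theorem am_sub {q m : ℕ} {N : V → Finset V} {M : Finset V} (_s : SysA q m N M) :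
    ∀ t ∈ Lo q N, N t ⊆ Sf N t := fun _ ht => (mem_Lo.1 ht).2.2.2

private theorem am_pos {q m : ℕ} {N : V → Finset V} {M : Finset V} (_s : SysA q m N M) :
    ∀ t ∈ Lo q N, 1 ≤ dl q N t := fun _ ht => (mem_Lo.1 ht).2.1

theorem cls_As {q m : ℕ} {N : V → Finset V} {M : Finset V} (s : SysA q m N M) :
    Cls (lp N (Lo q N)) :=
  cls_lp s.cls s.nol (am_sub s) (am_indep s)

theorem DP_As {q m : ℕ} {N : V → Finset V} {M : Finset V} (s : SysA q m N M) :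
    DP q (lp N (Lo q N)) ≤ 15 * m := by
  have h1 := DP_lp q s.nol (am_pos s)
  have h2 := DP_eq q N
  have h3 := s.sum
  have h4 := HH_le_XX q N
  have h5 := XX_one s
  have h6 : (q : ℤ) ≤ ((Lo q N).card : ℤ) + 12 * m := by exact_mod_cast card_Lo s
  have h7 : (2 : ℤ) ≤ m := by
    have : 2 ≤ m := le_trans (by norm_num) s.mlo
    exact_mod_cast this
  linarith

theorem HH_As {q m : ℕ} {N : V → Finset V} {M : Finset V} (s : SysA q m N M) :
    HH q (lp N (Lo q N)) ≤ 1 := by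
  rw [HH_lp q s.nol (am_pos s)]
  exact (HH_le_XX q N).trans (XX_one s)

theorem exists_a {q m : ℕ} {N : V → Finset V} {M : Finset V} (s : SysA q m N M) :
    ∃ a ∈ M, a ∉ Fh q N ∧ a ∉ Lb q N ∧ 1 ≤ dl q (lp N (Lo q N)) a ∧
      dl q (lp N (Lo q N)) a ≤ 100 ∧ pp q (lp N (Lo q N)) a ≤ 100 := by
  have hcls := cls_As s
  have hDP := DP_As s
  have hSfof : ∀ a c, c ∈ Sf N a → c ∉ N a → c ∈ Sf (lp N (Lo q N)) a := fun a c h1 h2 =>
    Sf_lp_of s.cls h1 h2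
  have hsub : ∀ z, (lp N (Lo q N) z ∩ M).card ≤ 2 := by
    intro z
    have h1 : lp N (Lo q N) z ∩ M ⊆ insert z (N z ∩ M) := by
      intro y hy
      rw [mem_inter, mem_lp] at hy
      rw [mem_insert, mem_inter]
      rcases hy with ⟨h2 | h2, h3⟩
      · exact Or.inr ⟨h2, h3⟩
      · exact Or.inl h2.1
    have h2 := card_le_card h1
    have h3 := card_insert_le z (N z ∩ M)
    have h4 := s.mdeg z
    omega
  obtain ⟨Ns, hNs⟩ : ∃ Ns, Ns = lp N (Lo q N) := ⟨_, rfl⟩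
  rw [← hNs] at hcls hDP hsub hSfof ⊢
  have hS1 : ∑ a ∈ M, pp q Ns a ≤ 30 * m := by
    have h1 : ∑ a ∈ M, pp q Ns a = ∑ z, ((Ns z ∩ M).card : ℤ) * dp q Ns z :=
      sum_nb_comm hcls M (fun z => dp q Ns z)
    rw [h1]
    have h2 : ∑ z, ((Ns z ∩ M).card : ℤ) * dp q Ns z ≤ ∑ z, 2 * dp q Ns z := by
      refine sum_le_sum fun z _ => ?_
      have h3 : ((Ns z ∩ M).card : ℤ) ≤ 2 := by exact_mod_cast hsub z
      exact mul_le_mul_of_nonneg_right h3 (dp_nonneg q Ns z)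
    rw [← mul_sum] at h2
    have h4 : ∑ z, dp q Ns z = DP q Ns := rfl
    rw [h4] at h2
    linarith
  have hS2 : ∑ a ∈ M, dp q Ns a ≤ 15 * m := by
    have h1 : ∑ a ∈ M, dp q Ns a ≤ DP q Ns :=
      sum_le_sum_of_subset_of_nonneg (subset_univ _) fun z _ _ => dp_nonneg q Ns z
    linarith
  have hA1 : 101 * ((M.filter fun a => 101 ≤ pp q Ns a).card : ℤ) ≤ 30 * m := by
    have h1 : ∑ a ∈ M.filter (fun a => 101 ≤ pp q Ns a), (101 : ℤ) ≤
        ∑ a ∈ M.filter (fun a => 101 ≤ pp q Ns a), pp q Ns a :=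
      sum_le_sum fun a ha => (mem_filter.1 ha).2
    have h2 : ∑ a ∈ M.filter (fun a => 101 ≤ pp q Ns a), pp q Ns a ≤ ∑ a ∈ M, pp q Ns a :=
      sum_le_sum_of_subset_of_nonneg (filter_subset _ _) fun z _ _ => pp_nonneg q Ns z
    rw [sum_const, nsmul_eq_mul] at h1
    linarith
  have hA2 : 101 * ((M.filter fun a => 101 ≤ dp q Ns a).card : ℤ) ≤ 15 * m := by
    have h1 : ∑ a ∈ M.filter (fun a => 101 ≤ dp q Ns a), (101 : ℤ) ≤
        ∑ a ∈ M.filter (fun a => 101 ≤ dp q Ns a), dp q Ns a :=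
      sum_le_sum fun a ha => (mem_filter.1 ha).2
    have h2 : ∑ a ∈ M.filter (fun a => 101 ≤ dp q Ns a), dp q Ns a ≤ ∑ a ∈ M, dp q Ns a :=
      sum_le_sum_of_subset_of_nonneg (filter_subset _ _) fun z _ _ => dp_nonneg q Ns z
    rw [sum_const, nsmul_eq_mul] at h1
    linarith
  have hFh := card_Fh_A s
  have hLb : (Lb q N).card ≤ 56 := by
    have h1 := card_Lb q s.cls s.nol
    have h2 : (Fh q N).card * ((Fh q N).card - 1) ≤ 8 * 7 := Nat.mul_le_mul hFh (by omega)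
    omega
  have hm : (10 : ℤ) ^ 29 ≤ m := by exact_mod_cast s.mlo
  have hm' : (1000 : ℤ) ≤ m := le_trans (by norm_num) hm
  obtain ⟨a, haM, ha1, ha2, ha3, ha4⟩ : ∃ a ∈ M, a ∉ Fh q N ∧ a ∉ Lb q N ∧
      pp q Ns a ≤ 100 ∧ dp q Ns a ≤ 100 := by
    by_contra hcon
    push Not at hcon
    have h1 : M ⊆ ((M.filter fun a => 101 ≤ pp q Ns a) ∪ (M.filter fun a => 101 ≤ dp q Ns a)) ∪
        (Fh q N ∪ Lb q N) := by
      intro a ha
      rw [mem_union, mem_union, mem_union, mem_filter, mem_filter]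
      by_cases h2 : a ∈ Fh q N
      · exact Or.inr (Or.inl h2)
      by_cases h3 : a ∈ Lb q N
      · exact Or.inr (Or.inr h3)
      by_cases h4 : 101 ≤ pp q Ns a
      · exact Or.inl (Or.inl ⟨ha, h4⟩)
      · have h5 := hcon a ha h2 h3 (by omega)
        exact Or.inl (Or.inr ⟨ha, by omega⟩)
    have h2 := card_le_card h1
    have h3 := card_union_le ((M.filter fun a => 101 ≤ pp q Ns a) ∪
      (M.filter fun a => 101 ≤ dp q Ns a)) (Fh q N ∪ Lb q N)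
    have h4 := card_union_le (M.filter fun a => 101 ≤ pp q Ns a)
      (M.filter fun a => 101 ≤ dp q Ns a)
    have h5 := card_union_le (Fh q N) (Lb q N)
    rw [s.mcard] at h2
    omega
  refine ⟨a, haM, ha1, ha2, ?_, (dl_le_dp q Ns a).trans ha4, ha3⟩
  by_contra hdl
  have hdl' : dl q Ns a ≤ 0 := by omega
  have h1 := card_Sf q 0 hcls (by rw [s.card]) a
  have h2 := ff_le_pp q Ns a
  have h3 : (q : ℤ) * dl q Ns a ≤ 0 := mul_nonpos_of_nonneg_of_nonpos (by positivity) hdl'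
  have h4 : M ⊆ insert a (Sf Ns a ∪ (N a ∩ M)) := by
    intro c hc
    rw [mem_insert, mem_union, mem_inter]
    by_cases hca : c = a
    · exact Or.inl hca
    by_cases hcN : c ∈ N a
    · exact Or.inr (Or.inr ⟨hcN, hc⟩)
    · exact Or.inr (Or.inl (hSfof a c (s.mcl a haM c hc (Ne.symm hca)) hcN))
  have h5 := card_le_card h4
  have h6 := card_insert_le a (Sf Ns a ∪ (N a ∩ M))
  have h7 := card_union_le (Sf Ns a) (N a ∩ M)
  have h8 := s.mdeg a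
  rw [s.mcard] at h5
  push_cast at h1
  omega

end Pool.Agent.C4E
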