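import Pool.Agent.C4E.Basic

/-!
# C4E-Com: commutation of `A` and `E` (up to `J`)

PLAN. Let `T` be the number of pairs `(z, w)` with `z ∈ N x`, `w ∈ N z`, `w ∈ N y`:
`T = ∑ z ∈ N x, |N z ∩ N y|`, and by symmetry (`Cls.mem_comm`, exchange the order of summation)
`T = ∑ w ∈ N y, |N w ∩ N x|`.
For `z ≠ y`: `|N z ∩ N y| = 1` or `0`, and it is `0` exactly if `z ∈ Sf N y` (`card_inter_eq`);
for `z = y` it is `|N y|`.
`com_na` (`y ∉ N x`, hence also `x ∉ N y`): `T = |N x| - |N x ∩ Sf N y| = |N y| - |N y ∩ Sf N x|`;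
with `|N x| = q + 1 - dl x` this is the claim.
`com_ad` (`y ∈ N x`, so `x ∈ N y`): `T = (|N x| - 1 - |N x ∩ Sf N y|) + |N y|` (the term `z = y` is
`|N y|`; `y ∉ Sf N y`) and `T = (|N y| - 1 - |N y ∩ Sf N x|) + |N x|`.
-/

set_option linter.unusedSectionVars false

namespace Pool.Agent.C4E

open Finset

variable {V : Type} [Fintype V] [DecidableEq V]

private theorem cm_T {N : V → Finset V} (h : Cls N) (x y : V) :
    ∑ z ∈ N x, ((N z ∩ N y).card : ℤ) = ∑ w ∈ N y, ((N w ∩ N x).card : ℤ) := by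
  have h0 := sum_nb_comm h (N x) (fun w => if w ∈ N y then 1 else 0)
  have h1 : ∀ z ∈ N x, ∑ w ∈ N z, (if w ∈ N y then (1 : ℤ) else 0) = (N z ∩ N y).card := by
    intro z _
    rw [← sum_filter, sum_const, nsmul_eq_mul, mul_one]
    congr 2
  rw [sum_congr rfl h1] at h0
  rw [h0]
  have h2 : ∀ z ∈ (univ : Finset V), ((N z ∩ N x).card : ℤ) * (if z ∈ N y then 1 else 0)
      = if z ∈ N y then ((N z ∩ N x).card : ℤ) else 0 := by
    intro z _
    split_ifs <;> ring
  rw [sum_congr rfl h2, ← sum_filter]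
  exact sum_congr (by ext w; simp) fun _ _ => rfl

private theorem cm_S {N : V → Finset V} (h : Cls N) (x y : V) :
    ∑ z ∈ N x, ((N z ∩ N y).card : ℤ)
      = (if y ∈ N x then ((N y).card : ℤ) - 1 else 0) + (N x).card - (N x ∩ Sf N y).card := by
  have h4 : ∀ z ∈ N x, ((N z ∩ N y).card : ℤ)
      = (if z = y then ((N y).card : ℤ) - 1 else 0) + 1 - (if z ∈ Sf N y then 1 else 0) := by
    intro z _
    by_cases hz : z = y
    · subst hz
      rw [if_pos rfl, if_neg (not_mem_Sf_self z), inter_self]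
      ring
    · rw [if_neg hz, inter_comm, card_inter_eq h hz]
      by_cases hs : z ∈ Sf N y
      · rw [if_pos hs, if_pos hs]; simp
      · rw [if_neg hs, if_neg hs]; simp
  rw [sum_congr rfl h4, sum_sub_distrib, sum_add_distrib, sum_ite_eq' (N x) y,
    sum_const, nsmul_eq_mul, mul_one]
  have h5 : ∑ z ∈ N x, (if z ∈ Sf N y then (1 : ℤ) else 0) = (N x ∩ Sf N y).card := by
    rw [← sum_filter, sum_const, nsmul_eq_mul, mul_one]
    congr 2
  rw [h5]

theorem com_na (q : ℕ) {N : V → Finset V} (h : Cls N) {x y : V} (hxy : x ≠ y) (hna : y ∉ N x) :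
    ((N x ∩ Sf N y).card : ℤ) + dl q N x = (N y ∩ Sf N x).card + dl q N y := by
  have h0 := cm_T h x y
  rw [cm_S h x y, cm_S h y x, if_neg hna, if_neg (fun hc => hna (h.symm y x hc))] at h0
  have h1 := card_N q N x
  have h2 := card_N q N y
  linarith

theorem com_ad {N : V → Finset V} (h : Cls N) {x y : V} (hxy : x ≠ y) (had : y ∈ N x) :
    (N x ∩ Sf N y).card = (N y ∩ Sf N x).card := by
  have h0 := cm_T h x y
  rw [cm_S h x y, cm_S h y x, if_pos had, if_pos (h.symm x y had)] at h0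
  have h3 : ((N x ∩ Sf N y).card : ℤ) = (N y ∩ Sf N x).card := by linarith
  exact_mod_cast h3

end Pool.Agent.C4E
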