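import Pool.Agent.C4E.Basic
import Pool.Agent.C4E.Com

/-!
# C4E-Part: partners
-/

set_option linter.unusedSectionVars false

namespace Pool.Agent.C4E

open Finset

variable {V : Type} [Fintype V] [DecidableEq V]

theorem cov (q : ℕ) {N : V → Finset V} (h : Cls N) {x y z : V} (hx : dl q N x = 0)
    (hz : dl q N z = 0) (hxy : x ∈ Sf N y) (hzy : z ∈ N y) : ∃ w ∈ N x, w ∈ Sf N z := by
  by_cases hxz : x = z
  · refine ⟨y, ?_, ?_⟩
    · rw [hxz]
      exact h.symm y z hzy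
    · rw [← hxz]
      exact Sf_symm.1 hxy
  · have h1 : 0 < (N z ∩ Sf N x).card :=
      card_pos.2 ⟨y, mem_inter.2 ⟨h.symm y z hzy, Sf_symm.1 hxy⟩⟩
    have h2 : 0 < (N x ∩ Sf N z).card := by
      by_cases had : z ∈ N x
      · rw [com_ad h hxz had]
        exact h1
      · have h3 := com_na q h hxz had
        omega
    obtain ⟨w, hw⟩ := card_pos.1 h2
    exact ⟨w, (mem_inter.1 hw).1, (mem_inter.1 hw).2⟩

theorem part (q : ℕ) {N : V → Finset V} (h : Cls N) {y : V} (P T : Finset V) (k' dm : ℕ)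
    (hPy : P ⊆ N y) (hP : ∀ z ∈ P, dl q N z = 0 ∧ (Sf N z).card ≤ k') (hne : P.Nonempty)
    (hTy : T ⊆ Sf N y) (hT : ∀ x ∈ T, dl q N x = 0) (hdm : ∀ x, (N x).card ≤ dm) :
    (∀ c, k' + 1 ≤ (N c ∩ T).card → ∀ z ∈ P, c ∈ Sf N z) ∧
      T.card ≤ (univ.filter fun c => k' + 1 ≤ (N c ∩ T).card).card * dm + k' ^ 2 := by
  constructor
  · intro c hc z hz
    by_contra hcz
    have h1 : N c ∩ T ⊆ (Sf N z).biUnion fun w => N c ∩ N w := by
      intro x hx
      obtain ⟨hxc, hxT⟩ := mem_inter.1 hx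
      obtain ⟨w, hwx, hwz⟩ := cov q h (hT x hxT) (hP z hz).1 (hTy hxT) (hPy hz)
      exact mem_biUnion.2 ⟨w, hwz, mem_inter.2 ⟨hxc, h.symm x w hwx⟩⟩
    have h2 := (card_le_card h1).trans (card_biUnion_le_card_mul (Sf N z) _ 1 fun w hw => ?_)
    · have h3 := (hP z hz).2
      omega
    · refine h.cod c w ?_
      rintro rfl
      exact hcz hw
  · obtain ⟨z, hz⟩ := hne
    obtain ⟨C, hC⟩ : ∃ C : Finset V, C = univ.filter fun c => k' + 1 ≤ (N c ∩ T).card := ⟨_, rfl⟩
    rw [← hC]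
    have h1 : T ⊆ (C.biUnion N) ∪ (((Sf N z).filter fun w => w ∉ C).biUnion fun w => N w ∩ T) := by
      intro x hx
      obtain ⟨w, hwx, hwz⟩ := cov q h (hT x hx) (hP z hz).1 (hTy hx) (hPy hz)
      have hxw := h.symm x w hwx
      by_cases hwC : w ∈ C
      · exact mem_union_left _ (mem_biUnion.2 ⟨w, hwC, hxw⟩)
      · exact mem_union_right _ (mem_biUnion.2 ⟨w, mem_filter.2 ⟨hwz, hwC⟩,
          mem_inter.2 ⟨hxw, hx⟩⟩)
    have h2 := (card_le_card h1).trans (card_union_le _ _)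
    have h3 : (C.biUnion N).card ≤ C.card * dm :=
      card_biUnion_le_card_mul C N dm fun w _ => hdm w
    have h4 : (((Sf N z).filter fun w => w ∉ C).biUnion fun w => N w ∩ T).card ≤
        ((Sf N z).filter fun w => w ∉ C).card * k' := by
      refine card_biUnion_le_card_mul _ _ k' fun w hw => ?_
      have h5 := (mem_filter.1 hw).2
      rw [hC, mem_filter] at h5
      by_contra h6
      exact h5 ⟨mem_univ _, by omega⟩
    have h5 : ((Sf N z).filter fun w => w ∉ C).card * k' ≤ k' ^ 2 := by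
      rw [sq]
      exact Nat.mul_le_mul_right _ ((card_filter_le _ _).trans (hP z hz).2)
    omega

end Pool.Agent.C4E
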