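import Pool.Agent.C4E.AM
import Pool.Agent.C4E.Cn
import Pool.Agent.C4E.Part

/-!
# C4E-AP1: many full neighbours and partners (Case A)

PLAN. Let `Ns = lp N (Lo q N)` (class by `cls_As`), `k = dl q Ns a ∈ [1, 100]`,
`P = {z ∈ Ns a : dl q Ns z = 0, ff q Ns z ≤ k}`.
`card_P`: `|Ns a| = q + 1 - k`. The `z` with `dl ≠ 0`: at most `|Yd| + |Hv| ≤ DP + HH ≤ 15 m + 1`
(`card_Yd_le`, `card_Hv_le`). For `z ∈ Ns a`: `a ∈ Ns z`, so
`ff z ≤ pp z = k + ∑_{z' ∈ (Ns z).erase a} dp z'` (`dp a = k`), hence the number of `z ∈ Ns a` with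
`ff z ≥ k + 1` is at most `∑_{z ∈ Ns a} ∑_{z' ∈ (Ns z).erase a} dp z' ≤ DP ≤ 15 m` (`nb_cnt`). So
`|P| ≥ q + 1 - 100 - 15 m - 1 - 15 m ≥ q - 31 m`.
`exists_C`: `T = Sf Ns a ∩ Fl q Ns`. `card_Sf` (`b = 0`): `|Sf Ns a| = q k + ff a ≥ q k - 1`
(`neg_HH_le_ff`), so `|T| ≥ q k - 1 - (15 m + 1)` (`card_split`). For `z ∈ P`:
`|Sf Ns z| = ff z ≤ k`. `part` with `k' = k` (as a natural number), `dm = q + 2`
(`|Ns x| = q + 1 - dl x ≤ q + 2`): `C = {c : k + 1 ≤ |Ns c ∩ T|}` satisfies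
`q k - 15 m - 2 ≤ |C| (q + 2) + k²`, so `|C| ≥ k` (else
`q k - 15 m - 2 ≤ (k - 1)(q + 2) + k²`, i.e. `q ≤ 2 (k - 1) + k² + 15 m + 2`, contradiction).
-/

set_option linter.unusedSectionVars false

namespace Pool.Agent.C4E

open Finset

variable {V : Type} [Fintype V] [DecidableEq V]

/-- the good neighbours of `a` -/
def PA (q : ℕ) (Ns : V → Finset V) (a : V) : Finset V :=
  (Ns a).filter fun z => dl q Ns z = 0 ∧ ff q Ns z ≤ dl q Ns a

private theorem ap1_bad {q m : ℕ} {N : V → Finset V} {M : Finset V} (s : SysA q m N M) :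
    (((Yd q (lp N (Lo q N))).card : ℤ) + (Hv q (lp N (Lo q N))).card) ≤ 15 * m + 1 := by
  have h1 := card_Yd_le q (lp N (Lo q N))
  have h2 := card_Hv_le q (lp N (Lo q N))
  have h3 := DP_As s
  have h4 := HH_As s
  omega

theorem card_PA {q m : ℕ} {N : V → Finset V} {M : Finset V} (s : SysA q m N M) {a : V}
    (h1 : 1 ≤ dl q (lp N (Lo q N)) a) (h2 : dl q (lp N (Lo q N)) a ≤ 100) :
    q ≤ (PA q (lp N (Lo q N)) a).card + 31 * m := by
  have hbad := ap1_bad s
  have hcls := cls_As s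
  have hDP := DP_As s
  set Ns := lp N (Lo q N) with hNs
  let B1 := (Ns a).filter fun z => dl q Ns z ≠ 0
  let B2 := (Ns a).filter fun z => dl q Ns a + 1 ≤ ff q Ns z
  have hcov : Ns a ⊆ PA q Ns a ∪ (B1 ∪ B2) := by
    intro z hz
    by_cases h3 : dl q Ns z = 0
    · by_cases h4 : ff q Ns z ≤ dl q Ns a
      · exact mem_union_left _ (mem_filter.2 ⟨hz, h3, h4⟩)
      · exact mem_union_right _ (mem_union_right _ (mem_filter.2 ⟨hz, by omega⟩))
    · exact mem_union_right _ (mem_union_left _ (mem_filter.2 ⟨hz, h3⟩))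
  have hc1 : (Ns a).card ≤ (PA q Ns a).card + (B1.card + B2.card) :=
    (card_le_card hcov).trans ((card_union_le _ _).trans (Nat.add_le_add_left (card_union_le _ _) _))
  have hB1 : B1.card ≤ (Yd q Ns).card + (Hv q Ns).card := by
    refine (card_le_card ?_).trans (card_union_le _ _)
    intro z hz
    have h3 := (mem_filter.1 hz).2
    rw [mem_union, mem_Yd, mem_Hv]
    omega
  have hB2 : (B2.card : ℤ) ≤ DP q Ns := by
    have e1 : (B2.card : ℤ) = ∑ _z ∈ B2, (1 : ℤ) := by simp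
    rw [e1]
    calc ∑ _z ∈ B2, (1 : ℤ) ≤ ∑ z ∈ B2, ∑ z' ∈ (Ns z).erase a, dp q Ns z' := by
          refine sum_le_sum fun z hz => ?_
          have h3 := mem_filter.1 hz
          have ha : a ∈ Ns z := hcls.symm a z h3.1
          have h4 := ff_le_pp q Ns z
          have h5 : pp q Ns z = dp q Ns a + ∑ z' ∈ (Ns z).erase a, dp q Ns z' :=
            (add_sum_erase (Ns z) (fun z' => dp q Ns z') ha).symm
          have h6 : dp q Ns a = dl q Ns a := dp_of_pos (by omega)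
          have h7 := h3.2
          omega
      _ ≤ ∑ z ∈ Ns a, ∑ z' ∈ (Ns z).erase a, dp q Ns z' :=
          sum_le_sum_of_subset_of_nonneg (filter_subset _ _) fun z _ _ =>
            sum_nonneg fun z' _ => dp_nonneg q Ns z'
      _ ≤ ∑ z ∈ univ.erase a, dp q Ns z := nb_cnt hcls (fun z => dp q Ns z) (dp_nonneg q Ns) a
      _ ≤ DP q Ns := sum_le_sum_of_subset_of_nonneg (erase_subset _ _) fun z _ _ => dp_nonneg q Ns z
  have hN := card_N q Ns a
  have hm := s.mlo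
  have hm' : 10 ^ 3 ≤ m := le_trans (by norm_num) hm
  omega

theorem exists_C {q m : ℕ} {N : V → Finset V} {M : Finset V} (s : SysA q m N M) {a : V}
    (h1 : 1 ≤ dl q (lp N (Lo q N)) a) (h2 : dl q (lp N (Lo q N)) a ≤ 100) :
    ∃ C : Finset V, dl q (lp N (Lo q N)) a ≤ C.card ∧
      ∀ c ∈ C, ∀ z ∈ PA q (lp N (Lo q N)) a, c ∈ Sf (lp N (Lo q N)) z := by
  have hPA := card_PA s h1 h2
  have hbad := ap1_bad s
  have hcls := cls_As s
  have hHH := HH_As s
  have hm := s.mlo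
  have hm' : 10 ^ 5 ≤ m := le_trans (by norm_num) hm
  have hq := s.mhi
  set Ns := lp N (Lo q N) with hNs
  obtain ⟨k, hk⟩ : ∃ k : ℕ, dl q Ns a = k := ⟨(dl q Ns a).toNat, by omega⟩
  have hk1 : 1 ≤ k := by omega
  have hk2 : k ≤ 100 := by omega
  have hS : ∀ x, ((Sf Ns x).card : ℤ) = (0 : ℕ) + q * dl q Ns x + ff q Ns x := fun x =>
    card_Sf q 0 hcls s.card x
  obtain ⟨p1, p2⟩ := part q hcls (y := a) (PA q Ns a) (Sf Ns a ∩ Fl q Ns) k (q + 2)
    (filter_subset _ _)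
    (fun z hz => by
      have h3 := (mem_filter.1 hz).2
      refine ⟨h3.1, ?_⟩
      have h4 := hS z
      rw [h3.1] at h4
      have h5 := h3.2
      have h6 : ((Sf Ns z).card : ℤ) ≤ k := by
        rw [h4]
        push_cast
        omega
      exact_mod_cast h6)
    (card_pos.1 (by omega))
    inter_subset_left
    (fun x hx => mem_Fl.1 (mem_inter.1 hx).2)
    (fun x => by
      have h3 := card_N q Ns x
      have h4 := neg_hh_le q Ns x
      have h5 := hh_le_HH q Ns x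
      omega)
  refine ⟨univ.filter fun c => k + 1 ≤ (Ns c ∩ (Sf Ns a ∩ Fl q Ns)).card, ?_, ?_⟩
  · rw [hk]
    by_contra hcon
    have hC : (univ.filter fun c => k + 1 ≤ (Ns c ∩ (Sf Ns a ∩ Fl q Ns)).card).card ≤ k - 1 := by
      have h3 : ¬ (k ≤ (univ.filter fun c => k + 1 ≤ (Ns c ∩ (Sf Ns a ∩ Fl q Ns)).card).card) :=
        fun h => hcon (by exact_mod_cast h)
      omega
    have hT := card_split q Ns (Sf Ns a)
    have hT1 : (Sf Ns a ∩ Yd q Ns).card ≤ (Yd q Ns).card := card_le_card inter_subset_right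
    have hT2 : (Sf Ns a ∩ Hv q Ns).card ≤ (Hv q Ns).card := card_le_card inter_subset_right
    have h3 := hS a
    rw [hk] at h3
    have h4 := neg_HH_le_ff q Ns a
    have h5 : (univ.filter fun c => k + 1 ≤ (Ns c ∩ (Sf Ns a ∩ Fl q Ns)).card).card * (q + 2) ≤
        (k - 1) * (q + 2) := Nat.mul_le_mul_right _ hC
    have h6 : (k - 1) * (q + 2) + (q + 2) = k * q + 2 * k := by
      obtain ⟨j, rfl⟩ : ∃ j, k = j + 1 := ⟨k - 1, by omega⟩
      rw [Nat.add_sub_cancel]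
      ring
    have h7 : k ^ 2 ≤ 10000 := by
      calc k ^ 2 ≤ 100 ^ 2 := Nat.pow_le_pow_left hk2 2
        _ = 10000 := by norm_num
    have h8 : (q : ℤ) * (k : ℤ) = ((k * q : ℕ) : ℤ) := by
      push_cast
      ring
    rw [h8] at h3
    omega
  · intro c hc z hz
    exact p1 c (mem_filter.1 hc).2 z hz

end Pool.Agent.C4E
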