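import Pool.Agent.C4E.AP1
import Pool.Agent.C4E.Ex

/-!
# C4E-AP2: no partner different from `a` (Case A)

PLAN. `Ns = lp N (Lo q N)` (class by `cls_As`), `k = dl q Ns a ∈ [1, 100]`, `P = PA q Ns a` is
nonempty (`card_PA`, `31 m < q`). (1) `c ∉ Ns a`: otherwise for `z ∈ P`, `a` is a common neighbour of
`c` and `z`, contradiction to `c ∈ Sf Ns z` (`not_Sf_of_common`). (2) `Ns c ⊆ Sf Ns a`: let `x ∈ Ns c`,
`x ∉ Sf Ns a`; `x ≠ a` by (1) (symmetry); `exists_common`: `c0 ∈ Ns x ∩ Ns a`. `ex_bound` in `Ns`,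
`b = 0`, with `x`, `y := a`, `c ∈ Ns x`, `P ⊆ Ns a`, `z ∈ Sf Ns c` (`Sf_symm`):
`|P| ≤ dl x dl a + ff x + ff a - dl c0 ≤ 15 m * 100 + 15 m + 100 + 1`
(`dl x ≤ dp x ≤ DP ≤ 15 m`; if `dl x < 0` the product is `≤ 0`; `ff x ≤ pp x ≤ DP`;
`ff a ≤ pp a ≤ 100`; `- dl c0 ≤ hh c0 ≤ HH ≤ 1`). But `|P| ≥ q - 31 m` and `10^4 m ≤ q`,
contradiction. (3) `N c ⊆ Ns c ⊆ Sf Ns a ⊆ Sf N a` (`sub_lp`, `Sf_lp_sub`), so `N c \ Sf N a = ∅`,
contradiction to `s.m1 c a` (`a ∉ N c` by (1)).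
-/

set_option linter.unusedSectionVars false

namespace Pool.Agent.C4E

open Finset

variable {V : Type} [Fintype V] [DecidableEq V]

theorem no_other {q m : ℕ} {N : V → Finset V} {M : Finset V} (s : SysA q m N M) {a c : V}
    (h1 : 1 ≤ dl q (lp N (Lo q N)) a) (h2 : dl q (lp N (Lo q N)) a ≤ 100)
    (h3 : pp q (lp N (Lo q N)) a ≤ 100) (hca : c ≠ a)
    (hc : ∀ z ∈ PA q (lp N (Lo q N)) a, c ∈ Sf (lp N (Lo q N)) z) : False := by
  have hcl := cls_As s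
  have hD := DP_As s
  have hH := HH_As s
  have hP := card_PA s h1 h2
  have hmq : (10 : ℤ) ^ 4 * m ≤ q := by exact_mod_cast s.mhi
  have hq : (10 : ℤ) ^ 100 ≤ q := by exact_mod_cast s.big
  have hm : (10 : ℤ) ^ 29 ≤ m := by exact_mod_cast s.mlo
  have hq3 : (100000 : ℤ) ≤ q := le_trans (by norm_num) hq
  have hm0 : (0 : ℤ) ≤ m := by positivity
  norm_num at hmq
  have hP2 : (q : ℤ) ≤ (PA q (lp N (Lo q N)) a).card + 31 * m := by exact_mod_cast hP
  have hne : (PA q (lp N (Lo q N)) a).Nonempty := by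
    rw [← card_pos]
    have h4 : (0 : ℤ) < (PA q (lp N (Lo q N)) a).card := by linarith
    exact_mod_cast h4
  have hPs : PA q (lp N (Lo q N)) a ⊆ lp N (Lo q N) a := filter_subset _ _
  have hA : c ∉ lp N (Lo q N) a := by
    intro hcon
    obtain ⟨z, hz⟩ := hne
    exact not_Sf_of_common (hcl.symm _ _ (hPs hz)) (hcl.symm _ _ hcon) (hc z hz)
  have hA' : a ∉ lp N (Lo q N) c := fun hcon => hA (hcl.symm _ _ hcon)
  have hB : ∀ x ∈ lp N (Lo q N) c, x ∈ Sf (lp N (Lo q N)) a := by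
    intro x hx
    by_contra hxS
    have hxa : x ≠ a := by
      rintro rfl
      exact hA' hx
    obtain ⟨c0, hc0a, hc0x⟩ := exists_common hxa hxS
    have h5 := ex_bound q 0 hcl (by rw [s.card]) hxa hc0x hc0a (hcl.symm _ _ hx)
      (PA q (lp N (Lo q N)) a) hPs fun z hz => Sf_symm.1 (hc z hz)
    have h6 : dl q (lp N (Lo q N)) x ≤ 15 * m :=
      (dl_le_dp q _ x).trans ((dp_le_DP q _ x).trans hD)
    have h7 : ff q (lp N (Lo q N)) x ≤ 15 * m :=
      (ff_le_pp q _ x).trans ((pp_le_DP q _ x).trans hD)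
    have h8 : ff q (lp N (Lo q N)) a ≤ 100 := (ff_le_pp q _ a).trans h3
    have h9 : -dl q (lp N (Lo q N)) c0 ≤ 1 := by
      have h10 := neg_hh_le q (lp N (Lo q N)) c0
      have h11 := hh_le_HH q (lp N (Lo q N)) c0
      linarith
    have h10 : dl q (lp N (Lo q N)) x * dl q (lp N (Lo q N)) a ≤ 15 * m * 100 := by
      have h11 : (0 : ℤ) ≤ dl q (lp N (Lo q N)) a := by linarith
      have h12 := mul_le_mul_of_nonneg_right h6 h11
      have h13 := mul_le_mul_of_nonneg_left h2 (by positivity : (0 : ℤ) ≤ 15 * m)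
      linarith
    push_cast at h5
    linarith
  have hC : N c ⊆ Sf N a := fun x hx => Sf_lp_sub a (hB x (sub_lp N (Lo q N) c hx))
  have h5 := s.m1 c a hca fun hcon => hA' (sub_lp N (Lo q N) c hcon)
  rw [sdiff_eq_empty_iff_subset.2 hC] at h5
  simp at h5

end Pool.Agent.C4E
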