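import Pool.Agent.C4E.AZ
import Pool.Agent.C4E.AFh
import Pool.Agent.C4E.Com

/-!
# C4E-AT: the structure of the full vertices with `f = 1` (Case A)
-/

set_option linter.unusedSectionVars false

namespace Pool.Agent.C4E

open Finset

variable {V : Type} [Fintype V] [DecidableEq V]

private theorem claim {N : V → Finset V} (h : Cls N) {q : ℕ} {x x' t t' : V} (hx : dl q N x = 0)
    (hx' : dl q N x' = 0) (h1 : Sf N x = {t}) (h2 : t ∈ N x) (h3 : Sf N x' = {t'}) (h4 : t' ∈ N x')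
    (h5 : x' ∈ N t) : x' ∈ Sf N t := by
  by_cases hxx : x = x'
  · subst hxx
    rw [Sf_symm, h1]
    exact mem_singleton_self t
  · have hna : x' ∉ N x := by
      intro h6
      refine not_Sf_of_common h6 h5 ?_
      rw [h1]
      exact mem_singleton_self t
    have hc := com_na q h hxx hna
    have htx' : t ∈ N x' := h.symm _ _ h5
    rw [hx, hx', h1, inter_singleton_of_mem htx', card_singleton] at hc
    have h6 : 0 < (N x ∩ Sf N x').card := by omega
    obtain ⟨c, hc2⟩ := card_pos.1 h6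
    rw [mem_inter, h3, mem_singleton] at hc2
    obtain ⟨hc3, hc4⟩ := hc2
    subst hc4
    have h7 : t = c := h.uniq hxx h2 htx' hc3 h4
    rw [Sf_symm, h7, h3]
    exact mem_singleton_self c

theorem exists_L0 {q m : ℕ} {N : V → Finset V} {M : Finset V} (s : SysA q m N M) :
    ∃ L0 : Finset V, 10 * q ≤ 10 * L0.card + 114 * m ∧ ∀ t ∈ L0, 1 ≤ dl q N t ∧ t ∉ Fh q N ∧
      4 * (N t ∩ Zb q N).card < q ∧ ∀ x ∈ N t, x ∉ Zb q N → x ∈ Sf N t := by
  have h := s.cls
  have hX1 : ∀ x, x ∉ Zb q N → dl q N x = 0 ∧ ff q N x = 1 := by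
    intro x hx
    rw [mem_Zb, not_not] at hx
    exact hx
  have hex : ∀ x, ∃ t, x ∉ Zb q N → Sf N x = {t} ∧ t ∈ N x := by
    intro x
    by_cases hx : x ∈ Zb q N
    · exact ⟨x, fun h1 => absurd hx h1⟩
    · obtain ⟨t, ht⟩ := full_t s (hX1 x hx).1 (hX1 x hx).2
      exact ⟨t, fun _ => ht⟩
  choose t ht using hex
  obtain ⟨X1, hX⟩ : ∃ X1 : Finset V, X1 = univ.filter fun x => x ∉ Zb q N := ⟨_, rfl⟩
  have hmX : ∀ x, x ∈ X1 ↔ x ∉ Zb q N := by
    intro x
    rw [hX, mem_filter]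
    exact ⟨fun h => h.2, fun h => ⟨mem_univ _, h⟩⟩
  have hcl : ∀ x x', x ∈ X1 → x' ∈ N (t x) → x' ∉ Zb q N → x' ∈ Sf N (t x) := by
    intro x x' hx h5 hx'
    rw [hmX] at hx
    exact claim h (hX1 x hx).1 (hX1 x' hx').1 (ht x hx).1 (ht x hx).2 (ht x' hx').1 (ht x' hx').2 h5
  have hdeg : ∀ v, (N v).card ≤ q + 2 := by
    intro v
    have h1 := card_N q N v
    have h2 := neg_hh_le q N v
    have h3 := hh_le_HH q N v
    have h4 := HH_le_XX q N
    have h5 := XX_one s
    omega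
  obtain ⟨T, hT⟩ : ∃ T : Finset V, T = X1.image t := ⟨_, rfl⟩
  have hcov : X1 ⊆ T.biUnion N := by
    intro x hx
    rw [mem_biUnion]
    refine ⟨t x, ?_, ?_⟩
    · rw [hT]
      exact mem_image_of_mem t hx
    · exact h.symm _ _ (ht x ((hmX x).1 hx)).2
  have hc1 : X1.card ≤ T.card * (q + 2) := (card_le_card hcov).trans (card_biUnion_le_card_mul _ _ _ fun v _ => hdeg v)
  have hc2 : X1.card + (Zb q N).card = q ^ 2 + q + 1 := by
    rw [← s.card, hX, ← card_univ]
    have h1 : univ.filter (fun x : V => x ∉ Zb q N) = univ \ Zb q N := by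
      ext x
      simp
    rw [h1]
    exact card_sdiff_add_card_eq_card (subset_univ _)
  have hZ := card_Zb s
  have hE := card_Exc s
  have hF := card_Fh_A s
  have hbig := s.big
  have hmlo := s.mlo
  have hmhi := s.mhi
  have hT10 : 10 * q ≤ 10 * T.card + 22 * m := by
    by_contra hcon
    have h1 : 10 * T.card + 22 * m + 1 ≤ 10 * q := by omega
    have h2 : (10 * T.card + 22 * m + 1) * (q + 2) ≤ 10 * q * (q + 2) := Nat.mul_le_mul_right _ h1
    have h3 : 10 ^ 29 * q ≤ m * q := Nat.mul_le_mul_right _ hmlo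
    nlinarith
  refine ⟨T.filter fun v => v ∉ Fh q N ∧ ¬ q ≤ 4 * (N v ∩ Zb q N).card, ?_, ?_⟩
  · have h1 : T ⊆ (T.filter fun v => v ∉ Fh q N ∧ ¬ q ≤ 4 * (N v ∩ Zb q N).card) ∪ Fh q N ∪
        univ.filter fun x => q ≤ 4 * (N x ∩ Zb q N).card := by
      intro v hv
      rw [mem_union, mem_union, mem_filter, mem_filter]
      by_cases h2 : v ∈ Fh q N
      · exact Or.inl (Or.inr h2)
      · by_cases h3 : q ≤ 4 * (N v ∩ Zb q N).card
        · exact Or.inr ⟨mem_univ _, h3⟩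
        · exact Or.inl (Or.inl ⟨hv, h2, h3⟩)
    have h2 := card_le_card h1
    have h3 := card_union_le ((T.filter fun v => v ∉ Fh q N ∧ ¬ q ≤ 4 * (N v ∩ Zb q N).card) ∪ Fh q N)
      (univ.filter fun x => q ≤ 4 * (N x ∩ Zb q N).card)
    have h4 := card_union_le (T.filter fun v => v ∉ Fh q N ∧ ¬ q ≤ 4 * (N v ∩ Zb q N).card) (Fh q N)
    omega
  · intro v hv
    rw [mem_filter, hT, mem_image] at hv
    obtain ⟨⟨x, hx, rfl⟩, h1, h2⟩ := hv
    refine ⟨?_, h1, by omega, fun y hy hyZ => hcl x y hx hy hyZ⟩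
    by_contra hcon
    have h3 : N (t x) \ Zb q N ⊆ Sf N (t x) := by
      intro y hy
      rw [mem_sdiff] at hy
      exact hcl x y hx hy.1 hy.2
    have h4 := card_le_card h3
    have h5 := card_sdiff_add_card_inter (N (t x)) (Zb q N)
    have h6 := card_N q N (t x)
    have h7 := card_Sf q 0 h (by rw [s.card]) (t x)
    rw [mem_Fh] at h1
    have h8 : (q : ℤ) * dl q N (t x) ≤ 0 := mul_nonpos_of_nonneg_of_nonpos (by positivity) (by omega)
    push_cast at h7
    omega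

end Pool.Agent.C4E
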