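import Pool.Agent.C4E.Sq

/-!
# C4E-Hm: heavy vertices have excess at most `3 √q`

PLAN. Let `t = hh x`; if `t = 0` done. Otherwise `dl x = - t`, `|N x| = q + 1 + t`, `ff_heavy`:
`q t - b ≤ ff x ≤ pp x` (`ff_le_pp`), and Cauchy-Schwarz (`sq_sum_le_card_mul_sum_sq` or
`Finset.inner_mul_le_norm_mul_norm`): `pp x ^ 2 ≤ |N x| * ∑ z ∈ N x, dp z ^ 2 ≤ (q + 1 + t) * QQ`.
`sum_sq` with `b ≤ 1`, `∑ dl ≤ 2 q`: `QQ ≤ (q² + q + 2) + (2 q + 1) 2 q ≤ 6 q²`. So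
`(q t - 1)² ≤ 6 q² (q + 1 + t)` (as `q t - b ≥ q t - 1 ≥ 0`), i.e.
`q² t² ≤ 6 q³ + 6 q² + 6 q² t + 2 q t`, hence `t² ≤ 6 q + 6 + 7 t`. If `t² > 9 q` then (as
`q ≥ 10^6`) `t ≥ 3000`, `7 t ≤ 7 t² / 3000`, so `t² (1 - 7/3000) ≤ 6 q + 6`, contradiction.
-/

set_option linter.unusedSectionVars false

namespace Pool.Agent.C4E

open Finset

variable {V : Type} [Fintype V] [DecidableEq V]

theorem QQ_le (q b : ℕ) {N : V → Finset V} (h : Cls N) (hb : b ≤ 1)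
    (hn : Fintype.card V = q ^ 2 + q + 1 + b) (hq : 10 ^ 6 ≤ q) (hD : ∑ x, dl q N x ≤ 2 * q) :
    QQ q N ≤ 6 * q ^ 2 := by
  have h1 := sum_sq q b h hn
  have h2 := XX_nonneg q N
  have hq' : (10 ^ 6 : ℤ) ≤ q := by exact_mod_cast hq
  have h3 : (2 * (q : ℤ) + 1) * ∑ x, dl q N x ≤ (2 * (q : ℤ) + 1) * (2 * q) :=
    mul_le_mul_of_nonneg_left hD (by positivity)
  have h4 : (b : ℤ) * ((q : ℤ) ^ 2 + q + 1 + b) ≤ (q : ℤ) ^ 2 + q + 2 := by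
    have hb' : b = 0 ∨ b = 1 := by omega
    rcases hb' with rfl | rfl
    · push_cast
      nlinarith
    · push_cast
      linarith
  nlinarith

theorem hh_sq (q b : ℕ) {N : V → Finset V} (h : Cls N) (hb : b ≤ 1)
    (hn : Fintype.card V = q ^ 2 + q + 1 + b) (hq : 10 ^ 6 ≤ q) (hD : ∑ x, dl q N x ≤ 2 * q)
    (x : V) : hh q N x ^ 2 ≤ 9 * q := by
  have hQ := QQ_le q b h hb hn hq hD
  have hq' : (10 ^ 6 : ℤ) ≤ q := by exact_mod_cast hq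
  have ht := hh_nonneg q N x
  rcases le_or_gt 0 (dl q N x) with h0 | h0
  · rw [hh_of_nonneg h0]
    nlinarith
  obtain ⟨t, htd⟩ : ∃ t, t = hh q N x := ⟨_, rfl⟩
  have h1 := ff_heavy q b h hn x h0.le
  have h2 := ff_le_pp q N x
  have h3 : dl q N x = -t := by rw [htd, hh_of_nonpos h0.le]; ring
  have ht1 : 1 ≤ t := by omega
  have h4 : pp q N x ^ 2 ≤ (q + 1 + t) * (6 * q ^ 2) := by
    have h5 : pp q N x ^ 2 ≤ ((N x).card : ℤ) * ∑ z ∈ N x, dp q N z ^ 2 :=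
      sq_sum_le_card_mul_sum_sq
    have h6 : ∑ z ∈ N x, dp q N z ^ 2 ≤ QQ q N :=
      sum_le_sum_of_subset_of_nonneg (subset_univ _) fun z _ _ => sq_nonneg _
    have h7 : ((N x).card : ℤ) = q + 1 + t := by rw [card_N q N x, h3]; ring
    rw [h7] at h5
    refine h5.trans (mul_le_mul_of_nonneg_left (h6.trans hQ) (by positivity))
  rw [← htd] at h1 ⊢
  have hb' : (b : ℤ) ≤ 1 := by exact_mod_cast hb
  have h5 : (q : ℤ) * t - 1 ≤ pp q N x := by linarith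
  have h6 : (0 : ℤ) ≤ (q : ℤ) * t - 1 := by nlinarith
  have h7 : ((q : ℤ) * t - 1) ^ 2 ≤ (q + 1 + t) * (6 * q ^ 2) :=
    (pow_le_pow_left₀ h6 h5 2).trans h4
  by_contra hcon
  have hcon' : (9 : ℤ) * q + 1 ≤ t ^ 2 := by omega
  have ht3 : 3000 ≤ t := by
    by_contra h8
    have h9 : t ≤ 2999 := by omega
    nlinarith
  have h8 : (q : ℤ) ^ 2 * (t ^ 2 - 6 * q - 6 - 7 * t) < 0 := by
    have h9 : 2 * (q : ℤ) * t ≤ (q : ℤ) ^ 2 * t := by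
      have h10 : 2 * (q : ℤ) ≤ (q : ℤ) ^ 2 := by nlinarith
      exact mul_le_mul_of_nonneg_right h10 (by omega)
    nlinarith
  have h9 : t ^ 2 - 6 * q - 6 - 7 * t < 0 := by
    by_contra h10
    have h11 : 0 ≤ t ^ 2 - 6 * (q : ℤ) - 6 - 7 * t := not_lt.1 h10
    have h12 := mul_nonneg (sq_nonneg (q : ℤ)) h11
    linarith
  have h10 : 3000 * t ≤ t ^ 2 := by nlinarith
  linarith

end Pool.Agent.C4E
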