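import Pool.Agent.C4E.VrA
import Pool.Agent.C4E.Hm

/-!
# C4E-HvX: `q * XX ≤ 3 * QQ`

PLAN. Real numbers. `n = |V| ≥ q² + q + 1`, `D = ∑ dl = DP - HH` (`DP_eq`), `μ₁ = (q + 1) DP / n`,
`μ₂ = (q + 1) HH / n`, `t = 3 √q` (`hh_sq`). Since `(q + 1) / n ≤ 1 / q`:
`μ₁ - μ₂ = (q + 1) D / n ≤ 2` (if `D ≤ 0` clear; else `D ≤ 2 q`) and
`μ₁ ≤ DP / q ≤ (2 q + HH) / q ≤ 2 + XX / q` (`HH_le_XX`).
For `x` with `hh x ≥ 1` (`dl x = - hh x`): `ff_heavy`: `pp x - ph x = ff x ≥ q hh x - 1`, so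
`u x - w x ≥ q hh x - 3 ≥ (q - 3) hh x ≥ 0` for `u = pp - μ₁`, `w = ph - μ₂`. So
`(q - 3)² hh x ^ 2 ≤ 2 u x ^ 2 + 2 w x ^ 2` for all `x` (trivial if `hh x = 0`). Sum over `x`, with
`var_dp` and `var_hh`:
`(q - 3)² XX ≤ 2 (q + 2 μ₁) QQ + 2 (q + 3 √q) XX ≤ 2 (q + 4) QQ + 4 XX QQ / q + 2 (q + 3 √q) XX`,
and `QQ ≤ 6 q²` (`QQ_le`) gives `4 XX QQ / q ≤ 24 q XX`. So
`XX (q² - 6 q - 26 q - 6 √q) ≤ 2 (q + 4) QQ`, and for `q ≥ 10^6` the bracket is `≥ q² (1 - 10^(-4))`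
and `2 (q + 4) ≤ 2.0001 q`: `q * XX ≤ 3 * QQ`.
-/

set_option linter.unusedSectionVars false

namespace Pool.Agent.C4E

open Finset

variable {V : Type} [Fintype V] [DecidableEq V]

theorem XX_le (q b : ℕ) {N : V → Finset V} (h : Cls N) (hb : b ≤ 1)
    (hn : Fintype.card V = q ^ 2 + q + 1 + b) (hq : 10 ^ 6 ≤ q) (hD : ∑ x, dl q N x ≤ 2 * q) :
    q * XX q N ≤ 3 * QQ q N := by
  have hQ := QQ_le q b h hb hn hq hD
  have hq' : (10 ^ 6 : ℝ) ≤ q := by exact_mod_cast hq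
  have hq0 : (0 : ℝ) < q := by linarith
  obtain ⟨n, hnn⟩ : ∃ n : ℝ, n = (Fintype.card V : ℝ) := ⟨_, rfl⟩
  have hn' : n = (q : ℝ) ^ 2 + q + 1 + b := by rw [hnn, hn]; push_cast; ring
  have hb0 : (0 : ℝ) ≤ (b : ℝ) := Nat.cast_nonneg b
  have hb1 : (b : ℝ) ≤ 1 := by exact_mod_cast hb
  have hnq : (q : ℝ) * (q + 1) ≤ n := by rw [hn']; nlinarith
  have hn0 : 0 < n := lt_of_lt_of_le (by positivity) hnq
  obtain ⟨μ₁, h₁⟩ : ∃ μ : ℝ, μ = (q + 1) * (DP q N : ℝ) / n := ⟨_, rfl⟩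
  obtain ⟨μ₂, h₂⟩ : ∃ μ : ℝ, μ = (q + 1) * (HH q N : ℝ) / n := ⟨_, rfl⟩
  obtain ⟨s, hs⟩ : ∃ s : ℝ, s = Real.sqrt q := ⟨_, rfl⟩
  have hs2 : s ^ 2 = q := by rw [hs]; exact Real.sq_sqrt hq0.le
  have hs0 : 0 ≤ s := by rw [hs]; exact Real.sqrt_nonneg _
  have hs1 : s ≤ q / 1000 := by
    have h3 : 1000 ≤ s := by
      by_contra h4
      have h5 : s < 1000 := not_le.1 h4
      nlinarith
    nlinarith
  have ht : ∀ x, (hh q N x : ℝ) ≤ 3 * s := by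
    intro x
    have h3 := hh_sq q b h hb hn hq hD x
    have h4 : (hh q N x : ℝ) ^ 2 ≤ 9 * q := by exact_mod_cast h3
    refine abs_le_of_sq_le_sq' ?_ (by positivity) |>.2
    rw [mul_pow, hs2]
    linarith
  have hbq : b ≤ q := hb.trans (le_trans (by norm_num) hq)
  have hv1 := var_dp q b h hn hbq μ₁ (by rw [← hnn]; exact h₁)
  have hv2 := var_hh q b h hn hbq μ₂ (3 * s) (by rw [← hnn]; exact h₂) ht
  have hX : (0 : ℝ) ≤ (XX q N : ℝ) := by exact_mod_cast XX_nonneg q N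
  have hQ0 : (0 : ℝ) ≤ (QQ q N : ℝ) := by exact_mod_cast QQ_nonneg q N
  have hQ' : (QQ q N : ℝ) ≤ 6 * (q : ℝ) ^ 2 := by exact_mod_cast hQ
  have hDe : (DP q N : ℝ) - HH q N ≤ 2 * q := by
    have h3 := DP_eq q N
    have h4 : DP q N - HH q N ≤ 2 * q := by linarith
    exact_mod_cast h4
  have hHX : (HH q N : ℝ) ≤ XX q N := by exact_mod_cast HH_le_XX q N
  have hDP0 : (0 : ℝ) ≤ (DP q N : ℝ) := by exact_mod_cast DP_nonneg q N
  have hm12 : μ₁ - μ₂ ≤ 2 := by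
    have h3 : μ₁ - μ₂ = (q + 1) * ((DP q N : ℝ) - HH q N) / n := by
      rw [h₁, h₂]; ring
    rw [h3, div_le_iff₀ hn0]
    have h4 : ((q : ℝ) + 1) * ((DP q N : ℝ) - HH q N) ≤ (q + 1) * (2 * q) :=
      mul_le_mul_of_nonneg_left hDe (by positivity)
    linarith
  have hm1 : q * μ₁ ≤ 2 * q + XX q N := by
    have h3 : q * μ₁ = ((q : ℝ) * (q + 1) / n) * DP q N := by rw [h₁]; ring
    have h4 : (q : ℝ) * (q + 1) / n ≤ 1 := by rw [div_le_one hn0]; exact hnq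
    have h5 : ((q : ℝ) * (q + 1) / n) * DP q N ≤ 1 * DP q N :=
      mul_le_mul_of_nonneg_right h4 hDP0
    rw [h3]
    linarith
  -- the pointwise inequality
  have hpt : ∀ x, ((q : ℝ) - 3) ^ 2 * (hh q N x : ℝ) ^ 2 ≤
      2 * ((pp q N x : ℝ) - μ₁) ^ 2 + 2 * ((ph q N x : ℝ) - μ₂) ^ 2 := by
    intro x
    rcases le_or_gt 0 (dl q N x) with h0 | h0
    · rw [hh_of_nonneg h0]
      have h3 := sq_nonneg ((pp q N x : ℝ) - μ₁)
      have h4 := sq_nonneg ((ph q N x : ℝ) - μ₂)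
      push_cast
      linarith
    · have h3 := ff_heavy q b h hn x h0.le
      have h4 := ff_eq q N x
      have h5 : 1 ≤ hh q N x := by rw [hh_of_nonpos h0.le]; omega
      have h5' : (1 : ℝ) ≤ (hh q N x : ℝ) := by exact_mod_cast h5
      have h6 : (q : ℝ) * (hh q N x : ℝ) - b ≤ (pp q N x : ℝ) - ph q N x := by
        rw [h4] at h3
        exact_mod_cast h3
      have h7 : ((q : ℝ) - 3) * (hh q N x : ℝ) ≤
          ((pp q N x : ℝ) - μ₁) - ((ph q N x : ℝ) - μ₂) := by linarith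
      have h8 : 0 ≤ ((q : ℝ) - 3) * (hh q N x : ℝ) := by
        apply mul_nonneg <;> linarith
      have h9 := pow_le_pow_left₀ h8 h7 2
      rw [mul_pow] at h9
      have h10 := sq_nonneg (((pp q N x : ℝ) - μ₁) + ((ph q N x : ℝ) - μ₂))
      linarith
  have hsum : ((q : ℝ) - 3) ^ 2 * (XX q N : ℝ) ≤
      2 * ((q + 2 * μ₁) * QQ q N) + 2 * ((q + 3 * s) * XX q N) := by
    have e2 : (XX q N : ℝ) = ∑ x, (hh q N x : ℝ) ^ 2 := by
      unfold XX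
      push_cast
      rfl
    have h3 : ((q : ℝ) - 3) ^ 2 * (XX q N : ℝ) =
        ∑ x, ((q : ℝ) - 3) ^ 2 * (hh q N x : ℝ) ^ 2 := by
      rw [e2, mul_sum]
    rw [h3]
    refine (sum_le_sum fun x _ => hpt x).trans ?_
    rw [sum_add_distrib, ← mul_sum, ← mul_sum]
    linarith
  have hmQ : q * (μ₁ * QQ q N) ≤ q * (2 * QQ q N + 6 * q * XX q N) := by
    have h3 : q * μ₁ * QQ q N ≤ (2 * q + XX q N) * QQ q N :=
      mul_le_mul_of_nonneg_right hm1 hQ0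
    have h4 : (XX q N : ℝ) * QQ q N ≤ XX q N * (6 * (q : ℝ) ^ 2) :=
      mul_le_mul_of_nonneg_left hQ' hX
    nlinarith
  have hmQ' : μ₁ * QQ q N ≤ 2 * QQ q N + 6 * q * XX q N := le_of_mul_le_mul_left hmQ hq0
  have hsX : s * XX q N ≤ q / 1000 * XX q N := mul_le_mul_of_nonneg_right hs1 hX
  have hfin : (XX q N : ℝ) * ((q : ℝ) ^ 2 - 33 * q) ≤ 2 * (q + 4) * QQ q N := by
    have h6 : (0 : ℝ) ≤ q * XX q N := by positivity
    linarith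
  have hgoal : (q : ℝ) * XX q N ≤ 3 * QQ q N := by
    by_contra hcon
    have hcon' : 3 * (QQ q N : ℝ) < q * XX q N := not_le.1 hcon
    have hXp : (0 : ℝ) < XX q N := by
      by_contra h3
      have h4 : (XX q N : ℝ) = 0 := le_antisymm (not_lt.1 h3) hX
      rw [h4, mul_zero] at hcon'
      linarith
    have h5 : 2 * ((q : ℝ) + 4) * (3 * QQ q N) < 2 * (q + 4) * (q * XX q N) :=
      mul_lt_mul_of_pos_left hcon' (by positivity)
    have h6 : (XX q N : ℝ) * (3 * ((q : ℝ) ^ 2 - 33 * q)) < XX q N * (2 * (q + 4) * q) := by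
      linarith
    have h7 := lt_of_mul_lt_mul_left h6 hXp.le
    nlinarith
  exact_mod_cast hgoal

end Pool.Agent.C4E
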