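import Pool.Agent.C4E.ABud
import Pool.Agent.C4E.HvX

/-!
# C4E-AX: squares of the deficiencies in Case A

The budget inequality and `q * XX ≤ 3 * QQ`.
-/

set_option linter.unusedSectionVars false

namespace Pool.Agent.C4E

open Finset

variable {V : Type} [Fintype V] [DecidableEq V]

private theorem ax_XX {q m : ℕ} {N : V → Finset V} {M : Finset V} (s : SysA q m N M) :
    (q : ℤ) * XX q N ≤ 3 * QQ q N := by
  have hbig : 10 ^ 6 ≤ q := le_trans (by norm_num) s.big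
  have h1 : (10 : ℤ) ^ 4 * m ≤ q := by exact_mod_cast s.mhi
  have h2 : (10 : ℤ) ^ 29 ≤ m := by exact_mod_cast s.mlo
  refine XX_le q 0 s.cls (by norm_num) s.card hbig ?_
  have h3 := s.sum
  linarith

theorem QQ_A {q m : ℕ} {N : V → Finset V} {M : Finset V} (s : SysA q m N M) :
    QQ q N ≤ 3 * m * q := by
  have hb := bud s
  have hx := ax_XX s
  have h1 : (0 : ℤ) ≤ ∑ x ∈ Fl q N, (ff q N x - 1) := by
    refine sum_nonneg fun x hx => ?_
    have h := full_ff s (mem_Fl.1 hx)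
    linarith
  have h2 : (0 : ℤ) ≤ ∑ x ∈ Yd q N, pp q N x := sum_nonneg fun x _ => pp_nonneg q N x
  have h3 := card_Yd_le q N
  have h4 := DP_eq q N
  have h5 := s.sum
  have h6 := HH_le_XX q N
  have h7 : (10 : ℤ) ^ 4 * m ≤ q := by exact_mod_cast s.mhi
  have h8 : (10 : ℤ) ^ 29 ≤ m := by exact_mod_cast s.mlo
  have hm0 : (0 : ℤ) < m := lt_of_lt_of_le (by norm_num) h8
  have hq0 : (0 : ℤ) < q := by linarith
  have h9 : QQ q N ≤ 2 * m * q + 2 * q + 4 * m + 1 + 3 * XX q N := by linarith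
  have h10 : (q : ℤ) * QQ q N ≤ q * (2 * m * q + 2 * q + 4 * m + 1) + 9 * QQ q N := by
    have := mul_le_mul_of_nonneg_left h9 hq0.le
    linarith
  by_contra hcon
  push Not at hcon
  have h11 : ((q : ℤ) - 9) * (3 * m * q) ≤ ((q : ℤ) - 9) * QQ q N :=
    mul_le_mul_of_nonneg_left hcon.le (by linarith)
  have h12 : (q : ℤ) * ((q - 9) * (3 * m)) ≤ q * (2 * m * q + 2 * q + 4 * m + 1) := by linarith
  have h13 : ((q : ℤ) - 9) * (3 * m) ≤ 2 * m * q + 2 * q + 4 * m + 1 :=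
    le_of_mul_le_mul_left h12 hq0
  have h14 : (10 : ℤ) ^ 29 * q ≤ m * q := mul_le_mul_of_nonneg_right h8 hq0.le
  linarith

theorem XX_A {q m : ℕ} {N : V → Finset V} {M : Finset V} (s : SysA q m N M) :
    XX q N ≤ 9 * m := by
  have h1 := QQ_A s
  have h2 := ax_XX s
  have h7 : (10 : ℤ) ^ 4 * m ≤ q := by exact_mod_cast s.mhi
  have h8 : (10 : ℤ) ^ 29 ≤ m := by exact_mod_cast s.mlo
  have hm0 : (0 : ℤ) < m := lt_of_lt_of_le (by norm_num) h8
  have hq0 : (0 : ℤ) < q := by linarith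
  have h3 : (q : ℤ) * XX q N ≤ q * (9 * m) := by linarith
  exact le_of_mul_le_mul_left h3 hq0

end Pool.Agent.C4E
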