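import Pool.Agent.C4E.Defs2
import Pool.Agent.C4E.AH

/-!
# C4E-AZ: almost all vertices are full with `f = 1` (Case A)

PLAN. `HH ≤ XX ≤ 1` (`HH_le_XX`, `XX_one`). `bud` (all `pp ≥ 0`, `|Yd| ≤ DP ≤ QQ`):
`∑_{x ∈ Fl} (ff x - 1) ≤ q + 2 m (q + 1) + 2`, so `N₂ = |{x ∈ Fl : ff x ≥ 2}|` is at most that
(`full_ff`). `Zb = Yd ∪ Hv ∪ {x ∈ Fl : ff x ≠ 1}`: `|Zb| ≤ |Yd| + 1 + N₂`,
`|Yd| ≤ DP ≤ q + 2 + 2 m`; so `|Zb| ≤ 2 m q + 2 q + 4 m + 5 ≤ 2.1 m q` (`m ≥ 10^29`).
`card_Exc`: if the set has at least `9 m + 1` elements take a subset `W` with exactly `9 m` elements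
(`Finset.exists_subset_card_eq`). `∑_{x ∈ W} |N x ∩ Zb| ≥ 9 m q / 4`. On the other hand
`hub_cnt` with `v z = if z ∈ Zb then 1 else 0`, `M = 1`:
`2 ∑_{x ∈ W} |N x ∩ Zb| ≤ 2 |Zb| + 9 m (9 m - 1)`. So `4.5 m q ≤ 4.2 m q + 81 m²`, i.e.
`0.3 q ≤ 81 m`, contradiction to `10^4 m ≤ q`.
-/

set_option linter.unusedSectionVars false

namespace Pool.Agent.C4E

open Finset

variable {V : Type} [Fintype V] [DecidableEq V]

theorem card_Zb {q m : ℕ} {N : V → Finset V} {M : Finset V} (s : SysA q m N M) :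
    10 * (Zb q N).card ≤ 21 * m * q := by
  have hX1 := XX_one s
  have hH1 : HH q N ≤ 1 := (HH_le_XX q N).trans hX1
  have hb := bud s
  have hY1 := card_Yd_le q N
  have hY2 := DP_le_QQ q N
  have hDP : DP q N ≤ q + 2 + 2 * m := by
    rw [DP_eq]
    have := s.sum
    linarith
  have hHv := card_Hv_le q N
  have hpp : 0 ≤ ∑ x ∈ Yd q N, pp q N x := sum_nonneg fun x _ => pp_nonneg q N x
  obtain ⟨F, hF⟩ : ∃ F : Finset V, F = (Fl q N).filter (fun x => ff q N x ≠ 1) := ⟨_, rfl⟩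
  have hF1 : (F.card : ℤ) ≤ ∑ x ∈ Fl q N, (ff q N x - 1) := by
    have h1 : (F.card : ℤ) = ∑ x ∈ F, (1 : ℤ) := by simp
    rw [h1]
    calc ∑ x ∈ F, (1 : ℤ) ≤ ∑ x ∈ F, (ff q N x - 1) := by
          refine sum_le_sum fun x hx => ?_
          rw [hF, mem_filter, mem_Fl] at hx
          have h2 := full_ff s hx.1
          have h3 := hx.2
          omega
      _ ≤ _ := by
          refine sum_le_sum_of_subset_of_nonneg ?_ fun x hx _ => ?_
          · rw [hF]; exact filter_subset _ _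
          · have h2 := full_ff s (mem_Fl.1 hx)
            omega
  have hsub : Zb q N ⊆ Yd q N ∪ Hv q N ∪ F := by
    intro x hx
    rw [mem_Zb] at hx
    rw [mem_union, mem_union, mem_Yd, mem_Hv, hF, mem_filter, mem_Fl]
    rcases lt_trichotomy (dl q N x) 0 with h | h | h
    · left; right; omega
    · right
      exact ⟨h, fun hc => hx ⟨h, hc⟩⟩
    · left; left; omega
  have hc1 : (Zb q N).card ≤ (Yd q N).card + (Hv q N).card + F.card :=
    (card_le_card hsub).trans ((card_union_le _ _).trans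
      (Nat.add_le_add_right (card_union_le _ _) _))
  have hc2 : ((Zb q N).card : ℤ) ≤ (Yd q N).card + (Hv q N).card + F.card := by exact_mod_cast hc1
  have hmq : (10 : ℤ) ^ 4 * m ≤ q := by exact_mod_cast s.mhi
  have hq : (10 : ℤ) ^ 100 ≤ q := by exact_mod_cast s.big
  have hm : (10 : ℤ) ^ 29 ≤ m := by exact_mod_cast s.mlo
  have hc3 : ((Zb q N).card : ℤ) ≤ 2 * m * q + 2 * q + 4 * m + 6 := by
    linarith
  have hm3 : (22 : ℤ) * q ≤ m * q := by
    have h1 : (22 : ℤ) ≤ m := le_trans (by norm_num) hm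
    have h2 : (0 : ℤ) ≤ q := by positivity
    exact mul_le_mul_of_nonneg_right h1 h2
  have hq3 : (1000 : ℤ) ≤ q := le_trans (by norm_num) hq
  have hfin : 10 * ((Zb q N).card : ℤ) ≤ 21 * m * q := by
    norm_num at hmq
    linarith
  exact_mod_cast hfin

theorem card_Exc {q m : ℕ} {N : V → Finset V} {M : Finset V} (s : SysA q m N M) :
    (univ.filter fun x => q ≤ 4 * (N x ∩ Zb q N).card).card ≤ 9 * m := by
  by_contra hcon
  push Not at hcon
  obtain ⟨W, hWs, hWc⟩ := exists_subset_card_eq hcon.le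
  have h1 := hub_cnt s.cls (fun z => if z ∈ Zb q N then 1 else 0)
    (fun x => by split_ifs <;> norm_num) 1
    (fun x => by split_ifs <;> norm_num) W
  have h2 : ∑ z, (if z ∈ Zb q N then (1 : ℤ) else 0) = (Zb q N).card := by
    rw [← sum_filter, sum_const, nsmul_eq_mul, mul_one]
    congr 2
    ext z
    simp
  have h3 : ∀ x ∈ W, ∑ z ∈ N x, (if z ∈ Zb q N then (1 : ℤ) else 0) = (N x ∩ Zb q N).card := by
    intro x _
    rw [← sum_filter, sum_const, nsmul_eq_mul, mul_one, filter_mem_eq_inter]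
  rw [h2, sum_congr rfl h3, hWc] at h1
  have h4 : (9 * (m : ℤ)) * q ≤ 4 * ∑ x ∈ W, ((N x ∩ Zb q N).card : ℤ) := by
    rw [mul_sum]
    calc (9 * (m : ℤ)) * q = ∑ _x ∈ W, (q : ℤ) := by
          rw [sum_const, nsmul_eq_mul, hWc]; push_cast; ring
      _ ≤ _ := by
          refine sum_le_sum fun x hx => ?_
          have h5 := (mem_filter.1 (hWs hx)).2
          exact_mod_cast h5
  have h5 : 10 * ((Zb q N).card : ℤ) ≤ 21 * m * q := by exact_mod_cast card_Zb s
  have hmq : (10 : ℤ) ^ 4 * m ≤ q := by exact_mod_cast s.mhi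
  have hm : (10 : ℤ) ^ 29 ≤ m := by exact_mod_cast s.mlo
  have hm0 : (0 : ℤ) < m := lt_of_lt_of_le (by norm_num) hm
  push_cast at h1
  have h6 : 6 * ((m : ℤ) * q) ≤ 1620 * (m * m) := by
    nlinarith
  have h7 : 6 * (q : ℤ) ≤ 1620 * m := by
    have h8 : (6 * (q : ℤ)) * m ≤ (1620 * m) * m := by
      calc (6 * (q : ℤ)) * m = 6 * ((m : ℤ) * q) := by ring
        _ ≤ 1620 * (m * m) := h6
        _ = _ := by ring
    exact le_of_mul_le_mul_right h8 hm0
  norm_num at hmq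
  linarith

end Pool.Agent.C4E
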