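import Mathlib

/-!
# C4E-Ari5: the eigenvalues of a symmetric 0/1 matrix with row sums 2 are `ζ + ζ⁻¹` (Kronecker)
-/

set_option autoImplicit false

open IntermediateField Matrix

namespace Pool.Agent.C4E

variable {W : Type} [Fintype W] [DecidableEq W]

/-- roots of the characteristic polynomial have eigenvectors -/
theorem exists_eigvec {K : Type*} [Field K] (M : Matrix W W K) {t : K}
    (h : M.charpoly.IsRoot t) : ∃ v : W → K, v ≠ 0 ∧ M *ᵥ v = t • v := by
  have h1 : (scalar W t - M).det = 0 := by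
    rw [← Matrix.eval_charpoly]; exact h
  obtain ⟨v, hv, hv2⟩ := Matrix.exists_mulVec_eq_zero_iff.mpr h1
  refine ⟨v, hv, ?_⟩
  rw [Matrix.sub_mulVec, sub_eq_zero] at hv2
  rw [← hv2]
  ext i
  simp [Matrix.scalar_apply, Matrix.mulVec_diagonal]

theorem root_of_eigvec {K : Type*} [Field K] (M : Matrix W W K) {t : K} {v : W → K} (hv : v ≠ 0)
    (h : M *ᵥ v = t • v) : M.charpoly.IsRoot t := by
  rw [Polynomial.IsRoot, Matrix.eval_charpoly]
  apply Matrix.exists_mulVec_eq_zero_iff.mp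
  refine ⟨v, hv, ?_⟩
  rw [Matrix.sub_mulVec, h, sub_eq_zero]
  ext i
  simp [Matrix.scalar_apply, Matrix.mulVec_diagonal]

/-- complex eigenvalues -/
theorem eig_complex {M : Matrix W W ℤ} (hs : ∀ x y, M x y = M y x) (h0 : ∀ x y, 0 ≤ M x y)
    (h2 : ∀ x, ∑ y, M x y = 2) {μ : ℂ} {w : W → ℂ} (hw : w ≠ 0)
    (h : (M.map (Int.castRingHom ℂ)) *ᵥ w = μ • w) : μ.im = 0 ∧ |μ.re| ≤ 2 := by
  have hx : ∀ x, ∑ y, (M x y : ℂ) * w y = μ * w x := by
    intro x
    have := congrFun h x
    simpa [Matrix.mulVec, dotProduct] using this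
  obtain ⟨x₁, hx₁⟩ : ∃ x, w x ≠ 0 := by
    by_contra hne
    push Not at hne
    exact hw (funext hne)
  obtain ⟨x₀, -, hmax⟩ := Finset.exists_max_image Finset.univ (fun x => ‖w x‖)
    ⟨x₁, Finset.mem_univ _⟩
  have hpos : 0 < ‖w x₀‖ := lt_of_lt_of_le (norm_pos_iff.mpr hx₁) (hmax x₁ (Finset.mem_univ _))
  have hb : ‖μ‖ ≤ 2 := by
    have h3 : ‖μ‖ * ‖w x₀‖ ≤ 2 * ‖w x₀‖ := by
      rw [← norm_mul, ← hx x₀]
      calc ‖∑ y, (M x₀ y : ℂ) * w y‖ ≤ ∑ y, ‖(M x₀ y : ℂ) * w y‖ := norm_sum_le _ _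
        _ ≤ ∑ y, (M x₀ y : ℝ) * ‖w x₀‖ := by
          refine Finset.sum_le_sum fun y _ => ?_
          rw [norm_mul, Complex.norm_intCast, abs_of_nonneg (by exact_mod_cast h0 x₀ y)]
          exact mul_le_mul_of_nonneg_left (hmax y (Finset.mem_univ _)) (by exact_mod_cast h0 x₀ y)
        _ = 2 * ‖w x₀‖ := by
          rw [← Finset.sum_mul]
          congr 1
          exact_mod_cast h2 x₀
    exact le_of_mul_le_mul_right h3 hpos
  refine ⟨?_, (Complex.abs_re_le_norm μ).trans hb⟩
  set c : ℂ := ∑ x, (starRingEnd ℂ) (w x) * ∑ y, (M x y : ℂ) * w y with hc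
  have hc1 : c = μ * ((∑ x, Complex.normSq (w x) : ℝ) : ℂ) := by
    rw [hc]
    push_cast
    rw [Finset.mul_sum]
    refine Finset.sum_congr rfl fun x _ => ?_
    rw [hx x, Complex.normSq_eq_conj_mul_self]; ring
  have hc2 : (starRingEnd ℂ) c = c := by
    rw [hc, map_sum]
    have e1 : ∀ x, (starRingEnd ℂ) ((starRingEnd ℂ) (w x) * ∑ y, (M x y : ℂ) * w y)
        = ∑ y, (M x y : ℂ) * (starRingEnd ℂ) (w y) * w x := by
      intro x
      rw [map_mul, map_sum, Complex.conj_conj, Finset.mul_sum]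
      refine Finset.sum_congr rfl fun y _ => ?_
      rw [map_mul, map_intCast]; ring
    simp_rw [e1]
    rw [Finset.sum_comm]
    refine Finset.sum_congr rfl fun x _ => ?_
    rw [Finset.mul_sum]
    refine Finset.sum_congr rfl fun y _ => ?_
    rw [hs y x]; ring
  have hs0 : 0 < ∑ x, Complex.normSq (w x) := by
    refine Finset.sum_pos' (fun x _ => Complex.normSq_nonneg _) ⟨x₁, Finset.mem_univ _, ?_⟩
    exact Complex.normSq_pos.mpr hx₁
  have h4 : c.im = 0 := Complex.conj_eq_iff_im.mp hc2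
  rw [hc1, Complex.im_mul_ofReal] at h4
  rcases mul_eq_zero.mp h4 with h5 | h5
  · exact h5
  · exact absurd h5 hs0.ne'

theorem quad_norm {z t : ℂ} (him : t.im = 0) (hre : |t.re| ≤ 2) (h : z ^ 2 - t * z + 1 = 0) :
    ‖z‖ = 1 := by
  have h1 := congrArg Complex.re h
  have h2 := congrArg Complex.im h
  simp only [sq, Complex.sub_re, Complex.add_re, Complex.mul_re, Complex.one_re, Complex.zero_re,
    Complex.sub_im, Complex.add_im, Complex.mul_im, Complex.one_im, Complex.zero_im, him] at h1 h2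
  have h3 : z.im * (2 * z.re - t.re) = 0 := by linarith
  have h4 : z.re ^ 2 + z.im ^ 2 = 1 := by
    rcases mul_eq_zero.mp h3 with h5 | h5
    · rw [h5] at h1 ⊢
      have h6 : |t.re| ^ 2 ≤ 4 := by
        have := abs_nonneg t.re
        nlinarith
      rw [sq_abs] at h6
      have h7 : z.re ^ 2 + 1 = t.re * z.re := by nlinarith
      have h8 : (z.re ^ 2 + 1) ^ 2 ≤ 4 * z.re ^ 2 := by
        rw [h7, mul_pow]
        nlinarith [sq_nonneg z.re]
      have h9 : (z.re ^ 2 - 1) ^ 2 ≤ 0 := by nlinarith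
      have h10 : z.re ^ 2 - 1 = 0 := by
        have := le_antisymm h9 (sq_nonneg _)
        exact pow_eq_zero_iff (two_ne_zero) |>.mp this
      linarith
    · have h6 : t.re = 2 * z.re := by linarith
      rw [h6] at h1
      nlinarith
  have h5 : ‖z‖ ^ 2 = 1 := by
    rw [Complex.sq_norm, Complex.normSq_apply]; linarith
  have := norm_nonneg z
  nlinarith

/-- Kronecker: eigenvalues in any algebraically closed field of characteristic zero that is
algebraic over `ℚ` -/
theorem kron {E : Type*} [Field E] [CharZero E] [IsAlgClosed E] [Algebra.IsIntegral ℚ E]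
    {M : Matrix W W ℤ} (hs : ∀ x y, M x y = M y x) (h0 : ∀ x y, 0 ≤ M x y)
    (h2 : ∀ x, ∑ y, M x y = 2) {t : E} {w : W → E} (hw : w ≠ 0)
    (h : (M.map (Int.castRingHom E)) *ᵥ w = t • w) :
    ∃ (m : ℕ) (ζ : E), 0 < m ∧ IsPrimitiveRoot ζ m ∧ t = ζ + ζ⁻¹ := by
  have hroot := root_of_eigvec _ hw h
  rw [Matrix.charpoly_map] at hroot
  -- the root `z` of `X ^ 2 - t X + 1`
  obtain ⟨z, hz⟩ : ∃ z : E, z ^ 2 - t * z + 1 = 0 := by
    have hd : (Polynomial.X ^ 2 - Polynomial.C t * Polynomial.X + 1 : Polynomial E).degree = 2 := by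
      compute_degree!
    obtain ⟨z, hz⟩ := IsAlgClosed.exists_root
      (Polynomial.X ^ 2 - Polynomial.C t * Polynomial.X + 1 : Polynomial E) (by rw [hd]; norm_num)
    exact ⟨z, by simpa [Polynomial.IsRoot] using hz⟩
  have hz0 : z ≠ 0 := by
    rintro rfl
    simp at hz
  have htz : t = z + z⁻¹ := by
    field_simp
    linear_combination -hz
  have hti : IsIntegral ℤ t :=
    ⟨M.charpoly, M.charpoly_monic, by
      rw [Polynomial.IsRoot, Polynomial.eval_map] at hroot
      exact hroot⟩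
  have hzi : IsIntegral ℤ z := by
    have h3 : IsIntegral (integralClosure ℤ E) z := by
      refine ⟨Polynomial.X ^ 2 - Polynomial.C (⟨t, hti⟩ : integralClosure ℤ E) * Polynomial.X + 1,
        ?_, ?_⟩
      · monicity!
      · simp only [Polynomial.eval₂_add, Polynomial.eval₂_sub, Polynomial.eval₂_mul,
          Polynomial.eval₂_pow, Polynomial.eval₂_X, Polynomial.eval₂_C, Polynomial.eval₂_one]
        exact hz
    exact isIntegral_trans z h3
  let K := ℚ⟮z⟯
  have : NumberField K := {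
    to_charZero := ℚ⟮z⟯.charZero,
    to_finiteDimensional := adjoin.finiteDimensional (Algebra.IsIntegral.isIntegral z) }
  let y : K := ⟨z, mem_adjoin_simple_self ℚ z⟩
  have hyz : algebraMap K E y = z := rfl
  have hyi : IsIntegral ℤ y := by
    rw [← isIntegral_algebraMap_iff (algebraMap K E).injective]
    exact hzi
  have hroot2 : Polynomial.eval₂ (Int.castRingHom K) (y + y⁻¹) M.charpoly = 0 := by
    apply (algebraMap K E).injective
    rw [Polynomial.hom_eval₂, map_zero, map_add, map_inv₀, hyz, ← htz]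
    rw [Polynomial.IsRoot, Polynomial.eval_map] at hroot
    have : (algebraMap K E).comp (Int.castRingHom K) = Int.castRingHom E := RingHom.ext_int _ _
    rw [this]; exact hroot
  obtain ⟨n, hn, hyn⟩ := NumberField.Embeddings.pow_eq_one_of_norm_eq_one K ℂ hyi (by
    intro φ
    have hy0 : y ≠ 0 := by
      intro h4
      apply hz0
      rw [← hyz, h4, map_zero]
    have h5 : Polynomial.eval₂ (Int.castRingHom ℂ) (φ (y + y⁻¹)) M.charpoly = 0 := by
      have h6 := congrArg φ hroot2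
      rw [Polynomial.hom_eval₂, map_zero] at h6
      have : φ.comp (Int.castRingHom K) = Int.castRingHom ℂ := RingHom.ext_int _ _
      rw [this] at h6; exact h6
    have h7 : ((M.map (Int.castRingHom ℂ)).charpoly).IsRoot (φ (y + y⁻¹)) := by
      rw [Matrix.charpoly_map, Polynomial.IsRoot, Polynomial.eval_map]
      exact h5
    obtain ⟨v, hv, hv2⟩ := exists_eigvec _ h7
    obtain ⟨h8, h9⟩ := eig_complex hs h0 h2 hv hv2
    refine quad_norm h8 h9 ?_
    have hφ : φ y ≠ 0 := by
      rw [Ne, map_eq_zero]; exact hy0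
    rw [map_add, map_inv₀]
    field_simp
    ring)
  have hzn : z ^ n = 1 := by
    rw [← hyz, ← map_pow, hyn, map_one]
  obtain ⟨m, hm, hm2⟩ := IsPrimitiveRoot.exists_pos hzn (by omega)
  exact ⟨m, z, hm, hm2, htz⟩

end Pool.Agent.C4E
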