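import Pool.Agent.C4E.Ari4
import Pool.Agent.C4E.Ari5

/-!
# C4E-Ari6: the trace
-/

set_option autoImplicit false

open IntermediateField Matrix Polynomial

namespace Pool.Agent.C4E

variable {W : Type} [Fintype W] [DecidableEq W]

theorem conj_mult {E : Type*} [Field E] [CharZero E] [Algebra.IsIntegral ℚ E] [IsAlgClosed E]
    (P : ℚ[X]) {x : E} (L : IntermediateField ℚ E) (hx : x ∉ L) (hx2 : x ^ 2 ∈ L) :
    rootMultiplicity (-x) (P.map (algebraMap ℚ E)) = rootMultiplicity x (P.map (algebraMap ℚ E)) := by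
  have hNQ : Normal ℚ E := normal_iff.mpr fun y =>
    ⟨Algebra.IsIntegral.isIntegral y, IsAlgClosed.splits _⟩
  have hN : Normal L E := Normal.tower_top_of_normal ℚ L E
  have hx0 : x ≠ 0 := by
    rintro rfl
    exact hx L.zero_mem
  have hxa : IsAlgebraic L x := by
    have h1 : IsAlgebraic ℚ x := (Algebra.IsIntegral.isIntegral (R := ℚ) x).isAlgebraic
    exact h1.tower_top L
  have hmp : minpoly L x = X ^ 2 - C (⟨x ^ 2, hx2⟩ : L) := by
    symm
    apply minpoly.unique_of_degree_le_degree_minpoly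
    · exact monic_X_pow_sub_C _ (by norm_num)
    · simp only [map_sub, map_pow, aeval_X, aeval_C]
      exact sub_self _
    · rw [degree_X_pow_sub_C (by norm_num)]
      have h2 : 2 ≤ (minpoly L x).natDegree := by
        rw [minpoly.two_le_natDegree_iff hxa.isIntegral]
        rintro ⟨y, hy⟩
        apply hx
        rw [← hy]; exact y.2
      rw [degree_eq_natDegree (minpoly.ne_zero hxa.isIntegral)]
      exact_mod_cast h2
  obtain ⟨σ, hσ⟩ := minpoly.exists_algEquiv_of_root' (K := L) (L := E) (x := -x) (y := x) hxa (by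
    rw [hmp]
    simp only [map_sub, map_pow, aeval_X, aeval_C, neg_sq]
    exact sub_self _)
  have h3 : P.map (algebraMap ℚ E) = (P.map (algebraMap ℚ E)).map (σ : E →+* E) := by
    rw [Polynomial.map_map]
    congr 1
    exact RingHom.ext_rat _ _
  have h4 := eq_rootMultiplicity_map (p := P.map (algebraMap ℚ E)) (f := (σ : E →+* E))
    σ.injective x
  rw [← h3] at h4
  have h5 : (σ : E →+* E) x = -x := hσ
  rw [h5] at h4
  exact h4.symm

theorem trace_zero {E : Type*} [Field E] [CharZero E] [Algebra.IsIntegral ℚ E] [IsAlgClosed E]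
    {q : ℤ} (hq4 : 4 ∣ q) (hq0 : 4 ≤ q) (hq : ¬ IsSquare q)
    (hq1 : ¬ IsSquare (q + 1)) (A : Matrix W W ℚ)
    (h : ∀ x : E, x ≠ 0 →
      ((A.map (algebraMap ℚ E)).charpoly).IsRoot x →
      ∃ (m : ℕ) (ζ : E), 0 < m ∧ IsPrimitiveRoot ζ m ∧ x ^ 2 = q - ζ - ζ⁻¹) :
    A.trace = 0 := by
  classical
  set χ := (A.map (algebraMap ℚ E)).charpoly with hχ
  have hχ2 : χ = A.charpoly.map (algebraMap ℚ E) := Matrix.charpoly_map A _
  have hcm : ∀ x : E, x ≠ 0 → χ.IsRoot x → rootMultiplicity (-x) χ = rootMultiplicity x χ := by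
    intro x hx0 hx
    obtain ⟨m, ζ, hm, hζ, hx2⟩ := h x hx0 hx
    rw [hχ2]
    refine conj_mult _ (IntermediateField.adjoin ℚ ({ζ} : Set E)) ?_ ?_
    · intro hmem
      exact nonsq hq4 hq0 hq hq1 hm hζ hmem hx2
    · rw [hx2]
      have h1 : ζ ∈ IntermediateField.adjoin ℚ ({ζ} : Set E) :=
        IntermediateField.mem_adjoin_simple_self ℚ ζ
      exact sub_mem (sub_mem (intCast_mem _ q) h1) (inv_mem h1)
  have hχ0 : χ ≠ 0 := (Matrix.charpoly_monic _).ne_zero
  have hcm2 : ∀ x : E, rootMultiplicity (-x) χ = rootMultiplicity x χ := by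
    intro x
    by_cases hx0 : x = 0
    · rw [hx0, neg_zero]
    by_cases hx : χ.IsRoot x
    · exact hcm x hx0 hx
    by_cases hx' : χ.IsRoot (-x)
    · have := hcm (-x) (neg_ne_zero.mpr hx0) hx'
      rw [neg_neg] at this
      exact this.symm
    · rw [rootMultiplicity_eq_zero hx, rootMultiplicity_eq_zero hx']
  have hroots : χ.roots.map (fun x => -x) = χ.roots := by
    ext x
    have h1 : (χ.roots.map (fun x => -x)).count x = χ.roots.count (-x) := by
      have := Multiset.count_map_eq_count' (fun x : E => -x) χ.roots neg_injective (-x)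
      rw [neg_neg] at this
      exact this
    rw [h1, count_roots, count_roots, hcm2]
  have htr : (A.map (algebraMap ℚ E)).trace = χ.roots.sum := Matrix.trace_eq_sum_roots_charpoly _
  have hsum : χ.roots.sum = - χ.roots.sum := by
    conv_lhs => rw [← hroots]
    rw [Multiset.sum_map_neg']
  have hs0 : χ.roots.sum = 0 := by
    have : (2 : E) * χ.roots.sum = 0 := by linear_combination hsum
    rcases mul_eq_zero.mp this with h1 | h1
    · exact absurd h1 two_ne_zero
    · exact h1
  have h2 : algebraMap ℚ E A.trace = 0 := by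
    rw [← hs0, ← htr, Matrix.trace, map_sum]
    rfl
  exact (map_eq_zero _).mp h2

theorem exists_E : ∃ (E : Type) (_ : Field E) (_ : CharZero E),
    Algebra.IsIntegral ℚ E ∧ IsAlgClosed E := by
  refine ⟨AlgebraicClosure ℚ, inferInstance, inferInstance, ?_, inferInstance⟩
  constructor
  intro x
  have h1 : IsAlgebraic ℚ x := (AlgebraicClosure.isAlgebraic ℚ).isAlgebraic x
  obtain ⟨p, hp, hp2⟩ := h1.isIntegral
  refine ⟨p, hp, ?_⟩
  rw [← hp2]

end Pool.Agent.C4E
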