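import Pool.Agent.C4E.Defs
import Pool.Agent.C4E.Ari6

/-!
# C4E-Ari: the two exact objects are impossible for `q = 2 ^ k`

* `ar1`: no exact object with `b = 1` (`k ≥ 4`): the antisymmetric part of the adjacency matrix is
  a matrix `C` of odd size with `C ^ 2 = q + 1`, so `q + 1` would be a square.
* `ar2`: an exact object with `b = 2` has exactly `q + 1` loops (`k ≥ 5` odd).
-/

set_option autoImplicit false

open Finset Matrix

namespace Pool.Agent.C4E

variable {W : Type} [Fintype W] [DecidableEq W]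

/-- the adjacency matrix -/
def adjA (R : Type*) [Zero R] [One R] (N : W → Finset W) : Matrix W W R :=
  Matrix.of fun x y => if y ∈ N x then 1 else 0

/-- the matrix of the relation `Sf` -/
def sfM (R : Type*) [Zero R] [One R] (N : W → Finset W) : Matrix W W R :=
  Matrix.of fun x y => if y ∈ Sf N x then 1 else 0

private theorem sf_comm {N : W → Finset W} {x y : W} : y ∈ Sf N x ↔ x ∈ Sf N y := by
  simp only [Sf, mem_filter, mem_univ, true_and]
  rw [inter_comm, ne_comm]

private theorem nb_comm {q b : ℕ} {N : W → Finset W} (h : Exa q b N) {x y : W} :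
    y ∈ N x ↔ x ∈ N y :=
  ⟨h.cls.symm x y, h.cls.symm y x⟩

/-- `A² = q I + J - M`, entrywise -/
theorem adj_sq {R : Type*} [CommRing R] {q b : ℕ} {N : W → Finset W} (h : Exa q b N) (x y : W) :
    ∑ z, adjA R N x z * adjA R N z y = (if x = y then (q : R) else 0) + 1 - sfM R N x y := by
  have h1 : ∑ z, adjA R N x z * adjA R N z y = ((N x ∩ N y).card : R) := by
    have h2 : ∀ z, adjA R N x z * adjA R N z y = if z ∈ N x ∩ N y then 1 else 0 := by
      intro z
      simp only [adjA, Matrix.of_apply, mem_inter]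
      by_cases h3 : z ∈ N x
      · by_cases h4 : z ∈ N y
        · simp [h3, h4, nb_comm h |>.mp h4]
        · simp [h3, h4, (nb_comm h).not.mp h4]
      · simp [h3]
    simp_rw [h2]
    rw [Finset.sum_boole]
    congr 2
    ext z; simp
  rw [h1]
  by_cases hxy : x = y
  · subst hxy
    have h3 : x ∉ Sf N x := by simp [Sf]
    rw [inter_self, h.deg]
    simp [sfM, h3]
  · rw [if_neg hxy]
    by_cases h3 : y ∈ Sf N x
    · have h4 : N x ∩ N y = ∅ := by
        simp only [Sf, mem_filter, mem_univ, true_and] at h3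
        exact h3.2
      simp [sfM, h3, h4]
    · have h4 : (N x ∩ N y).card = 1 := by
        have h5 := h.cls.cod x y hxy
        have h6 : N x ∩ N y ≠ ∅ := by
          intro h7
          apply h3
          simp only [Sf, mem_filter, mem_univ, true_and]
          exact ⟨fun h8 => hxy h8.symm, h7⟩
        have h7 : 0 < (N x ∩ N y).card := card_pos.mpr (nonempty_iff_ne_empty.mpr h6)
        omega
      simp [sfM, h3, h4]

theorem adj_row {R : Type*} [CommRing R] {q b : ℕ} {N : W → Finset W} (h : Exa q b N) (x : W) :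
    ∑ y, adjA R N x y = (q : R) + 1 := by
  simp only [adjA, Matrix.of_apply, Finset.sum_boole, Finset.filter_univ_mem]
  rw [h.deg]; push_cast; ring

theorem adj_symm {R : Type*} [CommRing R] {q b : ℕ} {N : W → Finset W} (h : Exa q b N) (x y : W) :
    adjA R N x y = adjA R N y x := by
  simp only [adjA, Matrix.of_apply]
  rw [if_congr (nb_comm h) rfl rfl]

theorem sf_symm {R : Type*} [CommRing R] {N : W → Finset W} (x y : W) :
    sfM R N x y = sfM R N y x := by
  simp only [sfM, Matrix.of_apply]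
  rw [if_congr sf_comm rfl rfl]

theorem sf_row {R : Type*} [CommRing R] {q b : ℕ} {N : W → Finset W} (h : Exa q b N) (x : W) :
    ∑ y, sfM R N x y = (b : R) := by
  have h1 : ∑ y, ∑ z, adjA R N x z * adjA R N z y = ((q : R) + 1) * (q + 1) := by
    rw [Finset.sum_comm]
    simp_rw [← Finset.mul_sum, adj_row h]
    rw [← Finset.sum_mul, adj_row h]
  simp_rw [adj_sq h] at h1
  rw [Finset.sum_sub_distrib, Finset.sum_add_distrib, Finset.sum_ite_eq] at h1
  simp only [mem_univ, if_true, sum_const, card_univ, nsmul_eq_mul, mul_one] at h1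
  rw [h.card] at h1
  push_cast at h1
  linear_combination -h1

private theorem pow_nonsq {k : ℕ} (ho : Odd k) : ¬ IsSquare ((2 : ℤ) ^ k) := by
  rintro ⟨r, hr⟩
  have h1 : (2 : ℕ) ^ k = r.natAbs * r.natAbs := by
    have := congrArg Int.natAbs hr
    rw [Int.natAbs_mul, Int.natAbs_pow] at this
    simpa using this
  have h0 : r.natAbs ∣ 2 ^ k := ⟨_, h1⟩
  obtain ⟨j, -, hj⟩ := (Nat.dvd_prime_pow Nat.prime_two).mp h0
  rw [hj, ← pow_add] at h1
  have := Nat.pow_right_injective (le_refl 2) h1
  obtain ⟨t, ht⟩ := ho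
  omega

private theorem pow_succ_nonsq {k : ℕ} (hk : 4 ≤ k) : ¬ IsSquare ((2 : ℤ) ^ k + 1) := by
  rintro ⟨r, hr⟩
  have h1 : (2 : ℕ) ^ k + 1 = r.natAbs * r.natAbs := by
    have := congrArg Int.natAbs hr
    rw [Int.natAbs_mul] at this
    rw [← this]
    have h2 : ((2 : ℤ) ^ k + 1) = (((2 : ℕ) ^ k + 1 : ℕ) : ℤ) := by push_cast; ring
    rw [h2, Int.natAbs_natCast]
  obtain ⟨g, rfl⟩ : ∃ g, k = g + 2 := ⟨k - 2, by omega⟩
  set s := r.natAbs
  rcases Nat.even_or_odd' s with ⟨t, ht | ht⟩
  · rw [ht, pow_add] at h1; ring_nf at h1; omega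
  · rw [ht, pow_add] at h1
    have h2 : 2 ^ g = t * (t + 1) := by ring_nf at h1 ⊢; omega
    have h3 : t ∣ 2 ^ g := ⟨_, h2⟩
    have h4 : t + 1 ∣ 2 ^ g := ⟨t, by rw [h2]; ring⟩
    obtain ⟨i, -, hi⟩ := (Nat.dvd_prime_pow Nat.prime_two).mp h3
    obtain ⟨j, -, hj⟩ := (Nat.dvd_prime_pow Nat.prime_two).mp h4
    rcases Nat.eq_zero_or_pos i with h5 | h5
    · rw [h5, pow_zero] at hi
      rw [hi] at h2
      have h6 : 2 ^ g = 2 ^ 1 := by rw [h2]; norm_num
      have := Nat.pow_right_injective (le_refl 2) h6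
      omega
    · rcases Nat.eq_zero_or_pos j with h6 | h6
      · rw [h6, pow_zero] at hj
        have h7 : t = 0 := by omega
        rw [h7] at hi
        have : 0 < 2 ^ i := by positivity
        omega
      · obtain ⟨i', rfl⟩ : ∃ i', i = i' + 1 := ⟨i - 1, by omega⟩
        obtain ⟨j', rfl⟩ : ∃ j', j = j' + 1 := ⟨j - 1, by omega⟩
        rw [pow_succ] at hi hj
        omega

theorem ar2 (k : ℕ) (hk : 5 ≤ k) (ho : Odd k) (N : W → Finset W) (h : Exa (2 ^ k) 2 N) :
    (univ.filter fun x => x ∈ N x).card = 2 ^ k + 1 := by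
  obtain ⟨E, hF, hC, hI, hA⟩ := exists_E
  set c : ℚ := ((2 : ℚ) ^ k + 1) / (Fintype.card W : ℚ) with hc
  have hn0 : (Fintype.card W : ℚ) ≠ 0 := by
    have : Fintype.card W ≠ 0 := by rw [h.card]; positivity
    exact_mod_cast this
  have hnc : (Fintype.card W : ℚ) * c = 2 ^ k + 1 := by
    rw [hc]; field_simp
  set B : Matrix W W ℚ := Matrix.of fun x y => adjA ℚ N x y - c with hB
  have h4 : (4 : ℤ) ∣ 2 ^ k := by
    obtain ⟨g, rfl⟩ : ∃ g, k = g + 2 := ⟨k - 2, by omega⟩
    exact ⟨2 ^ g, by rw [pow_add]; ring⟩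
  have h4' : (4 : ℤ) ≤ 2 ^ k := by
    calc (4 : ℤ) = 2 ^ 2 := by norm_num
      _ ≤ 2 ^ k := pow_le_pow_right₀ (by norm_num) (by omega)
  have htr : B.trace = 0 := by
    refine trace_zero (E := E) h4 h4' (pow_nonsq ho) (pow_succ_nonsq (by omega)) B ?_
    intro x hx0 hroot
    obtain ⟨v, hv, hv2⟩ := exists_eigvec _ hroot
    have e1 : ∀ i, ∑ j, (adjA E N i j - algebraMap ℚ E c) * v j = x * v i := by
      intro i
      have := congrFun hv2 i
      simp only [Matrix.mulVec, dotProduct, Matrix.map_apply, hB, Matrix.of_apply, map_sub,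
        Pi.smul_apply, smul_eq_mul] at this
      rw [← this]
      refine Finset.sum_congr rfl fun j _ => ?_
      congr 2
      simp only [adjA, Matrix.of_apply]
      split_ifs <;> simp
    have e2 : ∑ i, v i = 0 := by
      have e3 : x * ∑ i, v i = 0 := by
        rw [Finset.mul_sum]
        simp_rw [← e1]
        rw [Finset.sum_comm]
        simp_rw [← Finset.sum_mul]
        refine Finset.sum_eq_zero fun j _ => ?_
        have e4 : ∑ i, (adjA E N i j - algebraMap ℚ E c) = 0 := by
          rw [Finset.sum_sub_distrib]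
          have e5 : ∑ i, adjA E N i j = (2 : E) ^ k + 1 := by
            have e6 : ∑ i, adjA E N i j = ∑ i, adjA E N j i :=
              Finset.sum_congr rfl fun i _ => adj_symm h i j
            rw [e6, adj_row h]; push_cast; rfl
          rw [e5, sum_const, card_univ, nsmul_eq_mul]
          have e7 := congrArg (algebraMap ℚ E) hnc
          rw [map_mul, map_natCast, map_add, map_pow, map_ofNat, map_one] at e7
          rw [e7, sub_self]
        rw [e4, zero_mul]
      rcases mul_eq_zero.mp e3 with e8 | e8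
      · exact absurd e8 hx0
      · exact e8
    have e9 : ∀ i, ∑ j, adjA E N i j * v j = x * v i := by
      intro i
      rw [← e1 i]
      simp_rw [sub_mul]
      rw [Finset.sum_sub_distrib, ← Finset.mul_sum, e2, mul_zero, sub_zero]
    have e10 : ∀ i, ∑ j, sfM E N i j * v j = (((2 ^ k : ℕ) : E) - x ^ 2) * v i := by
      intro i
      have e11 : ∑ j, (∑ z, adjA E N i z * adjA E N z j) * v j = x ^ 2 * v i := by
        simp_rw [Finset.sum_mul]
        rw [Finset.sum_comm]
        simp_rw [mul_assoc, ← Finset.mul_sum, e9]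
        have : ∀ z, adjA E N i z * (x * v z) = x * (adjA E N i z * v z) := fun z => by ring
        simp_rw [this, ← Finset.mul_sum, e9]
        ring
      simp_rw [adj_sq h] at e11
      have e12 : ∀ j, ((if i = j then ((2 ^ k : ℕ) : E) else 0) + 1 - sfM E N i j) * v j
          = (if i = j then ((2 ^ k : ℕ) : E) * v j else 0) + v j - sfM E N i j * v j := by
        intro j; split_ifs <;> ring
      simp_rw [e12] at e11
      rw [Finset.sum_sub_distrib, Finset.sum_add_distrib, Finset.sum_ite_eq, e2] at e11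
      simp only [mem_univ, if_true] at e11
      linear_combination -e11
    obtain ⟨m, ζ, hm, hζ, hθ⟩ := kron (M := sfM ℤ N) (E := E) sf_symm
      (fun x y => by simp only [sfM, Matrix.of_apply]; split_ifs <;> norm_num)
      (fun x => by have := sf_row (R := ℤ) h x; simpa using this) (t := ((2 ^ k : ℕ) : E) - x ^ 2)
      hv (by
        ext i
        rw [Pi.smul_apply, smul_eq_mul, ← e10 i]
        simp only [Matrix.mulVec, dotProduct, Matrix.map_apply]
        refine Finset.sum_congr rfl fun j _ => ?_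
        congr 1
        simp only [sfM, Matrix.of_apply]
        split_ifs <;> simp)
    refine ⟨m, ζ, hm, hζ, ?_⟩
    push_cast at hθ ⊢
    linear_combination -hθ
  have h5 : B.trace = ((univ.filter fun x => x ∈ N x).card : ℚ) - (2 ^ k + 1) := by
    rw [← hnc, Matrix.trace]
    simp only [Matrix.diag_apply, hB, Matrix.of_apply]
    rw [Finset.sum_sub_distrib, sum_const, card_univ, nsmul_eq_mul]
    simp only [adjA, Matrix.of_apply]
    rw [Finset.sum_boole]
  rw [htr] at h5
  have h6 : ((univ.filter fun x => x ∈ N x).card : ℚ) = ((2 ^ k + 1 : ℕ) : ℚ) := by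
    push_cast; linear_combination -h5
  exact_mod_cast h6

/-- the partner map of an exact object with `b = 1` -/
private theorem exists_partner {q : ℕ} {N : W → Finset W} (h : Exa q 1 N) :
    ∃ σ : W → W, (∀ x y, y ∈ Sf N x ↔ y = σ x) ∧ (∀ x, σ (σ x) = x) ∧ ∀ x, σ x ≠ x := by
  have h1 : ∀ x, (Sf N x).card = 1 := by
    intro x
    have h2 := sf_row (R := ℤ) h x
    simp only [sfM, Matrix.of_apply] at h2
    rw [Finset.sum_boole, Finset.filter_univ_mem] at h2
    exact_mod_cast h2
  have h2 : ∀ x, ∃ y, Sf N x = {y} := fun x => card_eq_one.mp (h1 x)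
  choose σ hσ using h2
  have h3 : ∀ x y, y ∈ Sf N x ↔ y = σ x := by
    intro x y; rw [hσ x, mem_singleton]
  refine ⟨σ, h3, ?_, ?_⟩
  · intro x
    have h4 : σ x ∈ Sf N x := (h3 x _).mpr rfl
    have h5 : x ∈ Sf N (σ x) := sf_comm.mp h4
    exact ((h3 _ _).mp h5).symm
  · intro x h4
    have h5 : σ x ∈ Sf N x := (h3 x _).mpr rfl
    rw [h4] at h5
    simp [Sf] at h5

private theorem partner_comm {q : ℕ} {N : W → Finset W} (h : Exa q 1 N) {σ : W → W}
    (h3 : ∀ x y, y ∈ Sf N x ↔ y = σ x) (x y : W) :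
    adjA ℚ N x (σ y) = adjA ℚ N (σ x) y := by
  have e0 : ∑ z, adjA ℚ N x z * (∑ w, adjA ℚ N z w * adjA ℚ N w y)
      = ∑ z, (∑ w, adjA ℚ N x w * adjA ℚ N w z) * adjA ℚ N z y := by
    simp_rw [Finset.mul_sum, Finset.sum_mul]
    rw [Finset.sum_comm]
    refine Finset.sum_congr rfl fun w _ => Finset.sum_congr rfl fun z _ => by ring
  simp_rw [adj_sq h] at e0
  have e1 : ∀ z, adjA ℚ N x z * ((if z = y then (q : ℚ) else 0) + 1 - sfM ℚ N z y)
      = (if z = y then (q : ℚ) * adjA ℚ N x z else 0) + adjA ℚ N x z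
        - (if z = σ y then adjA ℚ N x z else 0) := by
    intro z
    have : sfM ℚ N z y = if z = σ y then 1 else 0 := by
      simp only [sfM, Matrix.of_apply]
      exact if_congr (sf_comm.trans (h3 y z)) rfl rfl
    rw [this]
    split_ifs <;> ring
  have e2 : ∀ z, ((if x = z then (q : ℚ) else 0) + 1 - sfM ℚ N x z) * adjA ℚ N z y
      = (if x = z then (q : ℚ) * adjA ℚ N z y else 0) + adjA ℚ N z y
        - (if z = σ x then adjA ℚ N z y else 0) := by
    intro z
    have : sfM ℚ N x z = if z = σ x then 1 else 0 := by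
      simp only [sfM, Matrix.of_apply]
      exact if_congr (h3 x z) rfl rfl
    rw [this]
    split_ifs <;> ring
  simp_rw [e1, e2] at e0
  rw [Finset.sum_sub_distrib, Finset.sum_sub_distrib, Finset.sum_add_distrib,
    Finset.sum_add_distrib, Finset.sum_ite_eq', Finset.sum_ite_eq', Finset.sum_ite_eq,
    Finset.sum_ite_eq', adj_row h] at e0
  have e3 : ∑ z, adjA ℚ N z y = (q : ℚ) + 1 := by
    have : ∑ z, adjA ℚ N z y = ∑ z, adjA ℚ N y z :=
      Finset.sum_congr rfl fun z _ => adj_symm h z y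
    rw [this, adj_row h]
  rw [e3] at e0
  simp only [mem_univ, if_true] at e0
  linear_combination -e0

theorem ar1 (k : ℕ) (hk : 4 ≤ k) (N : W → Finset W) (h : Exa (2 ^ k) 1 N) : False := by
  obtain ⟨σ, h3, hσσ, hσne⟩ := exists_partner h
  have hcomm := partner_comm h h3
  set e := Fintype.equivFin W with he
  set T : Finset W := univ.filter fun x => e x < e (σ x) with hT
  have hmT : ∀ x, x ∈ T ↔ e x < e (σ x) := by intro x; simp [hT]
  have hσT : ∀ x, σ x ∈ T ↔ x ∉ T := by
    intro x
    rw [hmT, hmT, hσσ, not_lt]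
    constructor
    · exact fun h => h.le
    · intro h4
      refine lt_of_le_of_ne h4 fun h5 => hσne x (e.injective h5)
  have hsplit : ∀ f : W → ℚ, ∑ b, f b = ∑ b ∈ T, (f b + f (σ b)) := by
    intro f
    rw [Finset.sum_add_distrib, ← Finset.sum_filter_add_sum_filter_not univ (fun b => b ∈ T)]
    congr 1
    · refine Finset.sum_congr ?_ fun _ _ => rfl
      ext x; simp
    · refine Finset.sum_nbij' σ σ ?_ ?_ ?_ ?_ ?_
      · intro x hx
        simp only [mem_filter, mem_univ, true_and] at hx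
        exact (hσT x).mpr hx
      · intro x hx
        simp only [mem_filter, mem_univ, true_and]
        intro h4
        exact (hσT x).mp h4 hx
      · intro x _; exact hσσ x
      · intro x _; exact hσσ x
      · intro x _; rw [hσσ]
  have hcard : (Fintype.card W : ℚ) = 2 * T.card := by
    have h4 := hsplit fun _ => 1
    simp only [sum_const, card_univ, nsmul_eq_mul, mul_one] at h4
    rw [h4]; ring
  have hcard2 : 2 * T.card = (2 ^ k) ^ 2 + 2 ^ k + 2 := by
    have h4 : Fintype.card W = 2 * T.card := by exact_mod_cast hcard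
    rw [← h4, h.card]
  have hodd : Odd T.card := by
    obtain ⟨g, rfl⟩ : ∃ g, k = g + 2 := ⟨k - 2, by omega⟩
    refine ⟨2 ^ g * (2 ^ (g + 2) + 1), ?_⟩
    have : (2 ^ (g + 2)) ^ 2 + 2 ^ (g + 2) + 2 = 2 * (2 * (2 ^ g * (2 ^ (g + 2) + 1)) + 1) := by
      rw [pow_add]; ring
    omega
  set D : W → W → ℚ := fun b c => adjA ℚ N b c - adjA ℚ N b (σ c) with hD
  have hDσ : ∀ b c, D (σ b) c = - D b c := by
    intro b c
    simp only [hD]
    rw [← hcomm b c, ← hcomm b (σ c), hσσ]; ring
  set C : Matrix T T ℚ := Matrix.of fun a b => D a b with hC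
  have hCC : C * C = ((2 : ℚ) ^ k + 1) • (1 : Matrix T T ℚ) := by
    ext a c
    rw [Matrix.mul_apply, Matrix.smul_apply, Matrix.one_apply]
    simp only [hC, Matrix.of_apply]
    have e1 : ∑ b : T, D a b * D b c = ∑ b ∈ T, D a b * D b c :=
      Finset.sum_coe_sort T fun b => D a b * D b c
    rw [e1]
    have e2 : ∑ b ∈ T, D a b * D b c
        = ∑ b ∈ T, (adjA ℚ N a b * D b c + adjA ℚ N a (σ b) * D (σ b) c) := by
      refine Finset.sum_congr rfl fun b _ => ?_
      rw [hDσ]; simp only [hD]; ring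
    rw [e2, ← hsplit fun b => adjA ℚ N a b * D b c]
    have e3 : ∑ b, adjA ℚ N a b * D b c = ∑ b, adjA ℚ N a b * adjA ℚ N b c
        - ∑ b, adjA ℚ N a b * adjA ℚ N b (σ c) := by
      rw [← Finset.sum_sub_distrib]
      refine Finset.sum_congr rfl fun b _ => by simp only [hD]; ring
    rw [e3, adj_sq h, adj_sq h]
    have hac : (a : W) ≠ σ c := by
      intro h4
      have h5 : σ (c : W) ∈ T := by rw [← h4]; exact a.2
      exact (hσT c).mp h5 c.2
    have hca : (c : W) ≠ σ a := by
      intro h4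
      exact hac (by rw [h4, hσσ])
    have e4 : sfM ℚ N (a : W) c = 0 := by
      simp only [sfM, Matrix.of_apply]
      rw [if_neg]
      rw [h3]; exact hca
    have e5 : sfM ℚ N (a : W) (σ c) = if a = c then 1 else 0 := by
      simp only [sfM, Matrix.of_apply]
      refine if_congr ?_ rfl rfl
      rw [h3]
      constructor
      · intro h4
        have h5 : (c : W) = a := by rw [← hσσ (c : W), h4, hσσ]
        exact Subtype.ext h5.symm
      · intro h4; rw [h4]
    rw [e4, e5, if_neg hac]
    by_cases hh : a = c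
    · subst hh; simp
    · have : (a : W) ≠ c := fun h4 => hh (Subtype.ext h4)
      simp [hh, this]
  have hdet : C.det ^ 2 = ((2 : ℚ) ^ k + 1) ^ T.card := by
    rw [sq, ← Matrix.det_mul, hCC, Matrix.det_smul, Matrix.det_one, mul_one, Fintype.card_coe]
  obtain ⟨j, hj⟩ := hodd
  have hpos : (0 : ℚ) < (2 : ℚ) ^ k + 1 := by positivity
  have hsq : IsSquare (((2 : ℤ) ^ k + 1 : ℤ) : ℚ) := by
    refine ⟨C.det / ((2 : ℚ) ^ k + 1) ^ j, ?_⟩
    rw [← sq, div_pow, hdet, hj, ← pow_mul, eq_div_iff (by positivity)]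
    push_cast; ring
  rw [Rat.isSquare_intCast_iff] at hsq
  exact pow_succ_nonsq hk hsq

end Pool.Agent.C4E
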