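import Mathlib

/-!
# C4E-Ari1: congruences in `ℤ[ζ]`

* `int_mem`: an integral element of `ℚ(ζ)` lies in `ℤ[ζ]`.
* `red_odd`: for `ζ` of odd order, `2 ∣ u²` implies `2 ∣ u` in `ℤ[ζ]` (Frobenius).
* `red_four`: for `ζ` of order `4 m'`, `m'` odd, the same for `1 - I`, `I = ζ ^ m'`.
-/

set_option autoImplicit false

open IntermediateField

namespace Pool.Agent.C4E

variable {E : Type*} [Field E] [CharZero E]

/-- `a` divides `b` in `ℤ[ζ]` -/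
def Dv (ζ a b : E) : Prop := ∃ c ∈ Algebra.adjoin ℤ ({ζ} : Set E), b = a * c

theorem int_mem [Algebra.IsIntegral ℚ E] {ζ x : E} {m : ℕ} (hm : 0 < m) (hζ : IsPrimitiveRoot ζ m)
    (hx : x ∈ IntermediateField.adjoin ℚ ({ζ} : Set E)) (hi : IsIntegral ℤ x) :
    x ∈ Algebra.adjoin ℤ ({ζ} : Set E) := by
  have : NeZero m := ⟨hm.ne'⟩
  have : IsCyclotomicExtension {m} ℚ ℚ⟮ζ⟯ := hζ.intermediateField_adjoin_isCyclotomicExtension ℚ
  have hg : IsPrimitiveRoot (AdjoinSimple.gen ℚ ζ) m := by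
    refine IsPrimitiveRoot.of_map_of_injective (f := algebraMap ℚ⟮ζ⟯ E) ?_
      (algebraMap ℚ⟮ζ⟯ E).injective
    rw [AdjoinSimple.algebraMap_gen]
    exact hζ
  have hcl := IsCyclotomicExtension.Rat.isIntegralClosure_adjoin_singleton hg
  have hi' : IsIntegral ℤ (⟨x, hx⟩ : ℚ⟮ζ⟯) := by
    rw [← isIntegral_algebraMap_iff (algebraMap ℚ⟮ζ⟯ E).injective]
    exact hi
  obtain ⟨y, hy⟩ := (hcl.isIntegral_iff).1 hi'
  have hy2 := y.2
  have h2 : ((algebraMap ℚ⟮ζ⟯ E) (y : ℚ⟮ζ⟯)) ∈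
      (Algebra.adjoin ℤ ({AdjoinSimple.gen ℚ ζ} : Set ℚ⟮ζ⟯)).map
        (IsScalarTower.toAlgHom ℤ ℚ⟮ζ⟯ E) := by
    exact Subalgebra.mem_map.mpr ⟨y, hy2, rfl⟩
  rw [AlgHom.map_adjoin_singleton] at h2
  have h3 : (IsScalarTower.toAlgHom ℤ ℚ⟮ζ⟯ E) (AdjoinSimple.gen ℚ ζ) = ζ :=
    AdjoinSimple.algebraMap_gen ℚ ζ
  rw [h3] at h2
  have h4 : (y : ℚ⟮ζ⟯) = ⟨x, hx⟩ := hy
  rw [h4] at h2
  exact h2

theorem int_half {c : E} (hc : IsIntegral ℤ c) : (1 : E) ≠ 2 * c := by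
  intro h
  have h2 : c = algebraMap ℚ E (1 / 2) := by
    rw [map_div₀, map_one, map_ofNat]
    field_simp
    rw [h]; ring
  rw [h2, isIntegral_algebraMap_iff (algebraMap ℚ E).injective] at hc
  obtain ⟨n, hn⟩ := IsIntegrallyClosed.isIntegral_iff.mp hc
  have h3 : ((2 * n : ℤ) : ℚ) = ((1 : ℤ) : ℚ) := by
    push_cast
    have : (n : ℚ) = 1 / 2 := hn
    rw [this]; norm_num
  have h4 : 2 * n = 1 := by exact_mod_cast h3
  omega

/-- membership of `ζ⁻¹` for a root of unity -/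
theorem inv_mem_adj {ζ : E} {m : ℕ} (hm : 0 < m) (h : ζ ^ m = 1) :
    ζ⁻¹ ∈ Algebra.adjoin ℤ ({ζ} : Set E) := by
  have h0 : ζ ≠ 0 := by
    rintro rfl
    rw [zero_pow hm.ne'] at h
    exact zero_ne_one h
  have h1 : ζ⁻¹ = ζ ^ (m - 1) := by
    rw [inv_eq_iff_eq_inv]
    refine eq_inv_of_mul_eq_one_left ?_
    rw [← pow_succ', Nat.sub_add_cancel hm]
    exact h
  rw [h1]
  exact pow_mem (Algebra.self_mem_adjoin_singleton ℤ ζ) _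

theorem adj_int {ζ : E} {m : ℕ} (hm : 0 < m) (h : ζ ^ m = 1) {x : E}
    (hx : x ∈ Algebra.adjoin ℤ ({ζ} : Set E)) : IsIntegral ℤ x := by
  have h1 : IsIntegral ℤ ζ := by
    refine ⟨Polynomial.X ^ m - Polynomial.C 1, Polynomial.monic_X_pow_sub_C 1 hm.ne', ?_⟩
    simp [h]
  have h2 : Algebra.adjoin ℤ ({ζ} : Set E) ≤ integralClosure ℤ E := by
    rw [Algebra.adjoin_le_iff]
    rintro y rfl
    exact h1
  exact h2 hx

/-- Frobenius modulo a divisor `π` of `2` fixes everything if it fixes `ζ` -/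
theorem frob {ζ π : E} {f : ℕ} (h2 : Dv ζ π 2) (hζ : Dv ζ π (ζ ^ 2 ^ f - ζ)) {u : E}
    (hu : u ∈ Algebra.adjoin ℤ ({ζ} : Set E)) : Dv ζ π (u ^ 2 ^ f - u) := by
  induction hu using Algebra.adjoin_induction with
  | mem x hx =>
    rw [Set.mem_singleton_iff] at hx
    rw [hx]; exact hζ
  | algebraMap r =>
    obtain ⟨c, hc, h2c⟩ := h2
    have h1 : ∃ k : ℤ, r ^ 2 ^ f - r = 2 * k := by
      have h3 : (2 : ℤ) ∣ r ^ 2 ^ f - r := by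
        rcases Int.even_or_odd r with h | h
        · have h5 : Even (r ^ 2 ^ f) := by
            rw [Int.even_pow]; exact ⟨h, by positivity⟩
          exact (h5.sub h).two_dvd
        · exact (h.pow.sub_odd h).two_dvd
      exact h3
    obtain ⟨k, hk⟩ := h1
    refine ⟨c * algebraMap ℤ E k, mul_mem hc (Subalgebra.algebraMap_mem _ _), ?_⟩
    have h4 : ((r ^ 2 ^ f - r : ℤ) : E) = ((2 * k : ℤ) : E) := by rw [hk]
    push_cast at h4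
    simp only [algebraMap_int_eq, eq_intCast]
    rw [h4, h2c]; ring
  | add x y hx hy hx' hy' =>
    obtain ⟨c, hc, h2c⟩ := h2
    obtain ⟨a, ha, hxa⟩ := hx'
    obtain ⟨b, hb, hyb⟩ := hy'
    obtain ⟨r, hr⟩ := exists_add_pow_prime_pow_eq Nat.prime_two
      (⟨x, hx⟩ : Algebra.adjoin ℤ ({ζ} : Set E)) (⟨y, hy⟩ : Algebra.adjoin ℤ ({ζ} : Set E)) f
    have hr' := congrArg (fun z : Algebra.adjoin ℤ ({ζ} : Set E) => (z : E)) hr
    simp only [Subalgebra.coe_add, Subalgebra.coe_mul, Subalgebra.coe_pow] at hr'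
    have h5 : (((2 : ℕ) : Algebra.adjoin ℤ ({ζ} : Set E)) : E) = 2 := by
      norm_cast
    rw [h5] at hr'
    refine ⟨a + b + c * x * y * r,
      add_mem (add_mem ha hb) (mul_mem (mul_mem (mul_mem hc hx) hy) r.2), ?_⟩
    rw [hr']
    have h6 : x ^ 2 ^ f = x + π * a := by rw [← hxa]; ring
    have h7 : y ^ 2 ^ f = y + π * b := by rw [← hyb]; ring
    rw [h6, h7, h2c]; ring
  | mul x y hx hy hx' hy' =>
    obtain ⟨a, ha, hxa⟩ := hx'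
    obtain ⟨b, hb, hyb⟩ := hy'
    have h6 : x ^ 2 ^ f = x + π * a := by rw [← hxa]; ring
    have h7 : y ^ 2 ^ f = y + π * b := by rw [← hyb]; ring
    obtain ⟨c, hc, h2c⟩ := h2
    by_cases hπ : π = 0
    · subst hπ
      rw [zero_mul] at h2c
      exact absurd h2c two_ne_zero
    refine ⟨x * b + y * a + π * a * b, ?_, by rw [mul_pow, h6, h7]; ring⟩
    have h8 : π * a * b = (x ^ 2 ^ f - x) * b := by rw [hxa]
    rw [h8]
    exact add_mem (add_mem (mul_mem hx hb) (mul_mem hy ha))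
      (mul_mem (sub_mem (pow_mem hx _) hx) hb)

/-- reducedness modulo `π` -/
theorem red {ζ π : E} {f : ℕ} (hf : 1 ≤ f) (h2 : Dv ζ π 2) (hζ : Dv ζ π (ζ ^ 2 ^ f - ζ)) {u : E}
    (hu : u ∈ Algebra.adjoin ℤ ({ζ} : Set E)) (hu2 : Dv ζ π (u ^ 2)) : Dv ζ π u := by
  obtain ⟨a, ha, h1⟩ := frob h2 hζ hu
  obtain ⟨b, hb, h3⟩ := hu2
  obtain ⟨g, rfl⟩ : ∃ g, f = g + 1 := ⟨f - 1, by omega⟩
  have h4 : 2 ^ (g + 1) = 2 + 2 * (2 ^ g - 1) := by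
    have : 1 ≤ 2 ^ g := Nat.one_le_two_pow
    rw [pow_succ]; omega
  have h5 : u ^ 2 ^ (g + 1) = π * (b * (u ^ 2) ^ (2 ^ g - 1)) := by
    have h7 : u ^ 2 ^ (g + 1) = u ^ 2 * (u ^ 2) ^ (2 ^ g - 1) := by
      rw [h4, pow_add, pow_mul]
    calc u ^ 2 ^ (g + 1) = u ^ 2 * (u ^ 2) ^ (2 ^ g - 1) := h7
      _ = (π * b) * (u ^ 2) ^ (2 ^ g - 1) := by rw [← h3]
      _ = _ := by ring
  refine ⟨b * (u ^ 2) ^ (2 ^ g - 1) - a, sub_mem (mul_mem hb (pow_mem (pow_mem hu _) _)) ha, ?_⟩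
  have h6 : u = u ^ 2 ^ (g + 1) - (u ^ 2 ^ (g + 1) - u) := by ring
  rw [mul_sub, ← h5, ← h1]; ring

/-- `2` case: `ζ` of odd order -/
theorem red_odd {ζ : E} {m : ℕ} (hm : Odd m) (h : ζ ^ m = 1) {u : E}
    (hu : u ∈ Algebra.adjoin ℤ ({ζ} : Set E)) (hu2 : Dv ζ 2 (u ^ 2)) : Dv ζ 2 u := by
  have hm0 : 0 < m := hm.pos
  have hf : 1 ≤ m.totient := Nat.totient_pos.mpr hm0
  have h1 : 2 ^ m.totient ≡ 1 [MOD m] := Nat.ModEq.pow_totient (by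
    rw [Nat.coprime_comm]; exact hm.coprime_two_right)
  have h2 : ζ ^ 2 ^ m.totient = ζ := by
    have h3 : ζ ^ 2 ^ m.totient = ζ ^ 1 := by
      rw [pow_eq_pow_mod (2 ^ m.totient) h, h1, ← pow_eq_pow_mod 1 h]
    rw [h3, pow_one]
  refine red hf ⟨1, one_mem _, by ring⟩ ⟨0, zero_mem _, by rw [h2]; ring⟩ hu hu2

/-- `1 - I` case: `ζ` of order `4 m'`, `I = ζ ^ m'` -/
theorem red_four {ζ : E} {m : ℕ} (hm : Odd m) (hI : (ζ ^ m) ^ 2 = -1) {u : E}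
    (hu : u ∈ Algebra.adjoin ℤ ({ζ} : Set E)) (hu2 : Dv ζ (1 - ζ ^ m) (u ^ 2)) :
    Dv ζ (1 - ζ ^ m) u := by
  have hm0 : 0 < m := hm.pos
  have hζm := Algebra.self_mem_adjoin_singleton ℤ ζ
  have h1 : 2 ^ (m.totient) ≡ 1 [MOD m] := Nat.ModEq.pow_totient (by
    rw [Nat.coprime_comm]; exact hm.coprime_two_right)
  have h1' : 1 ≤ 2 ^ m.totient := Nat.one_le_two_pow
  obtain ⟨k, hk⟩ : m ∣ 2 ^ m.totient - 1 := (Nat.modEq_iff_dvd' h1').mp h1.symm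
  have hf : 1 ≤ m.totient := Nat.totient_pos.mpr hm0
  have hk' : 2 ^ m.totient = m * k + 1 := by omega
  refine red hf ⟨1 + ζ ^ m, add_mem (one_mem _) (pow_mem hζm _), ?_⟩ ?_ hu hu2
  · have : (1 - ζ ^ m) * (1 + ζ ^ m) = 1 - (ζ ^ m) ^ 2 := by ring
    rw [this, hI]; ring
  · rw [hk', pow_succ, pow_mul]
    refine ⟨- (ζ * ∑ i ∈ Finset.range k, (ζ ^ m) ^ i), ?_, ?_⟩
    · exact neg_mem (mul_mem hζm (sum_mem fun i _ => pow_mem (pow_mem hζm _) _))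
    · have h5 := mul_neg_geom_sum (ζ ^ m) k
      have h6 : (1 - ζ ^ m) * -(ζ * ∑ i ∈ Finset.range k, (ζ ^ m) ^ i)
          = - ζ * ((1 - ζ ^ m) * ∑ i ∈ Finset.range k, (ζ ^ m) ^ i) := by ring
      rw [h6, h5]; ring

end Pool.Agent.C4E
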