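import Pool.Agent.C4E.Ari1

/-!
# C4E-Ari2: `q - ζ - ζ⁻¹` is not a square in `ℚ(ζ)`
-/

set_option autoImplicit false

open IntermediateField

namespace Pool.Agent.C4E

variable {E : Type*} [Field E] [CharZero E]

/-- `π ∣ 1 - ω`, `ω ^ m = 1`, `ω ≠ 1` implies `π ∣ m` -/
private theorem dvd_order {ζ π ω : E} {m : ℕ} (hω : ω ∈ Algebra.adjoin ℤ ({ζ} : Set E))
    (h1 : ω ^ m = 1) (h2 : ω ≠ 1) (h : Dv ζ π (ω - 1)) : Dv ζ π (m : E) := by
  have hs : ∑ i ∈ Finset.range m, ω ^ i = 0 := by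
    have := mul_neg_geom_sum ω m
    rw [h1, sub_self] at this
    rcases mul_eq_zero.mp this with h3 | h3
    · exact absurd (sub_eq_zero.mp h3).symm h2
    · exact h3
  obtain ⟨c, hc, hc'⟩ := h
  have hp : ∀ i : ℕ, Dv ζ π (ω ^ i - 1) := by
    intro i
    refine ⟨c * ∑ j ∈ Finset.range i, ω ^ j,
      mul_mem hc (sum_mem fun j _ => pow_mem hω _), ?_⟩
    rw [← mul_assoc, ← hc', mul_geom_sum]
  choose d hd hd' using hp
  refine ⟨- ∑ i ∈ Finset.range m, d i, neg_mem (sum_mem fun i _ => hd i), ?_⟩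
  rw [mul_neg, Finset.mul_sum]
  have : ∑ i ∈ Finset.range m, π * d i = ∑ i ∈ Finset.range m, (ω ^ i - 1) :=
    Finset.sum_congr rfl fun i _ => (hd' i).symm
  rw [this, Finset.sum_sub_distrib, hs]
  simp

private theorem pow_ne {ζ : E} {m : ℕ} (hm : 0 < m) (h : ζ ^ m = 1) : ζ ≠ 0 := by
  rintro rfl
  rw [zero_pow hm.ne'] at h
  exact zero_ne_one h

private theorem odd_not {ζ : E} {m : ℕ} (hm : Odd m) (h : ζ ^ m = 1) : ¬ Dv ζ 2 (m : E) := by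
  rintro ⟨c, hc, h1⟩
  have hm0 := hm.pos
  obtain ⟨k, hk⟩ := hm
  have h2 : (1 : E) = 2 * (c - k) := by
    have : (m : E) = 2 * k + 1 := by rw [hk]; push_cast; ring
    rw [this] at h1
    rw [mul_sub, ← h1]; ring
  exact int_half (adj_int hm0 h (sub_mem hc (natCast_mem _ k))) h2

theorem odd_core {ζ x : E} {m : ℕ} {q : ℤ} (hm : Odd m) (h : ζ ^ m = 1) (hq : 4 ∣ q)
    (hx : x ∈ Algebra.adjoin ℤ ({ζ} : Set E)) (hx2 : x ^ 2 = q - ζ - ζ⁻¹) : ζ ^ 3 = 1 := by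
  have hζm := Algebra.self_mem_adjoin_singleton ℤ ζ
  have hz0 : ζ ≠ 0 := pow_ne hm.pos h
  obtain ⟨k, hk⟩ := hm
  obtain ⟨r, hr⟩ := hq
  have hη : (ζ ^ (k + 1)) ^ 2 = ζ := by
    rw [← pow_mul, show (k + 1) * 2 = m + 1 by omega, pow_succ, h, one_mul]
  set η := ζ ^ (k + 1) with hηd
  have hη0 : η ≠ 0 := pow_ne_zero _ hz0
  have hηm : η ∈ Algebra.adjoin ℤ ({ζ} : Set E) := pow_mem hζm _
  have hη1 : η ^ m = 1 := by rw [hηd, ← pow_mul, mul_comm, pow_mul, h, one_pow]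
  have hηi : η⁻¹ ∈ Algebra.adjoin ℤ ({ζ} : Set E) := by
    have : η⁻¹ = (ζ⁻¹) ^ (k + 1) := by rw [hηd, inv_pow]
    rw [this]
    exact pow_mem (inv_mem_adj (by omega : 0 < m) h) _
  set γ := η + η⁻¹ with hγ
  have hγm : γ ∈ Algebra.adjoin ℤ ({ζ} : Set E) := add_mem hηm hηi
  have hγ2 : γ ^ 2 = ζ + ζ⁻¹ + 2 := by
    rw [← hη, hγ]; field_simp; ring
  have hq' : (q : E) = 4 * (r : E) := by rw [hr]; push_cast; ring
  have hrm : (r : E) ∈ Algebra.adjoin ℤ ({ζ} : Set E) := intCast_mem _ r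
  have hs : Dv ζ 2 ((x + γ) ^ 2) := by
    refine ⟨2 * r + 1 + x * γ, add_mem (add_mem (mul_mem (ofNat_mem _ 2) hrm) (one_mem _))
      (mul_mem hx hγm), ?_⟩
    have : (x + γ) ^ 2 = x ^ 2 + γ ^ 2 + 2 * (x * γ) := by ring
    rw [this, hx2, hγ2, hq']; ring
  obtain ⟨δ, hδ, h1⟩ := red_odd ⟨k, hk⟩ h (add_mem hx hγm) hs
  have hxe : x = 2 * δ - γ := by rw [← h1]; ring
  have hγ3 : γ ^ 2 - 1 = 2 * (r + δ * γ - δ ^ 2) := by
    have h2 : x ^ 2 + γ ^ 2 = 4 * r + 2 := by rw [hx2, hγ2, hq']; ring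
    rw [hxe] at h2
    have h3 : (2 : E) * (γ ^ 2 - 1) = 2 * (2 * (r + δ * γ - δ ^ 2)) := by linear_combination h2
    exact mul_left_cancel₀ two_ne_zero h3
  have hs2 : Dv ζ 2 ((γ - 1) ^ 2) := by
    refine ⟨r + δ * γ - δ ^ 2 - γ + 1, add_mem (sub_mem (sub_mem (add_mem hrm (mul_mem hδ hγm))
      (pow_mem hδ _)) hγm) (one_mem _), ?_⟩
    linear_combination hγ3
  obtain ⟨κ, hκ, h4⟩ := red_odd ⟨k, hk⟩ h (sub_mem hγm (one_mem _)) hs2
  by_contra hne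
  have hω : η ^ 3 ≠ 1 := by
    intro h5
    apply hne
    rw [← hη, ← pow_mul, mul_comm, pow_mul, h5, one_pow]
  have h6 : Dv ζ 2 (η ^ 3 - 1) := by
    refine ⟨(η + 1) * η * κ - 1, sub_mem (mul_mem (mul_mem (add_mem hηm (one_mem _)) hηm) hκ)
      (one_mem _), ?_⟩
    have h7 : η * (γ - 1) = η ^ 2 - η + 1 := by rw [hγ]; field_simp; ring
    have h8 : η ^ 3 + 1 = (η + 1) * (η * (γ - 1)) := by rw [h7]; ring
    rw [h4] at h8
    linear_combination h8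
  have h9 : Dv ζ 2 (m : E) := dvd_order (pow_mem hηm 3)
    (by rw [← pow_mul, mul_comm, pow_mul, hη1, one_pow]) hω h6
  exact odd_not ⟨k, hk⟩ h h9

theorem twice_core {ζ x : E} {m : ℕ} {q : ℤ} (hm : Odd m) (h : ζ ^ m = 1) (hq : 4 ∣ q)
    (hx : x ∈ Algebra.adjoin ℤ ({ζ} : Set E)) (hx2 : x ^ 2 = q + ζ + ζ⁻¹) : False := by
  have hζm := Algebra.self_mem_adjoin_singleton ℤ ζ
  have hz0 : ζ ≠ 0 := pow_ne hm.pos h
  obtain ⟨k, hk⟩ := hm
  obtain ⟨r, hr⟩ := hq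
  have hη : (ζ ^ (k + 1)) ^ 2 = ζ := by
    rw [← pow_mul, show (k + 1) * 2 = m + 1 by omega, pow_succ, h, one_mul]
  set η := ζ ^ (k + 1) with hηd
  have hη0 : η ≠ 0 := pow_ne_zero _ hz0
  have hηm : η ∈ Algebra.adjoin ℤ ({ζ} : Set E) := pow_mem hζm _
  have hηi : η⁻¹ ∈ Algebra.adjoin ℤ ({ζ} : Set E) := by
    have : η⁻¹ = (ζ⁻¹) ^ (k + 1) := by rw [hηd, inv_pow]
    rw [this]
    exact pow_mem (inv_mem_adj (by omega : 0 < m) h) _
  set γ := η + η⁻¹ with hγ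
  have hγm : γ ∈ Algebra.adjoin ℤ ({ζ} : Set E) := add_mem hηm hηi
  have hγ2 : γ ^ 2 = ζ + ζ⁻¹ + 2 := by
    rw [← hη, hγ]; field_simp; ring
  have hq' : (q : E) = 4 * (r : E) := by rw [hr]; push_cast; ring
  have hrm : (r : E) ∈ Algebra.adjoin ℤ ({ζ} : Set E) := intCast_mem _ r
  have hx3 : x ^ 2 = 4 * r - 2 + γ ^ 2 := by rw [hx2, hγ2, hq']; ring
  have hs : Dv ζ 2 ((x + γ) ^ 2) := by
    refine ⟨2 * r - 1 + γ ^ 2 + x * γ, add_mem (add_mem (sub_mem (mul_mem (ofNat_mem _ 2) hrm)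
      (one_mem _)) (pow_mem hγm _)) (mul_mem hx hγm), ?_⟩
    linear_combination hx3
  obtain ⟨δ, hδ, h1⟩ := red_odd ⟨k, hk⟩ h (add_mem hx hγm) hs
  have hxe : x = 2 * δ - γ := by rw [← h1]; ring
  rw [hxe] at hx3
  have h2 : (1 : E) = 2 * (r - δ ^ 2 + δ * γ) := by
    have h3 : (2 : E) * 1 = 2 * (2 * (r - δ ^ 2 + δ * γ)) := by linear_combination hx3
    exact mul_left_cancel₀ two_ne_zero h3
  exact int_half (adj_int (by omega : 0 < m) h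
    (add_mem (sub_mem hrm (pow_mem hδ _)) (mul_mem hδ hγm))) h2

theorem I_sq {ζ : E} {m : ℕ} (hm : 0 < m) (hζ : IsPrimitiveRoot ζ (4 * m)) :
    (ζ ^ m) ^ 2 = -1 := by
  have h := hζ.pow_eq_one
  have h1 : ((ζ ^ m) ^ 2 - 1) * ((ζ ^ m) ^ 2 + 1) = 0 := by
    have : ((ζ ^ m) ^ 2 - 1) * ((ζ ^ m) ^ 2 + 1) = ζ ^ (4 * m) - 1 := by ring
    rw [this, h, sub_self]
  rcases mul_eq_zero.mp h1 with h2 | h2
  · exfalso
    have h3 : ζ ^ (m * 2) = 1 := by rw [pow_mul]; exact sub_eq_zero.mp h2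
    have := Nat.le_of_dvd (by omega) (hζ.dvd_of_pow_eq_one _ h3)
    omega
  · exact eq_neg_of_add_eq_zero_left h2

theorem four_core {ζ x : E} {m : ℕ} {Q : ℤ} (hm : Odd m) (hm1 : 1 < m)
    (hζ : IsPrimitiveRoot ζ (4 * m)) (hQ : Even Q)
    (hx : x ∈ Algebra.adjoin ℤ ({ζ} : Set E)) (hx2 : x ^ 2 = Q - ζ - ζ⁻¹) : False := by
  have hζm := Algebra.self_mem_adjoin_singleton ℤ ζ
  have hpos : 0 < 4 * m := by omega
  have h := hζ.pow_eq_one
  have hz0 : ζ ≠ 0 := pow_ne hpos h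
  have hζi : ζ⁻¹ ∈ Algebra.adjoin ℤ ({ζ} : Set E) := inv_mem_adj hpos h
  have hI2 : (ζ ^ m) ^ 2 = -1 := I_sq (by omega) hζ
  have hred : ∀ u ∈ Algebra.adjoin ℤ ({ζ} : Set E), Dv ζ (1 - ζ ^ m) (u ^ 2) →
      Dv ζ (1 - ζ ^ m) u := fun u hu hu2 => red_four hm hI2 hu hu2
  have hIm : ζ ^ m ∈ Algebra.adjoin ℤ ({ζ} : Set E) := pow_mem hζm _
  obtain ⟨j, hj⟩ : ∃ j, 8 * j % m = 1 := by
    obtain ⟨j, -, hj⟩ := Nat.exists_mul_mod_eq_one_of_coprime (k := m) (n := 8)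
      (by
        have : Nat.Coprime 2 m := hm.coprime_two_left
        exact Nat.Coprime.pow_left 3 this) hm1
    exact ⟨j, hj⟩
  have hk : 8 * j = m * (8 * j / m) + 1 := by
    have := Nat.div_add_mod (8 * j) m
    omega
  set k := 8 * j / m with hkd
  have hkodd : Odd k := by
    by_contra hne
    have hev : Even k := Nat.not_odd_iff_even.mp hne
    have : Even (m * k) := hev.mul_left m
    obtain ⟨t, ht⟩ := this
    omega
  obtain ⟨l, hl⟩ := hkodd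
  set I := ζ ^ m with hI
  have hη : (ζ ^ (4 * j)) ^ 2 = (-1) ^ l * I * ζ := by
    rw [← pow_mul, show 4 * j * 2 = m * k + 1 by omega, pow_succ, pow_mul, ← hI, hl, pow_succ,
      pow_mul, hI2]
  set η := ζ ^ (4 * j) with hηd
  have hη0 : η ≠ 0 := pow_ne_zero _ hz0
  have hηm : η ∈ Algebra.adjoin ℤ ({ζ} : Set E) := pow_mem hζm _
  have hηi : η⁻¹ ∈ Algebra.adjoin ℤ ({ζ} : Set E) := by
    have : η⁻¹ = (ζ⁻¹) ^ (4 * j) := by rw [hηd, inv_pow]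
    rw [this]
    exact pow_mem hζi _
  have hs : ∃ s : E, s ∈ Algebra.adjoin ℤ ({ζ} : Set E) ∧ s ^ 2 = 1 ∧ η ^ 2 = s * I * ζ ∧
      ∃ ν ∈ Algebra.adjoin ℤ ({ζ} : Set E), ∃ ν' ∈ Algebra.adjoin ℤ ({ζ} : Set E),
        1 + s * I = (1 - I) * ν ∧ ν * ν' = 1 := by
    rcases neg_one_pow_eq_or E l with h1 | h1
    · refine ⟨1, one_mem _, one_pow 2, by rw [hη, h1], I, hIm, -I, neg_mem hIm, ?_, ?_⟩
      · linear_combination hI2
      · linear_combination -hI2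
    · refine ⟨-1, neg_mem (one_mem _), by norm_num, by rw [hη, h1], 1, one_mem _, 1, one_mem _,
        ?_, ?_⟩
      · ring
      · ring
  obtain ⟨s, hsm, hs2, hηs, ν, hν, ν', hν', hν1, hν2⟩ := hs
  have hze : ζ = - (s * I * η ^ 2) := by
    rw [hηs]
    have : -(s * I * (s * I * ζ)) = - (s ^ 2 * I ^ 2 * ζ) := by ring
    rw [this, hs2, hI2]; ring
  have hzi : ζ⁻¹ = s * I * (η⁻¹) ^ 2 := by
    refine inv_eq_of_mul_eq_one_right ?_
    have h3 : ζ * (s * I * (η⁻¹) ^ 2) = (s * I * ζ) * (η⁻¹) ^ 2 := by ring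
    rw [h3, ← hηs, ← mul_pow, mul_inv_cancel₀ hη0, one_pow]
  obtain ⟨Q', hQ'⟩ := hQ
  have hQe : (Q : E) = 2 * Q' := by rw [hQ']; push_cast; ring
  set w := η + η⁻¹ with hw
  have hwm : w ∈ Algebra.adjoin ℤ ({ζ} : Set E) := add_mem hηm hηi
  have hw2 : w ^ 2 = η ^ 2 + 2 + (η⁻¹) ^ 2 := by
    rw [hw]; field_simp; ring
  set T : E := Q' - s * I * (1 + (η⁻¹) ^ 2) + x * w with hT
  have hTm : T ∈ Algebra.adjoin ℤ ({ζ} : Set E) :=
    add_mem (sub_mem (intCast_mem _ Q') (mul_mem (mul_mem hsm hIm)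
      (add_mem (one_mem _) (pow_mem hηi _)))) (mul_mem hx hwm)
  have h2π : (2 : E) = (1 - I) * (1 + I) := by linear_combination hI2
  have hx3 : x ^ 2 = 2 * Q' + s * I * (w ^ 2 - 2 - 2 * (η⁻¹) ^ 2) := by
    rw [hx2, hQe, hzi, hw2]
    linear_combination -hze
  have hmain : (x + w) ^ 2 = (1 - I) * (ν * w ^ 2 + (1 + I) * T) := by
    have e1 : (x + w) ^ 2 = (1 + s * I) * w ^ 2 + 2 * T := by
      rw [hT]; linear_combination hx3
    rw [e1, hν1]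
    linear_combination T * h2π
  obtain ⟨δ, hδ, h1⟩ := hred _ (add_mem hx hwm) ⟨_, add_mem (mul_mem hν (pow_mem hwm _))
    (mul_mem (add_mem (one_mem _) hIm) hTm), hmain⟩
  have hπ0 : (1 : E) - I ≠ 0 := by
    intro h0
    rw [h0, zero_mul] at h2π
    exact two_ne_zero h2π
  have h5 : w ^ 2 = (1 - I) * (ν' * (δ ^ 2 - I * T)) := by
    rw [h1] at hmain
    have h6 : (1 - I) * ((1 - I) * δ ^ 2) = (1 - I) * (ν * w ^ 2 + (1 + I) * T) := by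
      linear_combination hmain
    have h7 := mul_left_cancel₀ hπ0 h6
    have h8 : (1 : E) + I = I * (1 - I) := by linear_combination hI2
    rw [h8] at h7
    linear_combination ν' * (-h7) + (-(w ^ 2)) * hν2
  obtain ⟨κ, hκ, h9⟩ := hred _ hwm ⟨_, mul_mem hν' (sub_mem (pow_mem hδ _) (mul_mem hIm hTm)), h5⟩
  have h10 : Dv ζ (1 - I) (η ^ 2 - 1) := by
    refine ⟨η * κ - (1 + I), sub_mem (mul_mem hηm hκ) (add_mem (one_mem _) hIm), ?_⟩
    have h11 : η * w = η ^ 2 + 1 := by rw [hw]; field_simp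
    rw [h9] at h11
    linear_combination (-1 : E) * h11 - h2π
  have hω1 : (η ^ 2) ^ m = 1 := by
    rw [hηd, ← pow_mul, ← pow_mul, show 4 * j * (2 * m) = 4 * m * (2 * j) by ring, pow_mul, h,
      one_pow]
  have hω2 : η ^ 2 ≠ 1 := by
    intro h12
    rw [hηs] at h12
    have h13 : ζ ^ 4 = 1 := by
      have : (s * I * ζ) ^ 4 = (s ^ 2) ^ 2 * (I ^ 2) ^ 2 * ζ ^ 4 := by ring
      rw [h12, hs2, hI2] at this
      linear_combination -this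
    have := Nat.le_of_dvd (by norm_num) (hζ.dvd_of_pow_eq_one _ h13)
    omega
  obtain ⟨c, hc, h14⟩ := dvd_order (pow_mem hηm 2) hω1 hω2 h10
  obtain ⟨k', hk'⟩ := hm
  have hme : (m : E) = 2 * k' + 1 := by rw [hk']; push_cast; ring
  set v : E := c - (1 + I) * k' with hv
  have hvm : v ∈ Algebra.adjoin ℤ ({ζ} : Set E) :=
    sub_mem hc (mul_mem (add_mem (one_mem _) hIm) (natCast_mem _ k'))
  have h15 : (1 : E) = (1 - I) * v := by
    rw [hv]; rw [hme] at h14; linear_combination h14 - (k' : E) * h2π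
  have h16 : (1 : E) = 2 * (- (I * v ^ 2)) := by
    have : (1 : E) = ((1 - I) * v) ^ 2 := by rw [← h15, one_pow]
    rw [this]
    linear_combination v ^ 2 * hI2
  exact int_half (adj_int hpos h (neg_mem (mul_mem hIm (pow_mem hvm _)))) h16

end Pool.Agent.C4E
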