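import Pool.Agent.C4E.Ari2

/-!
# C4E-Ari3: `q - ζ - ζ⁻¹` is not a square in `ℚ(ζ)`: descent and small orders
-/

set_option autoImplicit false

open IntermediateField

namespace Pool.Agent.C4E

variable {E : Type*} [Field E] [CharZero E] [Algebra.IsIntegral ℚ E]

theorem lin_span (F : IntermediateField ℚ E) {ζ c d : E} (hc : c ∈ F) (hd : d ∈ F)
    (h : ζ ^ 2 = c + d * ζ) {x : E} (hx : x ∈ IntermediateField.adjoin ℚ ({ζ} : Set E)) :
    ∃ a ∈ F, ∃ b ∈ F, x = a + b * ζ := by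
  have hx' : x ∈ Algebra.adjoin ℚ ({ζ} : Set E) := by
    rw [← IntermediateField.adjoin_simple_toSubalgebra_of_isAlgebraic
      (Algebra.IsIntegral.isIntegral (R := ℚ) ζ).isAlgebraic]
    exact hx
  clear hx
  induction hx' using Algebra.adjoin_induction with
  | mem y hy =>
    rw [Set.mem_singleton_iff] at hy
    exact ⟨0, F.zero_mem, 1, F.one_mem, by rw [hy]; ring⟩
  | algebraMap r => exact ⟨algebraMap ℚ E r, F.algebraMap_mem r, 0, F.zero_mem, by ring⟩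
  | add y z hy hz hy' hz' =>
    obtain ⟨a, ha, b, hb, h1⟩ := hy'
    obtain ⟨a', ha', b', hb', h2⟩ := hz'
    exact ⟨a + a', F.add_mem ha ha', b + b', F.add_mem hb hb', by rw [h1, h2]; ring⟩
  | mul y z hy hz hy' hz' =>
    obtain ⟨a, ha, b, hb, h1⟩ := hy'
    obtain ⟨a', ha', b', hb', h2⟩ := hz'
    refine ⟨a * a' + b * b' * c, F.add_mem (F.mul_mem ha ha') (F.mul_mem (F.mul_mem hb hb') hc),
      a * b' + b * a' + b * b' * d, F.add_mem (F.add_mem (F.mul_mem ha hb') (F.mul_mem hb ha'))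
        (F.mul_mem (F.mul_mem hb hb') hd), ?_⟩
    rw [h1, h2]
    linear_combination b * b' * h

omit [Algebra.IsIntegral ℚ E] in
theorem rat_sq {D : ℤ} (hD : ¬ IsSquare D) {a : E} (ha : a ∈ (⊥ : IntermediateField ℚ E))
    (h : a ^ 2 = (D : E)) : False := by
  obtain ⟨r, hr⟩ := IntermediateField.mem_bot.mp ha
  have h1 : algebraMap ℚ E (r ^ 2) = algebraMap ℚ E (D : ℚ) := by
    rw [map_pow, hr, h, map_intCast]
  have h2 : r ^ 2 = (D : ℚ) := (algebraMap ℚ E).injective h1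
  apply hD
  rw [← Rat.isSquare_intCast_iff]
  exact ⟨r, by rw [← h2, sq]⟩

omit [Algebra.IsIntegral ℚ E] in
theorem rat_neg {D : ℤ} (hD : 0 < D) {a : E} (n : ℕ) (ha : a ∈ (⊥ : IntermediateField ℚ E))
    (h : -((n : E) * a ^ 2) = (D : E)) : False := by
  obtain ⟨r, hr⟩ := IntermediateField.mem_bot.mp ha
  have h1 : algebraMap ℚ E (-(n * r ^ 2)) = algebraMap ℚ E (D : ℚ) := by
    rw [map_neg, map_mul, map_pow, hr, map_intCast, map_natCast, h]
  have h2 : -((n : ℚ) * r ^ 2) = (D : ℚ) := (algebraMap ℚ E).injective h1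
  have h3 : (0 : ℚ) < D := by exact_mod_cast hD
  have h4 : (0 : ℚ) ≤ (n : ℚ) * r ^ 2 := by positivity
  linarith

omit [Algebra.IsIntegral ℚ E] in
theorem prim_not_bot {ζ : E} {m : ℕ} (hm : 3 ≤ m) (hζ : IsPrimitiveRoot ζ m) :
    ζ ∉ (⊥ : IntermediateField ℚ E) := by
  intro h
  obtain ⟨r, hr⟩ := IntermediateField.mem_bot.mp h
  have h1 : r ^ m = 1 := by
    apply (algebraMap ℚ E).injective
    rw [map_pow, hr, hζ.pow_eq_one, map_one]
  have h2 : |r| = 1 := by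
    have h3 : |r| ^ m = 1 := by rw [← abs_pow, h1, abs_one]
    exact (pow_eq_one_iff_of_nonneg (abs_nonneg r) (by omega)).mp h3
  have h4 : r ^ 2 = 1 := by rw [← sq_abs, h2, one_pow]
  have h5 : ζ ^ 2 = 1 := by
    have h6 : (r : ℚ) ^ 2 = 1 := h4
    rw [← hr, ← map_pow, h6, map_one]
  have := Nat.le_of_dvd (by norm_num) (hζ.dvd_of_pow_eq_one _ h5)
  omega

theorem order_three {ζ x : E} (hζ : IsPrimitiveRoot ζ 3) {D : ℤ} (hD : ¬ IsSquare D) (hD0 : 0 < D)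
    (hx : x ∈ IntermediateField.adjoin ℚ ({ζ} : Set E)) (h : x ^ 2 = (D : E)) : False := by
  have h1 : ζ ^ 2 = (-1) + (-1) * ζ := by
    have h2 : (ζ - 1) * (ζ ^ 2 + ζ + 1) = 0 := by
      have := hζ.pow_eq_one
      linear_combination this
    rcases mul_eq_zero.mp h2 with h3 | h3
    · exact absurd (sub_eq_zero.mp h3) (hζ.ne_one (by norm_num))
    · linear_combination h3
  obtain ⟨a, ha, b, hb, hab⟩ := lin_span (⊥ : IntermediateField ℚ E)
    (neg_mem (one_mem _)) (neg_mem (one_mem _)) h1 hx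
  have h2 : (a ^ 2 - b ^ 2 - D) + b * (2 * a - b) * ζ = 0 := by
    rw [hab] at h
    linear_combination h - b ^ 2 * h1
  have h3 : b * (2 * a - b) = 0 := by
    by_contra h4
    apply prim_not_bot (by norm_num) hζ
    have h5 : ζ = -(a ^ 2 - b ^ 2 - D) / (b * (2 * a - b)) := by
      rw [eq_div_iff h4]; linear_combination h2
    rw [h5]
    exact div_mem (neg_mem (sub_mem (sub_mem (pow_mem ha _) (pow_mem hb _)) (intCast_mem _ D)))
      (mul_mem hb (sub_mem (mul_mem (ofNat_mem _ 2) ha) hb))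
  rw [h3, zero_mul, add_zero] at h2
  rcases mul_eq_zero.mp h3 with h4 | h4
  · refine rat_sq hD ha ?_
    rw [h4] at h2; linear_combination h2
  · have h5 : b = 2 * a := by linear_combination -h4
    refine rat_neg hD0 3 ha ?_
    rw [h5] at h2; push_cast; linear_combination h2

theorem order_four {ζ x : E} (hζ : IsPrimitiveRoot ζ 4) {D : ℤ} (hD : ¬ IsSquare D) (hD0 : 0 < D)
    (hx : x ∈ IntermediateField.adjoin ℚ ({ζ} : Set E)) (h : x ^ 2 = (D : E)) : False := by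
  have h0 : ζ ^ 2 = -1 := by
    have := I_sq (m := 1) one_pos (by simpa using hζ)
    simpa using this
  have h1 : ζ ^ 2 = (-1) + 0 * ζ := by rw [h0]; ring
  obtain ⟨a, ha, b, hb, hab⟩ := lin_span (⊥ : IntermediateField ℚ E)
    (neg_mem (one_mem _)) (zero_mem _) h1 hx
  have h2 : (a ^ 2 - b ^ 2 - D) + (2 * a * b) * ζ = 0 := by
    rw [hab] at h
    linear_combination h - b ^ 2 * h0
  have h3 : 2 * a * b = 0 := by
    by_contra h4
    apply prim_not_bot (by norm_num) hζ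
    have h5 : ζ = -(a ^ 2 - b ^ 2 - D) / (2 * a * b) := by
      rw [eq_div_iff h4]; linear_combination h2
    rw [h5]
    exact div_mem (neg_mem (sub_mem (sub_mem (pow_mem ha _) (pow_mem hb _)) (intCast_mem _ D)))
      (mul_mem (mul_mem (ofNat_mem _ 2) ha) hb)
  rw [h3, zero_mul, add_zero] at h2
  rcases mul_eq_zero.mp h3 with h4 | h4
  · have h5 : a = 0 := by simpa using h4
    refine rat_neg hD0 1 hb ?_
    rw [h5] at h2; push_cast; linear_combination h2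
  · refine rat_sq hD ha ?_
    rw [h4] at h2; linear_combination h2

theorem zeta_not_mem {ζ : E} {m : ℕ} (hm : 0 < m) (hζ : IsPrimitiveRoot ζ (4 * m)) :
    ζ ∉ IntermediateField.adjoin ℚ ({ζ ^ 2} : Set E) := by
  intro h
  have h2 : IsPrimitiveRoot (ζ ^ 2) (2 * m) := hζ.pow (by omega) (by ring)
  have h3 : ℚ⟮ζ⟯ = ℚ⟮ζ ^ 2⟯ := by
    apply le_antisymm
    · rw [IntermediateField.adjoin_simple_le_iff]; exact h
    · rw [IntermediateField.adjoin_simple_le_iff]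
      exact pow_mem (IntermediateField.mem_adjoin_simple_self ℚ ζ) 2
  have h4 : Module.finrank ℚ ℚ⟮ζ⟯ = (4 * m).totient := by
    rw [IntermediateField.adjoin.finrank (Algebra.IsIntegral.isIntegral ζ),
      ← Polynomial.cyclotomic_eq_minpoly_rat hζ (by omega), Polynomial.natDegree_cyclotomic]
  have h5 : Module.finrank ℚ ℚ⟮ζ ^ 2⟯ = (2 * m).totient := by
    rw [IntermediateField.adjoin.finrank (Algebra.IsIntegral.isIntegral (ζ ^ 2)),
      ← Polynomial.cyclotomic_eq_minpoly_rat h2 (by omega), Polynomial.natDegree_cyclotomic]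
  rw [h3, h5] at h4
  have h6 : (4 * m).totient = 2 * (2 * m).totient := by
    rw [show 4 * m = 2 * (2 * m) by ring]
    exact Nat.totient_mul_of_prime_of_dvd Nat.prime_two ⟨m, rfl⟩
  have h7 : 0 < (2 * m).totient := Nat.totient_pos.mpr (by omega)
  omega

theorem descent {ζ x : E} {m : ℕ} (hm : 0 < m) (hζ : IsPrimitiveRoot ζ (4 * m)) {y : ℤ}
    (hx : x ∈ IntermediateField.adjoin ℚ ({ζ} : Set E)) (hx2 : x ^ 2 = y - ζ - ζ⁻¹) :
    ∃ x' ∈ IntermediateField.adjoin ℚ ({ζ ^ 2} : Set E),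
      x' ^ 2 = ((y ^ 2 - 2 : ℤ) : E) - ζ ^ 2 - (ζ ^ 2)⁻¹ := by
  have hz0 : ζ ≠ 0 := hζ.ne_zero (by omega)
  set F := IntermediateField.adjoin ℚ ({ζ ^ 2} : Set E) with hF
  have hzF : ζ ^ 2 ∈ F := IntermediateField.mem_adjoin_simple_self ℚ (ζ ^ 2)
  obtain ⟨a, ha, b, hb, hab⟩ := lin_span F hzF (F.zero_mem) (by ring : ζ ^ 2 = ζ ^ 2 + 0 * ζ) hx
  have h1 : (a ^ 2 + b ^ 2 * ζ ^ 2 - y) + (2 * a * b + 1 + (ζ ^ 2)⁻¹) * ζ = 0 := by
    rw [hab] at hx2
    have h2 : (ζ ^ 2)⁻¹ * ζ = ζ⁻¹ := by field_simp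
    linear_combination hx2 + h2
  have h3 : 2 * a * b + 1 + (ζ ^ 2)⁻¹ = 0 := by
    by_contra h4
    have h5 : ζ = -(a ^ 2 + b ^ 2 * ζ ^ 2 - y) / (2 * a * b + 1 + (ζ ^ 2)⁻¹) := by
      rw [eq_div_iff h4]; linear_combination h1
    have h55 : ζ ∉ F := zeta_not_mem hm hζ
    apply h55
    refine h5 ▸ ?_
    exact div_mem (neg_mem (sub_mem (add_mem (pow_mem ha _) (mul_mem (pow_mem hb _) hzF))
      (intCast_mem _ y))) (add_mem (add_mem (mul_mem (mul_mem (ofNat_mem _ 2) ha) hb)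
        (one_mem _)) (inv_mem hzF))
  rw [h3, zero_mul, add_zero] at h1
  refine ⟨a ^ 2 - b ^ 2 * ζ ^ 2, sub_mem (pow_mem ha _) (mul_mem (pow_mem hb _) hzF), ?_⟩
  have h6 : 2 * a * b = - (1 + (ζ ^ 2)⁻¹) := by linear_combination h3
  have h7 : (a ^ 2 - b ^ 2 * ζ ^ 2) ^ 2 = (a ^ 2 + b ^ 2 * ζ ^ 2) ^ 2 - (2 * a * b) ^ 2 * ζ ^ 2 := by
    ring
  have h8 : a ^ 2 + b ^ 2 * ζ ^ 2 = y := by linear_combination h1
  rw [h7, h8, h6]
  push_cast
  field_simp
  ring

end Pool.Agent.C4E
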