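import Pool.Agent.C4E.Ari3

/-!
# C4E-Ari4: `q - ζ - ζ⁻¹` is not a square in `ℚ(ζ)` for every root of unity `ζ`
-/

set_option autoImplicit false

open IntermediateField

namespace Pool.Agent.C4E

variable {E : Type*} [Field E] [CharZero E] [Algebra.IsIntegral ℚ E]

omit [CharZero E] [Algebra.IsIntegral ℚ E] in
private theorem root_int {ζ : E} {m : ℕ} (hm : 0 < m) (h : ζ ^ m = 1) : IsIntegral ℤ ζ := by
  refine ⟨Polynomial.X ^ m - Polynomial.C 1, Polynomial.monic_X_pow_sub_C 1 hm.ne', ?_⟩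
  simp [h]

omit [CharZero E] [Algebra.IsIntegral ℚ E] in
private theorem x_int {ζ x : E} {m : ℕ} {y : ℤ} (hm : 0 < m) (h : ζ ^ m = 1)
    (hx2 : x ^ 2 = y - ζ - ζ⁻¹) : IsIntegral ℤ x := by
  have h1 : IsIntegral ℤ (x ^ 2) := by
    rw [hx2]
    have h2 : IsIntegral ℤ ζ := root_int hm h
    have h3 : IsIntegral ℤ ζ⁻¹ := root_int hm (by rw [inv_pow, h, inv_one])
    have h4 : IsIntegral ℤ (y : E) := isIntegral_algebraMap (R := ℤ) (x := y)
    exact (h4.sub h2).sub h3
  exact h1.of_pow (by norm_num)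

/-- orders divisible by 4 -/
theorem nonsq_four (a : ℕ) : ∀ (m : ℕ), Odd m → ∀ (ζ x : E) (y : ℤ),
    IsPrimitiveRoot ζ (2 ^ a * (4 * m)) → Even y → 4 ≤ y → ¬ IsSquare y →
    x ∈ IntermediateField.adjoin ℚ ({ζ} : Set E) → x ^ 2 = y - ζ - ζ⁻¹ → False := by
  induction a with
  | zero =>
    intro m hm ζ x y hζ hy hy4 hsq hx hx2
    rw [pow_zero, one_mul] at hζ
    have hm0 : 0 < m := hm.pos
    rcases Nat.lt_or_ge 1 m with h1 | h1
    · exact four_core hm h1 hζ hy (int_mem (by omega) hζ hx (x_int (by omega) hζ.pow_eq_one hx2)) hx2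
    · have hm1 : m = 1 := by omega
      subst hm1
      have h4 : IsPrimitiveRoot ζ 4 := by simpa using hζ
      have h0 : ζ ^ 2 = -1 := by
        have := I_sq (m := 1) one_pos hζ
        simpa using this
      have hz0 : ζ ≠ 0 := hζ.ne_zero (by norm_num)
      have h5 : ζ + ζ⁻¹ = 0 := by
        field_simp
        linear_combination h0
      refine order_four h4 hsq (by omega) hx ?_
      rw [hx2]
      linear_combination -h5
  | succ a ih =>
    intro m hm ζ x y hζ hy hy4 hsq hx hx2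
    have hm0 : 0 < m := hm.pos
    have hζ' : IsPrimitiveRoot ζ (4 * (2 ^ (a + 1) * m)) := by
      have : 4 * (2 ^ (a + 1) * m) = 2 ^ (a + 1) * (4 * m) := by ring
      rw [this]; exact hζ
    obtain ⟨x', hx', hx2'⟩ := descent (by positivity) hζ' hx hx2
    have hζ2 : IsPrimitiveRoot (ζ ^ 2) (2 ^ a * (4 * m)) := hζ.pow (by positivity) (by ring)
    refine ih m hm (ζ ^ 2) x' (y ^ 2 - 2) hζ2 ?_ ?_ ?_ hx' hx2'
    · obtain ⟨t, ht⟩ := hy
      exact ⟨2 * t ^ 2 - 1, by rw [ht]; ring⟩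
    · nlinarith
    · rintro ⟨r, hr⟩
      obtain ⟨t, ht⟩ := hy
      have h1 : 4 * t ^ 2 - r * r = 2 := by rw [ht] at hr; linear_combination hr
      rcases Int.even_or_odd' r with ⟨s, hs | hs⟩
      · rw [hs] at h1; ring_nf at h1; omega
      · rw [hs] at h1; ring_nf at h1; omega

theorem nonsq {q : ℤ} (hq4 : 4 ∣ q) (hq0 : 4 ≤ q) (hq : ¬ IsSquare q) (hq1 : ¬ IsSquare (q + 1))
    {m : ℕ} (hm : 0 < m) {ζ x : E} (hζ : IsPrimitiveRoot ζ m)
    (hx : x ∈ IntermediateField.adjoin ℚ ({ζ} : Set E)) (hx2 : x ^ 2 = q - ζ - ζ⁻¹) : False := by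
  have hxi : IsIntegral ℤ x := x_int hm hζ.pow_eq_one hx2
  have hz0 : ζ ≠ 0 := hζ.ne_zero hm.ne'
  have hxm := int_mem hm hζ hx hxi
  have hcases : Odd m ∨ (∃ m', Odd m' ∧ m = 2 * m') ∨ ∃ a m', Odd m' ∧ m = 2 ^ a * (4 * m') := by
    obtain ⟨e, m', hm', he⟩ := Nat.exists_eq_two_pow_mul_odd hm.ne'
    match e, he with
    | 0, he => left; rw [he, pow_zero, one_mul]; exact hm'
    | 1, he => right; left; exact ⟨m', hm', by rw [he, pow_one]⟩
    | e + 2, he => right; right; exact ⟨e, m', hm', by rw [he]; ring⟩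
  rcases hcases with h1 | ⟨m', hm', h1⟩ | ⟨a, m', hm', h1⟩
  · -- odd order
    have h3 : ζ ^ 3 = 1 := odd_core h1 hζ.pow_eq_one hq4 hxm hx2
    have h4 : m ∣ 3 := hζ.dvd_of_pow_eq_one _ h3
    rcases (Nat.dvd_prime Nat.prime_three).mp h4 with h5 | h5
    · subst h5
      have h6 : ζ = 1 := by simpa using hζ.pow_eq_one
      rw [h6] at hx hx2
      have h7 : x ∈ (⊥ : IntermediateField ℚ E) := by
        have : IntermediateField.adjoin ℚ ({(1 : E)} : Set E) = ⊥ := by
          rw [IntermediateField.adjoin_simple_eq_bot_iff]; exact one_mem _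
        rw [this] at hx; exact hx
      refine rat_sq (D := q - 2) ?_ h7 (by rw [hx2]; push_cast; ring)
      rintro ⟨r, hr⟩
      obtain ⟨t, ht⟩ := hq4
      rcases Int.even_or_odd' r with ⟨s, hs | hs⟩
      · rw [hs, ht] at hr; ring_nf at hr; omega
      · rw [hs, ht] at hr; ring_nf at hr; omega
    · subst h5
      refine order_three hζ hq1 (by omega) hx ?_
      have h6 : ζ + ζ⁻¹ = -1 := by
        have h2 : (ζ - 1) * (ζ ^ 2 + ζ + 1) = 0 := by linear_combination h3
        rcases mul_eq_zero.mp h2 with h7 | h7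
        · exact absurd (sub_eq_zero.mp h7) (hζ.ne_one (by norm_num))
        · field_simp; linear_combination h7
      rw [hx2]; push_cast; linear_combination -h6
  · -- order 2 m'
    have h2 : (-ζ) ^ m' = 1 := by
      have h3 : (ζ ^ m' - 1) * (ζ ^ m' + 1) = 0 := by
        have : (ζ ^ m' - 1) * (ζ ^ m' + 1) = ζ ^ (2 * m') - 1 := by ring
        rw [this, ← h1, hζ.pow_eq_one, sub_self]
      rcases mul_eq_zero.mp h3 with h4 | h4
      · exfalso
        have h5 := Nat.le_of_dvd hm'.pos (hζ.dvd_of_pow_eq_one _ (sub_eq_zero.mp h4))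
        have := hm'.pos
        omega
      · rw [hm'.neg_pow]; linear_combination -h4
    have h3 : x ∈ Algebra.adjoin ℤ ({-ζ} : Set E) := by
      have h4 : Algebra.adjoin ℤ ({ζ} : Set E) ≤ Algebra.adjoin ℤ ({-ζ} : Set E) := by
        rw [Algebra.adjoin_le_iff]
        rintro y rfl
        have := neg_mem (Algebra.self_mem_adjoin_singleton ℤ (-y))
        rw [neg_neg] at this
        exact this
      exact h4 hxm
    exact twice_core hm' h2 hq4 h3 (by rw [hx2, inv_neg]; ring)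
  · rw [h1] at hζ
    exact nonsq_four a m' hm' ζ x q hζ (by obtain ⟨t, ht⟩ := hq4; exact ⟨2 * t, by rw [ht]; ring⟩)
      hq0 hq hx hx2

end Pool.Agent.C4E
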