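import Pool.Agent.C4E.Basic
import Pool.Agent.C4E.Cnt

/-!
# C4E-Sq: sums of `f` and of the squares of the deficiencies

PLAN. `sum_ff`: exchange the sums (`sum_nb_comm h univ`, or directly):
`∑ x, ff x = ∑ z, |N z| * dl z`, `|N z| = q + 1 - dl z` (`card_N`), and `∑ dl² = QQ + XX`
(`sum_dl_sq`).
`sum_sq`: `0 ≤ ∑ x, |Sf N x| = ∑ x, (b + q dl x + ff x)` (`card_Sf`) and `sum_ff`.
`sum_ph`: `∑ x, ph x = ∑ z, |N z| * hh z` and `|N z| * hh z = (q + 1) hh z + hh z ^ 2` (if `hh z ≠ 0`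
then `dl z = - hh z`, see `dl_eq`, `hh_of_nonneg`).
`ff_heavy`: `card_Sf` and `0 ≤ |Sf N x|`; for `dl x ≤ 0`: `dl x = - hh x`.
-/

set_option linter.unusedSectionVars false

namespace Pool.Agent.C4E

open Finset

variable {V : Type} [Fintype V] [DecidableEq V]

theorem sum_ff (q : ℕ) {N : V → Finset V} (h : Cls N) :
    ∑ x, ff q N x = (q + 1) * ∑ x, dl q N x - QQ q N - XX q N := by
  have h1 := sum_nb_comm h univ (fun z => dl q N z)
  have h2 : ∑ x, ff q N x = ∑ z, ((N z ∩ univ).card : ℤ) * dl q N z := h1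
  rw [h2]
  have h3 : ∀ z, ((N z ∩ univ).card : ℤ) * dl q N z = (q + 1) * dl q N z - dl q N z ^ 2 := by
    intro z
    rw [inter_univ, card_N q N z]
    ring
  rw [sum_congr rfl fun z _ => h3 z, sum_sub_distrib, sum_dl_sq, mul_sum]
  ring

theorem sum_ph (q : ℕ) {N : V → Finset V} (h : Cls N) :
    ∑ x, ph q N x = (q + 1) * HH q N + XX q N := by
  have h1 := sum_nb_comm h univ (fun z => hh q N z)
  have h2 : ∑ x, ph q N x = ∑ z, ((N z ∩ univ).card : ℤ) * hh q N z := h1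
  rw [h2]
  have h3 : ∀ z, ((N z ∩ univ).card : ℤ) * hh q N z = (q + 1) * hh q N z + hh q N z ^ 2 := by
    intro z
    rw [inter_univ, card_N q N z]
    rcases le_total 0 (dl q N z) with h | h
    · rw [hh_of_nonneg h]; ring
    · rw [hh_of_nonpos h]; ring
  rw [sum_congr rfl fun z _ => h3 z, sum_add_distrib, ← mul_sum]
  rfl

theorem sum_sq (q b : ℕ) {N : V → Finset V} (h : Cls N)
    (hn : Fintype.card V = q ^ 2 + q + 1 + b) :
    QQ q N + XX q N ≤ b * (q ^ 2 + q + 1 + b) + (2 * q + 1) * ∑ x, dl q N x := by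
  have h1 : (0 : ℤ) ≤ ∑ x, ((Sf N x).card : ℤ) := sum_nonneg fun x _ => Nat.cast_nonneg _
  rw [sum_congr rfl fun x _ => card_Sf q b h hn x, sum_add_distrib, sum_add_distrib, sum_ff q h,
    ← mul_sum, sum_const, card_univ, hn, nsmul_eq_mul] at h1
  push_cast at h1
  linarith

theorem ff_heavy (q b : ℕ) {N : V → Finset V} (h : Cls N)
    (hn : Fintype.card V = q ^ 2 + q + 1 + b) (x : V) (hx : dl q N x ≤ 0) :
    q * hh q N x - b ≤ ff q N x := by
  have h1 := card_Sf q b h hn x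
  have h2 : (0 : ℤ) ≤ ((Sf N x).card : ℤ) := Nat.cast_nonneg _
  rw [hh_of_nonpos hx]
  linarith

end Pool.Agent.C4E
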