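import Pool.Agent.C4E.Defs3
import Pool.Agent.C4E.Cn
import Pool.Agent.C4E.Sq

/-!
# C4E-BG: the general situation after the elimination of hubs

There are at most two heavy vertices: each has about `q` deficiencies at its neighbours.
-/

set_option linter.unusedSectionVars false

namespace Pool.Agent.C4E

open Finset

variable {V : Type} [Fintype V] [DecidableEq V]

private theorem bg_HH {q : ℕ} {N : V → Finset V} (h1 : ∀ x, hh q N x ≤ 1) :
    HH q N ≤ ((Hv q N).card : ℤ) := by
  unfold HH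
  have h2 : ((Hv q N).card : ℤ) = ∑ x, if x ∈ Hv q N then (1 : ℤ) else 0 := by
    rw [sum_ite_mem, univ_inter]
    simp
  rw [h2]
  refine sum_le_sum fun x _ => ?_
  split_ifs with hx
  · exact h1 x
  · rw [mem_Hv] at hx
    rw [hh_of_nonneg (by omega)]

theorem sysG {q : ℕ} {N : V → Finset V} (s : SysB q N) (hs : ∀ x, 2000 * dl q N x < q) :
    SysG q N := by
  have hbig : 10 ^ 6 ≤ q := le_trans (by norm_num) s.sys.big
  have hdp := s.dpb
  refine ⟨s.sys.cls, s.sys.card, s.sys.big, s.h1, ?_, hdp, fun x => (hs x).le⟩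
  refine (bg_HH s.h1).trans ?_
  by_contra hcon
  push Not at hcon
  have h3 : 3 ≤ (Hv q N).card := by omega
  obtain ⟨W, hW, hW3⟩ := exists_subset_card_eq h3
  have hM : ∀ x, dp q N x ≤ (q : ℤ) / 2000 := by
    intro x
    have h4 := hs x
    unfold dp
    refine max_le (by omega) (by omega)
  have h5 := hub_cnt s.sys.cls (fun x => dp q N x) (dp_nonneg q N) ((q : ℤ) / 2000) hM W
  have h6 : ∑ x ∈ W, ((q : ℤ) - 1) ≤ ∑ x ∈ W, ∑ z ∈ N x, dp q N z := by
    refine sum_le_sum fun x hx => ?_
    have h7 := mem_Hv.1 (hW hx)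
    have h8 := ff_heavy q 1 s.sys.cls s.sys.card x (by omega)
    have h9 := ff_le_pp q N x
    rw [hh_of_nonpos (by omega)] at h8
    have h10 : (q : ℤ) * 1 ≤ q * -dl q N x :=
      mul_le_mul_of_nonneg_left (by omega) (Nat.cast_nonneg _)
    have h11 : pp q N x = ∑ z ∈ N x, dp q N z := rfl
    rw [← h11]
    push_cast at h8
    omega
  rw [sum_const, hW3, nsmul_eq_mul] at h6
  rw [hW3] at h5
  have h7 : DP q N = ∑ z, dp q N z := rfl
  rw [← h7] at h5
  push_cast at h5 h6
  omega

end Pool.Agent.C4E
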