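import Pool.Agent.C4E.BPr
import Pool.Agent.C4E.HvX

/-!
# C4E-BHv: first bounds for heavy vertices in Case B

PLAN. `D = ∑ dl ≤ 2 q - 10^14`, `DP = D + HH` (`DP_eq`). Round 1: `HH ≤ XX` and
`q XX ≤ 3 QQ ≤ 18 q²` (`XX_le`, `QQ_le`, `b = 1`): `HH ≤ 18 q`, `DP ≤ 20 q`. `heavy_pairs`:
`|Hv| (q - 1)(q - 20000) ≤ 4 * 10^6 q²`, so `|Hv| ≤ 4.1 * 10^6`. `ff_heavy`, `ff ≤ pp ≤ DP` (`pp_le_DP`):
`q hh x - 1 ≤ 20 q`, so `hh x ≤ 20`; `HH ≤ 20 |Hv| ≤ 8.2 * 10^7` (`hh = 0` off `Hv`). Round 2: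
`DP ≤ 2 q - 10^14 + 8.2 * 10^7 < 2 q - 2`; `q hh x - 1 ≤ DP` gives `hh x ≤ 1`; `HH = |Hv|`, and
`|Hv| (q - 1)(q - 20000) ≤ 4 * 10^4 q²` gives `|Hv| ≤ 40001` (`q ≥ 10^100`).
-/

set_option linter.unusedSectionVars false

namespace Pool.Agent.C4E

open Finset

variable {V : Type} [Fintype V] [DecidableEq V]

theorem sysB {q : ℕ} {N : V → Finset V} (s : Sys q N) (hd : ∀ x, q < 10 ^ 4 * (N x).card) :
    SysB q N := by
  have hq : (10 ^ 100 : ℤ) ≤ q := by exact_mod_cast s.big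
  have hq6 : 10 ^ 6 ≤ q := le_trans (by norm_num) s.big
  have hn : Fintype.card V = q ^ 2 + q + 1 + 1 := by rw [s.card]
  have hsum := s.sum
  have hD : ∑ x, dl q N x ≤ 2 * q := by linarith
  have hDP := DP_eq q N
  have hQ := QQ_le q 1 s.cls le_rfl hn hq6 hD
  have hX := XX_le q 1 s.cls le_rfl hn hq6 hD
  have hHX := HH_le_XX q N
  have hpairs := heavy_pairs s hd
  have hDP0 := DP_nonneg q N
  -- round 1
  have hX18 : XX q N ≤ 18 * q := by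
    have h1 : (q : ℤ) * XX q N ≤ q * (18 * q) := by linarith
    exact le_of_mul_le_mul_left h1 (by linarith)
  have hDP20 : DP q N ≤ 20 * q := by linarith
  have hq2 : (0 : ℤ) ≤ (q : ℤ) ^ 2 := sq_nonneg _
  have hbq : (10 ^ 100 : ℤ) * q ≤ (q : ℤ) ^ 2 := by
    rw [pow_two]
    exact mul_le_mul_of_nonneg_right hq (by linarith)
  have hcnt : ∀ K : ℤ, 1 ≤ K → DP q N ≤ K * q → K ≤ 20 →
      ((Hv q N).card : ℤ) ≤ 10 ^ 4 * K ^ 2 + 1 := by
    intro K hK1 hK hK20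
    by_contra hcon
    have h1 : 10 ^ 4 * K ^ 2 + 1 ≤ ((Hv q N).card : ℤ) := by omega
    have h2 : DP q N ^ 2 ≤ (K * q) ^ 2 := pow_le_pow_left₀ hDP0 hK 2
    have h3 : (0 : ℤ) ≤ ((q : ℤ) - 1) * (q - 20000) :=
      mul_nonneg (by linarith) (by linarith)
    have h4 := mul_le_mul_of_nonneg_right h1 h3
    have h5 : K ^ 2 ≤ 400 := by nlinarith
    have h6 : (10 ^ 4 * K ^ 2 + 1) * (((q : ℤ) - 1) * (q - 20000)) ≤ 10 ^ 4 * (K * q) ^ 2 := by
      linarith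
    have h7 : (10 ^ 4 * K ^ 2 + 1) * (20001 * q) ≤ 4000001 * (20001 * q) :=
      mul_le_mul_of_nonneg_right (by linarith) (by linarith)
    have h8 : (10 ^ 4 * K ^ 2 + 1) * ((q : ℤ) ^ 2) ≤ 10 ^ 4 * (K * q) ^ 2 +
        (10 ^ 4 * K ^ 2 + 1) * (20001 * q) := by
      have h9 : (0 : ℤ) ≤ (10 ^ 4 * K ^ 2 + 1) * 20000 := by positivity
      nlinarith
    have h10 : (q : ℤ) ^ 2 ≤ 4000001 * (20001 * q) := by
      have h11 : 10 ^ 4 * (K * (q : ℤ)) ^ 2 = 10 ^ 4 * K ^ 2 * (q : ℤ) ^ 2 := by ring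
      linarith
    linarith
  have hhb : ∀ K : ℤ, DP q N ≤ K * q - 2 + q → 0 ≤ K → ∀ x, hh q N x ≤ K := by
    intro K hK hK0 x
    rcases le_or_gt 0 (dl q N x) with h0 | h0
    · rw [hh_of_nonneg h0]
      exact hK0
    · have h1 := ff_heavy q 1 s.cls hn x h0.le
      have h2 := ff_le_pp q N x
      have h3 := pp_le_DP q N x
      by_contra hcon
      have h4 : K + 1 ≤ hh q N x := by omega
      have h5 : (q : ℤ) * (K + 1) ≤ q * hh q N x := mul_le_mul_of_nonneg_left h4 (by linarith)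
      push_cast at h1
      linarith
  have hHc : ∀ K : ℤ, (∀ x, hh q N x ≤ K) → HH q N ≤ K * (Hv q N).card := by
    intro K hK
    have h1 : HH q N = ∑ x ∈ Hv q N, hh q N x := by
      unfold HH
      symm
      refine sum_subset (subset_univ _) fun x _ hx => ?_
      rw [mem_Hv] at hx
      exact hh_of_nonneg (by omega)
    rw [h1]
    calc ∑ x ∈ Hv q N, hh q N x ≤ ∑ _x ∈ Hv q N, K := sum_le_sum fun x _ => hK x
      _ = K * (Hv q N).card := by rw [sum_const, nsmul_eq_mul]; ring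
  have r1 := hcnt 20 (by norm_num) hDP20 le_rfl
  have r2 := hhb 20 (by linarith) (by norm_num)
  have r3 := hHc 20 r2
  have hH1 : HH q N ≤ 20 * (10 ^ 4 * 20 ^ 2 + 1) := by linarith
  have hDP2 : DP q N ≤ 2 * q - 2 := by linarith
  have r4 := hhb 1 (by linarith) (by norm_num)
  have r5 := hHc 1 r4
  have r6 := hcnt 2 (by norm_num) (by linarith) (by norm_num)
  exact ⟨s, hd, r4, by linarith⟩

end Pool.Agent.C4E
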