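import Pool.Agent.C4E.Defs3
import Pool.Agent.C4E.Sq
import Pool.Agent.C4E.Cn

/-!
# C4E-BPr: heavy vertices in Case B, pair counting

PLAN. Let `x ∈ Hv`: `hh x ≥ 1`, `pp x ≥ ff x ≥ q hh x - 1 ≥ q - 1` (`ff_le_pp`, `ff_heavy`, `b = 1`).
Every `z` has `10^4 dl z ≤ 10^4 (q + 1) - q` (from `q < 10^4 |N z|`, `|N z| = q + 1 - dl z`), so also
`10^4 dp z ≤ 10^4 (q + 1) - q`. Hence
`10^4 ∑ z ∈ N x, ∑ z' ∈ (N x).erase z, dp z dp z' = ∑ z ∈ N x, dp z (10^4 pp x - 10^4 dp z)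
≥ pp x (10^4 pp x - 10^4 (q + 1) + q) ≥ (q - 1)(10^4 (q - 1) - 10^4 (q + 1) + q)
= (q - 1)(q - 20000)`. Sum over `x ∈ Hv` and use `pr_cnt` with `v = dp`.
-/

set_option linter.unusedSectionVars false

namespace Pool.Agent.C4E

open Finset

variable {V : Type} [Fintype V] [DecidableEq V]

theorem heavy_pairs {q : ℕ} {N : V → Finset V} (s : Sys q N) (hd : ∀ x, q < 10 ^ 4 * (N x).card) :
    ((Hv q N).card : ℤ) * (((q : ℤ) - 1) * (q - 20000)) ≤ 10 ^ 4 * DP q N ^ 2 := by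
  have hq : (10 ^ 100 : ℤ) ≤ q := by exact_mod_cast s.big
  have hn : Fintype.card V = q ^ 2 + q + 1 + 1 := by rw [s.card]
  have hdz : ∀ z, 10 ^ 4 * dp q N z ≤ 10 ^ 4 * ((q : ℤ) + 1) - q := by
    intro z
    have h1 : (q : ℤ) < 10 ^ 4 * (N z).card := by exact_mod_cast hd z
    rw [card_N q N z] at h1
    have h2 : dp q N z = dl q N z ∨ dp q N z = 0 := max_choice _ _
    rcases h2 with h2 | h2 <;> rw [h2] <;> linarith
  have hx : ∀ x ∈ Hv q N, ((q : ℤ) - 1) * (q - 20000) ≤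
      10 ^ 4 * ∑ z ∈ N x, ∑ z' ∈ (N x).erase z, dp q N z * dp q N z' := by
    intro x hx
    have h1 := mem_Hv.1 hx
    have h2 := ff_heavy q 1 s.cls hn x (by omega)
    have h3 := ff_le_pp q N x
    have h4 : 1 ≤ hh q N x := by rw [hh_of_nonpos (by omega)]; omega
    have h5 : (q : ℤ) - 1 ≤ pp q N x := by
      have h6 : (q : ℤ) * 1 ≤ q * hh q N x := mul_le_mul_of_nonneg_left h4 (by positivity)
      push_cast at h2
      linarith
    have h6 : ∀ z ∈ N x, ∑ z' ∈ (N x).erase z, dp q N z * dp q N z' =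
        dp q N z * (pp q N x - dp q N z) := by
      intro z hz
      rw [← mul_sum]
      congr 1
      rw [sum_erase_eq_sub hz]
      rfl
    rw [sum_congr rfl h6, mul_sum]
    have h8 : ∀ z ∈ N x, dp q N z * (10 ^ 4 * pp q N x - (10 ^ 4 * ((q : ℤ) + 1) - q)) ≤
        10 ^ 4 * (dp q N z * (pp q N x - dp q N z)) := by
      intro z _
      have h9 := mul_nonneg (dp_nonneg q N z) (sub_nonneg.2 (hdz z))
      linarith
    refine le_trans ?_ (sum_le_sum h8)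
    rw [← sum_mul]
    have h9 : ∑ z ∈ N x, dp q N z = pp q N x := rfl
    rw [h9]
    have h10 : (0 : ℤ) ≤ (q : ℤ) - 1 := by linarith
    have h11 : (q : ℤ) - 20000 ≤ 10 ^ 4 * pp q N x - (10 ^ 4 * ((q : ℤ) + 1) - q) := by linarith
    have h12 : (0 : ℤ) ≤ (q : ℤ) - 20000 := by linarith
    exact mul_le_mul h5 h11 h12 (by linarith)
  have h1 := pr_cnt s.cls (fun z => dp q N z) (fun z => dp_nonneg q N z)
  have h2 : ∑ _x ∈ Hv q N, ((q : ℤ) - 1) * (q - 20000) ≤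
      ∑ x ∈ Hv q N, 10 ^ 4 * ∑ z ∈ N x, ∑ z' ∈ (N x).erase z, dp q N z * dp q N z' :=
    sum_le_sum hx
  rw [sum_const, nsmul_eq_mul] at h2
  refine h2.trans ?_
  rw [← mul_sum]
  refine mul_le_mul_of_nonneg_left ?_ (by norm_num)
  refine le_trans (sum_le_sum_of_subset_of_nonneg (subset_univ _) fun x _ _ => ?_) h1
  exact sum_nonneg fun z _ => sum_nonneg fun z' _ => mul_nonneg (dp_nonneg q N z) (dp_nonneg q N z')

end Pool.Agent.C4E
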