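import Pool.Agent.C4E.Defs

/-!
# C4E: basic lemmas (all proved)
-/

namespace Pool.Agent.C4E

open Finset

variable {V : Type} [Fintype V] [DecidableEq V]

theorem mem_Sf {N : V → Finset V} {x y : V} : y ∈ Sf N x ↔ y ≠ x ∧ N x ∩ N y = ∅ := by
  simp [Sf]

theorem Sf_symm {N : V → Finset V} {x y : V} : y ∈ Sf N x ↔ x ∈ Sf N y := by
  rw [mem_Sf, mem_Sf, inter_comm, ne_comm]

theorem not_mem_Sf_self {N : V → Finset V} (x : V) : x ∉ Sf N x := by
  simp [Sf]

theorem Cls.mem_comm {N : V → Finset V} (h : Cls N) {x y : V} : y ∈ N x ↔ x ∈ N y :=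
  ⟨h.symm x y, h.symm y x⟩

/-- two different vertices have at most one common neighbour -/
theorem Cls.uniq {N : V → Finset V} (h : Cls N) {x y c c' : V} (hxy : x ≠ y) (h1 : c ∈ N x)
    (h2 : c ∈ N y) (h3 : c' ∈ N x) (h4 : c' ∈ N y) : c = c' := by
  by_contra hne
  have hsub : ({c, c'} : Finset V) ⊆ N x ∩ N y := by
    intro z hz
    simp only [mem_insert, mem_singleton] at hz
    rcases hz with rfl | rfl
    · exact mem_inter.2 ⟨h1, h2⟩
    · exact mem_inter.2 ⟨h3, h4⟩
  have := card_le_card hsub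
  rw [card_pair hne] at this
  have := h.cod x y hxy
  omega

/-- if `y ∉ Sf N x` then `x` and `y` have a common neighbour -/
theorem exists_common {N : V → Finset V} {x y : V} (hxy : y ≠ x) (hS : y ∉ Sf N x) :
    ∃ c, c ∈ N x ∧ c ∈ N y := by
  rw [mem_Sf, not_and] at hS
  have h1 := hS hxy
  obtain ⟨c, hc⟩ := Finset.nonempty_iff_ne_empty.2 h1
  exact ⟨c, (mem_inter.1 hc).1, (mem_inter.1 hc).2⟩

/-- vertices with a common neighbour are not in relation `Sf` -/
theorem not_Sf_of_common {N : V → Finset V} {x y c : V} (h1 : c ∈ N x) (h2 : c ∈ N y) :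
    y ∉ Sf N x := by
  rw [mem_Sf, not_and]
  intro _ h3
  have : c ∈ N x ∩ N y := mem_inter.2 ⟨h1, h2⟩
  rw [h3] at this
  simp at this

theorem card_inter_eq {N : V → Finset V} (h : Cls N) {x y : V} (hxy : y ≠ x) :
    (N x ∩ N y).card = if y ∈ Sf N x then 0 else 1 := by
  split_ifs with hs
  · rw [(mem_Sf.1 hs).2]; simp
  · obtain ⟨c, h1, h2⟩ := exists_common hxy hs
    have h3 : 0 < (N x ∩ N y).card := card_pos.2 ⟨c, mem_inter.2 ⟨h1, h2⟩⟩
    have h4 := h.cod x y hxy.symm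
    omega

theorem dp_nonneg (q : ℕ) (N : V → Finset V) (x : V) : 0 ≤ dp q N x := le_max_right _ _

theorem hh_nonneg (q : ℕ) (N : V → Finset V) (x : V) : 0 ≤ hh q N x := le_max_right _ _

theorem dl_eq (q : ℕ) (N : V → Finset V) (x : V) : dl q N x = dp q N x - hh q N x := by
  unfold dp hh
  rcases le_total 0 (dl q N x) with h | h
  · rw [max_eq_left h, max_eq_right (by omega)]; ring
  · rw [max_eq_right h, max_eq_left (by omega)]; ring

theorem dl_le_dp (q : ℕ) (N : V → Finset V) (x : V) : dl q N x ≤ dp q N x := le_max_left _ _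

theorem neg_hh_le (q : ℕ) (N : V → Finset V) (x : V) : -hh q N x ≤ dl q N x := by
  have := dl_eq q N x
  have := dp_nonneg q N x
  omega

theorem dp_of_pos {q : ℕ} {N : V → Finset V} {x : V} (h : 0 ≤ dl q N x) : dp q N x = dl q N x :=
  max_eq_left h

theorem dp_of_nonpos {q : ℕ} {N : V → Finset V} {x : V} (h : dl q N x ≤ 0) : dp q N x = 0 :=
  max_eq_right h

theorem hh_of_nonneg {q : ℕ} {N : V → Finset V} {x : V} (h : 0 ≤ dl q N x) : hh q N x = 0 :=
  max_eq_right (by omega)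

theorem hh_of_nonpos {q : ℕ} {N : V → Finset V} {x : V} (h : dl q N x ≤ 0) :
    hh q N x = -dl q N x := max_eq_left (by omega)

theorem ff_eq (q : ℕ) (N : V → Finset V) (x : V) : ff q N x = pp q N x - ph q N x := by
  unfold ff pp ph
  rw [← sum_sub_distrib]
  exact sum_congr rfl fun z _ => dl_eq q N z

theorem pp_nonneg (q : ℕ) (N : V → Finset V) (x : V) : 0 ≤ pp q N x :=
  sum_nonneg fun z _ => dp_nonneg q N z

theorem ph_nonneg (q : ℕ) (N : V → Finset V) (x : V) : 0 ≤ ph q N x :=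
  sum_nonneg fun z _ => hh_nonneg q N z

theorem pp_le_DP (q : ℕ) (N : V → Finset V) (x : V) : pp q N x ≤ DP q N :=
  sum_le_sum_of_subset_of_nonneg (subset_univ _) fun z _ _ => dp_nonneg q N z

theorem ph_le_HH (q : ℕ) (N : V → Finset V) (x : V) : ph q N x ≤ HH q N :=
  sum_le_sum_of_subset_of_nonneg (subset_univ _) fun z _ _ => hh_nonneg q N z

theorem ff_le_pp (q : ℕ) (N : V → Finset V) (x : V) : ff q N x ≤ pp q N x := by
  have := ff_eq q N x
  have := ph_nonneg q N x
  omega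

theorem neg_HH_le_ff (q : ℕ) (N : V → Finset V) (x : V) : -HH q N ≤ ff q N x := by
  have := ff_eq q N x
  have := ph_le_HH q N x
  have := pp_nonneg q N x
  omega

theorem dp_le_DP (q : ℕ) (N : V → Finset V) (x : V) : dp q N x ≤ DP q N :=
  single_le_sum (f := fun x => dp q N x) (fun z _ => dp_nonneg q N z) (mem_univ x)

theorem hh_le_HH (q : ℕ) (N : V → Finset V) (x : V) : hh q N x ≤ HH q N :=
  single_le_sum (f := fun x => hh q N x) (fun z _ => hh_nonneg q N z) (mem_univ x)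

theorem DP_nonneg (q : ℕ) (N : V → Finset V) : 0 ≤ DP q N := sum_nonneg fun z _ => dp_nonneg q N z

theorem HH_nonneg (q : ℕ) (N : V → Finset V) : 0 ≤ HH q N := sum_nonneg fun z _ => hh_nonneg q N z

theorem QQ_nonneg (q : ℕ) (N : V → Finset V) : 0 ≤ QQ q N := sum_nonneg fun z _ => sq_nonneg _

theorem XX_nonneg (q : ℕ) (N : V → Finset V) : 0 ≤ XX q N := sum_nonneg fun z _ => sq_nonneg _

theorem DP_eq (q : ℕ) (N : V → Finset V) : DP q N = ∑ x, dl q N x + HH q N := by
  unfold DP HH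
  rw [← sum_add_distrib]
  refine sum_congr rfl fun z _ => ?_
  have := dl_eq q N z
  omega

theorem sum_dl_sq (q : ℕ) (N : V → Finset V) : ∑ x, dl q N x ^ 2 = QQ q N + XX q N := by
  unfold QQ XX
  rw [← sum_add_distrib]
  refine sum_congr rfl fun z _ => ?_
  rcases le_total 0 (dl q N z) with h | h
  · rw [dp_of_pos h, hh_of_nonneg h]; ring
  · rw [dp_of_nonpos h, hh_of_nonpos h]; ring

theorem HH_le_XX (q : ℕ) (N : V → Finset V) : HH q N ≤ XX q N := by
  unfold HH XX
  refine sum_le_sum fun z _ => ?_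
  have := hh_nonneg q N z
  nlinarith [Int.le_self_sq (hh q N z)]

theorem DP_le_QQ (q : ℕ) (N : V → Finset V) : DP q N ≤ QQ q N := by
  unfold DP QQ
  refine sum_le_sum fun z _ => ?_
  nlinarith [Int.le_self_sq (dp q N z)]

theorem mem_Yd {q : ℕ} {N : V → Finset V} {x : V} : x ∈ Yd q N ↔ 1 ≤ dl q N x := by simp [Yd]

theorem mem_Fl {q : ℕ} {N : V → Finset V} {x : V} : x ∈ Fl q N ↔ dl q N x = 0 := by simp [Fl]

theorem mem_Hv {q : ℕ} {N : V → Finset V} {x : V} : x ∈ Hv q N ↔ dl q N x ≤ -1 := by simp [Hv]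

theorem card_Yd_le (q : ℕ) (N : V → Finset V) : ((Yd q N).card : ℤ) ≤ DP q N := by
  have h1 : ((Yd q N).card : ℤ) = ∑ _x ∈ Yd q N, (1 : ℤ) := by simp
  rw [h1]
  calc ∑ _x ∈ Yd q N, (1 : ℤ) ≤ ∑ x ∈ Yd q N, dp q N x :=
        sum_le_sum fun x hx => (mem_Yd.1 hx).trans (dl_le_dp q N x)
    _ ≤ DP q N := sum_le_sum_of_subset_of_nonneg (subset_univ _) fun z _ _ => dp_nonneg q N z

theorem card_Hv_le (q : ℕ) (N : V → Finset V) : ((Hv q N).card : ℤ) ≤ HH q N := by
  have h1 : ((Hv q N).card : ℤ) = ∑ _x ∈ Hv q N, (1 : ℤ) := by simp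
  rw [h1]
  calc ∑ _x ∈ Hv q N, (1 : ℤ) ≤ ∑ x ∈ Hv q N, hh q N x := by
        refine sum_le_sum fun x hx => ?_
        have h2 := mem_Hv.1 hx
        rw [hh_of_nonpos (by omega)]; omega
    _ ≤ HH q N := sum_le_sum_of_subset_of_nonneg (subset_univ _) fun z _ _ => hh_nonneg q N z

theorem card_parts (q : ℕ) (N : V → Finset V) :
    (Yd q N).card + (Fl q N).card + (Hv q N).card = Fintype.card V := by
  have h1 : Yd q N ∪ Fl q N ∪ Hv q N = univ := by
    ext x
    simp only [mem_union, mem_Yd, mem_Fl, mem_Hv, mem_univ, iff_true]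
    omega
  have h2 : Disjoint (Yd q N) (Fl q N) := by
    rw [disjoint_left]; intro x; rw [mem_Yd, mem_Fl]; omega
  have h3 : Disjoint (Yd q N ∪ Fl q N) (Hv q N) := by
    rw [disjoint_left]; intro x; rw [mem_union, mem_Yd, mem_Fl, mem_Hv]; omega
  rw [← card_union_of_disjoint h2, ← card_union_of_disjoint h3, h1, card_univ]

/-- every finite set splits into its deficient, full and heavy vertices -/
theorem card_split (q : ℕ) (N : V → Finset V) (S : Finset V) :
    (S ∩ Yd q N).card + (S ∩ Fl q N).card + (S ∩ Hv q N).card = S.card := by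
  have h1 : (S ∩ Yd q N) ∪ (S ∩ Fl q N) ∪ (S ∩ Hv q N) = S := by
    ext x
    simp only [mem_union, mem_inter, mem_Yd, mem_Fl, mem_Hv]
    constructor
    · tauto
    · intro hx
      rcases lt_trichotomy (dl q N x) 0 with h | h | h
      · right; exact ⟨hx, by omega⟩
      · left; right; exact ⟨hx, h⟩
      · left; left; exact ⟨hx, by omega⟩
  have h2 : Disjoint (S ∩ Yd q N) (S ∩ Fl q N) := by
    rw [disjoint_left]; intro x; rw [mem_inter, mem_inter, mem_Yd, mem_Fl]; omega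
  have h3 : Disjoint ((S ∩ Yd q N) ∪ (S ∩ Fl q N)) (S ∩ Hv q N) := by
    rw [disjoint_left]; intro x; rw [mem_union, mem_inter, mem_inter, mem_inter, mem_Yd, mem_Fl,
      mem_Hv]; omega
  rw [← card_union_of_disjoint h2, ← card_union_of_disjoint h3, h1]

/-- double counting: a sum over the neighbours of the neighbours -/
theorem sum_nb_comm {N : V → Finset V} (h : Cls N) (W : Finset V) (v : V → ℤ) :
    ∑ x ∈ W, ∑ z ∈ N x, v z = ∑ z, ((N z ∩ W).card : ℤ) * v z := by
  have h1 : ∀ x ∈ W, ∑ z ∈ N x, v z = ∑ z, if z ∈ N x then v z else 0 := by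
    intro x _
    rw [← sum_filter]
    exact sum_congr (by ext z; simp) fun _ _ => rfl
  rw [sum_congr rfl h1, sum_comm]
  refine sum_congr rfl fun z _ => ?_
  have h2 : ∀ x ∈ W, (if z ∈ N x then v z else 0) = if x ∈ N z then v z else 0 := by
    intro x _
    simp only [h.mem_comm (x := x) (y := z)]
  rw [sum_congr rfl h2, ← sum_filter, sum_const, nsmul_eq_mul]
  have h3 : W.filter (fun x => x ∈ N z) = N z ∩ W := by ext x; simp [and_comm]
  rw [h3]

theorem card_N (q : ℕ) (N : V → Finset V) (x : V) : ((N x).card : ℤ) = q + 1 - dl q N x := by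
  unfold dl; ring

end Pool.Agent.C4E
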