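import Pool.Agent.C4E.Sw2

/-!
# C4E-Cm: two vertices have at most 15 common partners

Double counting of the common non-neighbours.
-/

set_option linter.unusedSectionVars false

namespace Pool.Agent.C4E

open Finset

variable {V : Type} [Fintype V] [DecidableEq V]

private theorem card_NSS {q : ℕ} {N : V → Finset V} (g : SysG q N) {y y' c : V}
    (h1 : 1 ≤ dl q N y) (h8 : 8 * ff q N y ≤ q + 8) (h1' : 1 ≤ dl q N y')
    (h8' : 8 * ff q N y' ≤ q + 8) (hc : c ∈ Cz q N y) (hc' : c ∈ Cz q N y') (hcy : c ≠ y)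
    (hcy' : c ≠ y') :
    736 * (q : ℤ) ≤ 1000 * (N c ∩ (Sf N y ∩ Sf N y')).card + 2000 := by
  have e1 := card_NS g h1 h8 (Cz_Sf g h1 h8 hc) hcy (Cz_nb g h1 h8 (Cz_Sf g h1 h8 hc))
  have e2 := card_NS g h1' h8' (Cz_Sf g h1' h8' hc') hcy' (Cz_nb g h1' h8' (Cz_Sf g h1' h8' hc'))
  have e3 := card_union_add_card_inter (N c ∩ Sf N y) (N c ∩ Sf N y')
  have e4 : (N c ∩ Sf N y) ∩ (N c ∩ Sf N y') = N c ∩ (Sf N y ∩ Sf N y') := by
    ext z
    simp only [mem_inter]
    tauto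
  have e5 : ((N c ∩ Sf N y) ∪ (N c ∩ Sf N y')).card ≤ (N c).card :=
    card_le_card (union_subset inter_subset_left inter_subset_left)
  rw [e4] at e3
  have e6 := card_N q N c
  have e7 := neg_hh_le q N c
  have e8 := g.h1 c
  omega

private theorem upper {q : ℕ} {N : V → Finset V} (s : Sys q N) (g : SysG q N) {y y' : V}
    (hyy : y ≠ y') (hy : y ∉ Fh q N) (h1 : 1 ≤ dl q N y) (hy' : y' ∉ Fh q N)
    (h1' : 1 ≤ dl q N y') :
    4 * ((Sf N y ∩ Sf N y').card : ℤ) ≤ 41 * q + 8 := by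
  have hn : Fintype.card V = q ^ 2 + q + 1 + 1 := by
    rw [s.card]
  have hf : 8 * ff q N y < q := by
    rw [mem_Fh] at hy
    omega
  have hf' : 8 * ff q N y' < q := by
    rw [mem_Fh] at hy'
    omega
  have hm : dl q N y * dl q N y' ≤ 9 * q := by
    have e1 := dl_sq s g hy h1
    have e2 := dl_sq s g hy' h1'
    nlinarith [sq_nonneg (dl q N y - dl q N y')]
  by_cases hS : y' ∈ Sf N y
  · have e1 := quad_one q 1 s.cls hn hS
    push_cast at e1
    omega
  · obtain ⟨c, hc, hc'⟩ := exists_common hyy.symm hS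
    have e1 := quad_zero q 1 s.cls hn hyy hc hc'
    have e7 := neg_hh_le q N c
    have e8 := g.h1 c
    push_cast at e1
    omega

theorem common_partners {q : ℕ} {N : V → Finset V} (s : Sys q N) (g : SysG q N) {y y' : V}
    (hyy : y ≠ y') (hy : y ∉ Fh q N) (h1 : 1 ≤ dl q N y) (hy' : y' ∉ Fh q N)
    (h1' : 1 ≤ dl q N y') :
    ((Cz q N y ∩ Cz q N y') \ insert y (insert y' (Fh q N))).card ≤ 15 := by
  by_contra hlt
  rw [not_le] at hlt
  obtain ⟨W, hW, hWc⟩ := exists_subset_card_eq (show 16 ≤ _ from hlt)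
  have hf : 8 * ff q N y ≤ q + 8 := by
    rw [mem_Fh] at hy
    omega
  have hf' : 8 * ff q N y' ≤ q + 8 := by
    rw [mem_Fh] at hy'
    omega
  have e1 : ∀ c ∈ W, 736 * (q : ℤ) - 2000 ≤ 1000 * ((N c ∩ (Sf N y ∩ Sf N y')).card : ℤ) := by
    intro c hc
    have h2 := hW hc
    rw [mem_sdiff, mem_inter, mem_insert, mem_insert, not_or, not_or] at h2
    have h3 := card_NSS g h1 hf h1' hf' h2.1.1 h2.1.2 h2.2.1 h2.2.2.1
    omega
  have e2 := hub_cnt s.cls (fun z => if z ∈ Sf N y ∩ Sf N y' then (1 : ℤ) else 0)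
    (fun x => by split_ifs <;> norm_num) 1
    (fun x => by split_ifs <;> norm_num) W
  have e3 : ∀ c ∈ W, ∑ z ∈ N c, (if z ∈ Sf N y ∩ Sf N y' then (1 : ℤ) else 0) =
      ((N c ∩ (Sf N y ∩ Sf N y')).card : ℤ) := by
    intro c _
    rw [← sum_filter, sum_const, nsmul_eq_mul, mul_one, filter_mem_eq_inter]
  have e4 : ∑ z, (if z ∈ Sf N y ∩ Sf N y' then (1 : ℤ) else 0) =
      ((Sf N y ∩ Sf N y').card : ℤ) := by
    rw [← sum_filter, sum_const, nsmul_eq_mul, mul_one, filter_mem_eq_inter, univ_inter]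
  rw [sum_congr rfl e3, e4, hWc] at e2
  have e5 := sum_le_sum e1
  rw [sum_const, hWc, nsmul_eq_mul, ← mul_sum] at e5
  have e6 := upper s g hyy hy h1 hy' h1'
  have hq : (1000 : ℤ) ≤ q := by
    have h2 : 1000 ≤ q := le_trans (by norm_num) s.big
    exact_mod_cast h2
  push_cast at e2 e5
  linarith

end Pool.Agent.C4E
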