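import Pool.Agent.C4E.Ext2

/-!
# C4E-Ext3: the exact object with `b = 2`
-/

set_option linter.unusedSectionVars false

namespace Pool.Agent.C4E

open Finset

variable {V : Type} [Fintype V] [DecidableEq V]

private theorem e3_loops {N : V → Finset V} {N2 : Option V → Finset (Option V)}
    (h : ∀ x : V, some x ∈ N2 (some x) → x ∈ N x) :
    (univ.filter fun x => x ∈ N2 x).card ≤ (univ.filter fun x => x ∈ N x).card + 1 := by
  have h1 : (univ.filter fun x => x ∈ N2 x) ⊆
      insert none ((univ.filter fun x => x ∈ N x).map Function.Embedding.some) := by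
    intro z hz
    cases z with
    | none => exact mem_insert_self _ _
    | some x =>
      refine mem_insert_of_mem (mem_map.2 ⟨x, ?_, rfl⟩)
      exact mem_filter.2 ⟨mem_univ _, h x (mem_filter.1 hz).2⟩
  have h2 := (card_le_card h1).trans (card_insert_le _ _)
  rw [card_map] at h2
  exact h2

theorem exa_ext {q : ℕ} {N : V → Finset V} {Y : Finset V} (h : Cls N)
    (hn : Fintype.card V = q ^ 2 + q + 2) (hq : 10 ^ 100 ≤ q)
    (hc : ∀ y ∈ Y, ∀ y' ∈ Y, y ≠ y' → y' ∈ Sf N y) (hY : ∀ y ∈ Y, dl q N y = 1)
    (ho : ∀ y, y ∉ Y → dl q N y ≤ 0) (h1 : ∀ y, -1 ≤ dl q N y)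
    (hlo : q + 1 ≤ Y.card + 2 * 10 ^ 5) (hhi : Y.card ≤ q + 1) :
    ∃ N2 : Option V → Finset (Option V), Exa q 2 N2 ∧
      (univ.filter fun x => x ∈ N2 x).card ≤ (univ.filter fun x => x ∈ N x).card + 1 := by
  have hcard : Fintype.card (Option V) = q ^ 2 + q + 1 + 2 := by
    rw [Fintype.card_option, hn]
  have hcls := cls_ext h hc
  have hsome : ∀ w : V, (ext N Y (some w)).card = q + 1 := by
    intro w
    have h2 := card_N q (ext N Y) (some w)
    rw [ext_full h hn hq hc hY ho h1 w] at h2
    omega
  have hnone : (ext N Y none).card = Y.card := by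
    show (Y.map Function.Embedding.some).card = Y.card
    exact card_map _
  rcases ext_k0 h hn hq hc hY ho h1 hlo hhi with h2 | ⟨h2, h3⟩
  · refine ⟨ext N Y, ⟨hcls, hcard, ?_⟩, e3_loops fun x hx => some_mem_ext_some.1 hx⟩
    intro z
    cases z with
    | none => rw [hnone, h2]
    | some w => exact hsome w
  · have hnn : none ∉ ext N Y none := by
      rw [mem_ext_none]
      rintro ⟨y, -, hy⟩
      exact absurd hy (by simp)
    have hlp : ∀ w : V, lp (ext N Y) {none} (some w) = ext N Y (some w) := by
      intro w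
      unfold lp
      rw [if_neg (by simp)]
    refine ⟨lp (ext N Y) {none}, ⟨cls_lp1 hcls hnn ?_, hcard, ?_⟩, e3_loops fun x hx => ?_⟩
    · intro t ht
      obtain ⟨y, hy, rfl⟩ := mem_ext_none.1 ht
      exact h3 y hy
    · intro z
      cases z with
      | none =>
        unfold lp
        rw [if_pos (mem_singleton_self _), card_insert_of_notMem hnn, hnone, h2]
      | some w => rw [hlp, hsome w]
    · rw [hlp] at hx
      exact some_mem_ext_some.1 hx

end Pool.Agent.C4E
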