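import Pool.Agent.C4E.DC
import Pool.Agent.C4E.Ext3

/-!
# C4E-DX: the exact objects

If no vertex is deficient after adding the loops then all degrees are `q + 1`; otherwise the deficient
vertices form a clique and a new vertex is joined to them (`exa_ext`).
-/

set_option linter.unusedSectionVars false

namespace Pool.Agent.C4E

open Finset

variable {V : Type} [Fintype V] [DecidableEq V]

theorem exa_one {q : ℕ} {N : V → Finset V} (s : Sys q N) (g : SysG q N)
    (hY : Yd q (lp N (Lo q N)) = ∅) : Exa q 1 (lp N (Lo q N)) := by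
  obtain ⟨Ns, hNs⟩ : ∃ Ns, Ns = lp N (Lo q N) := ⟨_, rfl⟩
  have G := gs s g
  rw [← hNs] at hY G ⊢
  have hle : ∀ x, dl q Ns x ≤ 0 := by
    intro x
    by_contra hx
    have h1 : x ∈ Yd q Ns := mem_Yd.2 (by omega)
    rw [hY] at h1
    exact absurd h1 (notMem_empty x)
  have hq : (10 : ℤ) ≤ q := by
    have h1 : 10 ≤ q := le_trans (by norm_num) s.big
    exact_mod_cast h1
  have h0 : ∀ x, dl q Ns x = 0 := by
    intro x
    by_contra hx
    have h1 : dl q Ns x ≤ -1 := by
      have := hle x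
      omega
    have h2 := card_Sf q 1 G.cls G.card x
    have h3 : ff q Ns x ≤ 0 := sum_nonpos fun z _ => hle z
    have h4 : (0 : ℤ) ≤ ((Sf Ns x).card : ℤ) := Nat.cast_nonneg _
    have h5 : (q : ℤ) * dl q Ns x ≤ q * (-1) := mul_le_mul_of_nonneg_left h1 (by omega)
    push_cast at h2
    omega
  refine ⟨G.cls, G.card, fun x => ?_⟩
  have h1 := card_N q Ns x
  rw [h0 x] at h1
  omega

theorem exa_two {q : ℕ} {N : V → Finset V} (s : Sys q N) (g : SysG q N)
    (two : ∀ x, x ∉ Fh q N → dl q N x ≤ 2) (hY : (Yd q (lp N (Lo q N))).Nonempty) :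
    ∃ N2 : Option V → Finset (Option V), Exa q 2 N2 ∧
      (univ.filter fun x => x ∈ N2 x).card ≤ q := by
  have G := gs s g
  have hone : ∀ y ∈ Yd q (lp N (Lo q N)), dl q (lp N (Lo q N)) y = 1 := fun y hy =>
    (dl_one s g two (mem_Yd.1 hy)).1
  obtain ⟨y, hy⟩ := hY
  have hlo : q + 1 ≤ (Yd q (lp N (Lo q N))).card + 2 * 10 ^ 5 := by
    have h1 := (dl_one s g two (mem_Yd.1 hy)).2
    have h2 : Sf (lp N (Lo q N)) y ∩ Yd q (lp N (Lo q N)) ⊆ (Yd q (lp N (Lo q N))).erase y := by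
      intro z hz
      rw [mem_inter] at hz
      rw [mem_erase]
      exact ⟨fun h => not_mem_Sf_self y (h ▸ hz.1), hz.2⟩
    have h3 := card_le_card h2
    rw [card_erase_of_mem hy] at h3
    have h4 : 0 < (Yd q (lp N (Lo q N))).card := card_pos.2 ⟨y, hy⟩
    omega
  have hhi := card_Y s g two
  have ho : ∀ z, z ∉ Yd q (lp N (Lo q N)) → dl q (lp N (Lo q N)) z ≤ 0 := by
    intro z hz
    rw [mem_Yd] at hz
    omega
  have h1 : ∀ z, -1 ≤ dl q (lp N (Lo q N)) z := by
    intro z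
    have h2 := neg_hh_le q (lp N (Lo q N)) z
    have h3 := G.h1 z
    omega
  obtain ⟨N2, hE, hc⟩ := exa_ext G.cls G.card G.big (clique_Y s g two) hone ho h1 hlo hhi
  refine ⟨N2, hE, hc.trans ?_⟩
  have h2 : (univ.filter fun x => x ∈ lp N (Lo q N) x) = Lo q N := by
    ext x
    rw [mem_filter, mem_lp]
    constructor
    · rintro ⟨_, h | h⟩
      · exact absurd h (s.nol x)
      · exact h.2
    · exact fun h => ⟨mem_univ _, Or.inr ⟨rfl, h⟩⟩
  rw [h2]
  have h3 := DP_lp q s.nol (L := Lo q N) fun t ht => (mem_Lo.1 ht).2.1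
  have h4 := card_Yd_le q (lp N (Lo q N))
  have h5 := g.dpb
  omega

end Pool.Agent.C4E
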