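import Pool.Agent.C4E.Basic

/-!
# C4E-Del: deletion of a vertex of small degree
-/

set_option linter.unusedSectionVars false

namespace Pool.Agent.C4E

open Finset

variable {V : Type} [Fintype V] [DecidableEq V]

/-- the neighbourhoods after the deletion of `w` -/
private def Nd (N : V → Finset V) (w : V) (x : {x : V // x ≠ w}) : Finset {x : V // x ≠ w} :=
  univ.filter fun y => y.1 ∈ N x.1

private def Md (N : V → Finset V) (w : V) : Finset {x : V // x ≠ w} :=
  univ.filter fun y => y.1 ∈ N w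

private theorem mem_Nd {N : V → Finset V} {w : V} {x y : {x : V // x ≠ w}} : y ∈ Nd N w x ↔ y.1 ∈ N x.1 := by
  unfold Nd
  rw [mem_filter]
  exact ⟨fun h => h.2, fun h => ⟨mem_univ _, h⟩⟩

private theorem mem_Md {N : V → Finset V} {w : V} {y : {x : V // x ≠ w}} : y ∈ Md N w ↔ y.1 ∈ N w := by
  unfold Md
  rw [mem_filter]
  exact ⟨fun h => h.2, fun h => ⟨mem_univ _, h⟩⟩

private theorem card_image_val {w : V} (S : Finset {x : V // x ≠ w}) : (S.image Subtype.val).card = S.card :=
  card_image_of_injective _ Subtype.val_injective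

private theorem image_Nd (N : V → Finset V) (w : V) (x : {x : V // x ≠ w}) :
    (Nd N w x).image Subtype.val = (N x.1).erase w := by
  ext y
  rw [mem_image, mem_erase]
  constructor
  · rintro ⟨z, hz, rfl⟩
    exact ⟨z.2, mem_Nd.1 hz⟩
  · rintro ⟨h1, h2⟩
    exact ⟨⟨y, h1⟩, mem_Nd.2 h2, rfl⟩

private theorem dl_Nd (q : ℕ) {N : V → Finset V} (h : Cls N) (w : V) (x : {x : V // x ≠ w}) :
    dl q (Nd N w) x = dl q N x.1 + if x.1 ∈ N w then 1 else 0 := by
  unfold dl
  rw [← card_image_val, image_Nd]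
  by_cases h1 : x.1 ∈ N w
  · have h2 : w ∈ N x.1 := h.symm _ _ h1
    rw [if_pos h1, card_erase_of_mem h2]
    have h3 : 0 < (N x.1).card := card_pos.2 ⟨w, h2⟩
    omega
  · have h2 : w ∉ N x.1 := fun h3 => h1 (h.symm _ _ h3)
    rw [if_neg h1, erase_eq_of_notMem h2, add_zero]

private theorem sum_sub (w : V) (F : V → ℤ) : ∑ x : {x : V // x ≠ w}, F x.1 = ∑ x, F x - F w := by
  have h1 : ∑ x ∈ univ.erase w, F x = ∑ x : {x : V // x ≠ w}, F x.1 :=
    sum_subtype (univ.erase w) (fun x => by simp) F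
  rw [← h1, ← add_sum_erase univ F (mem_univ w)]
  ring

theorem del {q : ℕ} {N : V → Finset V} (s : Sys q N) (w : V) (hw : 10 ^ 4 * (N w).card ≤ q) :
    ∃ (N' : {x : V // x ≠ w} → Finset {x : V // x ≠ w}) (M : Finset {x : V // x ≠ w}),
      SysA q (N w).card N' M := by
  have h := s.cls
  have hwn := s.nol w
  have hbig := s.big
  have hcard := s.card
  have hq2 : q ≤ q ^ 2 := by
    rw [pow_two]
    exact Nat.le_mul_self q
  refine ⟨Nd N w, Md N w, ?_, ?_, ?_, s.big, s.even, ?_, hw, ?_, ?_, ?_, ?_, ?_⟩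
  · refine ⟨fun x y hxy => mem_Nd.2 (h.symm _ _ (mem_Nd.1 hxy)), fun x y hxy => ?_⟩
    rw [← card_image_val]
    refine le_trans (card_le_card ?_) (h.cod x.1 y.1 fun h1 => hxy (Subtype.ext h1))
    intro z hz
    rw [mem_image] at hz
    obtain ⟨z', hz', rfl⟩ := hz
    rw [mem_inter] at hz' ⊢
    exact ⟨mem_Nd.1 hz'.1, mem_Nd.1 hz'.2⟩
  · intro x hx
    exact s.nol x.1 (mem_Nd.1 hx)
  · rw [Fintype.card_subtype, filter_ne', card_erase_of_mem (mem_univ w), card_univ, hcard]
    omega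
  · have h1 : ∃ y, y ∉ insert w (N w) := by
      by_contra hcon
      push Not at hcon
      have h2 : (univ : Finset V) ⊆ insert w (N w) := fun y _ => hcon y
      have h3 := card_le_card h2
      rw [card_univ, hcard] at h3
      have h4 := card_insert_le w (N w)
      omega
    obtain ⟨y, hy⟩ := h1
    rw [mem_insert, not_or] at hy
    have h2 := s.m1 w y (fun h3 => hy.1 h3.symm) hy.2
    have h3 : (N w \ Sf N y).card ≤ (N w).card := card_le_card sdiff_subset
    omega
  · have h1 : ∑ x : {x : V // x ≠ w}, dl q (Nd N w) x =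
        ∑ x : {x : V // x ≠ w}, (fun v => dl q N v + if v ∈ N w then (1 : ℤ) else 0) x.1 :=
      sum_congr rfl fun x _ => dl_Nd q h w x
    rw [h1, sum_sub w (fun v => dl q N v + if v ∈ N w then (1 : ℤ) else 0), sum_add_distrib]
    have h2 : ∑ v, (if v ∈ N w then (1 : ℤ) else 0) = (N w).card := by
      rw [← sum_filter, sum_const, nsmul_eq_mul, mul_one]
      congr 2
      ext v
      simp
    rw [h2]
    show ∑ x, dl q N x + ((N w).card : ℤ) - (dl q N w + if w ∈ N w then (1 : ℤ) else 0) ≤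
      (q : ℤ) + 1 + 2 * (N w).card
    rw [if_neg hwn]
    have h3 := s.sum
    have h4 := card_N q N w
    omega
  · have h1 : (Md N w).image Subtype.val = N w := by
      ext y
      rw [mem_image]
      constructor
      · rintro ⟨z, hz, rfl⟩
        exact mem_Md.1 hz
      · intro hy
        exact ⟨⟨y, fun h2 => hwn (h2 ▸ hy)⟩, mem_Md.2 hy, rfl⟩
    rw [← card_image_val, h1]
  · intro a ha b hb hab
    refine mem_Sf.2 ⟨hab.symm, ?_⟩
    rw [eq_empty_iff_forall_notMem]
    intro c hc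
    rw [mem_inter] at hc
    have h1 := h.uniq (fun h2 => hab (Subtype.ext h2)) (mem_Nd.1 hc.1) (mem_Nd.1 hc.2)
      (h.symm _ _ (mem_Md.1 ha)) (h.symm _ _ (mem_Md.1 hb))
    exact c.2 h1
  · intro x
    rw [← card_image_val]
    refine le_trans (card_le_card ?_) (h.cod x.1 w x.2)
    intro z hz
    rw [mem_image] at hz
    obtain ⟨z', hz', rfl⟩ := hz
    rw [mem_inter] at hz' ⊢
    exact ⟨mem_Nd.1 hz'.1, mem_Md.1 hz'.2⟩
  · intro x y hxy hy
    have h1 := s.m1 x.1 y.1 (fun h2 => hxy (Subtype.ext h2)) (fun h2 => hy (mem_Nd.2 h2))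
    have h2 : N x.1 \ Sf N y.1 ⊆ (Nd N w x \ Sf (Nd N w) y).image Subtype.val ∪ {w} ∪ (N x.1 ∩ N w) := by
      intro a ha
      rw [mem_sdiff] at ha
      rw [mem_union, mem_union, mem_singleton]
      by_cases haw : a = w
      · exact Or.inl (Or.inr haw)
      · have hay : a ≠ y.1 := fun h3 => hy (mem_Nd.2 (h3 ▸ ha.1))
        obtain ⟨c, hc1, hc2⟩ := exists_common hay ha.2
        by_cases hcw : c = w
        · rw [hcw] at hc2
          exact Or.inr (mem_inter.2 ⟨ha.1, h.symm _ _ hc2⟩)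
        · refine Or.inl (Or.inl (mem_image.2 ⟨⟨a, haw⟩, mem_sdiff.2 ⟨mem_Nd.2 ha.1, ?_⟩, rfl⟩))
          exact not_Sf_of_common (c := (⟨c, hcw⟩ : {x : V // x ≠ w})) (mem_Nd.2 hc1) (mem_Nd.2 hc2)
    have h3 := card_le_card h2
    have h4 := card_union_le ((Nd N w x \ Sf (Nd N w) y).image Subtype.val ∪ {w}) (N x.1 ∩ N w)
    have h5 := card_union_le ((Nd N w x \ Sf (Nd N w) y).image Subtype.val) {w}
    have h6 := h.cod x.1 w x.2
    rw [card_image_val, card_singleton] at h5
    omega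

end Pool.Agent.C4E
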