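import Pool.Agent.C4E.Sm
import Pool.Agent.C4E.Cm

/-!
# C4E-NoBig: no big deficiencies outside `Fh`; then all deficiencies outside `Fh` are at most 2

PLAN. `no_big`: let `Big = {y ∉ Fh : 1 ≤ dl y, q < 25 (dl y)²}`, suppose it is nonempty. `r = Nat.sqrt q`,
`r² ≤ q < (r + 1)²`, `r ≥ 10^49`. For `y ∈ Big`: `5 dl y > r`; `D y = Cz y \ insert y Fh ⊆ Big`
(`Cz_big`), `|D y| ≥ |Cz y| - 17 ≥ (999 dl y - 2001) / 1000 - 17 ≥ 0.19 r` (`Cz_lower`,
`card_Fh_G`). `|Big| * r / 5 ≤ ∑_{Big} dl ≤ DP ≤ 2 q ≤ 2 (r + 1)²`, so `|Big| ≤ 10 r + 21`. Since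
`|Big| ≥ 0.19 r` there is `W ⊆ Big` with `|W| = r / 100` (floor). For `y ≠ y'` in `W`:
`D y ∩ D y' ⊆ (Cz y ∩ Cz y') \ insert y (insert y' Fh)`, `≤ 15` elements (`common_partners`). Bonferroni:
`|Big| ≥ |⋃_{y ∈ W} D y| ≥ ∑_{W} |D y| - 15 |W| (|W| - 1) / 2 ≥ |W| (0.19 r - 7.5 |W|)
≥ |W| * 0.115 r ≥ (r / 100 - 1) 0.115 r > 10 r + 21`, contradiction. (For Bonferroni: for every
`x` with `t` sets containing it, `2 t ≤ 2 + t (t - 1)`; sum over `x ∈ Big`. Or induct on `W`: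
`|⋃| ≥ ∑ (0.19 r - 15 |W|)` is also enough: `0.19 - 0.15 = 0.04`, `0.04 r * (r/100 - 1) > 10 r + 21`.)
`dl_two`: `y ∉ Fh`, suppose `k = dl y ≥ 3`. `25 k² ≤ q` (`no_big`), `Cz ⊆ {y}` (`Cz_small`), so
`|Cz| ≤ 1`; `Cz_card`, `|Sf y ∩ Yd| ≤ 2 q - 10^13 - k` (`card_erase_Yd`):
`q k ≤ 2 q - 10^13 - k + q + 2 + (k + 421)² + 3`. `k = 3`: false. `k ≥ 4`:
`(k + 421)² ≤ 2 k² + 354482 ≤ 0.08 q + 354482`: false.
-/

set_option linter.unusedSectionVars false

namespace Pool.Agent.C4E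

open Finset

variable {V : Type} [Fintype V] [DecidableEq V]

private theorem nb_bonf (D : V → Finset V) (a c w : ℤ) (hc : 0 ≤ c) (W : Finset V)
    (ha : ∀ y ∈ W, a ≤ ((D y).card : ℤ))
    (hcc : ∀ y ∈ W, ∀ y' ∈ W, y ≠ y' → ((D y ∩ D y').card : ℤ) ≤ c) (hw : (W.card : ℤ) ≤ w) :
    (W.card : ℤ) * (a - c * w) ≤ ((W.biUnion D).card : ℤ) := by
  induction W using Finset.induction with
  | empty => simp
  | insert y W hyW ih =>
    rw [card_insert_of_notMem hyW] at hw ⊢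
    have hih := ih (fun x hx => ha x (mem_insert_of_mem hx))
      (fun x hx x' hx' => hcc x (mem_insert_of_mem hx) x' (mem_insert_of_mem hx')) (by
        push_cast at hw
        linarith)
    rw [biUnion_insert]
    have h1 := card_union_add_card_inter (D y) (W.biUnion D)
    have h2 : ((D y ∩ W.biUnion D).card : ℤ) ≤ c * W.card := by
      have h3 : D y ∩ W.biUnion D ⊆ W.biUnion fun x => D y ∩ D x := by
        intro z hz
        rw [mem_inter, mem_biUnion] at hz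
        obtain ⟨hz1, x, hx, hzx⟩ := hz
        exact mem_biUnion.2 ⟨x, hx, mem_inter.2 ⟨hz1, hzx⟩⟩
      have h4 := (card_le_card h3).trans card_biUnion_le
      have h5 : ((D y ∩ W.biUnion D).card : ℤ) ≤ ∑ x ∈ W, ((D y ∩ D x).card : ℤ) := by
        exact_mod_cast h4
      refine h5.trans ?_
      refine (sum_le_sum (g := fun _ => c) fun x hx => ?_).trans ?_
      · refine hcc y (mem_insert_self y W) x (mem_insert_of_mem hx) ?_
        rintro rfl
        exact hyW hx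
      · rw [sum_const, nsmul_eq_mul]
        linarith
    have h6 := ha y (mem_insert_self y W)
    have h7 : c * (W.card : ℤ) ≤ c * w := by
      refine mul_le_mul_of_nonneg_left ?_ hc
      push_cast at hw
      linarith
    have h8 : (((D y ∪ W.biUnion D).card : ℕ) : ℤ) + ((D y ∩ W.biUnion D).card : ℤ) =
        ((D y).card : ℤ) + ((W.biUnion D).card : ℤ) := by exact_mod_cast h1
    push_cast
    linarith

theorem no_big {q : ℕ} {N : V → Finset V} (s : Sys q N) (g : SysG q N) {y : V}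
    (hy : y ∉ Fh q N) (h1 : 1 ≤ dl q N y) : 25 * dl q N y ^ 2 ≤ q := by
  by_contra hcon
  have hcon' : (q : ℤ) < 25 * dl q N y ^ 2 := not_le.1 hcon
  obtain ⟨r, hr⟩ : ∃ r, r = Nat.sqrt q := ⟨_, rfl⟩
  have hr1 : r ^ 2 ≤ q := by rw [hr]; exact Nat.sqrt_le' q
  have hr2 : q < (r + 1) ^ 2 := by rw [hr]; exact Nat.lt_succ_sqrt' q
  have hbig := g.big
  have hr3 : 10 ^ 49 ≤ r := by
    by_contra h
    have h' : r + 1 ≤ 10 ^ 49 := by omega
    have h'' : (r + 1) ^ 2 ≤ (10 ^ 49) ^ 2 := Nat.pow_le_pow_left h' 2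
    have h3 : q < (10 ^ 49) ^ 2 := lt_of_lt_of_le hr2 h''
    norm_num at h3 hbig
    omega
  have hr1z : (r : ℤ) ^ 2 ≤ q := by exact_mod_cast hr1
  have hr2z : (q : ℤ) < ((r : ℤ) + 1) ^ 2 := by exact_mod_cast hr2
  have hr3z : (10 : ℤ) ^ 49 ≤ r := by exact_mod_cast hr3
  have hr4 : (10 : ℤ) ^ 10 ≤ r := le_trans (by norm_num) hr3z
  obtain ⟨Big, hB⟩ : ∃ Big : Finset V, Big = univ.filter fun x =>
    x ∉ Fh q N ∧ 1 ≤ dl q N x ∧ (q : ℤ) < 25 * dl q N x ^ 2 := ⟨_, rfl⟩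
  have hmB : ∀ x, x ∈ Big ↔ x ∉ Fh q N ∧ 1 ≤ dl q N x ∧ (q : ℤ) < 25 * dl q N x ^ 2 := by
    intro x
    rw [hB, mem_filter]
    exact ⟨fun h => h.2, fun h => ⟨mem_univ _, h⟩⟩
  have h5 : ∀ x ∈ Big, (r : ℤ) + 1 ≤ 5 * dl q N x := by
    intro x hx
    obtain ⟨_, hx1, hx2⟩ := (hmB x).1 hx
    by_contra h
    have h' : 5 * dl q N x ≤ r := by omega
    have h'' : (5 * dl q N x) ^ 2 ≤ (r : ℤ) ^ 2 := pow_le_pow_left₀ (by omega) h' 2
    have h3 : (5 * dl q N x) ^ 2 = 25 * dl q N x ^ 2 := by ring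
    rw [h3] at h''
    omega
  have hyB : y ∈ Big := (hmB y).2 ⟨hy, h1, hcon'⟩
  have hDsub : ∀ x ∈ Big, Cz q N x \ insert x (Fh q N) ⊆ Big := by
    intro x hx c hc
    obtain ⟨hx0, hx1, _⟩ := (hmB x).1 hx
    rw [mem_sdiff, mem_insert, not_or] at hc
    obtain ⟨h2, h3⟩ := Cz_big s g hx0 hx1 hc.1 hc.2.1 hc.2.2
    exact (hmB c).2 ⟨hc.2.2, h2, h3⟩
  have hFh := card_Fh_G g
  have hDcard : ∀ x ∈ Big, 19 * (r : ℤ) ≤ 100 * ((Cz q N x \ insert x (Fh q N)).card : ℤ) := by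
    intro x hx
    obtain ⟨hx0, hx1, _⟩ := (hmB x).1 hx
    have h2 := Cz_lower g hx0 hx1
    have h3 := le_card_sdiff (insert x (Fh q N)) (Cz q N x)
    have h4 := card_insert_le x (Fh q N)
    have h6 := h5 x hx
    omega
  have hBcard : (Big.card : ℤ) ≤ 10 * r + 10 := by
    have h2 : ∑ x ∈ Big, ((r : ℤ) + 1) ≤ ∑ x ∈ Big, 5 * dl q N x := sum_le_sum fun x hx => h5 x hx
    have h3 : ∑ x ∈ Big, 5 * dl q N x ≤ ∑ x ∈ Big, 5 * dp q N x :=
      sum_le_sum fun x _ => by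
        have := dl_le_dp q N x
        omega
    have h4 : ∑ x ∈ Big, 5 * dp q N x ≤ ∑ x, 5 * dp q N x :=
      sum_le_sum_of_subset_of_nonneg (subset_univ _) fun z _ _ => by
        have := dp_nonneg q N z
        omega
    have h6 : ∑ x, 5 * dp q N x = 5 * DP q N := (mul_sum _ _ _).symm
    rw [h6] at h4
    have h7 := g.dpb
    rw [sum_const, nsmul_eq_mul] at h2
    by_contra h
    have h8 : 10 * ((r : ℤ) + 1) ≤ Big.card := by omega
    have h9 : 10 * ((r : ℤ) + 1) * ((r : ℤ) + 1) ≤ Big.card * ((r : ℤ) + 1) :=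
      mul_le_mul_of_nonneg_right h8 (by omega)
    have h10 : 10 * ((r : ℤ) + 1) * ((r : ℤ) + 1) = 10 * ((r : ℤ) + 1) ^ 2 := by ring
    rw [h10] at h9
    omega
  have hw : r / 100 ≤ Big.card := by
    have h2 := hDcard y hyB
    have h3 := card_le_card (hDsub y hyB)
    omega
  obtain ⟨W, hWB, hWc⟩ := exists_subset_card_eq hw
  have key := nb_bonf (fun x => Cz q N x \ insert x (Fh q N)) (19 * ((r / 100 : ℕ) : ℤ)) 15
    ((r / 100 : ℕ) : ℤ) (by norm_num) W (fun x hx => by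
      have := hDcard x (hWB hx)
      omega) (fun x hx x' hx' hxx' => by
      obtain ⟨hx0, hx1, _⟩ := (hmB x).1 (hWB hx)
      obtain ⟨hx0', hx1', _⟩ := (hmB x').1 (hWB hx')
      have h2 := common_partners s g hxx' hx0 hx1 hx0' hx1'
      have h3 : (Cz q N x \ insert x (Fh q N)) ∩ (Cz q N x' \ insert x' (Fh q N)) ⊆
          (Cz q N x ∩ Cz q N x') \ insert x (insert x' (Fh q N)) := by
        intro z hz
        rw [mem_inter, mem_sdiff, mem_sdiff, mem_insert, mem_insert, not_or, not_or] at hz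
        rw [mem_sdiff, mem_inter, mem_insert, mem_insert, not_or, not_or]
        exact ⟨⟨hz.1.1, hz.2.1⟩, hz.1.2.1, hz.2.2.1, hz.1.2.2⟩
      have h4 := card_le_card h3
      have h6 : ((Cz q N x \ insert x (Fh q N)) ∩ (Cz q N x' \ insert x' (Fh q N))).card ≤ 15 := by
        omega
      exact_mod_cast h6) (by rw [hWc])
  have h6 : (W.biUnion fun x => Cz q N x \ insert x (Fh q N)) ⊆ Big := by
    intro z hz
    rw [mem_biUnion] at hz
    obtain ⟨x, hx, hzx⟩ := hz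
    exact hDsub x (hWB hx) hzx
  have h7 : ((W.biUnion fun x => Cz q N x \ insert x (Fh q N)).card : ℤ) ≤ Big.card := by
    exact_mod_cast card_le_card h6
  rw [hWc] at key
  obtain ⟨w, hwd⟩ : ∃ w : ℤ, w = ((r / 100 : ℕ) : ℤ) := ⟨_, rfl⟩
  rw [← hwd] at key
  have h8 : (r : ℤ) ≤ 100 * w + 99 := by omega
  have h9 : 10000 ≤ w := by omega
  have h10 : w * (19 * w - 15 * w) = 4 * w * w := by ring
  rw [h10] at key
  nlinarith

theorem dl_two {q : ℕ} {N : V → Finset V} (s : Sys q N) (g : SysG q N) {y : V}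
    (hy : y ∉ Fh q N) : dl q N y ≤ 2 := by
  by_contra hcon
  have h3 : 3 ≤ dl q N y := by omega
  have h1 : 1 ≤ dl q N y := by omega
  have h25 := no_big s g hy h1
  have hC := card_le_card (Cz_small s g hy h1 h25)
  rw [card_singleton] at hC
  have h8 : 8 * ff q N y ≤ q + 8 := by
    rw [mem_Fh, not_le] at hy
    omega
  have hcard := Cz_card g h1 h8
  have hYd : ((Sf N y ∩ Yd q N).card : ℤ) ≤ ((Yd q N).erase y).card := by
    have : Sf N y ∩ Yd q N ⊆ (Yd q N).erase y := by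
      intro z hz
      rw [mem_inter] at hz
      rw [mem_erase]
      exact ⟨(mem_Sf.1 hz.1).1, hz.2⟩
    exact_mod_cast card_le_card this
  have hE := card_erase_Yd q N y
  have hdp : dp q N y = dl q N y := dp_of_pos (by omega)
  rw [hdp] at hE
  have hD := g.dpb
  have hbig : (10 : ℤ) ^ 100 ≤ q := by exact_mod_cast g.big
  have hbig' : (10 : ℤ) ^ 20 ≤ q := le_trans (by norm_num) hbig
  have hC2 : ((Cz q N y).card : ℤ) * (q + 2) ≤ 1 * (q + 2) := by
    refine mul_le_mul_of_nonneg_right ?_ (by positivity)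
    exact_mod_cast hC
  obtain ⟨k, hk⟩ : ∃ k, k = dl q N y := ⟨_, rfl⟩
  rw [← hk] at h3 h25 hcard hE
  have h10 : (q : ℤ) * k ≤ 3 * q - 10 ^ 13 - k + 5 + (k + 421) ^ 2 := by linarith
  rcases eq_or_lt_of_le h3 with h4 | h4
  · rw [← h4] at h10
    norm_num at h10
    omega
  · have h5 : 4 ≤ k := by omega
    have h6 : (q : ℤ) * 4 ≤ q * k := mul_le_mul_of_nonneg_left h5 (by positivity)
    have h7 : (k + 421) ^ 2 ≤ 2 * k ^ 2 + 354482 := by nlinarith [sq_nonneg (k - 421)]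
    norm_num at h10 hbig'
    omega

end Pool.Agent.C4E
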