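import Pool.Agent.C4E.HbP
import Pool.Agent.C4E.Part

/-!
# C4E-HbC: partners exist (hub case)
-/

set_option linter.unusedSectionVars false

namespace Pool.Agent.C4E

open Finset

variable {V : Type} [Fintype V] [DecidableEq V]

theorem hub_C {q : ℕ} {N : V → Finset V} (s : SysB q N) {w a : V}
    (hw : (q : ℤ) ≤ 2000 * dl q N w)
    (hY : 10 ^ 6 * ((Yd q N \ insert w (N w)).card : ℤ) ≤ (10 ^ 6 + 5) * q)
    (ha : a ∈ Mg q N w) (h1 : 1 ≤ dl q N a) :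
    ∃ C : Finset V, dl q N a ≤ C.card ∧ ∀ c ∈ C, ∀ z ∈ Pw q N w a, c ∈ Sf N z := by
  have hP := hub_P s ha h1
  have hT := hub_T s hw hY ha h1
  obtain ⟨haw, hpa, hka⟩ := mem_Mg.1 ha
  have hbig : (10 : ℤ) ^ 100 ≤ q := by exact_mod_cast s.sys.big
  have hb : (10 : ℤ) ^ 40 ≤ q := le_trans (by norm_num) hbig
  obtain ⟨k', hk'⟩ : ∃ k' : ℕ, (k' : ℤ) = dl q N a + 10 ^ 13 + 1 :=
    ⟨(dl q N a + 10 ^ 13 + 1).toNat, Int.toNat_of_nonneg (by omega)⟩
  have hne : (Pw q N w a).Nonempty := by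
    rw [← card_pos]
    by_contra h0
    have h2 : (Pw q N w a).card = 0 := by omega
    rw [h2] at hP
    norm_num at hP hb
    omega
  have hpart := part q s.sys.cls (y := a) (Pw q N w a) (Sf N a ∩ Fl q N) k' (q + 2)
    (fun z hz => (mem_Pw.1 hz).1.2) (fun z hz => by
      obtain ⟨_, h2, h3⟩ := mem_Pw.1 hz
      refine ⟨h2, ?_⟩
      have h4 := card_Sf q 1 s.sys.cls s.sys.card z
      rw [h2, mul_zero, add_zero] at h4
      push_cast at h4
      omega) hne inter_subset_left (fun x hx => mem_Fl.1 (mem_inter.1 hx).2) (fun x => by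
      have h2 := card_N q N x
      have h3 := s.h1 x
      have h4 := neg_hh_le q N x
      omega)
  obtain ⟨hc1, hc2⟩ := hpart
  refine ⟨univ.filter fun c => k' + 1 ≤ (N c ∩ (Sf N a ∩ Fl q N)).card, ?_, fun c hc =>
    hc1 c (mem_filter.1 hc).2⟩
  obtain ⟨C, hC⟩ : ∃ C : Finset V, C = univ.filter fun c => k' + 1 ≤ (N c ∩ (Sf N a ∩ Fl q N)).card :=
    ⟨_, rfl⟩
  rw [← hC] at hc2 ⊢
  by_contra hlt
  push Not at hlt
  have h2 : ((Sf N a ∩ Fl q N).card : ℤ) ≤ (C.card : ℤ) * (q + 2) + (k' : ℤ) ^ 2 := by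
    exact_mod_cast hc2
  have h3 : (C.card : ℤ) * (q + 2) ≤ (dl q N a - 1) * (q + 2) :=
    mul_le_mul_of_nonneg_right (by omega) (by omega)
  have h4 : (k' : ℤ) ≤ 2 * 10 ^ 13 := by
    rw [hk']
    norm_num at hka ⊢
    omega
  have h5 : (k' : ℤ) ^ 2 ≤ (2 * 10 ^ 13) ^ 2 := pow_le_pow_left₀ (Int.natCast_nonneg k') h4 2
  have h6 : (10 : ℤ) ^ 5 * q * (dl q N a - 1) = 10 ^ 5 * (q * dl q N a) - 10 ^ 5 * q := by ring
  have h7 : (dl q N a - 1) * ((q : ℤ) + 2) = q * dl q N a - q + 2 * dl q N a - 2 := by ring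
  rw [h6] at hT
  rw [h7] at h3
  norm_num at hb hT h5 hka
  omega

end Pool.Agent.C4E
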