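import Pool.Agent.C4E.Defs3
import Pool.Agent.C4E.Cn
import Pool.Agent.C4E.Cnt

/-!
# C4E-HbP: many good full neighbours; many full vertices in `Sf a` (hub case)
-/

set_option linter.unusedSectionVars false

namespace Pool.Agent.C4E

open Finset

variable {V : Type} [Fintype V] [DecidableEq V]

theorem hub_P {q : ℕ} {N : V → Finset V} (s : SysB q N) {w a : V} (ha : a ∈ Mg q N w)
    (h1 : 1 ≤ dl q N a) : 10 ^ 12 * (q : ℤ) ≤ 10 ^ 12 * (Pw q N w a).card + q := by
  obtain ⟨haw, hpa, hka⟩ := mem_Mg.1 ha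
  have hwa : w ∈ N a := s.sys.cls.symm _ _ haw
  have hbig : (10 : ℤ) ^ 100 ≤ q := by exact_mod_cast s.sys.big
  -- the number of elements
  have hcard : (((N a).erase w).card : ℤ) = q - dl q N a := by
    have h2 := card_erase_of_mem hwa
    have h3 : 1 ≤ (N a).card := card_pos.2 ⟨w, hwa⟩
    have h4 := card_N q N a
    rw [h2, Nat.cast_sub h3, h4]
    push_cast
    ring
  obtain ⟨A, hA⟩ : ∃ A, A = ((N a).erase w).filter fun z => 1 ≤ dl q N z := ⟨_, rfl⟩
  obtain ⟨X, hX⟩ : ∃ X, X = (N a).filter fun z => dl q N a + 10 ^ 13 < ff q N z := ⟨_, rfl⟩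
  have hsub : (N a).erase w ⊆ Pw q N w a ∪ A ∪ Hv q N ∪ X := by
    intro z hz
    rw [mem_union, mem_union, mem_union, mem_Pw, hA, hX, mem_filter, mem_filter, mem_Hv]
    have hz' := mem_erase.1 hz
    by_cases c1 : 1 ≤ dl q N z
    · exact Or.inl (Or.inl (Or.inr ⟨hz, c1⟩))
    · by_cases c2 : dl q N z ≤ -1
      · exact Or.inl (Or.inr c2)
      · by_cases c3 : dl q N a + 10 ^ 13 < ff q N z
        · exact Or.inr ⟨hz'.2, c3⟩
        · exact Or.inl (Or.inl (Or.inl ⟨hz', by omega, by omega⟩))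
  have hc : ((N a).erase w).card ≤ (Pw q N w a).card + A.card + (Hv q N).card + X.card := by
    refine (card_le_card hsub).trans ?_
    refine (card_union_le _ _).trans ?_
    refine Nat.add_le_add_right ((card_union_le _ _).trans ?_) _
    exact Nat.add_le_add_right (card_union_le _ _) _
  have hA' : (A.card : ℤ) ≤ 10 ^ 6 := by
    refine le_trans ?_ hpa
    have h2 : (A.card : ℤ) = ∑ _z ∈ A, (1 : ℤ) := by simp
    rw [h2]
    unfold pa
    calc ∑ _z ∈ A, (1 : ℤ) ≤ ∑ z ∈ A, dp q N z := by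
          refine sum_le_sum fun z hz => ?_
          rw [hA, mem_filter] at hz
          exact hz.2.trans (dl_le_dp q N z)
      _ ≤ ∑ z ∈ (N a).erase w, dp q N z := by
          rw [hA]
          exact sum_le_sum_of_subset_of_nonneg (filter_subset _ _) fun z _ _ => dp_nonneg q N z
  have hH := card_Hv_le q N
  have hH2 := s.h2
  have hX' : 10 ^ 13 * (X.card : ℤ) ≤ 2 * q - 10 ^ 13 := by
    refine le_trans ?_ s.dpb
    have h2 : 10 ^ 13 * (X.card : ℤ) = ∑ _z ∈ X, (10 ^ 13 : ℤ) := by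
      rw [sum_const, nsmul_eq_mul, mul_comm]
    rw [h2]
    calc ∑ _z ∈ X, (10 ^ 13 : ℤ) ≤ ∑ z ∈ X, ∑ z' ∈ (N z).erase a, dp q N z' := by
          refine sum_le_sum fun z hz => ?_
          rw [hX, mem_filter] at hz
          have haz : a ∈ N z := s.sys.cls.symm _ _ hz.1
          have h3 := add_sum_erase (N z) (fun z' => dp q N z') haz
          have h4 := ff_le_pp q N z
          have h5 : pp q N z = ∑ z' ∈ N z, dp q N z' := rfl
          have h6 : dp q N a = dl q N a := dp_of_pos (by omega)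
          have h7 := hz.2
          have h8 : dp q N a + ∑ z' ∈ (N z).erase a, dp q N z' = ∑ z' ∈ N z, dp q N z' := h3
          omega
      _ ≤ ∑ z ∈ N a, ∑ z' ∈ (N z).erase a, dp q N z' := by
          rw [hX]
          refine sum_le_sum_of_subset_of_nonneg (filter_subset _ _) fun z _ _ => ?_
          exact sum_nonneg fun z' _ => dp_nonneg q N z'
      _ ≤ ∑ z ∈ univ.erase a, dp q N z := nb_cnt s.sys.cls _ (dp_nonneg q N) a
      _ ≤ DP q N := sum_le_sum_of_subset_of_nonneg (erase_subset _ _) fun z _ _ => dp_nonneg q N z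
  have hc' : (((N a).erase w).card : ℤ) ≤ (Pw q N w a).card + A.card + (Hv q N).card + X.card := by
    exact_mod_cast hc
  rw [hcard] at hc'
  have hb : (10 : ℤ) ^ 30 ≤ q := le_trans (by norm_num) hbig
  norm_num at hX' hA' hka hb ⊢
  omega

theorem hub_T {q : ℕ} {N : V → Finset V} (s : SysB q N) {w a : V}
    (hw : (q : ℤ) ≤ 2000 * dl q N w)
    (hY : 10 ^ 6 * ((Yd q N \ insert w (N w)).card : ℤ) ≤ (10 ^ 6 + 5) * q)
    (ha : a ∈ Mg q N w) (h1 : 1 ≤ dl q N a) :
    10 ^ 5 * q * (dl q N a - 1) + 49 * q ≤ 10 ^ 5 * ((Sf N a ∩ Fl q N).card : ℤ) := by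
  obtain ⟨haw, hpa, hka⟩ := mem_Mg.1 ha
  have hwa : w ∈ N a := s.sys.cls.symm _ _ haw
  have hbig : (10 : ℤ) ^ 100 ≤ q := by exact_mod_cast s.sys.big
  have h2 := card_Sf q 1 s.sys.cls s.sys.card a
  have h3 : dl q N w - 40001 ≤ ff q N a := by
    have h4 := ff_eq q N a
    have h5 := ph_le_HH q N a
    have h6 := s.h2
    have h7 : dp q N w ≤ pp q N a :=
      single_le_sum (f := fun z => dp q N z) (fun z _ => dp_nonneg q N z) hwa
    have h8 := dl_le_dp q N w
    omega
  have h4 : (Sf N a ∩ Yd q N).card ≤ (Yd q N \ insert w (N w)).card + 1 := by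
    have h5 : Sf N a ∩ Yd q N ⊆ insert w (Yd q N \ insert w (N w)) := by
      intro z hz
      rw [mem_inter] at hz
      by_cases hzw : z = w
      · rw [hzw]
        exact mem_insert_self _ _
      · refine mem_insert_of_mem (mem_sdiff.2 ⟨hz.2, fun h6 => ?_⟩)
        rcases mem_insert.1 h6 with h7 | h7
        · exact hzw h7
        · exact not_Sf_of_common hwa (s.sys.cls.symm _ _ h7) hz.1
    exact (card_le_card h5).trans (card_insert_le _ _)
  have h5 : (Sf N a ∩ Hv q N).card ≤ (Hv q N).card := card_le_card inter_subset_right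
  have h6 := card_Hv_le q N
  have h7 := s.h2
  have h8 := card_split q N (Sf N a)
  have h4' : ((Sf N a ∩ Yd q N).card : ℤ) ≤ (Yd q N \ insert w (N w)).card + 1 := by exact_mod_cast h4
  have h5' : ((Sf N a ∩ Hv q N).card : ℤ) ≤ (Hv q N).card := by exact_mod_cast h5
  have h8' : ((Sf N a ∩ Yd q N).card : ℤ) + (Sf N a ∩ Fl q N).card + (Sf N a ∩ Hv q N).card =
      (Sf N a).card := by exact_mod_cast h8
  have hb : (10 : ℤ) ^ 30 ≤ q := le_trans (by norm_num) hbig
  have h9 : (10 : ℤ) ^ 5 * q * (dl q N a - 1) = 10 ^ 5 * (q * dl q N a) - 10 ^ 5 * q := by ring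
  rw [h9]
  push_cast at h2
  norm_num at hb hY ⊢
  linarith

end Pool.Agent.C4E
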