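import Pool.Agent.C4E.HbE
import Pool.Agent.C4E.HbP

/-!
# C4E-HbN: `|N a \ Sf a| ≤ 7` (hub case)
-/

set_option linter.unusedSectionVars false

namespace Pool.Agent.C4E

open Finset

variable {V : Type} [Fintype V] [DecidableEq V]

theorem hub_N {q : ℕ} {N : V → Finset V} (s : SysB q N) {w a : V} (ha : a ∈ Mg q N w)
    (h1 : dl q N a = 1) (hc : ∀ z ∈ Pw q N w a, a ∈ Sf N z) : (N a \ Sf N a).card ≤ 7 := by
  have h := s.sys.cls
  obtain ⟨haw, hpa, _⟩ := mem_Mg.1 ha
  have hP := hub_P s ha (by omega)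
  have hbig : (10 : ℤ) ^ 100 ≤ q := by exact_mod_cast s.sys.big
  have hb : (10 : ℤ) ^ 30 ≤ q := le_trans (by norm_num) hbig
  obtain ⟨B, hB⟩ : ∃ B : Finset V, B = (N a \ Sf N a).erase w := ⟨_, rfl⟩
  have hda : dp q N a = 1 := by
    rw [dp_of_pos (by omega), h1]
  have hone : ∀ x ∈ B, 99 * (q : ℤ) ≤ 100 * (2 * dp q N x + ∑ z ∈ (N x).erase a, dp q N z) := by
    intro x hx
    rw [hB, mem_erase, mem_sdiff] at hx
    obtain ⟨hxw, hxa, hxS⟩ := hx
    have hax : a ∈ N x := h.symm _ _ hxa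
    have hne : x ≠ a := by
      rintro rfl
      exact s.sys.nol x hxa
    have e1 := hub_ex s haw (by omega) hne hxw hxS hax (Pw q N w a) (filter_subset _ _)
      (fun z hz => Sf_symm.1 (hc z hz))
    have e2 := ff_le_pp q N x
    have e3 : pp q N x = dp q N a + ∑ z ∈ (N x).erase a, dp q N z :=
      (add_sum_erase (N x) (fun z => dp q N z) hax).symm
    rw [h1] at e1
    norm_num at hb hP hpa
    omega
  have hsum : ∑ x ∈ B, (2 * dp q N x + ∑ z ∈ (N x).erase a, dp q N z) ≤ 3 * DP q N := by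
    have hsub : B ⊆ N a := by
      rw [hB]
      exact (erase_subset _ _).trans sdiff_subset
    rw [sum_add_distrib, ← mul_sum]
    have e1 : ∑ x ∈ B, dp q N x ≤ DP q N :=
      sum_le_sum_of_subset_of_nonneg (subset_univ _) fun z _ _ => dp_nonneg q N z
    have e2 : ∑ x ∈ B, ∑ z ∈ (N x).erase a, dp q N z ≤ ∑ x ∈ N a, ∑ z ∈ (N x).erase a, dp q N z :=
      sum_le_sum_of_subset_of_nonneg hsub fun x _ _ => sum_nonneg fun z _ => dp_nonneg q N z
    have e3 := nb_cnt h (fun z => dp q N z) (dp_nonneg q N) a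
    have e4 : ∑ z ∈ univ.erase a, dp q N z ≤ DP q N :=
      sum_le_sum_of_subset_of_nonneg (erase_subset _ _) fun z _ _ => dp_nonneg q N z
    have e5 : ∑ x ∈ N a, ∑ z ∈ (N x).erase a, dp q N z ≤ ∑ z ∈ univ.erase a, dp q N z := e3
    omega
  have hD := s.dpb
  have e1 : ∑ x ∈ B, 99 * (q : ℤ) ≤ ∑ x ∈ B, 100 * (2 * dp q N x + ∑ z ∈ (N x).erase a, dp q N z) :=
    sum_le_sum hone
  rw [sum_const, nsmul_eq_mul, ← mul_sum] at e1
  have hBc : B.card ≤ 6 := by
    by_contra hcon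
    have h7 : (7 : ℤ) ≤ B.card := by
      have : 7 ≤ B.card := by omega
      exact_mod_cast this
    have h8 : 7 * (99 * (q : ℤ)) ≤ B.card * (99 * q) := mul_le_mul_of_nonneg_right h7 (by omega)
    norm_num at hb hD
    omega
  have hle : (N a \ Sf N a).card ≤ B.card + 1 := by
    rw [hB]
    have := pred_card_le_card_erase (s := N a \ Sf N a) (a := w)
    omega
  omega

end Pool.Agent.C4E
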