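import Pool.Agent.C4E.HbE
import Pool.Agent.C4E.HbP

/-!
# C4E-HbO: no partner different from `a` (hub case)

PLAN. `P = Pw q N w a` is nonempty (`hub_P`). `c ∉ N a`: otherwise `a` is a common neighbour of `c` and
`z ∈ P`. Let `x ∈ N c`, `x ∉ Sf a`, `x ≠ w`; `x ≠ a`. `hub_ex` (`P ⊆ (N a).erase w`, `z ∈ Sf c` by
`Sf_symm`): `|P| ≤ 3 + (dl a + 1) dp x + ff x + pa a`, `pa a ≤ 10^6`, and
`ff x ≤ pp x = dp c + ∑_{z ∈ (N x).erase c} dp z`, `10^4 dp c ≤ 10^4 (q + 1) - q` (`s.deg`). So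
`(dl a + 1) dp x + ∑_{z ∈ (N x).erase c} dp z ≥ |P| - 3 - 10^6 - (q + 1) + q / 10^4`, hence
`10^5 (...) ≥ 9 q` (`hub_P`). Sum over the set `B` of these `x`: `9 q |B| ≤ 10^5 ((10^6 + 1) DP + DP)`
(`dl a ≤ 10^6`; `∑_{x ∈ N c} ∑_{z ∈ (N x).erase c} dp z ≤ DP` by `nb_cnt`), `DP ≤ 2 q`:
`|B| ≤ 3 * 10^10`. `N c \ Sf a ⊆ B ∪ {w}`: contradiction to `s.sys.m1 c a`.
-/

set_option linter.unusedSectionVars false

namespace Pool.Agent.C4E

open Finset

variable {V : Type} [Fintype V] [DecidableEq V]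

theorem hub_other {q : ℕ} {N : V → Finset V} (s : SysB q N) {w a c : V} (ha : a ∈ Mg q N w)
    (h1 : 1 ≤ dl q N a) (hca : c ≠ a) (hc : ∀ z ∈ Pw q N w a, c ∈ Sf N z) : False := by
  have hcl := s.sys.cls
  have hq : (10 : ℤ) ^ 100 ≤ q := by exact_mod_cast s.sys.big
  have hq0 : (0 : ℤ) < q := lt_of_lt_of_le (by norm_num) hq
  have hP := hub_P s ha h1
  have hDP := s.dpb
  obtain ⟨haw, hpa, hda⟩ := mem_Mg.1 ha
  have hne : (Pw q N w a).Nonempty := by
    rw [← card_pos]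
    by_contra hcon
    have h2 : (Pw q N w a).card = 0 := by omega
    rw [h2] at hP
    norm_num at hP
    linarith
  have hPs : Pw q N w a ⊆ (N a).erase w := filter_subset _ _
  have hA : c ∉ N a := by
    intro hcon
    obtain ⟨z, hz⟩ := hne
    exact not_Sf_of_common (hcl.symm _ _ ((erase_subset _ _) (hPs hz))) (hcl.symm _ _ hcon) (hc z hz)
  have hA' : a ∉ N c := fun hcon => hA (hcl.symm _ _ hcon)
  obtain ⟨B, hB⟩ : ∃ B, B = (N c \ Sf N a).erase w := ⟨_, rfl⟩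
  have hdc : 10 ^ 4 * dp q N c ≤ 10 ^ 4 * ((q : ℤ) + 1) - q := by
    have h2 := card_N q N c
    have h3 : (q : ℤ) < 10 ^ 4 * (N c).card := by exact_mod_cast s.deg c
    rcases le_total 0 (dl q N c) with h4 | h4
    · rw [dp_of_pos h4]
      norm_num at h3 ⊢
      linarith
    · rw [dp_of_nonpos h4]
      norm_num
      linarith
  have hx : ∀ x ∈ B, 9 * (q : ℤ) ≤ 10 ^ 5 * ((dl q N a + 1) * dp q N x
      + ∑ z ∈ (N x).erase c, dp q N z) := by
    intro x hx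
    rw [hB, mem_erase, mem_sdiff] at hx
    obtain ⟨hxw, hxc, hxS⟩ := hx
    have hxa : x ≠ a := by
      rintro rfl
      exact hA' hxc
    have hcx : c ∈ N x := hcl.symm _ _ hxc
    have h2 := hub_ex s haw (by linarith) hxa hxw hxS hcx (Pw q N w a) hPs
      fun z hz => Sf_symm.1 (hc z hz)
    have h3 := ff_le_pp q N x
    have h4 : pp q N x = dp q N c + ∑ z ∈ (N x).erase c, dp q N z := by
      unfold pp
      rw [← add_sum_erase _ _ hcx]
    have h5 : ((Pw q N w a).card : ℤ) ≤ 3 + ((dl q N a + 1) * dp q N x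
      + ∑ z ∈ (N x).erase c, dp q N z) + dp q N c + 10 ^ 6 := by
      linarith
    have hq2 : (10 : ℤ) ^ 20 ≤ q := le_trans (by norm_num) hq
    norm_num at hP hdc h5 hq2 ⊢
    linarith
  have hBc : B ⊆ N c := by
    intro x hx
    rw [hB, mem_erase, mem_sdiff] at hx
    exact hx.2.1
  have hS1 : ∑ x ∈ B, dp q N x ≤ DP q N :=
    sum_le_sum_of_subset_of_nonneg (subset_univ _) fun z _ _ => dp_nonneg q N z
  have hS2 : ∑ x ∈ B, ∑ z ∈ (N x).erase c, dp q N z ≤ DP q N := by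
    calc ∑ x ∈ B, ∑ z ∈ (N x).erase c, dp q N z
        ≤ ∑ x ∈ N c, ∑ z ∈ (N x).erase c, dp q N z :=
          sum_le_sum_of_subset_of_nonneg hBc fun x _ _ => sum_nonneg fun z _ => dp_nonneg q N z
      _ ≤ ∑ z ∈ univ.erase c, dp q N z := nb_cnt hcl _ (fun x => dp_nonneg q N x) c
      _ ≤ DP q N := sum_le_sum_of_subset_of_nonneg (subset_univ _) fun z _ _ => dp_nonneg q N z
  have h2 := sum_le_sum hx
  rw [sum_const, nsmul_eq_mul, ← mul_sum, sum_add_distrib, ← mul_sum] at h2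
  have hd0 : 0 ≤ DP q N := DP_nonneg q N
  have h3 : (dl q N a + 1) * ∑ x ∈ B, dp q N x ≤ (10 ^ 6 + 1) * DP q N := by
    have h4 : 0 ≤ ∑ x ∈ B, dp q N x := sum_nonneg fun z _ => dp_nonneg q N z
    have h5 : dl q N a + 1 ≤ 10 ^ 6 + 1 := by linarith
    exact mul_le_mul h5 hS1 h4 (by norm_num)
  have h4 : (9 * (B.card : ℤ)) * q ≤ (2 * 10 ^ 5 * (10 ^ 6 + 2)) * q := by
    calc (9 * (B.card : ℤ)) * q = (B.card : ℤ) * (9 * q) := by ring
      _ ≤ _ := h2
      _ ≤ 10 ^ 5 * ((10 ^ 6 + 2) * (2 * q)) := by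
          refine mul_le_mul_of_nonneg_left ?_ (by norm_num)
          norm_num at hDP h3 ⊢
          linarith
      _ = _ := by ring
  have h5 := le_of_mul_le_mul_right h4 hq0
  have h6 : N c \ Sf N a ⊆ insert w B := by
    intro x hx
    rw [mem_insert, hB, mem_erase]
    by_cases hxw : x = w
    · exact Or.inl hxw
    · exact Or.inr ⟨hxw, hx⟩
  have h7 := s.sys.m1 c a hca hA'
  have h8 := (card_le_card h6).trans (card_insert_le _ _)
  have h9 : ((10 : ℤ) ^ 30) ≤ B.card + 1 := by exact_mod_cast h7.trans h8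
  norm_num at h5 h9
  linarith

end Pool.Agent.C4E
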