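import Pool.Agent.C4E.HbM

/-!
# C4E-HbY: few deficient vertices outside the neighbourhood of a hub
-/

set_option linter.unusedSectionVars false

namespace Pool.Agent.C4E

open Finset

variable {V : Type} [Fintype V] [DecidableEq V]

private theorem hby_card {q : ℕ} {N : V → Finset V} {w : V} (hnf : ∀ a ∈ Mg q N w, dl q N a ≠ 0) :
    (N w).card ≤ ((Mg q N w).filter fun a => 1 ≤ dl q N a).card + (Hv q N).card +
      (N w \ Mg q N w).card := by
  have h1 : Mg q N w ⊆ ((Mg q N w).filter fun a => 1 ≤ dl q N a) ∪ Hv q N := by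
    intro a ha
    have h2 := hnf a ha
    rw [mem_union, mem_filter, mem_Hv]
    by_cases h3 : 1 ≤ dl q N a
    · exact Or.inl ⟨ha, h3⟩
    · right
      omega
  have h2 := (card_le_card h1).trans (card_union_le _ _)
  have h3 : Mg q N w ⊆ N w := filter_subset _ _
  have h4 := card_sdiff_add_card_eq_card h3
  omega

theorem hub_Y {q : ℕ} {N : V → Finset V} (s : SysB q N) {w : V}
    (hw : (q : ℤ) ≤ 2000 * dl q N w) (hnf : ∀ a ∈ Mg q N w, dl q N a ≠ 0) :
    10 ^ 6 * ((Yd q N \ insert w (N w)).card : ℤ) ≤ (10 ^ 6 + 5) * q := by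
  have _ := hw
  set A := (Mg q N w).filter fun a => 1 ≤ dl q N a with hA
  set B := Yd q N \ insert w (N w) with hB
  have hAN : ∀ a ∈ A, a ∈ N w := fun a ha => (mem_Mg.1 (mem_filter.1 ha).1).1
  have hwA : w ∉ A := fun h => s.sys.nol w (hAN w h)
  have hBN : ∀ b ∈ B, b ≠ w ∧ b ∉ N w := by
    intro b hb
    have h1 := (mem_sdiff.1 hb).2
    rw [mem_insert, not_or] at h1
    exact h1
  have hwB : w ∉ B := fun h => (hBN w h).1 rfl
  have hAB : Disjoint A B := by
    rw [Finset.disjoint_left]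
    intro x hx hx'
    exact (hBN x hx').2 (hAN x hx)
  have hsum : dl q N w + A.card + B.card ≤ DP q N := by
    have h1 : ∑ x ∈ insert w (A ∪ B), dp q N x ≤ DP q N :=
      sum_le_sum_of_subset_of_nonneg (subset_univ _) fun z _ _ => dp_nonneg q N z
    rw [sum_insert (by rw [mem_union]; exact fun h => h.elim hwA hwB), sum_union hAB] at h1
    have h2 : (A.card : ℤ) ≤ ∑ x ∈ A, dp q N x := by
      have e : (A.card : ℤ) = ∑ _x ∈ A, (1 : ℤ) := by simp
      rw [e]
      exact sum_le_sum fun x hx => (mem_filter.1 hx).2.trans (dl_le_dp q N x)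
    have h3 : (B.card : ℤ) ≤ ∑ x ∈ B, dp q N x := by
      have e : (B.card : ℤ) = ∑ _x ∈ B, (1 : ℤ) := by simp
      rw [e]
      exact sum_le_sum fun x hx => (mem_Yd.1 (mem_sdiff.1 hx).1).trans (dl_le_dp q N x)
    have h4 := dl_le_dp q N w
    linarith
  have h1 := hby_card hnf
  have h2 := card_Hv_le q N
  have h3 := s.h2
  have h4 := card_Mg s w
  have h5 := s.dpb
  have h6 : dl q N w = (q : ℤ) + 1 - (N w).card := rfl
  have h7 : ((N w).card : ℤ) ≤ (A.card : ℤ) + (Hv q N).card + (N w \ Mg q N w).card := by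
    exact_mod_cast h1
  norm_num at h4 h5 ⊢
  linarith

theorem hub_ne {q : ℕ} {N : V → Finset V} (s : SysB q N) {w : V}
    (hnf : ∀ a ∈ Mg q N w, dl q N a ≠ 0) : ∃ a ∈ Mg q N w, 1 ≤ dl q N a := by
  by_contra hc
  have h0 : (Mg q N w).filter (fun a => 1 ≤ dl q N a) = ∅ := by
    rw [filter_eq_empty_iff]
    intro a ha h
    exact hc ⟨a, ha, h⟩
  have h1 := hby_card hnf
  rw [h0, card_empty, zero_add] at h1
  have h2 := card_Hv_le q N
  have h3 := s.h2
  have h4 := card_Mg s w
  have h5 := s.deg w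
  have h6 : 10 ^ 11 ≤ q := le_trans (by norm_num) s.sys.big
  have h7 : ((N w).card : ℤ) ≤ (Hv q N).card + (N w \ Mg q N w).card := by
    exact_mod_cast h1
  have h8 : (q : ℤ) < 10 ^ 4 * (N w).card := by exact_mod_cast h5
  have h9 : (10 : ℤ) ^ 11 ≤ q := by exact_mod_cast h6
  norm_num at h4 h8 h9
  linarith

end Pool.Agent.C4E
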