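import Pool.Agent.C4E.HbS
import Pool.Agent.C4E.QuadZ

/-!
# C4E-HbZ: end of the hub elimination (double counting)
-/

set_option linter.unusedSectionVars false

namespace Pool.Agent.C4E

open Finset

variable {V : Type} [Fintype V] [DecidableEq V]

theorem hub_Z {q : ℕ} {N : V → Finset V} (s : SysB q N) {w a : V}
    (hw : (q : ℤ) ≤ 2000 * dl q N w) (ha : a ∈ Mg q N w) (h1 : dl q N a = 1)
    (h7 : (N a \ Sf N a).card ≤ 7) : False := by
  have hC := s.sys.cls
  have hn : Fintype.card V = q ^ 2 + q + 1 + 1 := by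
    have := s.sys.card
    omega
  have hq : (10 : ℤ) ^ 12 ≤ q := by
    have h2 : (10 : ℕ) ^ 12 ≤ 10 ^ 100 := Nat.pow_le_pow_right (by norm_num) (by norm_num)
    exact_mod_cast h2.trans s.sys.big
  norm_num at hq
  have haw : a ∈ N w := (mem_Mg.1 ha).1
  have hwa : w ∈ N a := hC.symm _ _ haw
  have hNa : ((N a).card : ℤ) = q := by
    rw [card_N q N a, h1]
    ring
  have hSa := card_Sf q 1 hC hn a
  rw [h1] at hSa
  have hdw : 1 ≤ dl q N w := by omega
  have hH := s.h2
  have hpp : ∀ x, w ∈ N x → dl q N w ≤ pp q N x := fun x hx =>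
    (dl_le_dp q N w).trans
      (single_le_sum (f := fun z => dp q N z) (fun z _ => dp_nonneg q N z) hx)
  have hffa : dl q N w - 40001 ≤ ff q N a := by
    have h2 := ff_eq q N a
    have h3 := ph_le_HH q N a
    have h4 := hpp a hwa
    omega
  obtain ⟨R, hR⟩ : ∃ R : Finset V, R = Sf N a \ N a := ⟨_, rfl⟩
  have hRc : dl q N w - 40000 ≤ (R.card : ℤ) := by
    have h2 : (Sf N a ∩ N a).card + R.card = (Sf N a).card := by
      rw [hR]
      exact card_inter_add_card_sdiff _ _
    have h3 : (Sf N a ∩ N a).card ≤ (N a).card := card_le_card inter_subset_right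
    omega
  have key : ∀ a' ∈ (N w).erase a, ((R \ Sf N a').card : ℤ) ≤
      7 + hh q N a' + ph q N a' + sg N a a' + (N a ∩ Sf N a').card := by
    intro a' ha'
    obtain ⟨hne, ha'w⟩ := mem_erase.1 ha'
    have hwa' : w ∈ N a' := hC.symm _ _ ha'w
    have h3 := quad_zero q 1 hC hn hne.symm hwa hwa'
    rw [h1] at h3
    have c1 : (Sf N a ∩ Sf N a').card + (Sf N a \ Sf N a').card = (Sf N a).card :=
      card_inter_add_card_sdiff _ _
    have c2 : ((Sf N a \ Sf N a') ∩ N a).card + ((Sf N a \ Sf N a') \ N a).card =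
        (Sf N a \ Sf N a').card := card_inter_add_card_sdiff _ _
    have c2' : R \ Sf N a' = (Sf N a \ Sf N a') \ N a := by
      rw [hR]
      ext z
      simp only [mem_sdiff]
      tauto
    have c3 : (N a ∩ Sf N a).card ≤ ((Sf N a \ Sf N a') ∩ N a).card + (N a ∩ Sf N a').card := by
      refine (card_le_card ?_).trans (card_union_le _ _)
      intro z hz
      simp only [mem_union, mem_inter, mem_sdiff] at hz ⊢
      tauto
    have c4 : (N a ∩ Sf N a).card + (N a \ Sf N a).card = (N a).card :=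
      card_inter_add_card_sdiff _ _
    have h4 := ff_eq q N a'
    have h5 := hpp a' hwa'
    have h6 := neg_hh_le q N a'
    rw [c2']
    push_cast at h3 hSa
    omega
  have hNw : ((N w).card : ℤ) ≤ q := by
    rw [card_N q N w]
    omega
  have hM : (((N w).erase a).card : ℤ) ≤ q := by
    have h2 : ((N w).erase a).card ≤ (N w).card := card_le_card (erase_subset _ _)
    omega
  have s1 : ∑ a' ∈ (N w).erase a, hh q N a' ≤ 40001 :=
    (sum_le_sum_of_subset_of_nonneg (subset_univ _) fun z _ _ => hh_nonneg q N z).trans hH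
  have s2 : ∑ a' ∈ (N w).erase a, ph q N a' ≤ 40001 := by
    have h2 : ∀ a' ∈ (N w).erase a, ph q N a' = ∑ z ∈ (N a').erase w, hh q N z := by
      intro a' ha'
      have hwa' : w ∈ N a' := hC.symm _ _ (mem_erase.1 ha').2
      unfold ph
      rw [← add_sum_erase (N a') (fun z => hh q N z) hwa', hh_of_nonneg (by omega), zero_add]
    rw [sum_congr rfl h2]
    have h3 := nb_cnt hC (fun z => hh q N z) (fun z => hh_nonneg q N z) w
    have h4 : ∑ a' ∈ (N w).erase a, ∑ z ∈ (N a').erase w, hh q N z ≤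
        ∑ a' ∈ N w, ∑ z ∈ (N a').erase w, hh q N z :=
      sum_le_sum_of_subset_of_nonneg (erase_subset _ _) fun x _ _ =>
        sum_nonneg fun z _ => hh_nonneg q N z
    have h5 : ∑ z ∈ univ.erase w, hh q N z ≤ HH q N :=
      sum_le_sum_of_subset_of_nonneg (erase_subset _ _) fun z _ _ => hh_nonneg q N z
    exact h4.trans (h3.trans (h5.trans hH))
  have sS := sum_Sf s ha (by omega) (by omega)
  have s3 : ∑ a' ∈ (N w).erase a, (sg N a a' : ℤ) ≤ (10 ^ 6 + 5) * q := by
    refine le_trans ?_ sS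
    exact_mod_cast sum_sg hC haw
  have s4 : ∑ a' ∈ (N w).erase a, ((N a ∩ Sf N a').card : ℤ) ≤ q + (10 ^ 6 + 5) * q := by
    have h2 : ∑ a' ∈ (N w).erase a, ((N a ∩ Sf N a').card : ℤ) ≤
        (N w).card + ∑ z ∈ (N a).erase w, ((Sf N z).card : ℤ) := by
      exact_mod_cast sum_NS hC haw
    omega
  have tot : ∑ a' ∈ (N w).erase a, ((R \ Sf N a').card : ℤ) ≤ (2 * 10 ^ 6 + 20) * q := by
    refine (sum_le_sum key).trans ?_
    rw [sum_add_distrib, sum_add_distrib, sum_add_distrib, sum_add_distrib, sum_const,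
      nsmul_eq_mul]
    omega
  have hex : ∑ a' ∈ (N w).erase a, ((R \ Sf N a').card : ℤ) =
      ∑ c ∈ R, ((((N w).erase a).filter fun a' => c ∉ Sf N a').card : ℤ) := by
    have h2 : ∀ a', ((R \ Sf N a').card : ℤ) = ∑ c ∈ R, if c ∉ Sf N a' then 1 else 0 := by
      intro a'
      rw [← sum_filter, sum_const, nsmul_eq_mul, mul_one, filter_notMem_eq_sdiff]
    rw [sum_congr rfl fun a' _ => h2 a', sum_comm]
    refine sum_congr rfl fun c _ => ?_
    rw [← sum_filter, sum_const, nsmul_eq_mul, mul_one]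
  have low : ∀ c ∈ R, (10 : ℤ) ^ 30 ≤ (((N w).erase a).filter fun a' => c ∉ Sf N a').card := by
    intro c hc
    rw [hR, mem_sdiff] at hc
    have hcw : w ≠ c := by
      rintro rfl
      exact hc.2 hwa
    have hcN : c ∉ N w := fun h2 => not_Sf_of_common hwa (hC.symm _ _ h2) hc.1
    have h2 := s.sys.m1 w c hcw hcN
    have h3 : N w \ Sf N c ⊆ ((N w).erase a).filter fun a' => c ∉ Sf N a' := by
      intro z hz
      rw [mem_sdiff] at hz
      rw [mem_filter, mem_erase]
      refine ⟨⟨?_, hz.1⟩, fun h4 => hz.2 (Sf_symm.1 h4)⟩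
      rintro rfl
      exact hz.2 (Sf_symm.1 hc.1)
    exact_mod_cast h2.trans (card_le_card h3)
  have h30 : (R.card : ℤ) * 10 ^ 30 ≤ (2 * 10 ^ 6 + 20) * q := by
    rw [hex] at tot
    refine le_trans ?_ tot
    rw [← nsmul_eq_mul]
    exact card_nsmul_le_sum _ _ _ low
  norm_num at h30
  omega

end Pool.Agent.C4E
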