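import Pool.Agent.C4E.HbF
import Pool.Agent.C4E.HbY
import Pool.Agent.C4E.HbC
import Pool.Agent.C4E.HbO
import Pool.Agent.C4E.HbN
import Pool.Agent.C4E.HbZ

/-!
# C4E-NoHub: there are no hubs (assembly, proved)
-/

set_option linter.unusedSectionVars false

namespace Pool.Agent.C4E

open Finset

variable {V : Type} [Fintype V] [DecidableEq V]

theorem no_hub {q : ℕ} {N : V → Finset V} (s : SysB q N) (w : V) : 2000 * dl q N w < q := by
  by_contra hw
  push Not at hw
  have hnf : ∀ a ∈ Mg q N w, dl q N a ≠ 0 := fun a ha h0 => hub_full s hw ha h0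
  have hY := hub_Y s hw hnf
  obtain ⟨a, ha, h1⟩ := hub_ne s hnf
  obtain ⟨C, hC, hCz⟩ := hub_C s hw hY ha h1
  by_cases hex : ∃ c ∈ C, c ≠ a
  · obtain ⟨c, hc, hca⟩ := hex
    exact hub_other s ha h1 hca (hCz c hc)
  · push Not at hex
    have hsub : C ⊆ {a} := fun c hc => mem_singleton.2 (hex c hc)
    have hcard : C.card ≤ 1 := by simpa using card_le_card hsub
    have hk : dl q N a = 1 := by
      have : (C.card : ℤ) ≤ 1 := by exact_mod_cast hcard
      omega
    have hne : C.Nonempty := by
      rw [← card_pos]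
      have : (1 : ℤ) ≤ (C.card : ℤ) := by omega
      exact_mod_cast this
    obtain ⟨c, hc⟩ := hne
    have hca := hex c hc
    subst hca
    exact hub_Z s hw ha hk (hub_N s ha hk (hCz c hc))

end Pool.Agent.C4E
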