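import Pool.Agent.C4E.AFin
import Pool.Agent.C4E.Del
import Pool.Agent.C4E.BHv
import Pool.Agent.C4E.NoHub
import Pool.Agent.C4E.BG
import Pool.Agent.C4E.NoBig
import Pool.Agent.C4E.DX

/-!
# C4E-Combi: the combinatorial part (assembly, proved)
-/

set_option linter.unusedSectionVars false

namespace Pool.Agent.C4E

open Finset

variable {V : Type} [Fintype V] [DecidableEq V]

theorem combi {q : ℕ} {N : V → Finset V} (s : Sys q N) :
    (∃ N1 : V → Finset V, Exa q 1 N1) ∨
      (∃ N2 : Option V → Finset (Option V), Exa q 2 N2 ∧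
        (univ.filter fun x => x ∈ N2 x).card ≤ q) := by
  by_cases hw : ∃ w, 10 ^ 4 * (N w).card ≤ q
  · obtain ⟨w, hw⟩ := hw
    obtain ⟨N', M, sA⟩ := del s w hw
    exact (caseA sA).elim
  · push Not at hw
    have sB := sysB s hw
    have g := sysG sB (no_hub sB)
    have two : ∀ x, x ∉ Fh q N → dl q N x ≤ 2 := fun x hx => dl_two s g hx
    rcases (Yd q (lp N (Lo q N))).eq_empty_or_nonempty with h | h
    · exact Or.inl ⟨_, exa_one s g h⟩
    · exact Or.inr (exa_two s g two h)

end Pool.Agent.C4E
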