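import Pool.Agent.C4E.DF

/-!
# C4E-DAll: the first alternative holds for every deficient vertex

The second alternative is excluded with the smallness of `f`.
-/

set_option linter.unusedSectionVars false

namespace Pool.Agent.C4E

open Finset

variable {V : Type} [Fintype V] [DecidableEq V]

theorem alt_all {q : ℕ} {N : V → Finset V} (s : Sys q N) (g : SysG q N)
    (two : ∀ x, x ∉ Fh q N → dl q N x ≤ 2) {y : V} (h1 : 1 ≤ dl q (lp N (Lo q N)) y) :
    q * dl q (lp N (Lo q N)) y ≤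
      (Sf (lp N (Lo q N)) y ∩ Yd q (lp N (Lo q N))).card +
        (dl q (lp N (Lo q N)) y + 421) ^ 2 + 3 := by
  have gs' := gs s g
  have h8 : 8 * ff q (lp N (Lo q N)) y ≤ q + 8 := by
    have e1 := ff_le_pp q (lp N (Lo q N)) y
    have e2 := pp_small s g two y
    omega
  rcases anl s g two h1 h8 with h | ⟨hLo, hNL, _, hP⟩
  · exact h
  · exfalso
    have d1 := dl_lp q (L := Lo q N) s.nol y
    rw [if_neg hLo, sub_zero] at d1
    have f1 := ff_lp q s.nol (Lo_ind s) y
    rw [if_neg hLo, hNL, card_empty, Nat.cast_zero, sub_zero, add_zero] at f1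
    have e1 := ff_le_pp q (lp N (Lo q N)) y
    have e2 := pp_small s g two y
    have hbig : (10 : ℤ) ^ 100 ≤ q := by exact_mod_cast g.big
    have hq : (10 : ℤ) ^ 4 ≤ q := le_trans (by norm_num) hbig
    have hF : y ∉ Fh q N := by
      rw [mem_Fh]
      omega
    have hd := two y hF
    have h6 : ¬ N y ⊆ Sf N y := fun h7 =>
      hLo (mem_Lo.2 ⟨hF, by omega, by omega, h7⟩)
    obtain ⟨x, hx, hxS⟩ := Finset.not_subset.1 h6
    have hx' : x ∈ lp N (Lo q N) y := sub_lp N _ y hx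
    have hxS' : x ∉ Sf (lp N (Lo q N)) y := fun h => hxS (Sf_lp_sub y h)
    have hxy : x ≠ y := by
      intro h
      rw [h] at hx
      exact s.nol y hx
    have e := exc1 gs' h1 h8 hP hx' hxy hxS'
    have e3 := ff_le_pp q (lp N (Lo q N)) x
    have e4 := pp_small s g two x
    have e5 := gs'.sm x
    have e6 : dl q (lp N (Lo q N)) y * (2000 * dl q (lp N (Lo q N)) x) ≤
        dl q (lp N (Lo q N)) y * q := mul_le_mul_of_nonneg_left e5 (by omega)
    have e7 : dl q (lp N (Lo q N)) y * (q : ℤ) ≤ 2 * q :=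
      mul_le_mul_of_nonneg_right (by omega) (by omega)
    linarith

theorem dl_one {q : ℕ} {N : V → Finset V} (s : Sys q N) (g : SysG q N)
    (two : ∀ x, x ∉ Fh q N → dl q N x ≤ 2) {y : V} (h1 : 1 ≤ dl q (lp N (Lo q N)) y) :
    dl q (lp N (Lo q N)) y = 1 ∧
      (q : ℤ) ≤ (Sf (lp N (Lo q N)) y ∩ Yd q (lp N (Lo q N))).card + 2 * 10 ^ 5 := by
  have gs' := gs s g
  have h2 := alt_all s g two h1
  have h3 : ((Sf (lp N (Lo q N)) y ∩ Yd q (lp N (Lo q N))).card : ℤ) ≤
      (Yd q (lp N (Lo q N))).card := by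
    exact_mod_cast card_le_card inter_subset_right
  have h4 := card_Yd_le q (lp N (Lo q N))
  have h5 := gs'.dpb
  have h6 := gs'.sm y
  have hbig : (10 : ℤ) ^ 100 ≤ q := by exact_mod_cast g.big
  have hq : (10 : ℤ) ^ 4 ≤ q := le_trans (by norm_num) hbig
  have h7 : dl q (lp N (Lo q N)) y = 1 := by
    by_contra h8
    obtain ⟨j, hj⟩ : ∃ j, j = dl q (lp N (Lo q N)) y - 2 := ⟨_, rfl⟩
    have hk : dl q (lp N (Lo q N)) y = j + 2 := by omega
    rw [hk] at h2 h6
    have h9 : 0 ≤ j := by omega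
    have h10 : 0 ≤ j * ((q : ℤ) - j - 846) := mul_nonneg h9 (by omega)
    have h11 : (q : ℤ) * (j + 2) ≤ 2 * q - 10 ^ 13 + (j + 2 + 421) ^ 2 + 3 := by linarith
    have h12 : (q : ℤ) * (j + 2) - (2 * q + (j + 2 + 421) ^ 2) =
        j * ((q : ℤ) - j - 846) - 178929 := by ring
    linarith
  refine ⟨h7, ?_⟩
  rw [h7] at h2
  norm_num at h2 ⊢
  linarith

end Pool.Agent.C4E
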