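import Pool.Agent.C4E.Defs3
import Pool.Agent.C4E.Cn

/-!
# C4E-FhB: at most 16 vertices with `f ≥ q / 8`
-/

set_option linter.unusedSectionVars false

namespace Pool.Agent.C4E

open Finset

variable {V : Type} [Fintype V] [DecidableEq V]

theorem card_Fh_G {q : ℕ} {N : V → Finset V} (g : SysG q N) : (Fh q N).card ≤ 16 := by
  by_contra hcon
  obtain ⟨W, hW, hWc⟩ := Finset.exists_subset_card_eq (show 17 ≤ (Fh q N).card by omega)
  have hq : (0 : ℤ) < q := by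
    have h0 : 0 < q := lt_of_lt_of_le (by positivity) g.big
    exact_mod_cast h0
  have h1 : 17 * (q : ℤ) ≤ 8 * ∑ x ∈ W, ff q N x := by
    have h2 : ∑ _x ∈ W, (q : ℤ) ≤ ∑ x ∈ W, 8 * ff q N x := sum_le_sum fun x hx => mem_Fh.1 (hW hx)
    rw [sum_const, hWc, nsmul_eq_mul, ← mul_sum] at h2
    exact h2
  have h2 : ∑ x ∈ W, ff q N x ≤ ∑ x ∈ W, pp q N x := sum_le_sum fun x _ => ff_le_pp q N x
  have hM : ∀ x, dp q N x ≤ (q : ℤ) / 2000 := by
    intro x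
    have h3 := g.sm x
    unfold dp
    refine max_le (by omega) (by omega)
  have h3 := hub_cnt g.cls (dp q N) (dp_nonneg q N) ((q : ℤ) / 2000) hM W
  have h4 : ∑ x ∈ W, ∑ z ∈ N x, dp q N z = ∑ x ∈ W, pp q N x := rfl
  have h5 : ∑ z, dp q N z = DP q N := rfl
  have h6 := g.dpb
  rw [h4, h5, hWc] at h3
  obtain ⟨A, hA⟩ : ∃ A : ℤ, A = ∑ x ∈ W, pp q N x := ⟨_, rfl⟩
  obtain ⟨B, hB⟩ : ∃ B : ℤ, B = ∑ x ∈ W, ff q N x := ⟨_, rfl⟩
  rw [← hA] at h2 h3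
  rw [← hB] at h1 h2
  push_cast at h3
  omega

theorem card_erase_Yd (q : ℕ) (N : V → Finset V) (y : V) :
    (((Yd q N).erase y).card : ℤ) + dp q N y ≤ DP q N := by
  have h1 : (((Yd q N).erase y).card : ℤ) = ∑ _x ∈ (Yd q N).erase y, (1 : ℤ) := by simp
  have h2 : ∑ _x ∈ (Yd q N).erase y, (1 : ℤ) ≤ ∑ x ∈ univ.erase y, dp q N x := by
    calc ∑ _x ∈ (Yd q N).erase y, (1 : ℤ) ≤ ∑ x ∈ (Yd q N).erase y, dp q N x :=
          sum_le_sum fun x hx => (mem_Yd.1 (mem_of_mem_erase hx)).trans (dl_le_dp q N x)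
      _ ≤ ∑ x ∈ univ.erase y, dp q N x :=
          sum_le_sum_of_subset_of_nonneg (erase_subset_erase y (subset_univ _)) fun z _ _ => dp_nonneg q N z
  have h3 : dp q N y + ∑ x ∈ univ.erase y, dp q N x = DP q N := add_sum_erase _ _ (mem_univ y)
  rw [h1]
  linarith

end Pool.Agent.C4E
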