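import Pool.Agent.C4E.Pt1
import Pool.Agent.C4E.Part
import Pool.Agent.C4E.Cnt

/-!
# C4E-Pt2: partners

PLAN. `k = dl y ≥ 1`, `T = Sf y ∩ Fl`, `P = Pz` (nonempty by `card_Pz`), `k' = (k + 421).toNat`,
`dm = q + 2` (`|N x| = q + 1 - dl x ≤ q + 2`, `g.h1`). For `z ∈ P`: `|Sf z| = 1 + ff z ≤ k + 421`
(`card_Sf` with `b = 1`, `dl z = 0`). `part`: `c ∈ Cz` means `k' + 1 ≤ |N c ∩ T|`, so `c ∈ Sf z` for
`z ∈ P`; and `|T| ≤ |Cz| (q + 2) + (k + 421)²`. `Cz_nb`: if `c ∈ N y` then `y` is a common neighbour of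
`c` and `z ∈ P`, contradiction (`not_Sf_of_common`). (This also excludes nothing for `c = y`.)
`Cz_card`: `|T| = |Sf y| - |Sf y ∩ Yd| - |Sf y ∩ Hv|` (`card_split`), `|Sf y| = 1 + q k + ff y`,
`ff y ≥ -2` (`neg_HH_le_ff`), `|Sf y ∩ Hv| ≤ 2`: `|T| ≥ q k - 3 - |Sf y ∩ Yd|`.
-/

set_option linter.unusedSectionVars false

namespace Pool.Agent.C4E

open Finset

variable {V : Type} [Fintype V] [DecidableEq V]

private theorem Pz_ne {q : ℕ} {N : V → Finset V} (g : SysG q N) {y : V} (h1 : 1 ≤ dl q N y)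
    (h8 : 8 * ff q N y ≤ q + 8) : (Pz q N y).Nonempty := by
  have h2 := card_Pz g h1 h8
  have h3 := g.big
  rw [← card_pos]
  by_contra h4
  have h5 : (Pz q N y).card = 0 := by omega
  rw [h5] at h2
  have h6 : (0 : ℤ) < q := by
    have : 0 < q := lt_of_lt_of_le (by positivity) h3
    exact_mod_cast this
  push_cast at h2
  omega

private theorem Pz_part {q : ℕ} {N : V → Finset V} (g : SysG q N) {y : V} (h1 : 1 ≤ dl q N y)
    (h8 : 8 * ff q N y ≤ q + 8) :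
    (∀ c, (dl q N y + 421).toNat + 1 ≤ (N c ∩ (Sf N y ∩ Fl q N)).card → ∀ z ∈ Pz q N y, c ∈ Sf N z) ∧
      (Sf N y ∩ Fl q N).card ≤ (univ.filter fun c =>
        (dl q N y + 421).toNat + 1 ≤ (N c ∩ (Sf N y ∩ Fl q N)).card).card * (q + 2) +
        (dl q N y + 421).toNat ^ 2 := by
  refine part q g.cls (y := y) (Pz q N y) (Sf N y ∩ Fl q N) (dl q N y + 421).toNat (q + 2)
    (fun z hz => (mem_Pz.1 hz).1) (fun z hz => ?_) (Pz_ne g h1 h8) inter_subset_left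
    (fun x hx => mem_Fl.1 (mem_inter.1 hx).2) (fun x => ?_)
  · obtain ⟨_, h2, h3⟩ := mem_Pz.1 hz
    refine ⟨h2, ?_⟩
    have h4 := card_Sf q 1 g.cls (by rw [g.card]) z
    rw [h2, mul_zero] at h4
    push_cast at h4
    omega
  · have h2 := card_N q N x
    have h3 := neg_hh_le q N x
    have h4 := g.h1 x
    omega

theorem Cz_Sf {q : ℕ} {N : V → Finset V} (g : SysG q N) {y c : V} (h1 : 1 ≤ dl q N y)
    (h8 : 8 * ff q N y ≤ q + 8) (hc : c ∈ Cz q N y) : ∀ z ∈ Pz q N y, c ∈ Sf N z := by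
  refine (Pz_part g h1 h8).1 c ?_
  have h2 := mem_Cz.1 hc
  omega

theorem Cz_nb {q : ℕ} {N : V → Finset V} (g : SysG q N) {y c : V} (h1 : 1 ≤ dl q N y)
    (h8 : 8 * ff q N y ≤ q + 8) (hc : ∀ z ∈ Pz q N y, c ∈ Sf N z) : c ∉ N y := by
  intro hcy
  obtain ⟨z, hz⟩ := Pz_ne g h1 h8
  exact not_Sf_of_common (g.cls.symm y z (mem_Pz.1 hz).1) (g.cls.symm y c hcy) (hc z hz)

theorem Cz_card {q : ℕ} {N : V → Finset V} (g : SysG q N) {y : V} (h1 : 1 ≤ dl q N y)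
    (h8 : 8 * ff q N y ≤ q + 8) :
    q * dl q N y ≤ (Sf N y ∩ Yd q N).card + (Cz q N y).card * (q + 2) +
      (dl q N y + 421) ^ 2 + 3 := by
  have h2 := (Pz_part g h1 h8).2
  have h3 : (univ.filter fun c =>
      (dl q N y + 421).toNat + 1 ≤ (N c ∩ (Sf N y ∩ Fl q N)).card) = Cz q N y := by
    ext c
    rw [mem_Cz, mem_filter]
    constructor
    · rintro ⟨_, h4⟩
      omega
    · intro h4
      exact ⟨mem_univ _, by omega⟩
  rw [h3] at h2
  have h4 := card_split q N (Sf N y)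
  have h5 := card_Sf q 1 g.cls (by rw [g.card]) y
  have h6 := neg_HH_le_ff q N y
  have h7 := g.h2
  have h9 : (Sf N y ∩ Hv q N).card ≤ (Hv q N).card := card_le_card inter_subset_right
  have h10 := card_Hv_le q N
  have h11 : ((Sf N y ∩ Fl q N).card : ℤ) ≤ (Cz q N y).card * (q + 2) +
      (dl q N y + 421) ^ 2 := by
    have h12 : (((dl q N y + 421).toNat : ℕ) : ℤ) = dl q N y + 421 :=
      Int.toNat_of_nonneg (by omega)
    rw [← h12]
    exact_mod_cast h2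
  have h4' : ((Sf N y ∩ Yd q N).card : ℤ) + (Sf N y ∩ Fl q N).card + (Sf N y ∩ Hv q N).card =
      (Sf N y).card := by exact_mod_cast h4
  have h9' : ((Sf N y ∩ Hv q N).card : ℤ) ≤ (Hv q N).card := by exact_mod_cast h9
  push_cast at h5
  linarith

end Pool.Agent.C4E
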