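import Pool.Agent.C4E.Pt1
import Pool.Agent.C4E.Ex
import Pool.Agent.C4E.Com

/-!
# C4E-Pt3: exceptional vertices
-/

set_option linter.unusedSectionVars false

namespace Pool.Agent.C4E

open Finset

variable {V : Type} [Fintype V] [DecidableEq V]

private theorem pt3_dl {q : ℕ} {N : V → Finset V} (g : SysG q N) (x : V) : -1 ≤ dl q N x := by
  have h1 := g.h1 x
  have h2 := neg_hh_le q N x
  omega

theorem exc1 {q : ℕ} {N : V → Finset V} (g : SysG q N) {y c x : V} (h1 : 1 ≤ dl q N y)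
    (h8 : 8 * ff q N y ≤ q + 8) (hc : ∀ z ∈ Pz q N y, c ∈ Sf N z) (hx : x ∈ N c) (hxy : x ≠ y)
    (hxS : x ∉ Sf N y) :
    869 * (q : ℤ) ≤ 1000 * (2 + dl q N x * dl q N y + ff q N x + ff q N y) := by
  obtain ⟨c0, h0y, h0x⟩ := exists_common hxy hxS
  have h2 := ex_bound q 1 g.cls g.card hxy h0x h0y (g.cls.symm c x hx) (Pz q N y)
    (fun z hz => (mem_Pz.1 hz).1) (fun z hz => Sf_symm.1 (hc z hz))
  have h3 := card_Pz g h1 h8
  have h4 := pt3_dl g c0
  push_cast at h2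
  linarith

theorem card_NS {q : ℕ} {N : V → Finset V} (g : SysG q N) {y c : V} (h1 : 1 ≤ dl q N y)
    (h8 : 8 * ff q N y ≤ q + 8) (hc : ∀ z ∈ Pz q N y, c ∈ Sf N z) (hcy : c ≠ y)
    (hna : c ∉ N y) : 868 * (q : ℤ) ≤ 1000 * (N c ∩ Sf N y).card := by
  have h2 := com_na q g.cls hcy fun h => hna (g.cls.symm c y h)
  have h3 : (Pz q N y).card ≤ (N y ∩ Sf N c).card := by
    refine card_le_card fun z hz => mem_inter.2 ⟨(mem_Pz.1 hz).1, Sf_symm.1 (hc z hz)⟩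
  have h4 : ((Pz q N y).card : ℤ) ≤ (N y ∩ Sf N c).card := by exact_mod_cast h3
  have h5 := card_Pz g h1 h8
  have h6 := g.sm c
  omega

theorem exc2 {q : ℕ} {N : V → Finset V} (g : SysG q N) {y c z : V} (h1 : 1 ≤ dl q N y)
    (h8 : 8 * ff q N y ≤ q + 8) (hc : ∀ z ∈ Pz q N y, c ∈ Sf N z) (hcy : c ≠ y)
    (hna : c ∉ N y) (hz : z ∈ N y) (hzS : z ∉ Sf N c) :
    868 * (q : ℤ) ≤ 1000 * (2 + dl q N z * dl q N c + ff q N z + ff q N c) := by
  have hzc : z ≠ c := by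
    rintro rfl
    exact hna hz
  obtain ⟨c0, h0c, h0z⟩ := exists_common hzc hzS
  have h2 := ex_bound q 1 g.cls g.card hzc h0z h0c (g.cls.symm y z hz) (N c ∩ Sf N y)
    inter_subset_left (fun w hw => (mem_inter.1 hw).2)
  have h3 := card_NS g h1 h8 hc hcy hna
  have h4 := pt3_dl g c0
  push_cast at h2
  linarith

end Pool.Agent.C4E
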