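import Pool.Agent.C4E.DG
import Pool.Agent.C4E.Pt2
import Pool.Agent.C4E.Pt3
import Pool.Agent.C4E.FhB

/-!
# C4E-DAn: the alternative

Cases for the set of the partners of `y` in the graph with loops.
-/

set_option linter.unusedSectionVars false

namespace Pool.Agent.C4E

open Finset

variable {V : Type} [Fintype V] [DecidableEq V]

theorem anl {q : ℕ} {N : V → Finset V} (s : Sys q N) (g : SysG q N)
    (two : ∀ x, x ∉ Fh q N → dl q N x ≤ 2) {y : V} (h1 : 1 ≤ dl q (lp N (Lo q N)) y)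
    (h8 : 8 * ff q (lp N (Lo q N)) y ≤ q + 8) :
    (q * dl q (lp N (Lo q N)) y ≤
        (Sf (lp N (Lo q N)) y ∩ Yd q (lp N (Lo q N))).card +
          (dl q (lp N (Lo q N)) y + 421) ^ 2 + 3) ∨
      (y ∉ Lo q N ∧ N y ∩ Lo q N = ∅ ∧ (∀ x ∈ N y, x ∉ Sf N y → x ∈ Fh q N) ∧
        ∀ z ∈ Pz q (lp N (Lo q N)) y, y ∈ Sf (lp N (Lo q N)) z) := by
  have gs' := gs s g
  -- exceptional vertices are in `Fh`
  have claim : ∀ c, (∀ z ∈ Pz q (lp N (Lo q N)) y, c ∈ Sf (lp N (Lo q N)) z) →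
      ∀ x ∈ lp N (Lo q N) c, x ∉ Sf (lp N (Lo q N)) y → x ∈ Fh q N := by
    intro c hc x hx hxS
    by_contra hxF
    have hnb := Cz_nb gs' h1 h8 hc
    have hxy : x ≠ y := by
      rintro rfl
      exact hnb (gs'.cls.symm c x hx)
    have h2 := exc1 gs' h1 h8 hc hx hxy hxS
    obtain ⟨h3, h4⟩ := out_Fh s two hxF
    have h5 := gs'.sm y
    have h6 : dl q (lp N (Lo q N)) x * dl q (lp N (Lo q N)) y ≤ 2 * dl q (lp N (Lo q N)) y :=
      mul_le_mul_of_nonneg_right h3 (by omega)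
    have hbig : (10 : ℤ) ^ 100 ≤ q := by exact_mod_cast g.big
    have hq : (10 : ℤ) ^ 4 ≤ q := le_trans (by norm_num) hbig
    linarith
  by_cases hC : Cz q (lp N (Lo q N)) y = ∅
  · left
    have h2 := Cz_card gs' h1 h8
    rw [hC, card_empty] at h2
    push_cast at h2
    linarith
  · obtain ⟨c, hc⟩ := Finset.nonempty_iff_ne_empty.2 hC
    have hcS := Cz_Sf gs' h1 h8 hc
    have hnb := Cz_nb gs' h1 h8 hcS
    by_cases hcy : c = y
    · right
      rw [hcy] at hcS hnb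
      refine ⟨fun hy => hnb (mem_lp.2 (Or.inr ⟨rfl, hy⟩)), ?_, ?_, hcS⟩
      · rw [Finset.eq_empty_iff_forall_notMem]
        intro x hx
        obtain ⟨hx1, hx2⟩ := mem_inter.1 hx
        have hx3 : x ∈ lp N (Lo q N) y := sub_lp N _ y hx1
        have hx4 : x ∈ lp N (Lo q N) x := mem_lp.2 (Or.inr ⟨rfl, hx2⟩)
        exact (mem_Lo.1 hx2).1 (claim y hcS x hx3 (not_Sf_of_common hx3 hx4))
      · intro x hx hxS
        exact claim y hcS x (sub_lp N _ y hx) fun h => hxS (Sf_lp_sub y h)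
    · exfalso
      have hyc : y ∉ N c := fun h => hnb (gs'.cls.symm c y (sub_lp N _ c h))
      have h2 := s.m1 c y hcy hyc
      have h3 : N c \ Sf N y ⊆ Fh q N := by
        intro x hx
        obtain ⟨hx1, hx2⟩ := mem_sdiff.1 hx
        exact claim c hcS x (sub_lp N _ c hx1) fun h => hx2 (Sf_lp_sub y h)
      have h4 := card_le_card h3
      have h5 := card_Fh_G g
      have h6 : (17 : ℕ) ≤ 10 ^ 30 := by norm_num
      omega

end Pool.Agent.C4E
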