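import Pool.Agent.C4E.DAll

/-!
# C4E-DC: the deficient vertices form a clique of the relation `Sf`
-/

set_option linter.unusedSectionVars false

namespace Pool.Agent.C4E

open Finset

variable {V : Type} [Fintype V] [DecidableEq V]

private theorem dc_dp {q : ℕ} {N : V → Finset V} (s : Sys q N) (g : SysG q N)
    (two : ∀ x, x ∉ Fh q N → dl q N x ≤ 2) (z : V) :
    dp q (lp N (Lo q N)) z = if z ∈ Yd q (lp N (Lo q N)) then 1 else 0 := by
  by_cases hz : z ∈ Yd q (lp N (Lo q N))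
  · have h1 := (dl_one s g two (mem_Yd.1 hz)).1
    rw [if_pos hz, dp_of_pos (by omega), h1]
  · rw [if_neg hz]
    rw [mem_Yd] at hz
    exact dp_of_nonpos (by omega)

private theorem dc_pp {q : ℕ} {N : V → Finset V} (s : Sys q N) (g : SysG q N)
    (two : ∀ x, x ∉ Fh q N → dl q N x ≤ 2) (x : V) :
    pp q (lp N (Lo q N)) x = (lp N (Lo q N) x ∩ Yd q (lp N (Lo q N))).card := by
  unfold pp
  rw [sum_congr rfl fun z _ => dc_dp s g two z, sum_ite_mem, sum_const, nsmul_eq_mul, mul_one]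

private theorem dc_Y {q : ℕ} {N : V → Finset V} (s : Sys q N) (g : SysG q N) :
    ((Yd q (lp N (Lo q N))).card : ℤ) ≤ 2 * q - 10 ^ 13 :=
  (card_Yd_le q (lp N (Lo q N))).trans (gs s g).dpb

private theorem dc_q {q : ℕ} {N : V → Finset V} (g : SysG q N) : (10 ^ 20 : ℤ) ≤ q := by
  have h1 : 10 ^ 20 ≤ q := le_trans (by norm_num) g.big
  exact_mod_cast h1

/-- (A) -/
private theorem dc_A {q : ℕ} {N : V → Finset V} (s : Sys q N) (g : SysG q N)
    (two : ∀ x, x ∉ Fh q N → dl q N x ≤ 2) {y y' : V} (hy : y ∈ Yd q (lp N (Lo q N)))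
    (hy' : y' ∈ Yd q (lp N (Lo q N))) (hne : y ≠ y') (hS : y' ∉ Sf (lp N (Lo q N)) y) :
    2 * (q : ℤ) - 4 * 10 ^ 5 - (Yd q (lp N (Lo q N))).card ≤
      3 + pp q (lp N (Lo q N)) y + pp q (lp N (Lo q N)) y' := by
  have g' := gs s g
  obtain ⟨c, hc, hc'⟩ := exists_common hne.symm hS
  have hn : Fintype.card V = q ^ 2 + q + 1 + 1 := by rw [g'.card]
  have h := quad_zero q 1 g'.cls hn hne hc hc'
  have h1 := neg_hh_le q (lp N (Lo q N)) c
  have h2 := g'.h1 c
  have h3 := dl_one s g two (mem_Yd.1 hy)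
  have h4 := dl_one s g two (mem_Yd.1 hy')
  rw [h3.1, h4.1] at h
  have h5 := ff_le_pp q (lp N (Lo q N)) y
  have h6 := ff_le_pp q (lp N (Lo q N)) y'
  have h7 := card_union_add_card_inter (Sf (lp N (Lo q N)) y ∩ Yd q (lp N (Lo q N)))
    (Sf (lp N (Lo q N)) y' ∩ Yd q (lp N (Lo q N)))
  have h8 : (Sf (lp N (Lo q N)) y ∩ Yd q (lp N (Lo q N)) ∪
      Sf (lp N (Lo q N)) y' ∩ Yd q (lp N (Lo q N))).card ≤ (Yd q (lp N (Lo q N))).card :=
    card_le_card (union_subset inter_subset_right inter_subset_right)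
  have h9 : ((Sf (lp N (Lo q N)) y ∩ Yd q (lp N (Lo q N))) ∩
      (Sf (lp N (Lo q N)) y' ∩ Yd q (lp N (Lo q N)))).card ≤
        (Sf (lp N (Lo q N)) y ∩ Sf (lp N (Lo q N)) y').card :=
    card_le_card (inter_subset_inter inter_subset_left inter_subset_left)
  have h10 := h3.2
  have h11 := h4.2
  push_cast at h
  omega

/-- (B) -/
private theorem dc_B {q : ℕ} {N : V → Finset V} (s : Sys q N) (g : SysG q N)
    (two : ∀ x, x ∉ Fh q N → dl q N x ≤ 2) (W : Finset V) (hW : W ⊆ Yd q (lp N (Lo q N)))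
    (hc : ∀ y ∈ W, ∀ y' ∈ W, y ≠ y' → y' ∈ Sf (lp N (Lo q N)) y) : W.card ≤ q + 1 := by
  have h1 : (W.biUnion (lp N (Lo q N))).card = ∑ y ∈ W, (lp N (Lo q N) y).card := by
    refine card_biUnion fun y hy y' hy' hne => ?_
    show Disjoint (lp N (Lo q N) y) (lp N (Lo q N) y')
    rw [disjoint_iff_inter_eq_empty]
    exact (mem_Sf.1 (hc y hy y' hy' hne)).2
  have h2 : ∀ y ∈ W, (lp N (Lo q N) y).card = q := by
    intro y hy
    have h3 := (dl_one s g two (mem_Yd.1 (hW hy))).1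
    have h4 := card_N q (lp N (Lo q N)) y
    omega
  rw [sum_congr rfl h2, sum_const, smul_eq_mul] at h1
  have h3 : (W.biUnion (lp N (Lo q N))).card ≤ Fintype.card V := card_le_univ _
  rw [h1, g.card] at h3
  have h4 := dc_q g
  by_contra h5
  have h6 : q + 2 ≤ W.card := by omega
  have h7 : (q + 2) * q ≤ W.card * q := Nat.mul_le_mul_right q h6
  have h8 : (q + 2) * q ≤ q ^ 2 + q + 2 := h7.trans h3
  have h9 : q ≤ 2 := by nlinarith
  have h10 : (q : ℤ) ≤ 2 := by exact_mod_cast h9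
  linarith

theorem card_Y_rough {q : ℕ} {N : V → Finset V} (s : Sys q N) (g : SysG q N)
    (two : ∀ x, x ∉ Fh q N → dl q N x ≤ 2) :
    1000 * (Yd q (lp N (Lo q N))).card ≤ 1005 * q := by
  have hq := dc_q g
  have hY := dc_Y s g
  obtain ⟨μ, hμ0, hμ2, hμ⟩ := var_Y s g two
  obtain ⟨W, hW⟩ : ∃ W, W = (Yd q (lp N (Lo q N))).filter
      (fun x => pp q (lp N (Lo q N)) x ≤ 10 ^ 4) := ⟨_, rfl⟩
  obtain ⟨T, hT⟩ : ∃ T, T = (Yd q (lp N (Lo q N))).filter
      (fun x => ¬ pp q (lp N (Lo q N)) x ≤ 10 ^ 4) := ⟨_, rfl⟩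
  have h1 : W.card + T.card = (Yd q (lp N (Lo q N))).card := by
    rw [hW, hT]
    exact card_filter_add_card_filter_not _
  have h2 : W.card ≤ q + 1 := by
    refine dc_B s g two W (by rw [hW]; exact filter_subset _ _) fun y hy y' hy' hne => ?_
    rw [hW, mem_filter] at hy hy'
    by_contra hS
    have h3 := dc_A s g two hy.1 hy'.1 hne hS
    have h4 := hy.2
    have h5 := hy'.2
    omega
  have h3 : (T.card : ℝ) * 99980001 ≤ 4 * 10 ^ 5 * q := by
    refine le_trans ?_ hμ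
    calc (T.card : ℝ) * 99980001 = ∑ _x ∈ T, (99980001 : ℝ) := by
          rw [sum_const, nsmul_eq_mul]
      _ ≤ ∑ x ∈ T, (((lp N (Lo q N) x ∩ Yd q (lp N (Lo q N))).card : ℝ) - μ) ^ 2 := by
          refine sum_le_sum fun x hx => ?_
          rw [hT, mem_filter, dc_pp s g two] at hx
          have h4 : 10001 ≤ (lp N (Lo q N) x ∩ Yd q (lp N (Lo q N))).card := by
            have h5 := hx.2
            omega
          have h5 : (10001 : ℝ) ≤ (lp N (Lo q N) x ∩ Yd q (lp N (Lo q N))).card := by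
            exact_mod_cast h4
          nlinarith
      _ ≤ _ := sum_le_sum_of_subset_of_nonneg (subset_univ _) fun x _ _ => sq_nonneg _
  have h4 : (1000 * T.card : ℝ) ≤ 4.5 * q := by
    have h5 : (0 : ℝ) ≤ q := Nat.cast_nonneg q
    nlinarith
  have h5 : 2 * (1000 * T.card) ≤ 9 * q := by
    have h6 : (2 * (1000 * T.card) : ℝ) ≤ 9 * q := by linarith
    exact_mod_cast h6
  omega

theorem clique_Y {q : ℕ} {N : V → Finset V} (s : Sys q N) (g : SysG q N)
    (two : ∀ x, x ∉ Fh q N → dl q N x ≤ 2) :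
    ∀ y ∈ Yd q (lp N (Lo q N)), ∀ y' ∈ Yd q (lp N (Lo q N)), y ≠ y' →
      y' ∈ Sf (lp N (Lo q N)) y := by
  intro y hy y' hy' hne
  by_contra hS
  have h1 := dc_A s g two hy hy' hne hS
  have h2 := pp_small s g two y
  have h3 := pp_small s g two y'
  have h4 := card_Y_rough s g two
  have h5 := dc_q g
  omega

theorem card_Y {q : ℕ} {N : V → Finset V} (s : Sys q N) (g : SysG q N)
    (two : ∀ x, x ∉ Fh q N → dl q N x ≤ 2) : (Yd q (lp N (Lo q N))).card ≤ q + 1 := by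
  exact dc_B s g two _ (Subset.refl _) (clique_Y s g two)

end Pool.Agent.C4E
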