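import Pool.Agent.C4E.DV

/-!
# C4E-DF: all values of `f` are small in the system with loops

PLAN. `Ns = lp N (Lo q N)`, `Y = Yd q Ns`, `g(x) = |Ns x ∩ Y|`. `var_Y` (one term of the sum):
`(g(x) - μ)² ≤ 4 * 10^5 q`, so `g(x) ≤ 2 + 633 √q ≤ q / 10^6`. `pp q Ns x = ∑_{z ∈ Ns x} dp* z`: only
`z ∈ Y` contribute; for `z ∈ Y \ (Fh ∪ Lb)`: `dp* z = 1` (`dl_one_out`); for `z ∈ Fh` (at most 16,
`card_Fh_G`): `dp* z ≤ q / 2000` (`gs`, `sm`); for `z ∈ Lb` (at most 240, `card_Lb`), `z ∉ Fh`: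
`dp* z ≤ 2` (`out_Fh`). So `pp q Ns x ≤ q / 10^6 + 16 q / 2000 + 480`, and `1000 pp ≤ 9 q`.
-/

set_option linter.unusedSectionVars false

namespace Pool.Agent.C4E

open Finset

variable {V : Type} [Fintype V] [DecidableEq V]

private theorem df_real (q c : ℕ) (hq : 10 ^ 100 ≤ q) (μ : ℝ) (h1 : μ ≤ 2)
    (h2 : ((c : ℝ) - μ) ^ 2 ≤ 4 * 10 ^ 5 * q) : 10 ^ 6 * c ≤ q := by
  by_contra hcon
  have h3 : (q : ℝ) < 10 ^ 6 * c := by
    have : q < 10 ^ 6 * c := by omega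
    exact_mod_cast this
  have h4 : (10 ^ 20 : ℝ) ≤ q := by
    have : 10 ^ 20 ≤ q := le_trans (Nat.pow_le_pow_right (by norm_num) (by norm_num)) hq
    exact_mod_cast this
  have h5 : (q : ℝ) / (2 * 10 ^ 6) ≤ c - μ := by
    rw [div_le_iff₀ (by positivity)]
    linarith
  have h6 : 0 ≤ (q : ℝ) / (2 * 10 ^ 6) := by positivity
  have h7 : ((q : ℝ) / (2 * 10 ^ 6)) ^ 2 ≤ (c - μ) ^ 2 := pow_le_pow_left₀ h6 h5 2
  have h8 : ((q : ℝ) / (2 * 10 ^ 6)) ^ 2 = (q : ℝ) * q / (4 * 10 ^ 12) := by ring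
  rw [h8] at h7
  have h9 : (q : ℝ) * q ≤ 4 * 10 ^ 5 * q * (4 * 10 ^ 12) := by
    rw [div_le_iff₀ (by positivity)] at h7
    exact h7.trans (mul_le_mul_of_nonneg_right h2 (by positivity))
  nlinarith

private theorem df_ind (Y S : Finset V) (a : ℤ) (ha : 0 ≤ a) :
    ∑ z ∈ S, (if z ∈ Y then a else 0) ≤ a * Y.card := by
  rw [← sum_filter, sum_const, nsmul_eq_mul, mul_comm]
  refine mul_le_mul_of_nonneg_left ?_ ha
  have h1 : (S.filter fun z => z ∈ Y) ⊆ Y := fun z hz => (mem_filter.1 hz).2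
  exact_mod_cast card_le_card h1

theorem pp_small {q : ℕ} {N : V → Finset V} (s : Sys q N) (g : SysG q N)
    (two : ∀ x, x ∉ Fh q N → dl q N x ≤ 2) (x : V) :
    1000 * pp q (lp N (Lo q N)) x ≤ 9 * q := by
  have gS := gs s g
  obtain ⟨μ, h0, h1, h2⟩ := var_Y s g two
  have hF := card_Fh_G g
  have hL := card_Lb q s.cls s.nol
  have hone := fun y => dl_one_out (y := y) s g two
  have hout := fun y => out_Fh (x := y) s two
  have hc : 10 ^ 6 * (lp N (Lo q N) x ∩ Yd q (lp N (Lo q N))).card ≤ q := by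
    refine df_real q _ s.big μ h1 (le_trans ?_ h2)
    exact single_le_sum (f := fun x => (((lp N (Lo q N) x ∩ Yd q (lp N (Lo q N))).card : ℝ) - μ) ^ 2)
      (fun z _ => sq_nonneg _) (mem_univ x)
  set Ns := lp N (Lo q N) with hNs
  have hL2 : (Lb q N).card ≤ 240 := by
    refine hL.trans ?_
    calc (Fh q N).card * ((Fh q N).card - 1) ≤ 16 * 15 :=
          Nat.mul_le_mul hF (by omega)
      _ = 240 := by norm_num
  have hz : ∀ z ∈ Ns x, 2000 * dp q Ns z ≤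
      (if z ∈ Ns x ∩ Yd q Ns then 2000 else 0) + ((if z ∈ Fh q N then (q : ℤ) else 0) +
        (if z ∈ Lb q N then 4000 else 0)) := by
    intro z hzx
    have e1 : (0 : ℤ) ≤ if z ∈ Fh q N then (q : ℤ) else 0 := by
      split_ifs
      · exact Int.natCast_nonneg q
      · exact le_rfl
    have e2 : (0 : ℤ) ≤ if z ∈ Lb q N then 4000 else 0 := by
      split_ifs
      · norm_num
      · exact le_rfl
    by_cases hY : 1 ≤ dl q Ns z
    · rw [if_pos (mem_inter.2 ⟨hzx, mem_Yd.2 hY⟩), dp_of_pos (by omega)]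
      by_cases hzF : z ∈ Fh q N
      · rw [if_pos hzF]
        have := gS.sm z
        omega
      · by_cases hzL : z ∈ Lb q N
        · rw [if_pos hzL]
          have := (hout z hzF).1
          omega
        · have := hone z hY hzF hzL
          omega
    · rw [dp_of_nonpos (by omega)]
      have e3 : (0 : ℤ) ≤ if z ∈ Ns x ∩ Yd q Ns then 2000 else 0 := by
        split_ifs
        · norm_num
        · exact le_rfl
      omega
  have hsum := sum_le_sum hz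
  rw [← mul_sum, sum_add_distrib, sum_add_distrib] at hsum
  have b1 := df_ind (Ns x ∩ Yd q Ns) (Ns x) 2000 (by norm_num)
  have b2 := df_ind (Fh q N) (Ns x) (q : ℤ) (Int.natCast_nonneg q)
  have b3 := df_ind (Lb q N) (Ns x) 4000 (by norm_num)
  have b4 : (q : ℤ) * ((Fh q N).card : ℤ) ≤ q * 16 :=
    mul_le_mul_of_nonneg_left (by exact_mod_cast hF) (Int.natCast_nonneg q)
  have hpp : pp q Ns x = ∑ z ∈ Ns x, dp q Ns z := rfl
  rw [← hpp] at hsum
  have hbig : 10 ^ 20 ≤ q := le_trans (Nat.pow_le_pow_right (by norm_num) (by norm_num)) s.big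
  have b5 : (10 ^ 6 : ℤ) * ((Ns x ∩ Yd q Ns).card : ℤ) ≤ q := by exact_mod_cast hc
  have b6 : ((Lb q N).card : ℤ) ≤ 240 := by exact_mod_cast hL2
  have b7 : (10 ^ 20 : ℤ) ≤ q := by exact_mod_cast hbig
  omega

end Pool.Agent.C4E
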