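import Pool.Agent.C4E.Defs3
import Pool.Agent.C4E.LoI
import Pool.Agent.C4E.LpB

/-!
# C4E-DG: the system with loops is in the general situation
-/

set_option linter.unusedSectionVars false

namespace Pool.Agent.C4E

open Finset

variable {V : Type} [Fintype V] [DecidableEq V]

theorem Lo_ind {q : ℕ} {N : V → Finset V} (s : Sys q N) :
    ∀ t ∈ Lo q N, ∀ t' ∈ Lo q N, t' ∉ N t :=
  Lo_indep q 1 s.cls le_rfl (by rw [s.card])
    (le_trans (Nat.pow_le_pow_right (by norm_num) (by norm_num)) s.big) s.nol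

private theorem dg_pos {q : ℕ} {N : V → Finset V} : ∀ t ∈ Lo q N, 1 ≤ dl q N t :=
  fun _ ht => (mem_Lo.1 ht).2.1

theorem gs {q : ℕ} {N : V → Finset V} (s : Sys q N) (g : SysG q N) :
    SysG q (lp N (Lo q N)) where
  cls := cls_lp s.cls s.nol (fun _ ht => (mem_Lo.1 ht).2.2.2) (Lo_ind s)
  card := g.card
  big := g.big
  h1 x := by
    rw [hh_lp q s.nol dg_pos]
    exact g.h1 x
  h2 := by
    rw [HH_lp q s.nol dg_pos]
    exact g.h2
  dpb := by
    have h1 := g.dpb
    have h2 : (0 : ℤ) ≤ ((Lo q N).card : ℤ) := Nat.cast_nonneg _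
    rw [DP_lp q s.nol dg_pos]
    linarith
  sm x := by
    have h1 := g.sm x
    rw [dl_lp q s.nol]
    split_ifs
    · linarith
    · linarith

theorem ffs_le {q : ℕ} {N : V → Finset V} (s : Sys q N) (two : ∀ x, x ∉ Fh q N → dl q N x ≤ 2)
    (x : V) : ff q (lp N (Lo q N)) x ≤ ff q N x + 1 := by
  rw [ff_lp q s.nol (Lo_ind s)]
  have h2 : (0 : ℤ) ≤ ((N x ∩ Lo q N).card : ℤ) := Nat.cast_nonneg _
  split_ifs with hx
  · have h3 := two x (mem_Lo.1 hx).1
    linarith
  · linarith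

theorem out_Fh {q : ℕ} {N : V → Finset V} (s : Sys q N) (two : ∀ x, x ∉ Fh q N → dl q N x ≤ 2)
    {x : V} (hx : x ∉ Fh q N) :
    dl q (lp N (Lo q N)) x ≤ 2 ∧ 8 * ff q (lp N (Lo q N)) x ≤ q + 8 := by
  constructor
  · have h1 := two x hx
    rw [dl_lp q s.nol]
    split_ifs
    · linarith
    · linarith
  · have h1 := ffs_le s two x
    rw [mem_Fh, not_le] at hx
    linarith

end Pool.Agent.C4E
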