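import Pool.Agent.C4E.DAn

/-!
# C4E-DI: deficient vertices outside `Fh` and `Lb`
-/

set_option linter.unusedSectionVars false

namespace Pool.Agent.C4E

open Finset

variable {V : Type} [Fintype V] [DecidableEq V]

theorem alt_out {q : ℕ} {N : V → Finset V} (s : Sys q N) (g : SysG q N)
    (two : ∀ x, x ∉ Fh q N → dl q N x ≤ 2) {y : V} (h1 : 1 ≤ dl q (lp N (Lo q N)) y)
    (hF : y ∉ Fh q N) (hL : y ∉ Lb q N) :
    q * dl q (lp N (Lo q N)) y ≤
      (Sf (lp N (Lo q N)) y ∩ Yd q (lp N (Lo q N))).card +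
        (dl q (lp N (Lo q N)) y + 421) ^ 2 + 3 := by
  rcases anl s g two h1 (out_Fh s two hF).2 with h | ⟨hLo, _, h3, _⟩
  · exact h
  · exfalso
    have h4 := dl_lp q (L := Lo q N) s.nol y
    rw [if_neg hLo, sub_zero] at h4
    rw [h4] at h1
    have h5 := two y hF
    have h6 : ¬ N y ⊆ Sf N y := fun h7 => hLo (mem_Lo.2 ⟨hF, h1, by omega, h7⟩)
    obtain ⟨z, hz, hzS⟩ := Finset.not_subset.1 h6
    exact hL (mem_Lb.2 ⟨hF, h1, ⟨z, hz, hzS⟩, h3⟩)

theorem dl_one_out {q : ℕ} {N : V → Finset V} (s : Sys q N) (g : SysG q N)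
    (two : ∀ x, x ∉ Fh q N → dl q N x ≤ 2) {y : V} (h1 : 1 ≤ dl q (lp N (Lo q N)) y)
    (hF : y ∉ Fh q N) (hL : y ∉ Lb q N) : dl q (lp N (Lo q N)) y = 1 := by
  have h2 := (out_Fh s two hF).1
  by_contra hne
  have h3 : dl q (lp N (Lo q N)) y = 2 := by omega
  have h4 := alt_out s g two h1 hF hL
  rw [h3] at h4
  have h5 : ((Sf (lp N (Lo q N)) y ∩ Yd q (lp N (Lo q N))).card : ℤ) ≤ (Yd q (lp N (Lo q N))).card := by
    exact_mod_cast card_le_card inter_subset_right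
  have h6 := card_Yd_le q (lp N (Lo q N))
  have h7 := (gs s g).dpb
  norm_num at h4
  omega

end Pool.Agent.C4E
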