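import Pool.Agent.C4E.Basic
import Pool.Agent.C4E.Cnt

/-!
# C4E-Var: the variance bound
-/

set_option linter.unusedSectionVars false

namespace Pool.Agent.C4E

open Finset

variable {V : Type} [Fintype V] [DecidableEq V]

private theorem nb_sum (N : V → Finset V) (v : V → ℝ) (x : V) :
    ∑ z ∈ N x, v z = ∑ z, if z ∈ N x then v z else 0 := by
  rw [← sum_filter]
  refine sum_congr ?_ fun _ _ => rfl
  ext z
  simp

private theorem w_sum {N : V → Finset V} (h : Cls N) (v : V → ℝ) :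
    ∑ x, ∑ z ∈ N x, v z = ∑ z, ((N z).card : ℝ) * v z := by
  rw [sum_congr rfl fun x _ => nb_sum N v x, sum_comm]
  refine sum_congr rfl fun z _ => ?_
  have h1 : ∀ x, (if z ∈ N x then v z else 0) = if x ∈ N z then v z else 0 := fun x =>
    if_congr h.mem_comm rfl rfl
  rw [sum_congr rfl fun x _ => h1 x, ← nb_sum N (fun _ => v z) z, sum_const, nsmul_eq_mul]

private theorem w_sq {N : V → Finset V} (h : Cls N) (v : V → ℝ) :
    ∑ x, (∑ z ∈ N x, v z) ^ 2 = ∑ y, ∑ z, ((N y ∩ N z).card : ℝ) * (v y * v z) := by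
  have h1 : ∀ x, (∑ z ∈ N x, v z) ^ 2 = ∑ y, ∑ z, if x ∈ N y ∩ N z then v y * v z else 0 := by
    intro x
    rw [pow_two, nb_sum, sum_mul_sum]
    refine sum_congr rfl fun y _ => sum_congr rfl fun z _ => ?_
    have e1 : (x ∈ N y ∩ N z) ↔ y ∈ N x ∧ z ∈ N x := by
      rw [mem_inter, h.mem_comm (x := y), h.mem_comm (x := z)]
    rw [if_congr e1 rfl rfl]
    by_cases h2 : y ∈ N x
    · by_cases h3 : z ∈ N x
      · rw [if_pos h2, if_pos h3, if_pos ⟨h2, h3⟩]
      · rw [if_neg h3, mul_zero]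
        exact (if_neg fun h4 => h3 h4.2).symm
    · rw [if_neg h2, zero_mul]
      exact (if_neg fun h4 => h2 h4.1).symm
  rw [sum_congr rfl fun x _ => h1 x, sum_comm]
  refine sum_congr rfl fun y _ => ?_
  rw [sum_comm]
  refine sum_congr rfl fun z _ => ?_
  rw [← sum_filter, sum_const, nsmul_eq_mul]
  congr 3
  ext x
  simp

theorem var (q b : ℕ) {N : V → Finset V} (h : Cls N)
    (hn : Fintype.card V = q ^ 2 + q + 1 + b) (hb : b ≤ q) (v : V → ℝ) (μ : ℝ)
    (hμ : μ = (q + 1) * (∑ x, v x) / (Fintype.card V : ℝ)) :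
    ∑ x, (∑ z ∈ N x, v z - μ) ^ 2 ≤
      q * ∑ x, v x ^ 2 - ∑ x, ∑ y, v x * (ee q N x y : ℝ) * v y
        + 2 * μ * ∑ x, v x * (dl q N x : ℝ) := by
  obtain ⟨s, hs⟩ : ∃ s, s = ∑ x, v x := ⟨_, rfl⟩
  rw [← hs] at hμ
  have hn' : (Fintype.card V : ℝ) = (q : ℝ) ^ 2 + q + 1 + b := by
    rw [hn]
    push_cast
    ring
  have hb' : (b : ℝ) ≤ q := by exact_mod_cast hb
  have hq0 : (0 : ℝ) ≤ q := Nat.cast_nonneg q
  have hb0 : (0 : ℝ) ≤ b := Nat.cast_nonneg b
  obtain ⟨m, hm⟩ : ∃ m, m = (Fintype.card V : ℝ) := ⟨_, rfl⟩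
  rw [← hm] at hμ hn'
  have hm0 : 0 < m := by
    rw [hn']
    positivity
  have hm1 : m ≤ ((q : ℝ) + 1) ^ 2 := by
    rw [hn']
    nlinarith
  -- the sum of the squares
  have E1 : ∑ x, (∑ z ∈ N x, v z) ^ 2 =
      q * ∑ x, v x ^ 2 + s ^ 2 - ∑ x, ∑ y, v x * (ee q N x y : ℝ) * v y := by
    rw [w_sq h]
    have h1 : ∀ y z, ((N y ∩ N z).card : ℝ) * (v y * v z) =
        ((if y = z then (q : ℝ) * v z ^ 2 else 0) + v y * v z) - v y * (ee q N y z : ℝ) * v z := by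
      intro y z
      have h2 : ((ee q N y z : ℤ) : ℝ) = (if y = z then (q : ℝ) else 0) + 1 - ((N y ∩ N z).card : ℝ) := by
        rw [ee_eq q h y z]
        push_cast
        rfl
      rw [h2]
      by_cases h3 : y = z
      · rw [if_pos h3, if_pos h3, h3]
        ring
      · rw [if_neg h3, if_neg h3]
        ring
    rw [sum_congr rfl fun y _ => sum_congr rfl fun z _ => h1 y z]
    rw [sum_congr rfl fun y _ => sum_sub_distrib (s := univ)
      (f := fun z => (if y = z then (q : ℝ) * v z ^ 2 else 0) + v y * v z)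
      (g := fun z => v y * (ee q N y z : ℝ) * v z), sum_sub_distrib]
    rw [sum_congr rfl fun y _ => sum_add_distrib (s := univ)
      (f := fun z => (if y = z then (q : ℝ) * v z ^ 2 else 0)) (g := fun z => v y * v z), sum_add_distrib]
    have h4 : ∑ y, ∑ z, (if y = z then (q : ℝ) * v z ^ 2 else 0) = q * ∑ x, v x ^ 2 := by
      rw [mul_sum]
      refine sum_congr rfl fun y _ => ?_
      rw [sum_ite_eq, if_pos (mem_univ _)]
    have h5 : ∑ y, ∑ z, v y * v z = s ^ 2 := by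
      rw [hs, pow_two, sum_mul_sum]
    rw [h4, h5]
  have E2 : ∑ x, ∑ z ∈ N x, v z = (q + 1) * s - ∑ x, v x * (dl q N x : ℝ) := by
    rw [w_sum h, hs, mul_sum, ← sum_sub_distrib]
    refine sum_congr rfl fun z _ => ?_
    have h2 : (((N z).card : ℤ) : ℝ) = (q : ℝ) + 1 - (dl q N z : ℝ) := by
      rw [card_N q N z]
      push_cast
      ring
    have h3 : ((N z).card : ℝ) = (((N z).card : ℤ) : ℝ) := by push_cast; rfl
    rw [h3, h2]
    ring
  have E3 : ∑ x, (∑ z ∈ N x, v z - μ) ^ 2 =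
      ∑ x, (∑ z ∈ N x, v z) ^ 2 - 2 * μ * ∑ x, ∑ z ∈ N x, v z + m * μ ^ 2 := by
    have h1 : ∀ x, (∑ z ∈ N x, v z - μ) ^ 2 =
        ((∑ z ∈ N x, v z) ^ 2 - 2 * μ * ∑ z ∈ N x, v z) + μ ^ 2 := by
      intro x
      ring
    rw [sum_congr rfl fun x _ => h1 x, sum_add_distrib, sum_sub_distrib, ← mul_sum, sum_const, card_univ,
      nsmul_eq_mul, hm]
  have E4 : m * μ = (q + 1) * s := by
    rw [hμ]
    field_simp
  have E5 : s ^ 2 ≤ μ * ((q + 1) * s) := by
    have h1 : μ * ((q + 1) * s) = (q + 1) ^ 2 * s ^ 2 / m := by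
      rw [hμ]
      field_simp
    rw [h1, le_div_iff₀ hm0]
    have h2 : 0 ≤ s ^ 2 := sq_nonneg s
    nlinarith
  have E6 : m * μ ^ 2 = μ * ((q + 1) * s) := by
    rw [← E4]
    ring
  rw [E3, E1, E2, E6]
  linarith

end Pool.Agent.C4E
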