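import Pool.Agent.C4E.DI
import Pool.Agent.C4E.Var
import Pool.Agent.C4E.LbC

/-!
# C4E-DV: variance of the number of deficient neighbours

PLAN. `Ns = lp N (Lo q N)`, general situation `gs s g`, `Y = Yd q Ns`, `|Y| ≤ DP* ≤ 2 q`. Apply `var`
(`b = 1`) to the indicator function `v` of `Y`, `μ = (q + 1) |Y| / n`, `0 ≤ μ ≤ 2`
(`(q + 1) 2 q ≤ 2 n`). `∑_{z ∈ Ns x} v z = |Ns x ∩ Y|`, `∑ v² = |Y|`,
`∑ v dl* = ∑_{Y} dl* ≤ DP* ≤ 2 q`, and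
`∑ x, ∑ y, v x ee x y v y = ∑_{y ∈ Y} (dl* y + |Sf Ns y ∩ Y|) ≥ ∑_{y ∈ Y} |Sf Ns y ∩ Y|`. For
`y ∈ Y`, `y ∉ Fh q N`, `y ∉ Lb q N`: `dl* y = 1` (`dl_one_out`), `|Sf Ns y ∩ Y| ≥ q - 422² - 3 = q - 178087`
(`alt_out`). `|Fh| ≤ 16`, `|Lb| ≤ 240` (`card_Fh_G`, `card_Lb`). So
`q |Y| - ∑∑ ≤ q |Y| - (|Y| - 256)(q - 178087) ≤ 256 q + 178087 * 2 q`, and `2 μ * 2 q ≤ 8 q`. Total
`≤ 356438 q ≤ 4 * 10^5 q`.
-/

set_option linter.unusedSectionVars false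

namespace Pool.Agent.C4E

open Finset

variable {V : Type} [Fintype V] [DecidableEq V]

/-- the sum of the entries of a row of `ee` over a set containing the vertex -/
private theorem row_ge (q : ℕ) (N : V → Finset V) {x : V} {Y : Finset V}
    (h1 : 1 ≤ dl q N x) : ((Sf N x ∩ Y).card : ℤ) ≤ ∑ y ∈ Y, ee q N x y := by
  have h2 : ((Sf N x ∩ Y).card : ℤ) = ∑ y ∈ Y, if y ∈ Sf N x then (1 : ℤ) else 0 := by
    rw [sum_ite_mem, sum_const, nsmul_eq_mul, mul_one, inter_comm]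
  rw [h2]
  refine sum_le_sum fun y _ => ?_
  unfold ee
  by_cases hxy : x = y
  · subst hxy
    rw [if_neg (not_mem_Sf_self x), if_pos rfl]
    omega
  · rw [if_neg hxy]
    by_cases hS : N x ∩ N y = ∅
    · rw [if_pos hS, if_pos (mem_Sf.2 ⟨Ne.symm hxy, hS⟩)]
    · rw [if_neg hS, if_neg fun h => hS (mem_Sf.1 h).2]

private theorem sum_ind (Y : Finset V) (f : V → ℝ) :
    ∑ x, (if x ∈ Y then (1 : ℝ) else 0) * f x = ∑ x ∈ Y, f x := by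
  have h1 : ∀ x, (if x ∈ Y then (1 : ℝ) else 0) * f x = if x ∈ Y then f x else 0 := by
    intro x
    split_ifs <;> ring
  rw [sum_congr rfl fun x _ => h1 x, sum_ite_mem, univ_inter]

/-- the integer part of the estimate -/
private theorem int_part {q : ℕ} {N : V → Finset V} (s : Sys q N) (g : SysG q N)
    (two : ∀ x, x ∉ Fh q N → dl q N x ≤ 2) :
    (q : ℤ) * (Yd q (lp N (Lo q N))).card -
      ∑ x ∈ Yd q (lp N (Lo q N)), ∑ y ∈ Yd q (lp N (Lo q N)), ee q (lp N (Lo q N)) x y ≤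
      356430 * q := by
  obtain ⟨Ns, hNs⟩ : ∃ Ns, Ns = lp N (Lo q N) := ⟨_, rfl⟩
  have G : SysG q Ns := by rw [hNs]; exact gs s g
  have hq : (10 : ℤ) ^ 100 ≤ q := by exact_mod_cast g.big
  have hq2 : (178087 : ℤ) ≤ q := le_trans (by norm_num) hq
  have hY : ((Yd q Ns).card : ℤ) ≤ 2 * q := by
    have h1 := card_Yd_le q Ns
    have h2 := G.dpb
    omega
  have hB : ((Fh q N ∪ Lb q N).card : ℤ) ≤ 256 := by
    have h1 := card_Fh_G g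
    have h2 := card_Lb q s.cls s.nol
    have h3 := card_union_le (Fh q N) (Lb q N)
    have h4 : (Fh q N).card * ((Fh q N).card - 1) ≤ 16 * 15 :=
      Nat.mul_le_mul h1 (by omega)
    omega
  have h1 : ∀ x ∈ Yd q Ns \ (Fh q N ∪ Lb q N), (q : ℤ) - 178087 ≤ ∑ y ∈ Yd q Ns, ee q Ns x y := by
    intro x hx
    rw [mem_sdiff, mem_union, not_or] at hx
    have h2 : 1 ≤ dl q Ns x := mem_Yd.1 hx.1
    have h3 := alt_out s g two (y := x) (by rw [← hNs]; exact h2) hx.2.1 hx.2.2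
    have h4 := dl_one_out s g two (y := x) (by rw [← hNs]; exact h2) hx.2.1 hx.2.2
    rw [← hNs] at h3 h4
    have h5 := row_ge q Ns (Y := Yd q Ns) h2
    rw [h4] at h3
    norm_num at h3
    linarith
  have h2 : ∀ x ∈ Yd q Ns, 0 ≤ ∑ y ∈ Yd q Ns, ee q Ns x y := by
    intro x hx
    have h5 := row_ge q Ns (Y := Yd q Ns) (mem_Yd.1 hx)
    have h6 : (0 : ℤ) ≤ ((Sf Ns x ∩ Yd q Ns).card : ℤ) := Int.natCast_nonneg _
    linarith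
  have h3 : ((Yd q Ns \ (Fh q N ∪ Lb q N)).card : ℤ) * ((q : ℤ) - 178087) ≤
      ∑ x ∈ Yd q Ns, ∑ y ∈ Yd q Ns, ee q Ns x y := by
    calc ((Yd q Ns \ (Fh q N ∪ Lb q N)).card : ℤ) * ((q : ℤ) - 178087)
        = ∑ _x ∈ Yd q Ns \ (Fh q N ∪ Lb q N), ((q : ℤ) - 178087) := by
          rw [sum_const, nsmul_eq_mul]
      _ ≤ ∑ x ∈ Yd q Ns \ (Fh q N ∪ Lb q N), ∑ y ∈ Yd q Ns, ee q Ns x y := sum_le_sum h1
      _ ≤ ∑ x ∈ Yd q Ns, ∑ y ∈ Yd q Ns, ee q Ns x y :=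
          sum_le_sum_of_subset_of_nonneg sdiff_subset fun x hx _ => h2 x hx
  have h4 : ((Yd q Ns).card : ℤ) - 256 ≤ ((Yd q Ns \ (Fh q N ∪ Lb q N)).card : ℤ) := by
    have h5 := le_card_sdiff (Fh q N ∪ Lb q N) (Yd q Ns)
    omega
  rw [← hNs]
  obtain ⟨S, hS⟩ : ∃ S : ℤ, S = ∑ x ∈ Yd q Ns, ∑ y ∈ Yd q Ns, ee q Ns x y := ⟨_, rfl⟩
  obtain ⟨c, hc⟩ : ∃ c : ℤ, c = ((Yd q Ns).card : ℤ) := ⟨_, rfl⟩
  obtain ⟨d, hd⟩ : ∃ d : ℤ, d = ((Yd q Ns \ (Fh q N ∪ Lb q N)).card : ℤ) := ⟨_, rfl⟩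
  rw [← hS, ← hd] at h3
  rw [← hc, ← hd] at h4
  rw [← hc] at hY
  rw [← hS, ← hc]
  have h6 : (c - 256) * ((q : ℤ) - 178087) ≤ d * ((q : ℤ) - 178087) :=
    mul_le_mul_of_nonneg_right h4 (by linarith)
  nlinarith

theorem var_Y {q : ℕ} {N : V → Finset V} (s : Sys q N) (g : SysG q N)
    (two : ∀ x, x ∉ Fh q N → dl q N x ≤ 2) :
    ∃ μ : ℝ, 0 ≤ μ ∧ μ ≤ 2 ∧
      ∑ x, (((lp N (Lo q N) x ∩ Yd q (lp N (Lo q N))).card : ℝ) - μ) ^ 2 ≤ 4 * 10 ^ 5 * q := by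
  have hI := int_part s g two
  obtain ⟨Ns, hNs⟩ : ∃ Ns, Ns = lp N (Lo q N) := ⟨_, rfl⟩
  have G : SysG q Ns := by rw [hNs]; exact gs s g
  rw [← hNs] at hI
  rw [← hNs]
  have hq : (10 : ℤ) ^ 100 ≤ q := by exact_mod_cast g.big
  have hq1 : 1 ≤ q := le_trans (Nat.one_le_pow _ _ (by norm_num)) g.big
  have hq0 : (0 : ℝ) ≤ q := Nat.cast_nonneg q
  have hY : ((Yd q Ns).card : ℤ) ≤ 2 * q := by
    have h1 := card_Yd_le q Ns
    have h2 := G.dpb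
    omega
  have hYr : ((Yd q Ns).card : ℝ) ≤ 2 * q := by exact_mod_cast hY
  have hn : (Fintype.card V : ℝ) = (q : ℝ) ^ 2 + q + 2 := by
    rw [G.card]; push_cast; ring
  have hn0 : (0 : ℝ) < Fintype.card V := by rw [hn]; positivity
  have hs : ∑ x, (if x ∈ Yd q Ns then (1 : ℝ) else 0) = (Yd q Ns).card := by
    rw [sum_ite_mem, univ_inter, sum_const, nsmul_eq_mul, mul_one]
  obtain ⟨μ, hμ⟩ : ∃ μ : ℝ, μ = ((q : ℝ) + 1) * (∑ x, (if x ∈ Yd q Ns then (1 : ℝ) else 0)) /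
    (Fintype.card V : ℝ) := ⟨_, rfl⟩
  have hμ0 : 0 ≤ μ := by
    rw [hμ, hs]
    positivity
  have hμ2 : μ ≤ 2 := by
    rw [hμ, hs, div_le_iff₀ hn0, hn]
    have h1 : ((q : ℝ) + 1) * (Yd q Ns).card ≤ ((q : ℝ) + 1) * (2 * q) :=
      mul_le_mul_of_nonneg_left hYr (by linarith)
    nlinarith
  refine ⟨μ, hμ0, hμ2, ?_⟩
  have hv := var q 1 G.cls (by rw [G.card]) hq1
    (fun x => if x ∈ Yd q Ns then (1 : ℝ) else 0) μ hμ
  have e1 : ∀ x, ∑ z ∈ Ns x, (if z ∈ Yd q Ns then (1 : ℝ) else 0) =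
      ((Ns x ∩ Yd q Ns).card : ℝ) := by
    intro x
    rw [sum_ite_mem, sum_const, nsmul_eq_mul, mul_one]
  have e2 : ∑ x, (if x ∈ Yd q Ns then (1 : ℝ) else 0) ^ 2 = (Yd q Ns).card := by
    rw [← hs]
    refine sum_congr rfl fun x _ => ?_
    split_ifs <;> norm_num
  have e3 : ∑ x, (if x ∈ Yd q Ns then (1 : ℝ) else 0) * (dl q Ns x : ℝ) ≤ 2 * q := by
    rw [sum_ind]
    have h1 : ∑ x ∈ Yd q Ns, dl q Ns x ≤ DP q Ns := by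
      calc ∑ x ∈ Yd q Ns, dl q Ns x ≤ ∑ x ∈ Yd q Ns, dp q Ns x :=
            sum_le_sum fun x _ => dl_le_dp q Ns x
        _ ≤ DP q Ns := sum_le_sum_of_subset_of_nonneg (subset_univ _) fun z _ _ => dp_nonneg q Ns z
    have h2 : ∑ x ∈ Yd q Ns, dl q Ns x ≤ 2 * q := by
      have h3 := G.dpb
      omega
    exact_mod_cast h2
  have e4 : ∑ x, ∑ y, (if x ∈ Yd q Ns then (1 : ℝ) else 0) * (ee q Ns x y : ℝ) *
      (if y ∈ Yd q Ns then (1 : ℝ) else 0) =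
      ((∑ x ∈ Yd q Ns, ∑ y ∈ Yd q Ns, ee q Ns x y : ℤ) : ℝ) := by
    have h1 : ∀ x, ∑ y, (if x ∈ Yd q Ns then (1 : ℝ) else 0) * (ee q Ns x y : ℝ) *
        (if y ∈ Yd q Ns then (1 : ℝ) else 0) =
        (if x ∈ Yd q Ns then (1 : ℝ) else 0) * ∑ y ∈ Yd q Ns, (ee q Ns x y : ℝ) := by
      intro x
      rw [← sum_ind (Yd q Ns) (fun y => (ee q Ns x y : ℝ)), mul_sum]
      refine sum_congr rfl fun y _ => ?_
      ring
    rw [sum_congr rfl fun x _ => h1 x, sum_ind]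
    push_cast
    rfl
  have e5 : (q : ℝ) * (Yd q Ns).card -
      ((∑ x ∈ Yd q Ns, ∑ y ∈ Yd q Ns, ee q Ns x y : ℤ) : ℝ) ≤ 356430 * q := by
    exact_mod_cast hI
  simp only [e1] at hv
  rw [e2, e4] at hv
  have e6 : 2 * μ * ∑ x, (if x ∈ Yd q Ns then (1 : ℝ) else 0) * (dl q Ns x : ℝ) ≤
      2 * μ * (2 * q) := mul_le_mul_of_nonneg_left e3 (by linarith)
  have e7 : 2 * μ * (2 * q) ≤ 2 * 2 * (2 * q) := by
    refine mul_le_mul_of_nonneg_right (by linarith) (by linarith)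
  linarith

end Pool.Agent.C4E
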