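import Mathlib

/-!
# C4E: definitions

Project C4E (MP_ebbdc0_co): the number of four-cycles in graphs with `ex(n; C₄) + 1` edges,
`n = q² + q + 2`, `q = 2^k`, `k` odd.

A symmetric 0/1 matrix (loops allowed) is given by its neighbourhoods `N : V → Finset V`.
-/

namespace Pool.Agent.C4E

open Finset

variable {V : Type} [Fintype V] [DecidableEq V]

/-- Neighbourhood systems of symmetric 0/1 matrices (loops allowed) in which two different vertices
have at most one common neighbour. -/
structure Cls (N : V → Finset V) : Prop where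
  symm : ∀ x y, y ∈ N x → x ∈ N y
  cod : ∀ x y, x ≠ y → (N x ∩ N y).card ≤ 1

/-- `Sf N x`: the vertices `y ≠ x` which have no common neighbour with `x`. -/
def Sf (N : V → Finset V) (x : V) : Finset V := univ.filter fun y => y ≠ x ∧ N x ∩ N y = ∅

/-- the deficiency `δ(x) = q + 1 - |N x|` -/
def dl (q : ℕ) (N : V → Finset V) (x : V) : ℤ := (q : ℤ) + 1 - (N x).card

/-- `f(x)`: the sum of the deficiencies of the neighbours -/
def ff (q : ℕ) (N : V → Finset V) (x : V) : ℤ := ∑ z ∈ N x, dl q N z

/-- positive part of the deficiency -/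
def dp (q : ℕ) (N : V → Finset V) (x : V) : ℤ := max (dl q N x) 0

/-- negative part of the deficiency (the excess of a heavy vertex) -/
def hh (q : ℕ) (N : V → Finset V) (x : V) : ℤ := max (-dl q N x) 0

/-- sum of the positive parts over the neighbours -/
def pp (q : ℕ) (N : V → Finset V) (x : V) : ℤ := ∑ z ∈ N x, dp q N z

/-- sum of the negative parts over the neighbours -/
def ph (q : ℕ) (N : V → Finset V) (x : V) : ℤ := ∑ z ∈ N x, hh q N z

def DP (q : ℕ) (N : V → Finset V) : ℤ := ∑ x, dp q N x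

def HH (q : ℕ) (N : V → Finset V) : ℤ := ∑ x, hh q N x

def QQ (q : ℕ) (N : V → Finset V) : ℤ := ∑ x, dp q N x ^ 2

def XX (q : ℕ) (N : V → Finset V) : ℤ := ∑ x, hh q N x ^ 2

/-- deficient vertices -/
def Yd (q : ℕ) (N : V → Finset V) : Finset V := univ.filter fun x => 1 ≤ dl q N x

/-- full vertices -/
def Fl (q : ℕ) (N : V → Finset V) : Finset V := univ.filter fun x => dl q N x = 0

/-- heavy vertices -/
def Hv (q : ℕ) (N : V → Finset V) : Finset V := univ.filter fun x => dl q N x ≤ -1

/-- number of pairs `(a, b)`, `a ∈ N x`, `b ∈ N y ∩ Sf N a` -/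
def sg (N : V → Finset V) (x y : V) : ℕ := ∑ a ∈ N x, (Sf N a ∩ N y).card

/-- the entries of the matrix `E = q I + J - A²` -/
def ee (q : ℕ) (N : V → Finset V) (x y : V) : ℤ :=
  if x = y then dl q N x else if N x ∩ N y = ∅ then 1 else 0

/-- adding loops at the vertices of `L` -/
def lp (N : V → Finset V) (L : Finset V) (x : V) : Finset V :=
  if x ∈ L then insert x (N x) else N x

/-- The situation of the combinatorial part: an extremal graph (without loops) on `q² + q + 2`
vertices; `m1`: adding an edge creates many four-cycles; `m2`: no vertex can be replaced by a vertex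
of larger degree. -/
structure Sys (q : ℕ) (N : V → Finset V) : Prop where
  cls : Cls N
  nol : ∀ x, x ∉ N x
  card : Fintype.card V = q ^ 2 + q + 2
  big : 10 ^ 100 ≤ q
  even : Even q
  m1 : ∀ x y, x ≠ y → y ∉ N x → 10 ^ 30 ≤ (N x \ Sf N y).card
  m2 : ∀ (y : V) (M : Finset V), y ∉ M →
    (∀ a ∈ M, ∀ b ∈ M, a ≠ b → ∀ c ∈ N a, c ∈ N b → c = y) → M.card ≤ (N y).card
  sum : ∑ x, dl q N x ≤ 2 * q - 10 ^ 14

/-- exact objects: symmetric 0/1 matrices with all row sums `q + 1` -/
structure Exa {W : Type} [Fintype W] [DecidableEq W] (q b : ℕ) (N : W → Finset W) : Prop where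
  cls : Cls N
  card : Fintype.card W = q ^ 2 + q + 1 + b
  deg : ∀ x, (N x).card = q + 1

/-- The situation of Case A: the graph after the deletion of a vertex of small degree `m`, whose
neighbourhood is `M`. -/
structure SysA (q m : ℕ) (N : V → Finset V) (M : Finset V) : Prop where
  cls : Cls N
  nol : ∀ x, x ∉ N x
  card : Fintype.card V = q ^ 2 + q + 1
  big : 10 ^ 100 ≤ q
  even : Even q
  mlo : 10 ^ 29 ≤ m
  mhi : 10 ^ 4 * m ≤ q
  sum : ∑ x, dl q N x ≤ q + 1 + 2 * m
  mcard : M.card = m
  mcl : ∀ a ∈ M, ∀ b ∈ M, a ≠ b → b ∈ Sf N a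
  mdeg : ∀ x, (N x ∩ M).card ≤ 1
  m1 : ∀ x y, x ≠ y → y ∉ N x → 3 ≤ (N x \ Sf N y).card

end Pool.Agent.C4E
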