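import Pool.Agent.C4E.Basic

/-!
# C4E: further definitions
-/

set_option linter.unusedSectionVars false

namespace Pool.Agent.C4E

open Finset

variable {V : Type} [Fintype V] [DecidableEq V]

/-- vertices with `f ≥ q / 8` -/
def Fh (q : ℕ) (N : V → Finset V) : Finset V := univ.filter fun x => (q : ℤ) ≤ 8 * ff q N x

/-- the vertices which get a loop -/
def Lo (q : ℕ) (N : V → Finset V) : Finset V :=
  univ.filter fun x => x ∉ Fh q N ∧ 1 ≤ dl q N x ∧ dl q N x ≤ 300 ∧ N x ⊆ Sf N x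

/-- the exceptional deficient vertices -/
def Lb (q : ℕ) (N : V → Finset V) : Finset V :=
  univ.filter fun x => x ∉ Fh q N ∧ 1 ≤ dl q N x ∧ (∃ z ∈ N x, z ∉ Sf N x) ∧
    ∀ z ∈ N x, z ∉ Sf N x → z ∈ Fh q N

/-- the vertices which are not (full with `f = 1`) -/
def Zb (q : ℕ) (N : V → Finset V) : Finset V :=
  univ.filter fun x => ¬ (dl q N x = 0 ∧ ff q N x = 1)

theorem mem_Fh {q : ℕ} {N : V → Finset V} {x : V} : x ∈ Fh q N ↔ (q : ℤ) ≤ 8 * ff q N x := by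
  simp [Fh]

theorem mem_Lo {q : ℕ} {N : V → Finset V} {x : V} :
    x ∈ Lo q N ↔ x ∉ Fh q N ∧ 1 ≤ dl q N x ∧ dl q N x ≤ 300 ∧ N x ⊆ Sf N x := by
  simp [Lo]

theorem mem_Lb {q : ℕ} {N : V → Finset V} {x : V} :
    x ∈ Lb q N ↔ x ∉ Fh q N ∧ 1 ≤ dl q N x ∧ (∃ z ∈ N x, z ∉ Sf N x) ∧
      ∀ z ∈ N x, z ∉ Sf N x → z ∈ Fh q N := by
  simp [Lb]

theorem mem_Zb {q : ℕ} {N : V → Finset V} {x : V} :
    x ∈ Zb q N ↔ ¬ (dl q N x = 0 ∧ ff q N x = 1) := by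
  simp [Zb]

end Pool.Agent.C4E
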