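import Pool.Agent.C4E.Defs2

/-!
# C4E: definitions for Case B
-/

set_option linter.unusedSectionVars false

namespace Pool.Agent.C4E

open Finset

variable {V : Type} [Fintype V] [DecidableEq V]

/-- Case B after the first bounds for heavy vertices -/
structure SysB (q : ℕ) (N : V → Finset V) : Prop where
  sys : Sys q N
  deg : ∀ x, q < 10 ^ 4 * (N x).card
  h1 : ∀ x, hh q N x ≤ 1
  h2 : HH q N ≤ 40001

/-- general situation after the elimination of hubs (also used after adding loops) -/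
structure SysG (q : ℕ) (N : V → Finset V) : Prop where
  cls : Cls N
  card : Fintype.card V = q ^ 2 + q + 2
  big : 10 ^ 100 ≤ q
  h1 : ∀ x, hh q N x ≤ 1
  h2 : HH q N ≤ 2
  dpb : DP q N ≤ 2 * q - 10 ^ 13
  sm : ∀ x, 2000 * dl q N x ≤ q

/-- sum of the positive deficiencies over the neighbours of `a` different from `w` -/
def pa (q : ℕ) (N : V → Finset V) (w a : V) : ℤ := ∑ z ∈ (N a).erase w, dp q N z

/-- good neighbours of the hub `w` -/
def Mg (q : ℕ) (N : V → Finset V) (w : V) : Finset V :=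
  (N w).filter fun a => pa q N w a ≤ 10 ^ 6 ∧ dl q N a ≤ 10 ^ 6

/-- the good full neighbours of `a`, hub case -/
def Pw (q : ℕ) (N : V → Finset V) (w a : V) : Finset V :=
  ((N a).erase w).filter fun z => dl q N z = 0 ∧ ff q N z ≤ dl q N a + 10 ^ 13

/-- the good full neighbours of `y` -/
def Pz (q : ℕ) (N : V → Finset V) (y : V) : Finset V :=
  (N y).filter fun z => dl q N z = 0 ∧ ff q N z ≤ dl q N y + 420

/-- the partners of `y` -/
def Cz (q : ℕ) (N : V → Finset V) (y : V) : Finset V :=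
  univ.filter fun c => dl q N y + 422 ≤ ((N c ∩ (Sf N y ∩ Fl q N)).card : ℤ)

theorem mem_Mg {q : ℕ} {N : V → Finset V} {w a : V} :
    a ∈ Mg q N w ↔ a ∈ N w ∧ pa q N w a ≤ 10 ^ 6 ∧ dl q N a ≤ 10 ^ 6 := by
  simp [Mg]

theorem mem_Pw {q : ℕ} {N : V → Finset V} {w a z : V} :
    z ∈ Pw q N w a ↔ (z ≠ w ∧ z ∈ N a) ∧ dl q N z = 0 ∧ ff q N z ≤ dl q N a + 10 ^ 13 := by
  simp [Pw]

theorem mem_Pz {q : ℕ} {N : V → Finset V} {y z : V} :
    z ∈ Pz q N y ↔ z ∈ N y ∧ dl q N z = 0 ∧ ff q N z ≤ dl q N y + 420 := by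
  simp [Pz]

theorem mem_Cz {q : ℕ} {N : V → Finset V} {y c : V} :
    c ∈ Cz q N y ↔ dl q N y + 422 ≤ ((N c ∩ (Sf N y ∩ Fl q N)).card : ℤ) := by
  simp [Cz]

theorem SysB.dpb {q : ℕ} {N : V → Finset V} (s : SysB q N) : DP q N ≤ 2 * q - 10 ^ 13 := by
  have h1 := DP_eq q N
  have h2 := s.sys.sum
  have h3 := s.h2
  omega

end Pool.Agent.C4E
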