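import Pool.Agent.C4E.Basic

/-!
# C4E-Ext1: adding a vertex joined to a clique of the relation `Sf`

PLAN. `ext N Y` on `Option V`: the new vertex `none` is joined to all `some y`, `y ∈ Y`.
`cls_ext`: symmetry: cases. Codegree of `some x ≠ some x'`: the common neighbours are `some c`,
`c ∈ N x ∩ N x'` and `none` if `x, x' ∈ Y`; in the last case `x' ∈ Sf N x`, so `N x ∩ N x' = ∅`.
Codegree of `none` and `some x`: the common neighbours are `some c`, `c ∈ Y ∩ N x` (`none ∉ ext none`);
two different ones `c, c'` would have the common neighbour `x`, contradiction to `c' ∈ Sf N c`.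
`dl_ext_some`, `dl_ext_none`: cardinalities. `cls_lp1`: a single loop at `v`, where `v ∉ N v` and all
neighbours of `v` are in `Sf N v` (the common neighbours of `x ≠ y` in the new system are those in the old
one, and `v` if one of `x, y` is `v` and the other a neighbour of `v`; then there was none).
-/

set_option linter.unusedSectionVars false

namespace Pool.Agent.C4E

open Finset

variable {V : Type} [Fintype V] [DecidableEq V]

/-- the system `N` with a new vertex joined to `Y` -/
def ext (N : V → Finset V) (Y : Finset V) : Option V → Finset (Option V)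
  | none => Y.map Function.Embedding.some
  | some x => (N x).map Function.Embedding.some ∪ (if x ∈ Y then {none} else ∅)

theorem mem_ext_none {N : V → Finset V} {Y : Finset V} {z : Option V} :
    z ∈ ext N Y none ↔ ∃ y ∈ Y, some y = z := by
  simp [ext]

theorem some_mem_ext_some {N : V → Finset V} {Y : Finset V} {x y : V} :
    some y ∈ ext N Y (some x) ↔ y ∈ N x := by
  by_cases h : x ∈ Y <;> simp [ext, h]

theorem none_mem_ext_some {N : V → Finset V} {Y : Finset V} {x : V} :
    none ∈ ext N Y (some x) ↔ x ∈ Y := by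
  by_cases h : x ∈ Y <;> simp [ext, h]

private theorem ext_uniq_some {N : V → Finset V} {Y : Finset V} (h : Cls N)
    (hc : ∀ y ∈ Y, ∀ y' ∈ Y, y ≠ y' → y' ∈ Sf N y) {x x' : V} (hx : x ≠ x') {a b : Option V}
    (ha : a ∈ ext N Y (some x)) (ha' : a ∈ ext N Y (some x')) (hb : b ∈ ext N Y (some x))
    (hb' : b ∈ ext N Y (some x')) : a = b := by
  have key : ∀ c : V, none ∈ ext N Y (some x) → none ∈ ext N Y (some x') →
      some c ∈ ext N Y (some x) → some c ∈ ext N Y (some x') → False := by
    intro c h1 h2 h3 h4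
    have h5 := hc x (none_mem_ext_some.1 h1) x' (none_mem_ext_some.1 h2) hx
    exact not_Sf_of_common (some_mem_ext_some.1 h3) (some_mem_ext_some.1 h4) h5
  rcases a with _ | c <;> rcases b with _ | c'
  · rfl
  · exact (key c' ha ha' hb hb').elim
  · exact (key c hb hb' ha ha').elim
  · exact congrArg some (h.uniq hx (some_mem_ext_some.1 ha) (some_mem_ext_some.1 ha')
      (some_mem_ext_some.1 hb) (some_mem_ext_some.1 hb'))

private theorem ext_uniq_none {N : V → Finset V} {Y : Finset V} (h : Cls N)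
    (hc : ∀ y ∈ Y, ∀ y' ∈ Y, y ≠ y' → y' ∈ Sf N y) {x : V} {a b : Option V}
    (ha : a ∈ ext N Y none) (ha' : a ∈ ext N Y (some x)) (hb : b ∈ ext N Y none)
    (hb' : b ∈ ext N Y (some x)) : a = b := by
  obtain ⟨c, hcY, rfl⟩ := mem_ext_none.1 ha
  obtain ⟨c', hcY', rfl⟩ := mem_ext_none.1 hb
  by_contra hne
  have hne' : c ≠ c' := fun h => hne (congrArg some h)
  exact not_Sf_of_common (h.symm _ _ (some_mem_ext_some.1 ha'))
    (h.symm _ _ (some_mem_ext_some.1 hb')) (hc c hcY c' hcY' hne')

theorem cls_ext {N : V → Finset V} {Y : Finset V} (h : Cls N)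
    (hc : ∀ y ∈ Y, ∀ y' ∈ Y, y ≠ y' → y' ∈ Sf N y) : Cls (ext N Y) := by
  refine ⟨?_, ?_⟩
  · rintro (_ | x) (_ | y) hxy
    · exact hxy
    · obtain ⟨y', h1, h2⟩ := mem_ext_none.1 hxy
      cases h2
      exact none_mem_ext_some.2 h1
    · exact mem_ext_none.2 ⟨x, none_mem_ext_some.1 hxy, rfl⟩
    · exact some_mem_ext_some.2 (h.symm _ _ (some_mem_ext_some.1 hxy))
  · intro x y hxy
    rw [Finset.card_le_one]
    intro a ha b hb
    rw [Finset.mem_inter] at ha hb
    rcases x with _ | x <;> rcases y with _ | y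
    · exact (hxy rfl).elim
    · exact ext_uniq_none h hc ha.1 ha.2 hb.1 hb.2
    · exact ext_uniq_none h hc ha.2 ha.1 hb.2 hb.1
    · exact ext_uniq_some h hc (fun e => hxy (congrArg some e)) ha.1 ha.2 hb.1 hb.2

theorem dl_ext_some (q : ℕ) (N : V → Finset V) (Y : Finset V) (x : V) :
    dl q (ext N Y) (some x) = dl q N x - if x ∈ Y then 1 else 0 := by
  have h1 : (ext N Y (some x)).card = (N x).card + if x ∈ Y then 1 else 0 := by
    have h0 : ext N Y (some x) =
        (N x).map Function.Embedding.some ∪ (if x ∈ Y then {none} else ∅) := rfl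
    rw [h0]
    by_cases h : x ∈ Y
    · rw [if_pos h, if_pos h, Finset.card_union_of_disjoint, Finset.card_map,
        Finset.card_singleton]
      rw [Finset.disjoint_singleton_right]
      simp
    · rw [if_neg h, if_neg h, Finset.union_empty, Finset.card_map, add_zero]
  unfold dl
  rw [h1]
  split_ifs <;> push_cast <;> ring

theorem dl_ext_none (q : ℕ) (N : V → Finset V) (Y : Finset V) :
    dl q (ext N Y) none = (q : ℤ) + 1 - Y.card := by
  unfold dl ext
  rw [Finset.card_map]

private theorem mem_lp1 {N : V → Finset V} {v x y : V} :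
    y ∈ lp N {v} x ↔ y ∈ N x ∨ (x = v ∧ y = v) := by
  unfold lp
  by_cases hx : x = v
  · subst hx
    rw [if_pos (Finset.mem_singleton_self x), Finset.mem_insert]
    tauto
  · rw [if_neg (fun h => hx (Finset.mem_singleton.1 h))]
    tauto

private theorem lp1_uniq {N : V → Finset V} (h : Cls N) {v : V}
    (hS : ∀ t ∈ N v, t ∈ Sf N v) {x y a b : V} (hxy : x ≠ y)
    (ha : a ∈ lp N {v} x) (ha' : a ∈ lp N {v} y) (hb : b ∈ lp N {v} x)
    (hb' : b ∈ lp N {v} y) : a = b := by
  rw [mem_lp1] at ha ha' hb hb'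
  have key : ∀ y c : V, y ≠ v → v ∈ N y → c ∈ N v → c ∈ N y → False := by
    intro y c _ h1 h2 h3
    exact not_Sf_of_common h2 h3 (hS y (h.symm _ _ h1))
  have key2 : ∀ x y a b : V, x ≠ y → (x = v ∧ a = v) → (a ∈ N y ∨ (y = v ∧ a = v)) →
      (b ∈ N x ∨ (x = v ∧ b = v)) → (b ∈ N y ∨ (y = v ∧ b = v)) → a = b := by
    intro x y a b hxy h0 h1 h2 h3
    obtain ⟨hx, ha⟩ := h0
    rw [ha] at h1 ⊢
    rw [hx] at h2
    have hy : y ≠ v := fun e => hxy (hx.trans e.symm)
    have h4 : v ∈ N y := h1.resolve_right fun e => hy e.1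
    have h5 : b ∈ N y := h3.resolve_right fun e => hy e.1
    rcases h2 with h2 | h2
    · exact (key y b hy h4 h2 h5).elim
    · exact h2.2.symm
  rcases ha with ha | ha
  · rcases hb with hb | hb
    · rcases ha' with ha' | ha'
      · rcases hb' with hb' | hb'
        · exact h.uniq hxy ha ha' hb hb'
        · exact (key2 y x b a hxy.symm hb' (Or.inl hb) (Or.inl ha') (Or.inl ha)).symm
      · exact key2 y x a b hxy.symm ha' (Or.inl ha) hb' (Or.inl hb)
    · exact (key2 x y b a hxy hb hb' (Or.inl ha) ha').symm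
  · exact key2 x y a b hxy ha ha' hb hb'

theorem cls_lp1 {N : V → Finset V} (h : Cls N) {v : V} (hv : v ∉ N v)
    (hS : ∀ t ∈ N v, t ∈ Sf N v) : Cls (lp N {v}) := by
  refine ⟨?_, ?_⟩
  · intro x y hxy
    rw [mem_lp1] at hxy ⊢
    rcases hxy with hxy | ⟨h1, h2⟩
    · exact Or.inl (h.symm _ _ hxy)
    · exact Or.inr ⟨h2, h1⟩
  · intro x y hxy
    rw [Finset.card_le_one]
    intro a ha b hb
    rw [Finset.mem_inter] at ha hb
    exact lp1_uniq h hS hxy ha.1 ha.2 hb.1 hb.2

end Pool.Agent.C4E
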