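import Pool.Agent.C4E.Ext1
import Pool.Agent.C4E.Cnt
import Pool.Agent.C4E.Part

/-!
# C4E-Ext2: the deficiency of the new vertex

Generic hypotheses: `N` in the class on `q² + q + 2` vertices, `Y` a clique of `Sf`, `dl = 1` on `Y`,
`dl ∈ {0, -1}` off `Y`, `q + 1 - 2 * 10^5 ≤ |Y| ≤ q + 1`.
-/

set_option linter.unusedSectionVars false

namespace Pool.Agent.C4E

open Finset

variable {V : Type} [Fintype V] [DecidableEq V]

private theorem e2_card {q : ℕ} (hn : Fintype.card V = q ^ 2 + q + 2) :
    Fintype.card (Option V) = q ^ 2 + q + 1 + 2 := by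
  rw [Fintype.card_option, hn]

theorem ext_full {q : ℕ} {N : V → Finset V} {Y : Finset V} (h : Cls N)
    (hn : Fintype.card V = q ^ 2 + q + 2) (hq : 10 ^ 100 ≤ q)
    (hc : ∀ y ∈ Y, ∀ y' ∈ Y, y ≠ y' → y' ∈ Sf N y) (hY : ∀ y ∈ Y, dl q N y = 1)
    (ho : ∀ y, y ∉ Y → dl q N y ≤ 0) (h1 : ∀ y, -1 ≤ dl q N y) (x : V) :
    dl q (ext N Y) (some x) = 0 := by
  have hle : ∀ w : V, dl q (ext N Y) (some w) ≤ 0 := by
    intro w
    rw [dl_ext_some]
    by_cases hw : w ∈ Y
    · rw [if_pos hw, hY w hw]
      norm_num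
    · rw [if_neg hw, sub_zero]
      exact ho w hw
  by_cases hx : x ∈ Y
  · rw [dl_ext_some, if_pos hx, hY x hx]
    norm_num
  · by_contra hne
    have h2 := hle x
    have h3 := h1 x
    have h4 := dl_ext_some q N Y x
    rw [if_neg hx, sub_zero] at h4
    have h5 : dl q (ext N Y) (some x) = -1 := by omega
    have h6 := card_Sf q 2 (cls_ext h hc) (e2_card hn) (some x)
    have h7 : ff q (ext N Y) (some x) ≤ 0 := by
      unfold ff
      apply sum_nonpos
      intro z hz
      cases z with
      | none => exact absurd (none_mem_ext_some.1 hz) hx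
      | some w => exact hle w
    rw [h5] at h6
    have h8 : (10 : ℤ) ^ 100 ≤ q := by exact_mod_cast hq
    have h9 : (3 : ℤ) ≤ q := le_trans (by norm_num) h8
    push_cast at h6
    omega

theorem ext_k0 {q : ℕ} {N : V → Finset V} {Y : Finset V} (h : Cls N)
    (hn : Fintype.card V = q ^ 2 + q + 2) (hq : 10 ^ 100 ≤ q)
    (hc : ∀ y ∈ Y, ∀ y' ∈ Y, y ≠ y' → y' ∈ Sf N y) (hY : ∀ y ∈ Y, dl q N y = 1)
    (ho : ∀ y, y ∉ Y → dl q N y ≤ 0) (h1 : ∀ y, -1 ≤ dl q N y)
    (hlo : q + 1 ≤ Y.card + 2 * 10 ^ 5) (hhi : Y.card ≤ q + 1) :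
    Y.card = q + 1 ∨ (Y.card = q ∧ ∀ y ∈ Y, some y ∈ Sf (ext N Y) none) := by
  have hq2 : 10 ^ 20 ≤ q := le_trans (by norm_num) hq
  obtain ⟨k, hk⟩ : ∃ k, Y.card + k = q + 1 := ⟨q + 1 - Y.card, by omega⟩
  rcases Nat.eq_zero_or_pos k with h0 | h0
  · left
    omega
  right
  have hfull : ∀ w : V, dl q (ext N Y) (some w) = 0 := fun w => ext_full h hn hq hc hY ho h1 w
  have hnone : dl q (ext N Y) none = k := by
    rw [dl_ext_none]
    have : ((Y.card : ℤ)) + k = q + 1 := by exact_mod_cast hk
    omega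
  have hcls := cls_ext h hc
  have hval : ∀ z : Option V, dl q (ext N Y) z = if z = none then (k : ℤ) else 0 := by
    intro z
    cases z with
    | none => rw [if_pos rfl, hnone]
    | some w => rw [if_neg (by simp), hfull w]
  have hff : ∀ z, ff q (ext N Y) z = if none ∈ ext N Y z then (k : ℤ) else 0 := by
    intro z
    unfold ff
    rw [sum_congr rfl fun w _ => hval w, sum_ite_eq' (ext N Y z) none]
  have hnn : none ∉ ext N Y none := by
    rw [mem_ext_none]
    rintro ⟨y, -, hy⟩
    exact absurd hy (by simp)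
  have hSsome : ∀ x : V, (Sf (ext N Y) (some x)).card ≤ k + 2 := by
    intro x
    have h2 := card_Sf q 2 hcls (e2_card hn) (some x)
    rw [hfull, hff] at h2
    have h3 : (if none ∈ ext N Y (some x) then (k : ℤ) else 0) ≤ k := by
      split_ifs
      · exact le_rfl
      · exact Nat.cast_nonneg k
    push_cast at h2
    omega
  have hSnone : (Sf (ext N Y) none).card = 2 + q * k := by
    have h2 := card_Sf q 2 hcls (e2_card hn) none
    rw [hnone, hff, if_neg hnn, add_zero] at h2
    exact_mod_cast h2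
  have hPcard : (ext N Y none).card = Y.card := by
    show (Y.map Function.Embedding.some).card = Y.card
    exact card_map _
  have hp := part q hcls (y := none) (ext N Y none) (Sf (ext N Y) none) (k + 2) (q + 1)
    (Subset.refl _) (by
      intro z hz
      obtain ⟨y, hy, rfl⟩ := mem_ext_none.1 hz
      exact ⟨hfull y, hSsome y⟩) (by
      apply card_pos.1
      rw [hPcard]
      omega) (Subset.refl _) (by
      intro x hx
      cases x with
      | none => exact absurd hx (not_mem_Sf_self _)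
      | some w => exact hfull w) (by
      intro x
      have h2 := card_N q (ext N Y) x
      have h3 : 0 ≤ dl q (ext N Y) x := by
        rw [hval]
        split_ifs
        · exact Nat.cast_nonneg k
        · exact le_rfl
      omega)
  obtain ⟨hp1, hp2⟩ := hp
  obtain ⟨C, hC⟩ : ∃ C : Finset (Option V), C = univ.filter fun c =>
      k + 2 + 1 ≤ (ext N Y c ∩ Sf (ext N Y) none).card := ⟨_, rfl⟩
  rw [← hC, hSnone] at hp2
  have hCs : C ⊆ {none} := by
    intro c hcC
    rw [hC, mem_filter] at hcC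
    cases c with
    | none => exact mem_singleton_self _
    | some x =>
      exfalso
      have h2 : ext N Y none ⊆ Sf (ext N Y) (some x) := by
        intro z hz
        exact Sf_symm.1 (hp1 (some x) hcC.2 z hz)
      have h3 := card_le_card h2
      have h4 := hSsome x
      rw [hPcard] at h3
      omega
  have hk5 : k ≤ 2 * 10 ^ 5 := by omega
  have hk2 : (k + 2) ^ 2 ≤ 10 ^ 11 := by
    calc (k + 2) ^ 2 ≤ (2 * 10 ^ 5 + 2) ^ 2 := Nat.pow_le_pow_left (by omega) 2
      _ ≤ 10 ^ 11 := by norm_num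
  rcases (subset_singleton_iff.1 hCs) with h2 | h2
  · exfalso
    rw [h2, card_empty, zero_mul] at hp2
    have h3 : q * 1 ≤ q * k := Nat.mul_le_mul_left q h0
    omega
  · rw [h2, card_singleton, one_mul] at hp2
    have hk1 : k = 1 := by
      by_contra hne
      have h3 : q * 2 ≤ q * k := Nat.mul_le_mul_left q (by omega)
      omega
    refine ⟨by omega, fun y hy => ?_⟩
    have h3 : none ∈ C := by rw [h2]; exact mem_singleton_self _
    rw [hC, mem_filter] at h3
    exact Sf_symm.1 (hp1 none h3.2 (some y) (mem_ext_none.2 ⟨y, hy, rfl⟩))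

end Pool.Agent.C4E
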