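import Pool.Agent.C4E.GrDf

/-!
# C4E-GrAd: the labelled four-cycles created by adding an edge to a graph without four-cycles
-/

set_option linter.unusedSectionVars false

namespace Pool.Agent.C4E.Gr

open Finset SimpleGraph Pool.Agent.C4E

private theorem ad_adj {V : Type} {G : SimpleGraph V} {x y : V} (hxy : x ≠ y) {a b : V} :
    (G ⊔ edge x y).Adj a b ↔ G.Adj a b ∨ (a = x ∧ b = y) ∨ (a = y ∧ b = x) := by
  rw [sup_adj, edge_adj]
  constructor
  · rintro (h | ⟨⟨h1, h2⟩ | ⟨h1, h2⟩, _⟩)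
    · exact Or.inl h
    · exact Or.inr (Or.inl ⟨h1, h2⟩)
    · exact Or.inr (Or.inr ⟨h1, h2⟩)
  · rintro (h | ⟨h1, h2⟩ | ⟨h1, h2⟩)
    · exact Or.inl h
    · refine Or.inr ⟨Or.inl ⟨h1, h2⟩, ?_⟩
      rw [h1, h2]
      exact hxy
    · refine Or.inr ⟨Or.inr ⟨h1, h2⟩, ?_⟩
      rw [h1, h2]
      exact hxy.symm

private theorem ad_key {V : Type} {G : SimpleGraph V} {x y : V} (hxy : x ≠ y) {c d : V}
    (h1 : (G ⊔ edge x y).Adj y c) (h2 : (G ⊔ edge x y).Adj c d) (h3 : (G ⊔ edge x y).Adj d x)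
    (h4 : x ≠ c) (h5 : y ≠ d) : G.Adj y c ∧ G.Adj d c ∧ G.Adj x d := by
  have hyc := h1.ne
  have hdx := h3.ne
  rw [ad_adj hxy] at h1 h2 h3
  refine ⟨?_, ?_, ?_⟩
  · rcases h1 with h | ⟨h, _⟩ | ⟨_, h⟩
    · exact h
    · exact absurd h.symm hxy
    · exact absurd h.symm h4
  · rcases h2 with h | ⟨h, _⟩ | ⟨h, _⟩
    · exact h.symm
    · exact absurd h.symm h4
    · exact absurd h.symm hyc
  · rcases h3 with h | ⟨h, _⟩ | ⟨h, _⟩
    · exact h.symm
    · exact absurd h hdx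
    · exact absurd h.symm h5

private theorem ad_card {V : Type} [Fintype V] [DecidableEq V] {G : SimpleGraph V} (hG : Fr G)
    {N : V → Finset V} (hN : ∀ x y, y ∈ N x ↔ G.Adj x y) {x y : V} (hxy : x ≠ y)
    (σ : Equiv.Perm (Fin 4)) (hσ : ∀ f ∈ c4 (G ⊔ edge x y), (fun k => f (σ k)) ∈ c4 (G ⊔ edge x y)) :
    ((c4 (G ⊔ edge x y)).filter fun f => f (σ 0) = x ∧ f (σ 1) = y).card ≤ (N x \ Sf N y).card := by
  have key : ∀ f ∈ (c4 (G ⊔ edge x y)).filter (fun f => f (σ 0) = x ∧ f (σ 1) = y),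
      y ≠ f (σ 3) ∧ G.Adj y (f (σ 2)) ∧ G.Adj (f (σ 3)) (f (σ 2)) ∧ G.Adj x (f (σ 3)) := by
    intro f hf
    rw [mem_filter] at hf
    obtain ⟨hf1, hx, hy⟩ := hf
    have h := hσ f hf1
    rw [mem_c4] at h
    obtain ⟨_, h2, h3, h4, h5, h6⟩ := h
    rw [hy] at h2 h6
    rw [hx] at h4 h5
    exact ⟨h6, ad_key hxy h2 h3 h4 h5 h6⟩
  apply card_le_card_of_injOn (fun f => f (σ 3))
  · intro f hf
    obtain ⟨_, k1, k2, k3⟩ := key f hf
    rw [mem_coe, mem_sdiff]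
    refine ⟨(hN _ _).2 k3, ?_⟩
    exact not_Sf_of_common ((hN _ _).2 k1) ((hN _ _).2 k2)
  · intro f hf f' hf' hff
    have hff' : f (σ 3) = f' (σ 3) := hff
    obtain ⟨k0, k1, k2, _⟩ := key f hf
    obtain ⟨_, l1, l2, _⟩ := key f' hf'
    rw [← hff'] at l2
    have h2 : f (σ 2) = f' (σ 2) := hG _ _ _ _ k0 k1 k2 l1 l2
    have hf1 := (mem_filter.1 (mem_coe.1 hf)).2
    have hf2 := (mem_filter.1 (mem_coe.1 hf')).2
    funext j
    obtain ⟨k, rfl⟩ := σ.surjective j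
    fin_cases k
    · exact hf1.1.trans hf2.1.symm
    · exact hf1.2.trans hf2.2.symm
    · exact h2
    · exact hff'

theorem add_count {V : Type} [Fintype V] [DecidableEq V] (G : SimpleGraph V) (hG : Fr G)
    (N : V → Finset V) (hN : ∀ x y, y ∈ N x ↔ G.Adj x y) (x y : V) (hxy : x ≠ y)
    (hna : ¬ G.Adj x y) : (c4 (G ⊔ edge x y)).card ≤ 8 * (N x \ Sf N y).card := by
  have h1 : ∀ i : Fin 4, ∀ f ∈ c4 (G ⊔ edge x y),
      (fun k => f (Equiv.addRight i k)) ∈ c4 (G ⊔ edge x y) := by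
    intro i f hf
    rw [mem_c4] at hf ⊢
    obtain ⟨k1, k2, k3, k4, k5, k6⟩ := hf
    fin_cases i
    · exact ⟨k1, k2, k3, k4, k5, k6⟩
    · exact ⟨k2, k3, k4, k1, k6, k5.symm⟩
    · exact ⟨k3, k4, k1, k2, k5.symm, k6.symm⟩
    · exact ⟨k4, k1, k2, k3, k6.symm, k5⟩
  have h2 : ∀ i : Fin 4, ∀ f ∈ c4 (G ⊔ edge x y),
      (fun k => f (Equiv.subLeft i k)) ∈ c4 (G ⊔ edge x y) := by
    intro i f hf
    rw [mem_c4] at hf ⊢
    obtain ⟨k1, k2, k3, k4, k5, k6⟩ := hf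
    fin_cases i
    · exact ⟨k4.symm, k3.symm, k2.symm, k1.symm, k5, k6.symm⟩
    · exact ⟨k1.symm, k4.symm, k3.symm, k2.symm, k6, k5⟩
    · exact ⟨k2.symm, k1.symm, k4.symm, k3.symm, k5.symm, k6⟩
    · exact ⟨k3.symm, k2.symm, k1.symm, k4.symm, k6.symm, k5.symm⟩
  have hcov : c4 (G ⊔ edge x y) ⊆ (univ : Finset (Fin 4)).biUnion fun i =>
      ((c4 (G ⊔ edge x y)).filter fun f => f (Equiv.addRight i 0) = x ∧ f (Equiv.addRight i 1) = y) ∪
      ((c4 (G ⊔ edge x y)).filter fun f => f (Equiv.subLeft i 0) = x ∧ f (Equiv.subLeft i 1) = y) := by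
    intro f hf
    by_contra hcon
    rw [mem_biUnion] at hcon
    have hc : ∀ i : Fin 4, ¬ ((f (Equiv.addRight i 0) = x ∧ f (Equiv.addRight i 1) = y) ∨
        (f (Equiv.subLeft i 0) = x ∧ f (Equiv.subLeft i 1) = y)) := by
      intro i hi
      apply hcon
      refine ⟨i, mem_univ _, ?_⟩
      rw [mem_union, mem_filter, mem_filter]
      rcases hi with hi | hi
      · exact Or.inl ⟨hf, hi⟩
      · exact Or.inr ⟨hf, hi⟩
    have c0 : ¬ ((f 0 = x ∧ f 1 = y) ∨ (f 0 = x ∧ f 3 = y)) := hc 0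
    have c1 : ¬ ((f 1 = x ∧ f 2 = y) ∨ (f 1 = x ∧ f 0 = y)) := hc 1
    have c2 : ¬ ((f 2 = x ∧ f 3 = y) ∨ (f 2 = x ∧ f 1 = y)) := hc 2
    have c3 : ¬ ((f 3 = x ∧ f 0 = y) ∨ (f 3 = x ∧ f 2 = y)) := hc 3
    rw [mem_c4] at hf
    obtain ⟨k1, k2, k3, k4, k5, k6⟩ := hf
    rw [ad_adj hxy] at k1 k2 k3 k4
    have l1 : G.Adj (f 0) (f 1) := by
      rcases k1 with h | h | h
      · exact h
      · exact absurd (Or.inl h) c0
      · exact absurd (Or.inr ⟨h.2, h.1⟩) c1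
    have l2 : G.Adj (f 1) (f 2) := by
      rcases k2 with h | h | h
      · exact h
      · exact absurd (Or.inl h) c1
      · exact absurd (Or.inr ⟨h.2, h.1⟩) c2
    have l3 : G.Adj (f 2) (f 3) := by
      rcases k3 with h | h | h
      · exact h
      · exact absurd (Or.inl h) c2
      · exact absurd (Or.inr ⟨h.2, h.1⟩) c3
    have l4 : G.Adj (f 3) (f 0) := by
      rcases k4 with h | h | h
      · exact h
      · exact absurd (Or.inl h) c3
      · exact absurd (Or.inr ⟨h.2, h.1⟩) c0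
    exact k6 (hG _ _ _ _ k5 l1 l2.symm l4.symm l3)
  refine le_trans (card_le_card hcov) (le_trans card_biUnion_le ?_)
  have h3 : ∀ i ∈ (univ : Finset (Fin 4)),
      (((c4 (G ⊔ edge x y)).filter fun f => f (Equiv.addRight i 0) = x ∧ f (Equiv.addRight i 1) = y) ∪
      ((c4 (G ⊔ edge x y)).filter fun f => f (Equiv.subLeft i 0) = x ∧
        f (Equiv.subLeft i 1) = y)).card ≤ 2 * (N x \ Sf N y).card := by
    intro i _
    refine le_trans (card_union_le _ _) ?_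
    have a1 := ad_card hG hN hxy (Equiv.addRight i) (h1 i)
    have a2 := ad_card hG hN hxy (Equiv.subLeft i) (h2 i)
    omega
  refine le_trans (sum_le_sum h3) ?_
  rw [sum_const, card_univ, Fintype.card_fin, smul_eq_mul]
  omega

end Pool.Agent.C4E.Gr
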