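import Pool.Agent.C4E.GrDf

/-!
# C4E-GrCd: number of edges of the graph of a system
-/

set_option linter.unusedSectionVars false

namespace Pool.Agent.C4E.Gr

open Finset SimpleGraph Pool.Agent.C4E

variable {V : Type} [Fintype V] [DecidableEq V]

theorem card_gr {N : V → Finset V} (hs : ∀ x y, y ∈ N x → x ∈ N y) [Fintype (gr N).edgeSet] :
    2 * (gr N).edgeFinset.card + (univ.filter fun x => x ∈ N x).card = ∑ x, (N x).card := by
  classical
  have h1 := (gr N).sum_degrees_eq_twice_card_edges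
  have h2 : ∀ x, (gr N).degree x + (if x ∈ N x then 1 else 0) = (N x).card := by
    intro x
    have h3 : (gr N).neighborFinset x = (N x).erase x := by
      ext y
      rw [mem_neighborFinset, gr_adj hs, mem_erase, ne_comm]
    rw [← card_neighborFinset_eq_degree, h3]
    split_ifs with hx
    · exact card_erase_add_one hx
    · rw [erase_eq_of_notMem hx, add_zero]
  rw [card_filter, ← sum_congr rfl fun x _ => h2 x, sum_add_distrib, h1]
  have h4 : ∀ (i1 i2 : Fintype (gr N).edgeSet), (@edgeFinset V (gr N) i1).card = (@edgeFinset V (gr N) i2).card := by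
    intro i1 i2
    rw [Subsingleton.elim i1 i2]
  rw [h4 _ _]

theorem fr_gr {N : V → Finset V} (h : Cls N) : Fr (gr N) := by
  intro x y c c' hxy h1 h2 h3 h4
  rw [gr_adj h.symm] at h1 h2 h3 h4
  exact h.uniq hxy h1.2 h2.2 h3.2 h4.2

theorem cls_of_fr {G : SimpleGraph V} (hG : Fr G) {N : V → Finset V}
    (hN : ∀ x y, y ∈ N x ↔ G.Adj x y) : Cls N := by
  refine ⟨fun x y h => (hN y x).2 ((hN x y).1 h).symm, fun x y hxy => ?_⟩
  rw [card_le_one]
  intro a ha b hb
  rw [mem_inter] at ha hb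
  exact hG x y a b hxy ((hN x a).1 ha.1) ((hN y a).1 ha.2) ((hN x b).1 hb.1) ((hN y b).1 hb.2)

theorem gr_eq {G : SimpleGraph V} {N : V → Finset V} (hN : ∀ x y, y ∈ N x ↔ G.Adj x y) :
    gr N = G := by
  ext x y
  rw [gr_adj fun x y h => (hN y x).2 ((hN x y).1 h).symm, hN]
  exact ⟨fun h => h.2, fun h => ⟨h.ne, h⟩⟩

end Pool.Agent.C4E.Gr
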