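import Pool.Agent.C4E.GrDf
import Pool.Agent.Helper49.CopiesTree

/-!
# C4E-GrCp: copies of the four-cycle and labelled four-cycles
-/

set_option linter.unusedSectionVars false

namespace Pool.Agent.C4E.Gr

open Finset SimpleGraph Pool.Agent.C4E

private theorem cyc_mem {V : Type} [Fintype V] {G : SimpleGraph V} (g : Copy (cycleGraph 4) G) :
    (fun i => g.toHom i) ∈ c4 G := by
  rw [mem_c4]
  have a01 : (cycleGraph 4).Adj 0 1 := by rw [cycleGraph_adj]; decide
  have a12 : (cycleGraph 4).Adj 1 2 := by rw [cycleGraph_adj]; decide
  have a23 : (cycleGraph 4).Adj 2 3 := by rw [cycleGraph_adj]; decide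
  have a30 : (cycleGraph 4).Adj 3 0 := by rw [cycleGraph_adj]; decide
  refine ⟨g.toHom.map_adj a01, g.toHom.map_adj a12, g.toHom.map_adj a23, g.toHom.map_adj a30,
    fun h => ?_, fun h => ?_⟩
  · have := g.injective' h
    exact absurd this (by decide)
  · have := g.injective' h
    exact absurd this (by decide)

theorem copyCount_le_c4 {V V' : Type} [Fintype V] [Fintype V'] (G : SimpleGraph V)
    (G' : SimpleGraph V') (f : Copy G' G) : G'.copyCount (cycleGraph 4) ≤ (c4 G).card := by
  classical
  have h := Pool.Agent.Helper49.Copies.copyCount_le_of_injective (ι := {t // t ∈ c4 G}) G'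
    (L := cycleGraph 4) (fun g => ⟨fun i => (f.comp g).toHom i, cyc_mem (f.comp g)⟩) (by
      intro g g' hgg
      have h1 : (fun i => (f.comp g).toHom i) = fun i => (f.comp g').toHom i :=
        congrArg Subtype.val hgg
      ext i
      have h2 := congrFun h1 i
      exact f.injective' h2)
  rwa [Fintype.card_coe] at h

theorem free_iff {V : Type} (G : SimpleGraph V) : (cycleGraph 4).Free G ↔ Fr G := by
  constructor
  · intro hF x y c c' hxy h1 h2 h3 h4
    by_contra hcc
    apply hF
    have hxc := h1.ne
    have hyc := h2.ne
    have hxc' := h3.ne
    have hyc' := h4.ne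
    refine ⟨⟨⟨![x, c, y, c'], ?_⟩, ?_⟩⟩
    · intro a b hab
      rw [cycleGraph_adj] at hab
      fin_cases a <;> fin_cases b <;> first
        | exact absurd hab (by decide)
        | exact h1
        | exact h1.symm
        | exact h2
        | exact h2.symm
        | exact h3
        | exact h3.symm
        | exact h4
        | exact h4.symm
    · intro a b hab
      change ![x, c, y, c'] a = ![x, c, y, c'] b at hab
      fin_cases a <;> fin_cases b <;> first
        | rfl
        | (exfalso; first
            | exact hxc hab
            | exact hxc hab.symm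
            | exact hyc hab
            | exact hyc hab.symm
            | exact hxc' hab
            | exact hxc' hab.symm
            | exact hyc' hab
            | exact hyc' hab.symm
            | exact hxy hab
            | exact hxy hab.symm
            | exact hcc hab
            | exact hcc hab.symm)
  · rintro hG ⟨g⟩
    have a01 : (cycleGraph 4).Adj 0 1 := by rw [cycleGraph_adj]; decide
    have a21 : (cycleGraph 4).Adj 2 1 := by rw [cycleGraph_adj]; decide
    have a23 : (cycleGraph 4).Adj 2 3 := by rw [cycleGraph_adj]; decide
    have a03 : (cycleGraph 4).Adj 0 3 := by rw [cycleGraph_adj]; decide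
    have h02 : g.toHom 0 ≠ g.toHom 2 := by
      intro h
      have := g.injective' h
      exact absurd this (by decide)
    have h := hG (g.toHom 0) (g.toHom 2) (g.toHom 1) (g.toHom 3) h02 (g.toHom.map_adj a01)
      (g.toHom.map_adj a21) (g.toHom.map_adj a03) (g.toHom.map_adj a23)
    have := g.injective' h
    exact absurd this (by decide)

end Pool.Agent.C4E.Gr
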