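import Pool.Agent.C4E.Basic

/-!
# C4E graph block: definitions

Labelled four-cycles of a simple graph, the graph of a neighbourhood system, the polarity graph in
affine coordinates, a system with an additional vertex (hub), a system with a replaced
neighbourhood.
-/

set_option linter.unusedSectionVars false

namespace Pool.Agent.C4E.Gr

open Finset Pool.Agent.C4E

open Classical in
/-- the labelled four-cycles of a graph -/
noncomputable def c4 {V : Type} [Fintype V] (G : SimpleGraph V) : Finset (Fin 4 → V) :=
  univ.filter fun f => G.Adj (f 0) (f 1) ∧ G.Adj (f 1) (f 2) ∧ G.Adj (f 2) (f 3) ∧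
    G.Adj (f 3) (f 0) ∧ f 0 ≠ f 2 ∧ f 1 ≠ f 3

theorem mem_c4 {V : Type} [Fintype V] {G : SimpleGraph V} {f : Fin 4 → V} :
    f ∈ c4 G ↔ G.Adj (f 0) (f 1) ∧ G.Adj (f 1) (f 2) ∧ G.Adj (f 2) (f 3) ∧
      G.Adj (f 3) (f 0) ∧ f 0 ≠ f 2 ∧ f 1 ≠ f 3 := by
  simp [c4]

/-- graphs without four-cycles -/
def Fr {V : Type} (G : SimpleGraph V) : Prop :=
  ∀ x y c c' : V, x ≠ y → G.Adj x c → G.Adj y c → G.Adj x c' → G.Adj y c' → c = c'

section

variable {V : Type} [Fintype V] [DecidableEq V]

/-- the simple graph of a neighbourhood system (the loops are removed) -/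
def gr (N : V → Finset V) : SimpleGraph V := SimpleGraph.fromRel fun x y => y ∈ N x

theorem gr_adj {N : V → Finset V} (hs : ∀ x y, y ∈ N x → x ∈ N y) {x y : V} :
    (gr N).Adj x y ↔ x ≠ y ∧ y ∈ N x := by
  rw [gr, SimpleGraph.fromRel_adj]
  constructor
  · rintro ⟨h1, h2 | h2⟩
    · exact ⟨h1, h2⟩
    · exact ⟨h1, hs _ _ h2⟩
  · rintro ⟨h1, h2⟩
    exact ⟨h1, Or.inl h2⟩

theorem gr_adj' {N : V → Finset V} (hs : ∀ x y, y ∈ N x → x ∈ N y) (nol : ∀ x, x ∉ N x) {x y : V} :
    (gr N).Adj x y ↔ y ∈ N x := by
  rw [gr_adj hs]
  constructor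
  · exact fun h => h.2
  · intro h
    refine ⟨?_, h⟩
    rintro rfl
    exact nol _ h

/-- the system in which the neighbourhood of `y` is replaced by `M` -/
def swN (N : V → Finset V) (y : V) (M : Finset V) (x : V) : Finset V :=
  if x = y then M else if x ∈ M then insert y (N x) else (N x).erase y

/-- the system with an additional vertex `none` joined to the vertices of `S` -/
def hbN (N : V → Finset V) (S : Finset V) : Option V → Finset (Option V)
  | none => S.map Function.Embedding.some
  | some x => if x ∈ S then insert none ((N x).map Function.Embedding.some) else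
      (N x).map Function.Embedding.some

end

section

variable (F : Type) [Field F] [Fintype F] [DecidableEq F]

/-- the relation of the polarity graph in affine coordinates: points `(x, y)`, slopes `m` and the
point `∞` -/
def polR : (F × F) ⊕ Option F → (F × F) ⊕ Option F → Prop
  | .inl p, .inl p' => p.2 + p'.2 = p.1 * p'.1
  | .inl p, .inr (some m) => p.1 = m
  | .inl _, .inr none => False
  | .inr (some m), .inl p => p.1 = m
  | .inr (some _), .inr (some _) => False
  | .inr (some _), .inr none => True
  | .inr none, .inl _ => False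
  | .inr none, .inr _ => True

open Classical in
/-- the polarity graph (with loops) -/
noncomputable def polN (w : (F × F) ⊕ Option F) : Finset ((F × F) ⊕ Option F) :=
  univ.filter fun w' => polR F w w'

theorem mem_polN {w w' : (F × F) ⊕ Option F} : w' ∈ polN F w ↔ polR F w w' := by
  simp [polN]

end

end Pool.Agent.C4E.Gr
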