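import Pool.Agent.C4E.GrMn
import Pool.Agent.C4E.GrAd
import Pool.Agent.C4E.GrCd

/-!
# C4E-GrEx: the system of an extremal graph
-/

set_option linter.unusedSectionVars false

namespace Pool.Agent.C4E.Gr

open Finset SimpleGraph Pool.Agent.C4E Pool.Agent.Helper49.Copies

private theorem ge_card {V : Type} {G G' : SimpleGraph V} (h : G' = G) (i : Fintype G'.edgeSet)
    (j : Fintype G.edgeSet) : (@edgeFinset _ G' i).card = (@edgeFinset _ G j).card := by
  subst h
  have h1 : i = j := Subsingleton.elim _ _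
  rw [h1]

private theorem ge_loops {V : Type} [Fintype V] [DecidableEq V] {N : V → Finset V} (nol : ∀ x, x ∉ N x) :
    (univ.filter fun x => x ∈ N x).card = 0 := by
  rw [card_eq_zero, filter_eq_empty_iff]
  intro x _
  exact nol x

theorem ex_sys (n : ℕ) : ∃ N : Fin n → Finset (Fin n), Cls N ∧ (∀ x, x ∉ N x) ∧
    ∑ x, (N x).card = 2 * extremalNumber n (cycleGraph 4) := by
  classical
  have hne : cycleGraph 4 ≠ ⊥ := by
    intro h
    have h1 : (cycleGraph 4).Adj 0 1 := by
      rw [cycleGraph_adj]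
      decide
    rw [h] at h1
    exact h1
  obtain ⟨G, hd, hG⟩ := exists_isExtremal_free (V := Fin n) hne
  have hFr : Fr G := (free_iff G).1 hG.prop
  obtain ⟨N, hNd⟩ : ∃ N : Fin n → Finset (Fin n), N = fun x => univ.filter (G.Adj x) := ⟨_, rfl⟩
  have hN : ∀ x y, y ∈ N x ↔ G.Adj x y := by
    intro x y
    rw [hNd]
    simp
  have hcls := cls_of_fr hFr hN
  have hgr := gr_eq hN
  have nol : ∀ x, x ∉ N x := fun x hx => G.loopless.irrefl x ((hN x x).1 hx)
  refine ⟨N, hcls, nol, ?_⟩
  haveI : Fintype (gr N).edgeSet := Fintype.ofFinite _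
  have h1 := card_gr hcls.symm
  have h2 := card_edgeFinset_of_isExtremal_free hG
  rw [Fintype.card_fin] at h2
  rw [ge_loops nol, ge_card hgr _ (inferInstance : Fintype G.edgeSet)] at h1
  rw [← h1, ← h2]
  rfl

theorem ex_upper (n : ℕ) {N : Fin n → Finset (Fin n)} (h : Cls N) (nol : ∀ x, x ∉ N x) :
    ∑ x, (N x).card ≤ 2 * extremalNumber n (cycleGraph 4) := by
  classical
  have hfree : (cycleGraph 4).Free (gr N) := (free_iff _).2 (fr_gr h)
  have h1 := card_edgeFinset_le_extremalNumber hfree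
  rw [Fintype.card_fin] at h1
  have h2 := card_gr h.symm
  rw [ge_loops nol] at h2
  omega

theorem ex_add (n : ℕ) {N : Fin n → Finset (Fin n)} (h : Cls N) (nol : ∀ x, x ∉ N x)
    (he : ∑ x, (N x).card = 2 * extremalNumber n (cycleGraph 4)) {x y : Fin n} (hxy : x ≠ y)
    (hna : y ∉ N x) : minCopies n (cycleGraph 4) ≤ 8 * (N x \ Sf N y).card := by
  classical
  have h2 := card_gr h.symm
  rw [ge_loops nol] at h2
  have hna' : ¬ (gr N).Adj x y := by
    rw [gr_adj' h.symm nol]
    exact hna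
  have h3 := (gr N).card_edgeFinset_sup_edge hna' hxy
  have h4 := minCopies_le n (Fintype.card_fin n) (gr N ⊔ edge x y) (by omega)
  exact h4.trans (add_count (gr N) (fr_gr h) N (fun a b => (gr_adj' h.symm nol).symm) x y hxy hna')

end Pool.Agent.C4E.Gr
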