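import Pool.Agent.C4E.GrDf

/-!
# C4E-GrHb: a graph in which all four-cycles pass through a vertex `v` of degree `s` has at most
`4 s²` labelled four-cycles
-/

set_option linter.unusedSectionVars false

namespace Pool.Agent.C4E.Gr

open Finset SimpleGraph Pool.Agent.C4E

private theorem rot {V : Type} [Fintype V] {G : SimpleGraph V} {f : Fin 4 → V} (hf : f ∈ c4 G) :
    (fun j => f (j + 1)) ∈ c4 G := by
  rw [mem_c4] at hf ⊢
  obtain ⟨a, b, c, d, e, g⟩ := hf
  exact ⟨b, c, d, a, g, fun h => e h.symm⟩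

private theorem rot_inj {V : Type} {f g : Fin 4 → V} (h : (fun j => f (j + 1)) = fun j => g (j + 1)) :
    f = g := by
  funext i
  have h1 := congrFun h (i - 1)
  simpa using h1

private theorem rot_card {V : Type} [Fintype V] [DecidableEq V] (G : SimpleGraph V) (v : V)
    (i j : Fin 4) (hij : i + 1 = j) :
    ((c4 G).filter fun f => f j = v).card ≤ ((c4 G).filter fun f => f i = v).card := by
  refine Finset.card_le_card_of_injOn (fun f => fun j => f (j + 1)) ?_ ?_
  · intro f hf
    have hf' := Finset.mem_filter.1 (Finset.mem_coe.1 hf)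
    refine Finset.mem_coe.2 (Finset.mem_filter.2 ⟨rot hf'.1, ?_⟩)
    show f (i + 1) = v
    rw [hij]
    exact hf'.2
  · intro f _ g _ h
    exact rot_inj h

theorem hub_count {V : Type} [Fintype V] [DecidableEq V] (G : SimpleGraph V) (v : V)
    (S : Finset V) (hS : ∀ x, G.Adj v x → x ∈ S)
    (h : ∀ x y c c', x ≠ y → x ≠ v → y ≠ v → c ≠ v → c' ≠ v → G.Adj x c → G.Adj y c →
      G.Adj x c' → G.Adj y c' → c = c') : (c4 G).card ≤ 4 * S.card ^ 2 := by
  have h0 : ((c4 G).filter fun f => f 0 = v).card ≤ S.card ^ 2 := by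
    rw [sq, ← Finset.card_product]
    refine Finset.card_le_card_of_injOn (fun f => (f 1, f 3)) ?_ ?_
    · intro f hf
      obtain ⟨hf1, hf2⟩ := Finset.mem_filter.1 (Finset.mem_coe.1 hf)
      obtain ⟨a, b, c, d, e, g⟩ := mem_c4.1 hf1
      rw [hf2] at a d
      exact Finset.mem_coe.2 (Finset.mem_product.2 ⟨hS _ a, hS _ d.symm⟩)
    · intro f hf f' hf' hff
      obtain ⟨hf1, hf2⟩ := Finset.mem_filter.1 (Finset.mem_coe.1 hf)
      obtain ⟨a, b, c, d, e, g⟩ := mem_c4.1 hf1
      obtain ⟨hf1', hf2'⟩ := Finset.mem_filter.1 (Finset.mem_coe.1 hf')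
      obtain ⟨a', b', c', d', e', g'⟩ := mem_c4.1 hf1'
      simp only [Prod.mk.injEq] at hff
      obtain ⟨h1, h3⟩ := hff
      rw [hf2] at a d e
      rw [hf2'] at a' d' e'
      rw [← h1] at a' b'
      rw [← h3] at c' d'
      have h2 : f 2 = f' 2 := h (f 1) (f 3) (f 2) (f' 2) g a.ne' d.ne e.symm e'.symm b c.symm b'
        c'.symm
      funext i
      fin_cases i
      · exact hf2.trans hf2'.symm
      · exact h1
      · exact h2
      · exact h3
  have h1 := rot_card G v 0 1 rfl
  have h2 := rot_card G v 1 2 rfl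
  have h3 := rot_card G v 2 3 rfl
  have hsub : c4 G ⊆ (((c4 G).filter fun f => f 0 = v) ∪ ((c4 G).filter fun f => f 1 = v)) ∪
      (((c4 G).filter fun f => f 2 = v) ∪ ((c4 G).filter fun f => f 3 = v)) := by
    intro f hf
    simp only [Finset.mem_union, Finset.mem_filter]
    by_contra hc
    push Not at hc
    obtain ⟨⟨c0, c1⟩, c2, c3⟩ := hc
    obtain ⟨a, b, c, d, e, g⟩ := mem_c4.1 hf
    exact g (h (f 0) (f 2) (f 1) (f 3) e (c0 hf) (c2 hf) (c1 hf) (c3 hf) a b.symm d.symm c)
  have h4 := Finset.card_le_card hsub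
  have h5 := Finset.card_union_le (((c4 G).filter fun f => f 0 = v) ∪ ((c4 G).filter fun f => f 1 = v))
    (((c4 G).filter fun f => f 2 = v) ∪ ((c4 G).filter fun f => f 3 = v))
  have h6 := Finset.card_union_le ((c4 G).filter fun f => f 0 = v) ((c4 G).filter fun f => f 1 = v)
  have h7 := Finset.card_union_le ((c4 G).filter fun f => f 2 = v) ((c4 G).filter fun f => f 3 = v)
  omega

end Pool.Agent.C4E.Gr
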