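import Pool.Agent.C4E.GrDf

/-!
# C4E-GrHs: the system with an additional vertex
-/

set_option linter.unusedSectionVars false

namespace Pool.Agent.C4E.Gr

open Finset SimpleGraph Pool.Agent.C4E

variable {V : Type} [Fintype V] [DecidableEq V]

private theorem hb_nn (N : V → Finset V) (S : Finset V) : (none : Option V) ∉ hbN N S none := by
  simp [hbN]

private theorem hb_sn {N : V → Finset V} {S : Finset V} {x : V} : some x ∈ hbN N S none ↔ x ∈ S := by
  simp [hbN]

private theorem hb_ns {N : V → Finset V} {S : Finset V} {x : V} :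
    (none : Option V) ∈ hbN N S (some x) ↔ x ∈ S := by
  show (none : Option V) ∈ (if x ∈ S then insert none ((N x).map Function.Embedding.some) else
      (N x).map Function.Embedding.some) ↔ x ∈ S
  split_ifs with h <;> simp [h]

private theorem hb_ss {N : V → Finset V} {S : Finset V} {x z : V} :
    some z ∈ hbN N S (some x) ↔ z ∈ N x := by
  show some z ∈ (if x ∈ S then insert none ((N x).map Function.Embedding.some) else
      (N x).map Function.Embedding.some) ↔ z ∈ N x
  split_ifs with h <;> simp

theorem hb_symm {N : V → Finset V} (hs : ∀ x y, y ∈ N x → x ∈ N y) (S : Finset V) :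
    ∀ x y, y ∈ hbN N S x → x ∈ hbN N S y := by
  intro x y h
  cases x with
  | none =>
    cases y with
    | none => exact h
    | some y => exact hb_ns.2 (hb_sn.1 h)
  | some x =>
    cases y with
    | none => exact hb_sn.2 (hb_ns.1 h)
    | some y => exact hb_ss.2 (hs _ _ (hb_ss.1 h))

theorem hb_sum (N : V → Finset V) (S : Finset V) :
    ∑ x, (hbN N S x).card = ∑ x, (N x).card + 2 * S.card := by
  have h1 : ∀ x : V, (hbN N S (some x)).card = (N x).card + (if x ∈ S then 1 else 0) := by
    intro x
    show (if x ∈ S then insert none ((N x).map Function.Embedding.some) else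
      (N x).map Function.Embedding.some).card = _
    split_ifs with h
    · rw [Finset.card_insert_of_notMem (by simp), Finset.card_map]
    · rw [Finset.card_map, add_zero]
  have h2 : (hbN N S none).card = S.card := by
    show (S.map Function.Embedding.some).card = S.card
    rw [Finset.card_map]
  have h3 : ∑ x : V, (if x ∈ S then 1 else 0) = S.card := by
    rw [← Finset.sum_filter, Finset.filter_mem_eq_inter, Finset.univ_inter]
    simp
  rw [Fintype.sum_option, h2, Finset.sum_congr rfl fun x _ => h1 x, Finset.sum_add_distrib, h3]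
  omega

theorem hb_loops (N : V → Finset V) (S : Finset V) :
    (univ.filter fun x => x ∈ hbN N S x).card = (univ.filter fun x => x ∈ N x).card := by
  have e : (univ.filter fun x => x ∈ hbN N S x) =
      (univ.filter fun x => x ∈ N x).map Function.Embedding.some := by
    ext x
    rw [Finset.mem_filter, Finset.mem_map]
    cases x with
    | none =>
      constructor
      · rintro ⟨_, h⟩
        exact absurd h (hb_nn N S)
      · rintro ⟨y, _, h⟩
        exact absurd h (by simp)
    | some x =>
      constructor
      · rintro ⟨_, h⟩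
        exact ⟨x, Finset.mem_filter.2 ⟨Finset.mem_univ _, hb_ss.1 h⟩, rfl⟩
      · rintro ⟨y, hy, h⟩
        have h' : y = x := by simpa using h
        subst h'
        exact ⟨Finset.mem_univ _, hb_ss.2 (Finset.mem_filter.1 hy).2⟩
  rw [e, Finset.card_map]

theorem hb_nb {N : V → Finset V} (hs : ∀ x y, y ∈ N x → x ∈ N y) (S : Finset V) :
    ∀ x, (gr (hbN N S)).Adj none x → x ∈ S.map Function.Embedding.some := by
  intro x hx
  exact ((gr_adj (hb_symm hs S)).1 hx).2

theorem hb_unique {N : V → Finset V} (h : Cls N) (S : Finset V) :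
    ∀ x y c c' : Option V, x ≠ y → x ≠ none → y ≠ none → c ≠ none → c' ≠ none →
      (gr (hbN N S)).Adj x c → (gr (hbN N S)).Adj y c → (gr (hbN N S)).Adj x c' →
      (gr (hbN N S)).Adj y c' → c = c' := by
  intro x y c c' hxy hx hy hc hc' h1 h2 h3 h4
  obtain ⟨x, rfl⟩ := Option.ne_none_iff_exists'.1 hx
  obtain ⟨y, rfl⟩ := Option.ne_none_iff_exists'.1 hy
  obtain ⟨c, rfl⟩ := Option.ne_none_iff_exists'.1 hc
  obtain ⟨c', rfl⟩ := Option.ne_none_iff_exists'.1 hc'
  have hs := hb_symm h.symm S
  have g1 := hb_ss.1 ((gr_adj hs).1 h1).2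
  have g2 := hb_ss.1 ((gr_adj hs).1 h2).2
  have g3 := hb_ss.1 ((gr_adj hs).1 h3).2
  have g4 := hb_ss.1 ((gr_adj hs).1 h4).2
  have hxy' : x ≠ y := by
    rintro rfl
    exact hxy rfl
  have h5 := Finset.card_le_one.1 (h.cod x y hxy') c (Finset.mem_inter.2 ⟨g1, g2⟩) c'
    (Finset.mem_inter.2 ⟨g3, g4⟩)
  rw [h5]

end Pool.Agent.C4E.Gr
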