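import Pool.Agent.C4E.GrDf

/-!
# C4E-GrPd: the polarity graph: degrees, number of vertices, loops (characteristic 2)
-/

set_option linter.unusedSectionVars false

namespace Pool.Agent.C4E.Gr

open Finset SimpleGraph Pool.Agent.C4E

variable (F : Type) [Field F] [Fintype F] [DecidableEq F]

theorem pol_card : Fintype.card ((F × F) ⊕ Option F) = Fintype.card F ^ 2 + Fintype.card F + 1 := by
  rw [Fintype.card_sum, Fintype.card_prod, Fintype.card_option]
  ring

private theorem pd_img (f : Option F → (F × F) ⊕ Option F) (hf : Function.Injective f)
    (S : Finset ((F × F) ⊕ Option F)) (hS : ∀ w, w ∈ S ↔ ∃ o, f o = w) : S.card = Fintype.card F + 1 := by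
  have h1 : S = univ.image f := by
    ext w
    rw [hS, mem_image]
    simp
  rw [h1, card_image_of_injective _ hf, card_univ, Fintype.card_option]

theorem pol_deg (w : (F × F) ⊕ Option F) : (polN F w).card = Fintype.card F + 1 := by
  rcases w with ⟨x, y⟩ | (_ | m)
  · refine pd_img F (fun o => match o with
      | some u => Sum.inl (u, x * u - y)
      | none => Sum.inr (some x)) ?_ _ ?_
    · intro o o' h
      rcases o with _ | u <;> rcases o' with _ | u' <;> simp_all
    · intro w'
      rw [mem_polN]
      rcases w' with ⟨u, v⟩ | (_ | m')
      · constructor
        · intro h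
          refine ⟨some u, ?_⟩
          have h1 : y + v = x * u := h
          show Sum.inl (u, x * u - y) = _
          rw [← h1, add_sub_cancel_left]
        · rintro ⟨o, ho⟩
          rcases o with _ | u'
          · exact absurd ho (by simp)
          · have h2 : (u', x * u' - y) = (u, v) := Sum.inl.inj ho
            rw [Prod.mk.injEq] at h2
            obtain ⟨h3, h4⟩ := h2
            show y + v = x * u
            rw [← h4, ← h3]
            ring
      · constructor
        · intro h
          exact absurd h id
        · rintro ⟨o, ho⟩
          rcases o with _ | u' <;> exact absurd ho (by simp)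
      · constructor
        · intro h
          refine ⟨none, ?_⟩
          have h1 : x = m' := h
          show Sum.inr (some x) = _
          rw [h1]
        · rintro ⟨o, ho⟩
          rcases o with _ | u'
          · have h2 : (some x : Option F) = some m' := Sum.inr.inj ho
            exact Option.some.inj h2
          · exact absurd ho (by simp)
  · refine pd_img F (fun o => Sum.inr o) Sum.inr_injective _ ?_
    intro w'
    rw [mem_polN]
    rcases w' with p | o
    · constructor
      · intro h
        exact absurd h id
      · rintro ⟨o, ho⟩
        exact absurd ho (by simp)
    · exact ⟨fun _ => ⟨o, rfl⟩, fun _ => trivial⟩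
  · refine pd_img F (fun o => match o with
      | some v => Sum.inl (m, v)
      | none => Sum.inr none) ?_ _ ?_
    · intro o o' h
      rcases o with _ | u <;> rcases o' with _ | u' <;> simp_all
    · intro w'
      rw [mem_polN]
      rcases w' with ⟨u, v⟩ | (_ | m')
      · constructor
        · intro h
          refine ⟨some v, ?_⟩
          have h1 : u = m := h
          show Sum.inl (m, v) = _
          rw [h1]
        · rintro ⟨o, ho⟩
          rcases o with _ | v'
          · exact absurd ho (by simp)
          · have h2 : (m, v') = (u, v) := Sum.inl.inj ho
            rw [Prod.mk.injEq] at h2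
            exact h2.1.symm
      · exact ⟨fun _ => ⟨none, rfl⟩, fun _ => trivial⟩
      · constructor
        · intro h
          exact absurd h id
        · rintro ⟨o, ho⟩
          rcases o with _ | v' <;> exact absurd ho (by simp)

theorem pol_loops [CharP F 2] :
    (univ.filter fun w => w ∈ polN F w).card = Fintype.card F + 1 := by
  refine pd_img F (fun o => match o with
      | some y => Sum.inl (0, y)
      | none => Sum.inr none) ?_ _ ?_
  · intro o o' h
    rcases o with _ | u <;> rcases o' with _ | u' <;> simp_all
  · intro w
    rw [mem_filter, mem_polN]
    simp only [mem_univ, true_and]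
    rcases w with ⟨x, y⟩ | (_ | m)
    · constructor
      · intro h
        have h1 : y + y = x * x := h
        rw [CharTwo.add_self_eq_zero] at h1
        have h2 : x = 0 := mul_self_eq_zero.1 h1.symm
        refine ⟨some y, ?_⟩
        show Sum.inl (0, y) = _
        rw [h2]
      · rintro ⟨o, ho⟩
        rcases o with _ | v'
        · exact absurd ho (by simp)
        · have h2 : ((0 : F), v') = (x, y) := Sum.inl.inj ho
          rw [Prod.mk.injEq] at h2
          show y + y = x * x
          rw [CharTwo.add_self_eq_zero, ← h2.1, mul_zero]
    · exact ⟨fun _ => ⟨none, rfl⟩, fun _ => trivial⟩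
    · constructor
      · intro h
        exact absurd h id
      · rintro ⟨o, ho⟩
        rcases o with _ | v' <;> exact absurd ho (by simp)

end Pool.Agent.C4E.Gr
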