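import Pool.Agent.C4E.GrDf

/-!
# C4E-GrPo: the polarity graph: two different vertices have at most one common neighbour
-/

set_option linter.unusedSectionVars false

namespace Pool.Agent.C4E.Gr

open Finset SimpleGraph Pool.Agent.C4E

variable (F : Type) [Field F] [Fintype F] [DecidableEq F]

private theorem pol_symm {x y : (F × F) ⊕ Option F} (h : polR F x y) : polR F y x := by
  rcases x with p | (_ | m) <;> rcases y with p' | (_ | m')
  · change p'.2 + p.2 = p'.1 * p.1
    have h1 : p.2 + p'.2 = p.1 * p'.1 := h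
    rw [add_comm, mul_comm]
    exact h1
  all_goals exact h

private theorem pol_pts {a b : F × F} (hab : a ≠ b) {u v : F} (h1 : a.2 + v = a.1 * u)
    (h2 : b.2 + v = b.1 * u) : a.1 ≠ b.1 := by
  intro h
  apply hab
  refine Prod.ext h ?_
  rw [h] at h1
  have h3 : a.2 + v = b.2 + v := h1.trans h2.symm
  exact add_right_cancel h3

private theorem pol_uniq {x y c c' : (F × F) ⊕ Option F} (hxy : x ≠ y) (h1 : polR F x c)
    (h2 : polR F y c) (h3 : polR F x c') (h4 : polR F y c') : c = c' := by
  rcases x with a | (_ | m) <;> rcases y with b | (_ | m') <;>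
    rcases c with e | (_ | k) <;> rcases c' with e' | (_ | k') <;>
    first
      | exact h1.elim
      | exact h2.elim
      | exact h3.elim
      | exact h4.elim
      | rfl
      | exact absurd rfl hxy
      | skip
  · have hab : a ≠ b := fun h => hxy (congrArg Sum.inl h)
    have g1 : a.2 + e.2 = a.1 * e.1 := h1
    have g2 : b.2 + e.2 = b.1 * e.1 := h2
    have g3 : a.2 + e'.2 = a.1 * e'.1 := h3
    have g4 : b.2 + e'.2 = b.1 * e'.1 := h4
    have hne := pol_pts F hab g1 g2
    have hu : (a.1 - b.1) * (e.1 - e'.1) = 0 := by linear_combination -g1 + g2 + g3 - g4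
    have hu2 : e.1 = e'.1 := by
      rcases mul_eq_zero.1 hu with h | h
      · exact absurd (sub_eq_zero.1 h) hne
      · exact sub_eq_zero.1 h
    have hv : e.2 = e'.2 := by
      rw [← hu2] at g3
      exact add_left_cancel (g1.trans g3.symm)
    exact congrArg Sum.inl (Prod.ext hu2 hv)
  · have hab : a ≠ b := fun h => hxy (congrArg Sum.inl h)
    have hne := pol_pts F hab (u := e.1) (v := e.2) h1 h2
    have g3 : a.1 = k' := h3
    have g4 : b.1 = k' := h4
    exact absurd (g3.trans g4.symm) hne
  · have hab : a ≠ b := fun h => hxy (congrArg Sum.inl h)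
    have hne := pol_pts F hab (u := e'.1) (v := e'.2) h3 h4
    have g3 : a.1 = k := h1
    have g4 : b.1 = k := h2
    exact absurd (g3.trans g4.symm) hne
  · have g1 : a.1 = k := h1
    have g3 : a.1 = k' := h3
    rw [← g1, ← g3]
  · have g1 : a.1 = k := h1
    have g3 : a.1 = k' := h3
    rw [← g1, ← g3]
  · have g1 : a.2 + e.2 = a.1 * e.1 := h1
    have g2 : e.1 = m' := h2
    have g3 : a.2 + e'.2 = a.1 * e'.1 := h3
    have g4 : e'.1 = m' := h4
    rw [g2] at g1
    rw [g4] at g3
    exact congrArg Sum.inl (Prod.ext (g2.trans g4.symm) (add_left_cancel (g1.trans g3.symm)))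
  · have g1 : b.1 = k := h2
    have g3 : b.1 = k' := h4
    rw [← g1, ← g3]
  · have g1 : b.2 + e.2 = b.1 * e.1 := h2
    have g2 : e.1 = m := h1
    have g3 : b.2 + e'.2 = b.1 * e'.1 := h4
    have g4 : e'.1 = m := h3
    rw [g2] at g1
    rw [g4] at g3
    exact congrArg Sum.inl (Prod.ext (g2.trans g4.symm) (add_left_cancel (g1.trans g3.symm)))
  · have g1 : e.1 = m := h1
    have g2 : e.1 = m' := h2
    exact absurd (congrArg (fun t => Sum.inr (some t)) (g1.symm.trans g2)) hxy
  · have g1 : e.1 = m := h1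
    have g2 : e.1 = m' := h2
    exact absurd (congrArg (fun t => Sum.inr (some t)) (g1.symm.trans g2)) hxy
  · have g1 : e'.1 = m := h3
    have g2 : e'.1 = m' := h4
    exact absurd (congrArg (fun t => Sum.inr (some t)) (g1.symm.trans g2)) hxy

theorem pol_cls : Cls (polN F) := by
  refine ⟨fun x y h => ?_, fun x y hxy => ?_⟩
  · rw [mem_polN] at h ⊢
    exact pol_symm F h
  · rw [Finset.card_le_one]
    intro c hc c' hc'
    rw [mem_inter, mem_polN, mem_polN] at hc hc'
    exact pol_uniq F hxy hc.1 hc.2 hc'.1 hc'.2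

end Pool.Agent.C4E.Gr
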