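import Pool.Agent.C4E.GrMn
import Pool.Agent.C4E.GrHb
import Pool.Agent.C4E.GrCd
import Pool.Agent.C4E.GrHs
import Pool.Agent.C4E.GrPo
import Pool.Agent.C4E.GrPd

/-!
# C4E-GrLo: lower bound for the extremal number
-/

set_option linter.unusedSectionVars false

namespace Pool.Agent.C4E.Gr

open Finset SimpleGraph Pool.Agent.C4E Pool.Agent.Helper49.Copies

private theorem gl_aux (F : Type) [Field F] [Fintype F] [DecidableEq F] [CharP F 2] (n s : ℕ)
    (hn : Fintype.card F ^ 2 + Fintype.card F + 2 = n) (hs : s ≤ Fintype.card F ^ 2)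
    (hA : 4 * s ^ 2 < minCopies n (cycleGraph 4)) :
    Fintype.card F * (Fintype.card F + 1) ^ 2 + 2 * s ≤ 2 * extremalNumber n (cycleGraph 4) := by
  classical
  have hc := pol_card F
  obtain ⟨S, -, hS⟩ := Finset.exists_subset_card_eq (s := (univ : Finset ((F × F) ⊕ Option F))) (n := s)
    (by rw [card_univ, hc]; omega)
  have hcls := pol_cls F
  have hsy := hb_symm hcls.symm S
  haveI : Fintype (gr (hbN (polN F) S)).edgeSet := Fintype.ofFinite _
  have h1 := card_gr hsy
  rw [hb_loops, pol_loops, hb_sum, hS, sum_congr rfl fun w _ => pol_deg F w, sum_const, card_univ, hc,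
    smul_eq_mul] at h1
  have h2 := hub_count (gr (hbN (polN F) S)) none (S.map Function.Embedding.some) (hb_nb hcls.symm S)
    (hb_unique hcls S)
  rw [card_map, hS] at h2
  have h3 : Fintype.card (Option ((F × F) ⊕ Option F)) = n := by
    rw [Fintype.card_option, hc]
    omega
  by_cases h4 : extremalNumber n (cycleGraph 4) + 1 ≤ (gr (hbN (polN F) S)).edgeFinset.card
  · have h5 := minCopies_le n h3 (gr (hbN (polN F) S)) h4
    omega
  · have h6 : (Fintype.card F ^ 2 + Fintype.card F + 1) * (Fintype.card F + 1) =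
        Fintype.card F * (Fintype.card F + 1) ^ 2 + (Fintype.card F + 1) := by ring
    rw [h6] at h1
    omega

theorem ex_lower (k s : ℕ) (hk : 1 ≤ k) (hs : s ≤ 4 ^ k)
    (hA : 4 * s ^ 2 < minCopies (4 ^ k + 2 ^ k + 2) (cycleGraph 4)) :
    2 ^ k * (2 ^ k + 1) ^ 2 + 2 * s ≤ 2 * extremalNumber (4 ^ k + 2 ^ k + 2) (cycleGraph 4) := by
  classical
  haveI : Fintype (GaloisField 2 k) := Fintype.ofFinite _
  have hc : Fintype.card (GaloisField 2 k) = 2 ^ k := by
    rw [← Nat.card_eq_fintype_card]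
    exact GaloisField.card 2 k (by omega)
  have h4 : (2 ^ k) ^ 2 = 4 ^ k := by
    rw [← pow_mul, mul_comm, pow_mul]
    norm_num
  have h1 := gl_aux (GaloisField 2 k) (4 ^ k + 2 ^ k + 2) s (by rw [hc, h4]) (by rw [hc, h4]; exact hs) hA
  rw [hc] at h1
  exact h1

end Pool.Agent.C4E.Gr
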