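import Pool.Agent.C4E.GrDf

/-!
# C4E-GrSw: replacing the neighbourhood of a vertex
-/

set_option linter.unusedSectionVars false

namespace Pool.Agent.C4E.Gr

open Finset SimpleGraph Pool.Agent.C4E

variable {V : Type} [Fintype V] [DecidableEq V]

private theorem sw_y (N : V → Finset V) (y : V) (M : Finset V) : swN N y M y = M := by
  simp [swN]

private theorem sw_c {N : V → Finset V} {y : V} {M : Finset V} {x c : V} (hx : x ≠ y) (hc : c ≠ y) :
    c ∈ swN N y M x ↔ c ∈ N x := by
  unfold swN
  rw [if_neg hx]
  split_ifs <;> simp [hc]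

private theorem sw_m {N : V → Finset V} {y : V} {M : Finset V} {x : V} (hx : x ≠ y) :
    y ∈ swN N y M x ↔ x ∈ M := by
  unfold swN
  rw [if_neg hx]
  split_ifs with h <;> simp [h]

theorem sw_nol {N : V → Finset V} (nol : ∀ x, x ∉ N x) {y : V} {M : Finset V} (hy : y ∉ M) :
    ∀ x, x ∉ swN N y M x := by
  intro x
  by_cases hx : x = y
  · subst hx
    rw [sw_y]
    exact hy
  · rw [sw_c hx hx]
    exact nol x

theorem sw_cls {N : V → Finset V} (h : Cls N) (nol : ∀ x, x ∉ N x) {y : V} {M : Finset V}
    (hy : y ∉ M) (hM : ∀ a ∈ M, ∀ b ∈ M, a ≠ b → ∀ c ∈ N a, c ∈ N b → c = y) :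
    Cls (swN N y M) := by
  have _ := nol
  have hMy : ∀ a ∈ M, a ≠ y := by
    rintro a ha rfl
    exact hy ha
  have key : ∀ z, z ≠ y → (swN N y M y ∩ swN N y M z).card ≤ 1 := by
    intro z hz
    rw [sw_y, Finset.card_le_one]
    intro a ha b hb
    obtain ⟨ha1, ha2⟩ := Finset.mem_inter.1 ha
    obtain ⟨hb1, hb2⟩ := Finset.mem_inter.1 hb
    rw [sw_c hz (hMy a ha1)] at ha2
    rw [sw_c hz (hMy b hb1)] at hb2
    by_contra hab
    exact hz (hM a ha1 b hb1 hab z (h.symm _ _ ha2) (h.symm _ _ hb2))
  refine ⟨?_, ?_⟩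
  · intro x z hz
    by_cases hx : x = y
    · subst hx
      rw [sw_y] at hz
      rw [sw_m (hMy z hz)]
      exact hz
    · by_cases hzy : z = y
      · subst hzy
        rw [sw_m hx] at hz
        rw [sw_y]
        exact hz
      · rw [sw_c hx hzy] at hz
        rw [sw_c hzy hx]
        exact h.symm _ _ hz
  · intro x z hxz
    by_cases hx : x = y
    · subst hx
      exact key z (Ne.symm hxz)
    · by_cases hzy : z = y
      · subst hzy
        rw [Finset.inter_comm]
        exact key x hx
      · by_cases hb : x ∈ M ∧ z ∈ M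
        · rw [Finset.card_le_one]
          have h1 : ∀ c ∈ swN N y M x ∩ swN N y M z, c = y := by
            intro c hc
            obtain ⟨hc1, hc2⟩ := Finset.mem_inter.1 hc
            by_contra hcy
            rw [sw_c hx hcy] at hc1
            rw [sw_c hzy hcy] at hc2
            exact hcy (hM x hb.1 z hb.2 hxz c hc1 hc2)
          intro a ha b hb'
          rw [h1 a ha, h1 b hb']
        · refine le_trans (Finset.card_le_card ?_) (h.cod x z hxz)
          intro c hc
          obtain ⟨hc1, hc2⟩ := Finset.mem_inter.1 hc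
          have hcy : c ≠ y := by
            rintro rfl
            rw [sw_m hx] at hc1
            rw [sw_m hzy] at hc2
            exact hb ⟨hc1, hc2⟩
          rw [sw_c hx hcy] at hc1
          rw [sw_c hzy hcy] at hc2
          exact Finset.mem_inter.2 ⟨hc1, hc2⟩

theorem sw_sum {N : V → Finset V} (hs : ∀ x y, y ∈ N x → x ∈ N y) (nol : ∀ x, x ∉ N x) {y : V}
    {M : Finset V} (hy : y ∉ M) :
    ∑ x, (swN N y M x).card + 2 * (N y).card = ∑ x, (N x).card + 2 * M.card := by
  have h1 : ∀ x, (swN N y M x).card + (if x ∈ N y then 1 else 0) + (if x = y then (N y).card else 0) =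
      (N x).card + (if x ∈ M then 1 else 0) + (if x = y then M.card else 0) := by
    intro x
    by_cases hx : x = y
    · subst hx
      rw [sw_y, if_neg (nol x), if_pos rfl, if_neg hy, if_pos rfl]
      omega
    · rw [if_neg hx, if_neg hx]
      unfold swN
      rw [if_neg hx]
      by_cases hM : x ∈ M
      · rw [if_pos hM, if_pos hM]
        by_cases hn : x ∈ N y
        · rw [if_pos hn, Finset.insert_eq_of_mem (hs _ _ hn)]
        · rw [if_neg hn, Finset.card_insert_of_notMem (fun h => hn (hs _ _ h))]
      · rw [if_neg hM, if_neg hM]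
        by_cases hn : x ∈ N y
        · rw [if_pos hn]
          have h2 := Finset.card_erase_add_one (hs _ _ hn)
          omega
        · rw [if_neg hn, Finset.erase_eq_of_notMem (fun h => hn (hs _ _ h))]
  have h2 := Finset.sum_congr (rfl : (univ : Finset V) = univ) (fun x _ => h1 x)
  simp only [Finset.sum_add_distrib] at h2
  have h3 : ∀ S : Finset V, ∑ x : V, (if x ∈ S then 1 else 0) = S.card := by
    intro S
    rw [← Finset.sum_filter, Finset.filter_mem_eq_inter, Finset.univ_inter]
    simp
  rw [h3, h3, Finset.sum_ite_eq' univ y, Finset.sum_ite_eq' univ y] at h2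
  simp only [Finset.mem_univ, if_true] at h2
  omega

end Pool.Agent.C4E.Gr
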