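import Pool.Agent.C4E.GrLo
import Pool.Agent.C4E.GrEx
import Pool.Agent.C4E.GrSw

/-!
# C4E graph block: the theorem
-/

set_option linter.unusedSectionVars false

namespace Pool.Agent.C4E

open Finset SimpleGraph Pool.Agent.Helper49.Copies Pool.Agent.C4E.Gr

theorem graph_part (k : ℕ) (hk : 10 ^ 100 ≤ 2 ^ k)
    (hA : 8 * 10 ^ 30 < minCopies (4 ^ k + 2 ^ k + 2) (cycleGraph 4)) :
    ∃ N : Fin (4 ^ k + 2 ^ k + 2) → Finset (Fin (4 ^ k + 2 ^ k + 2)), Sys (2 ^ k) N := by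
  have hk1 : 1 ≤ k := by
    rcases Nat.eq_zero_or_pos k with rfl | h
    · norm_num at hk
    · exact h
  have h4 : (4 : ℕ) ^ k = (2 ^ k) ^ 2 := by
    rw [← pow_mul, mul_comm k 2, pow_mul]; norm_num
  have hs : 10 ^ 14 ≤ 4 ^ k := by
    rw [h4]
    calc (10 : ℕ) ^ 14 ≤ 10 ^ 100 := by norm_num
      _ ≤ 2 ^ k := hk
      _ ≤ (2 ^ k) ^ 2 := Nat.le_self_pow (by norm_num) _
  have hlo := ex_lower k (10 ^ 14) hk1 hs (lt_of_le_of_lt (by norm_num) hA)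
  obtain ⟨N, hN, nol, he⟩ := ex_sys (4 ^ k + 2 ^ k + 2)
  refine ⟨N, hN, nol, by rw [Fintype.card_fin, h4], hk, ?_, ?_, ?_, ?_⟩
  · exact (Nat.even_pow.2 ⟨even_two, by omega⟩)
  · intro x y hxy hna
    have := ex_add _ hN nol he hxy hna
    omega
  · intro y M hy hM
    have h1 := ex_upper _ (sw_cls hN nol hy hM) (sw_nol nol hy)
    have h2 := sw_sum hN.symm nol hy
    omega
  · have h1 : ∑ x, dl (2 ^ k) N x = (2 ^ k + 1) * (4 ^ k + 2 ^ k + 2 : ℤ) - ∑ x, ((N x).card : ℤ) := by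
      unfold dl
      rw [sum_sub_distrib, sum_const, card_univ, Fintype.card_fin, nsmul_eq_mul]
      push_cast
      ring
    have h2 : (∑ x, ((N x).card : ℤ)) = 2 * (extremalNumber (4 ^ k + 2 ^ k + 2) (cycleGraph 4) : ℤ) := by
      exact_mod_cast he
    have h3 : (2 ^ k * (2 ^ k + 1) ^ 2 + 2 * 10 ^ 14 : ℤ) ≤
        2 * (extremalNumber (4 ^ k + 2 ^ k + 2) (cycleGraph 4) : ℤ) := by exact_mod_cast hlo
    have h5 : (4 : ℤ) ^ k = (2 ^ k) ^ 2 := by exact_mod_cast h4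
    rw [h1, h2, h5]
    push_cast
    nlinarith [h3]

end Pool.Agent.C4E
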