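import Pool.Agent.C4E.GrCp

/-!
# C4E-GrMn: `A(n; C₄)` is at most the number of labelled four-cycles of a graph with at least
`ex(n; C₄) + 1` edges
-/

set_option linter.unusedSectionVars false

namespace Pool.Agent.C4E.Gr

open Finset SimpleGraph Pool.Agent.C4E Pool.Agent.Helper49.Copies

theorem minCopies_le {V : Type} [Fintype V] (n : ℕ) (hn : Fintype.card V = n)
    (G : SimpleGraph V) [Fintype G.edgeSet]
    (h : extremalNumber n (cycleGraph 4) + 1 ≤ G.edgeFinset.card) :
    minCopies n (cycleGraph 4) ≤ (c4 G).card := by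
  classical
  obtain ⟨s, hs, hsc⟩ := Finset.exists_subset_card_eq h
  set G' : SimpleGraph V := SimpleGraph.fromEdgeSet (s : Set (Sym2 V)) with hG'def
  have hsub : ∀ e ∈ s, e ∈ G.edgeSet := by
    intro e he
    exact SimpleGraph.mem_edgeFinset.mp (hs he)
  have hle : G' ≤ G := by
    intro a b hab
    rw [hG'def, SimpleGraph.fromEdgeSet_adj] at hab
    exact hsub _ (by simpa using hab.1)
  have hedge : G'.edgeSet = (s : Set (Sym2 V)) := by
    rw [hG'def, SimpleGraph.edgeSet_fromEdgeSet]
    ext e
    constructor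
    · rintro ⟨h, -⟩
      exact h
    · intro h
      exact ⟨h, fun hd => SimpleGraph.not_isDiag_of_mem_edgeSet G (hsub e h) hd⟩
  have hcard : G'.edgeFinset.card = extremalNumber n (cycleGraph 4) + 1 := by
    rw [← hsc]
    congr 1
    ext e
    rw [SimpleGraph.mem_edgeFinset, hedge, Finset.mem_coe]
  have e : G' ≃g G'.overFin hn := G'.overFinIso hn
  have hcard' : (G'.overFin hn).edgeFinset.card = extremalNumber n (cycleGraph 4) + 1 := by
    rw [← hcard]
    exact (e.card_edgeFinset_eq).symm
  have hcount : (G'.overFin hn).copyCount (cycleGraph 4) ≤ (c4 G).card :=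
    copyCount_le_c4 G (G'.overFin hn) ((Copy.ofLE G' G hle).comp e.symm.toCopy)
  have hsInf : minCopies n (cycleGraph 4) ≤ (G'.overFin hn).copyCount (cycleGraph 4) := by
    unfold minCopies
    apply Nat.sInf_le
    exact ⟨G'.overFin hn, card_edgeFinset_inst _ _ _ _ hcard', rfl⟩
  exact hsInf.trans hcount

end Pool.Agent.C4E.Gr
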