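import Pool.Agent.C4E.Defs3
import Pool.Agent.C4E.QuadZ
import Pool.Agent.C4E.Ex
import Pool.Agent.C4E.Com

/-!
# C4E-HbE: the exceptional vertex bound with the hub row

PLAN. `w ∈ N a`. `ff a = pp a - ph a ≤ pp a = dp w + pa a`; more precisely
`ff a = dl w + ∑_{z ∈ (N a).erase w} dl z ≤ dl w + pa a`. `exists_common`: `c0 ∈ N x ∩ N a`.
`quad_zero` for `x, a` (`b = 1`):
`sg x a + dl c0 ≤ 1 + dl x dl a + ff x + ff a`, `dl a ≥ 0`.
Case `x ∈ N w`: `w` is a common neighbour of `x` and `a`, take `c0 = w`. `sg x a ≥ |Sf c ∩ N a| ≥ |P|`.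
So `|P| ≤ 1 + dl x dl a + ff x + pa a`.
Case `x ∉ N w` (so `w ∉ N x`): `sg x a = ∑_{c' ∈ N x} |Sf c' ∩ N a|` counts pairs `(c', z)`: the pairs
`(c, z)`, `z ∈ P`, and the pairs `(c', w)`, `c' ∈ N x ∩ Sf w` (`w ∈ N a`, `w ∈ Sf c'`), disjoint since
`w ∉ P`. `com_na` for `x, w`: `|N x ∩ Sf w| + dl x = |N w ∩ Sf x| + dl w ≥ dl w`. `- dl c0 ≤ 1` (`s.h1`).
So `|P| + dl w - dl x ≤ 2 + dl x dl a + ff x + dl w + pa a`.
In both cases `dl x (dl a + 1) ≤ dp x (dl a + 1)`, `dl x dl a ≤ dp x (dl a + 1)`.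
-/

set_option linter.unusedSectionVars false

namespace Pool.Agent.C4E

open Finset

variable {V : Type} [Fintype V] [DecidableEq V]

theorem hub_ex {q : ℕ} {N : V → Finset V} (s : SysB q N) {w a x c : V} (ha : a ∈ N w)
    (h0 : 0 ≤ dl q N a) (hxa : x ≠ a) (hxw : x ≠ w) (hxS : x ∉ Sf N a) (hc : c ∈ N x)
    (P : Finset V) (hP : P ⊆ (N a).erase w) (hPc : ∀ z ∈ P, z ∈ Sf N c) :
    (P.card : ℤ) ≤ 3 + (dl q N a + 1) * dp q N x + ff q N x + pa q N w a := by
  have hcl := s.sys.cls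
  have hn : Fintype.card V = q ^ 2 + q + 1 + 1 := s.sys.card
  have hwa : w ∈ N a := hcl.symm _ _ ha
  have hPa : P ⊆ N a := hP.trans (erase_subset _ _)
  have hwP : w ∉ P := fun hcon => (mem_erase.1 (hP hcon)).1 rfl
  have hffa : ff q N a ≤ dl q N w + pa q N w a := by
    unfold ff pa
    rw [← add_sum_erase _ _ hwa]
    exact add_le_add le_rfl (sum_le_sum fun z _ => dl_le_dp q N z)
  have hdp := dl_le_dp q N x
  have hdp0 := dp_nonneg q N x
  have hmul : dl q N x * dl q N a ≤ dp q N x * dl q N a := mul_le_mul_of_nonneg_right hdp h0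
  by_cases hx : x ∈ N w
  · have h1 := ex_bound q 1 hcl hn hxa (hcl.symm _ _ hx) hwa hc P hPa hPc
    have h2 : (dl q N a + 1) * dp q N x = dp q N x * dl q N a + dp q N x := by ring
    rw [h2]
    push_cast at h1
    linarith
  · obtain ⟨c0, hc0a, hc0x⟩ := exists_common hxa hxS
    have h1 := quad_zero q 1 hcl hn hxa hc0x hc0a
    have h2 : (P.card : ℤ) + (N x ∩ Sf N w).card ≤ sg N x a := by
      have h3 : ∀ c' ∈ N x, (if c' = c then P.card else 0) + (if c' ∈ Sf N w then 1 else 0)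
          ≤ (Sf N c' ∩ N a).card := by
        intro c' _
        by_cases hcc : c' = c
        · rw [if_pos hcc, hcc]
          by_cases hcw : c ∈ Sf N w
          · rw [if_pos hcw, ← card_insert_of_notMem hwP]
            refine card_le_card fun z hz => ?_
            rcases mem_insert.1 hz with rfl | hz
            · exact mem_inter.2 ⟨Sf_symm.1 hcw, hwa⟩
            · exact mem_inter.2 ⟨hPc z hz, hPa hz⟩
          · rw [if_neg hcw, add_zero]
            exact card_le_card fun z hz => mem_inter.2 ⟨hPc z hz, hPa hz⟩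
        · rw [if_neg hcc, zero_add]
          by_cases hcw : c' ∈ Sf N w
          · rw [if_pos hcw]
            exact card_pos.2 ⟨w, mem_inter.2 ⟨Sf_symm.1 hcw, hwa⟩⟩
          · rw [if_neg hcw]
            exact Nat.zero_le _
      have h4 := sum_le_sum h3
      rw [sum_add_distrib, sum_ite_eq' (N x) c, if_pos hc, ← card_filter, filter_mem_eq_inter] at h4
      unfold sg
      exact_mod_cast h4
    have h3 := com_na q hcl hxw (fun hcon => hx (hcl.symm _ _ hcon))
    have h4 : (0 : ℤ) ≤ ((Sf N x ∩ Sf N a).card : ℤ) := Int.natCast_nonneg _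
    have h5 : (0 : ℤ) ≤ ((N w ∩ Sf N x).card : ℤ) := Int.natCast_nonneg _
    have h6 : -dl q N c0 ≤ 1 := by
      have h7 := neg_hh_le q N c0
      have h8 := s.h1 c0
      linarith
    have h7 : (dl q N a + 1) * dp q N x = dp q N x * dl q N a + dp q N x := by ring
    rw [h7]
    push_cast at h1
    linarith

end Pool.Agent.C4E
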