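import Pool.Agent.C4E.HbS
import Pool.Agent.C4E.QuadZ

/-!
# C4E-HbF: good neighbours of a hub are not full
-/

set_option linter.unusedSectionVars false

namespace Pool.Agent.C4E

open Finset

variable {V : Type} [Fintype V] [DecidableEq V]

private theorem hub_ff {q : ℕ} {N : V → Finset V} {w a : V} (hdw : 0 ≤ dl q N w)
    (hwa : w ∈ N a) : dl q N w - ph q N a ≤ ff q N a := by
  have h1 : dp q N w ≤ pp q N a :=
    single_le_sum (f := fun z => dp q N z) (fun z _ => dp_nonneg q N z) hwa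
  rw [dp_of_pos hdw] at h1
  rw [ff_eq]
  linarith

private theorem hub_ph {q : ℕ} {N : V → Finset V} (h : Cls N) {w : V} (hdw : 0 ≤ dl q N w) :
    ∑ a' ∈ N w, ph q N a' ≤ HH q N := by
  have h0 : hh q N w = 0 := hh_of_nonneg hdw
  have h1 : ∀ a' ∈ N w, ph q N a' = ∑ z ∈ (N a').erase w, hh q N z := by
    intro a' ha'
    unfold ph
    rw [← add_sum_erase (N a') (fun z => hh q N z) (h.symm w a' ha')]
    rw [h0, zero_add]
  rw [sum_congr rfl h1]
  refine (nb_cnt h (fun z => hh q N z) (fun z => hh_nonneg q N z) w).trans ?_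
  exact sum_le_sum_of_subset_of_nonneg (erase_subset _ _) fun z _ _ => hh_nonneg q N z

private theorem hub_exch (N : V → Finset V) (S T : Finset V) :
    ∑ c ∈ S, (T.filter fun a' => c ∉ Sf N a').card = ∑ a' ∈ T, (S \ Sf N a').card := by
  have h1 : ∀ c ∈ S, (T.filter fun a' => c ∉ Sf N a').card = ∑ a' ∈ T, if c ∉ Sf N a' then 1 else 0 := by
    intro c _
    rw [card_filter]
  have h2 : ∀ a' ∈ T, (S \ Sf N a').card = ∑ c ∈ S, if c ∉ Sf N a' then 1 else 0 := by
    intro a' _
    rw [← card_filter]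
    congr 1
    ext c
    simp only [mem_sdiff, mem_filter]
  rw [sum_congr rfl h1, sum_congr rfl h2, sum_comm]

theorem hub_full {q : ℕ} {N : V → Finset V} (s : SysB q N) {w a : V}
    (hw : (q : ℤ) ≤ 2000 * dl q N w) (ha : a ∈ Mg q N w) (h0 : dl q N a = 0) : False := by
  have h := s.sys.cls
  have hn : Fintype.card V = q ^ 2 + q + 1 + 1 := by rw [s.sys.card]
  have hbig : (10 : ℤ) ^ 100 ≤ q := by exact_mod_cast s.sys.big
  have hdw : 0 ≤ dl q N w := by
    have : (0 : ℤ) ≤ 10 ^ 100 := by norm_num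
    omega
  have haw : a ∈ N w := (mem_Mg.1 ha).1
  have hwa : w ∈ N a := h.symm w a haw
  have hne : a ≠ w := by
    rintro rfl
    exact s.sys.nol a haw
  have hHH := s.h2
  have hph := ph_le_HH q N a
  have hff := hub_ff hdw hwa
  have hSf := card_Sf q 1 h hn a
  rw [h0] at hSf
  -- the differences
  have hdiff : ∀ a' ∈ (N w).erase a, (((Sf N a \ Sf N a').card : ℕ) : ℤ) ≤ (sg N a a' : ℤ) + ph q N a' := by
    intro a' ha'
    obtain ⟨hne', haw'⟩ := mem_erase.1 ha'
    have hwa' : w ∈ N a' := h.symm w a' haw'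
    have h1 := quad_zero q 1 h hn (fun e => hne' e.symm : a ≠ a') hwa hwa'
    rw [h0] at h1
    have h2 := card_sdiff_add_card_inter (Sf N a) (Sf N a')
    have h3 : (((Sf N a \ Sf N a').card : ℕ) : ℤ) + (Sf N a ∩ Sf N a').card = (Sf N a).card := by
      exact_mod_cast h2
    have h4 := hub_ff hdw hwa'
    push_cast at h1 hSf
    linarith
  have hs1 : ∑ a' ∈ (N w).erase a, (((Sf N a \ Sf N a').card : ℕ) : ℤ) ≤
      (10 ^ 6 + 5) * q + 40001 := by
    refine (sum_le_sum hdiff).trans ?_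
    rw [sum_add_distrib]
    have e1 : ∑ a' ∈ (N w).erase a, (sg N a a' : ℤ) ≤ (10 ^ 6 + 5) * q := by
      have e2 := sum_sg h haw
      have e3 := sum_Sf s ha (by omega) (by omega)
      refine le_trans ?_ e3
      exact_mod_cast e2
    have e4 : ∑ a' ∈ (N w).erase a, ph q N a' ≤ 40001 := by
      refine le_trans ?_ ((hub_ph h hdw).trans hHH)
      exact sum_le_sum_of_subset_of_nonneg (erase_subset _ _) fun z _ _ => ph_nonneg q N z
    linarith
  -- the exchange
  have hex := hub_exch N ((Sf N a).erase w) ((N w).erase a)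
  have hlow : ∀ c ∈ (Sf N a).erase w,
      10 ^ 30 ≤ (((N w).erase a).filter fun a' => c ∉ Sf N a').card := by
    intro c hc
    obtain ⟨hcw, hcS⟩ := mem_erase.1 hc
    have hcN : c ∉ N w := by
      intro h1
      exact not_Sf_of_common hwa (h.symm w c h1) hcS
    refine (s.sys.m1 w c hcw.symm hcN).trans (card_le_card ?_)
    intro a' ha'
    obtain ⟨h1, h2⟩ := mem_sdiff.1 ha'
    rw [mem_filter, mem_erase]
    refine ⟨⟨?_, h1⟩, fun h3 => h2 (Sf_symm.1 h3)⟩
    rintro rfl
    exact h2 (Sf_symm.1 hcS)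
  have h5 : ((Sf N a).erase w).card * 10 ^ 30 ≤
      ∑ c ∈ (Sf N a).erase w, (((N w).erase a).filter fun a' => c ∉ Sf N a').card := by
    have := card_nsmul_le_sum ((Sf N a).erase w)
      (fun c => (((N w).erase a).filter fun a' => c ∉ Sf N a').card) (10 ^ 30) hlow
    rwa [smul_eq_mul] at this
  rw [hex] at h5
  have h6 : ∑ a' ∈ (N w).erase a, ((Sf N a).erase w \ Sf N a').card ≤
      ∑ a' ∈ (N w).erase a, (Sf N a \ Sf N a').card :=
    sum_le_sum fun a' _ => card_le_card (sdiff_subset_sdiff (erase_subset _ _) (Subset.refl _))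
  have h7 : ((((Sf N a).erase w).card : ℕ) : ℤ) * 10 ^ 30 ≤ (10 ^ 6 + 5) * q + 40001 := by
    refine le_trans ?_ hs1
    exact_mod_cast h5.trans h6
  have h8 : ((Sf N a).card : ℤ) ≤ ((((Sf N a).erase w).card : ℕ) : ℤ) + 1 := by
    have := pred_card_le_card_erase (s := Sf N a) (a := w)
    omega
  push_cast at hSf
  omega

end Pool.Agent.C4E
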