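import Pool.Agent.C4E.Defs3
import Pool.Agent.C4E.Cn

/-!
# C4E-HbM: most neighbours of a hub are good

PLAN. `DP ≤ 2 q` (`SysB.dpb`). `a ∈ N w \ Mg`: `pa a ≥ 10^6 + 1` or `dl a ≥ 10^6 + 1` (then
`dp a ≥ 10^6 + 1`). `∑_{a ∈ N w} pa a ≤ DP` (`nb_cnt` with `v = dp`), `∑_{a ∈ N w} dp a ≤ DP`. So
`10^6 |N w \ Mg| ≤ ∑_{a ∈ N w} (pa a + dp a) ≤ 2 DP ≤ 4 q`.
-/

set_option linter.unusedSectionVars false

namespace Pool.Agent.C4E

open Finset

variable {V : Type} [Fintype V] [DecidableEq V]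

theorem card_Mg {q : ℕ} {N : V → Finset V} (s : SysB q N) (w : V) :
    10 ^ 6 * ((N w \ Mg q N w).card : ℤ) ≤ 4 * q := by
  have hq : (10 ^ 100 : ℤ) ≤ q := by exact_mod_cast s.sys.big
  have hDP := s.dpb
  have h1 := nb_cnt s.sys.cls (fun z => dp q N z) (fun z => dp_nonneg q N z) w
  have h2 : ∑ z ∈ univ.erase w, dp q N z ≤ DP q N :=
    sum_le_sum_of_subset_of_nonneg (subset_univ _) fun z _ _ => dp_nonneg q N z
  have h3 := pp_le_DP q N w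
  have h4 : ∀ a ∈ N w \ Mg q N w, (10 ^ 6 : ℤ) ≤ pa q N w a + dp q N a := by
    intro a ha
    obtain ⟨h5, h6⟩ := mem_sdiff.1 ha
    have h7 : 0 ≤ pa q N w a := sum_nonneg fun z _ => dp_nonneg q N z
    have h8 := dp_nonneg q N a
    have h9 := dl_le_dp q N a
    by_contra hcon
    apply h6
    rw [mem_Mg]
    refine ⟨h5, ?_, ?_⟩ <;> omega
  have h5 : ((N w \ Mg q N w).card : ℤ) * 10 ^ 6 ≤ ∑ a ∈ N w \ Mg q N w, (pa q N w a + dp q N a) := by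
    rw [← nsmul_eq_mul, ← sum_const]
    exact sum_le_sum h4
  have h6 : ∑ a ∈ N w \ Mg q N w, (pa q N w a + dp q N a) ≤ ∑ a ∈ N w, (pa q N w a + dp q N a) :=
    sum_le_sum_of_subset_of_nonneg sdiff_subset fun a _ _ =>
      add_nonneg (sum_nonneg fun z _ => dp_nonneg q N z) (dp_nonneg q N a)
  have h6' : ∑ a ∈ N w, (pa q N w a + dp q N a) = ∑ a ∈ N w, pa q N w a + ∑ a ∈ N w, dp q N a :=
    sum_add_distrib
  have h7 : ∑ a ∈ N w, pa q N w a ≤ ∑ z ∈ univ.erase w, dp q N z := h1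
  have h8 : ∑ a ∈ N w, dp q N a = pp q N w := rfl
  linarith

end Pool.Agent.C4E
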