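import Pool.Agent.C4E.Defs3
import Pool.Agent.C4E.Cn
import Pool.Agent.C4E.Cnt

/-!
# C4E-HbS: sums of `sg` and of `|Sf|` near a hub
-/

set_option linter.unusedSectionVars false

namespace Pool.Agent.C4E

open Finset

variable {V : Type} [Fintype V] [DecidableEq V]

theorem sum_Sf {q : ℕ} {N : V → Finset V} (s : SysB q N) {w a : V} (ha : a ∈ Mg q N w)
    (h0 : 0 ≤ dl q N a) (h1 : dl q N a ≤ 1) :
    ∑ z ∈ (N a).erase w, ((Sf N z).card : ℤ) ≤ (10 ^ 6 + 5) * q := by
  have h := s.sys.cls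
  obtain ⟨_, hpa, _⟩ := mem_Mg.1 ha
  have hS : ∀ z, ((Sf N z).card : ℤ) = 1 + q * dl q N z + ff q N z := by
    intro z
    have h2 := card_Sf q 1 h (by rw [s.sys.card]) z
    push_cast at h2
    exact h2
  have e1 : ∑ z ∈ (N a).erase w, ((Sf N z).card : ℤ) =
      ((N a).erase w).card + q * ∑ z ∈ (N a).erase w, dl q N z + ∑ z ∈ (N a).erase w, ff q N z := by
    rw [sum_congr rfl fun z _ => hS z]
    simp only [sum_add_distrib, sum_const, nsmul_eq_mul, mul_one, mul_sum]
  have hNa := card_N q N a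
  have e2 : (((N a).erase w).card : ℤ) ≤ q + 1 := by
    have h2 : ((N a).erase w).card ≤ (N a).card := card_le_card (erase_subset _ _)
    omega
  have e3 : ∑ z ∈ (N a).erase w, dl q N z ≤ 10 ^ 6 := by
    refine le_trans (sum_le_sum fun z _ => dl_le_dp q N z) ?_
    exact hpa
  have hdp : dp q N a ≤ 1 := by
    unfold dp
    exact max_le h1 (by norm_num)
  have e4 : ∑ z ∈ (N a).erase w, ff q N z ≤ ∑ z ∈ N a, pp q N z :=
    (sum_le_sum fun z _ => ff_le_pp q N z).trans
      (sum_le_sum_of_subset_of_nonneg (erase_subset _ _) fun z _ _ => pp_nonneg q N z)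
  have e5 : ∑ z ∈ N a, pp q N z = (N a).card * dp q N a + ∑ z ∈ N a, ∑ z' ∈ (N z).erase a, dp q N z' := by
    have h2 : ∀ z ∈ N a, pp q N z = dp q N a + ∑ z' ∈ (N z).erase a, dp q N z' := by
      intro z hz
      exact (add_sum_erase (N z) (fun z' => dp q N z') (h.symm _ _ hz)).symm
    rw [sum_congr rfl h2, sum_add_distrib, sum_const, nsmul_eq_mul]
  have e6 : ∑ z ∈ N a, ∑ z' ∈ (N z).erase a, dp q N z' ≤ DP q N :=
    (nb_cnt h (fun z => dp q N z) (dp_nonneg q N) a).trans
      (sum_le_sum_of_subset_of_nonneg (erase_subset _ _) fun z _ _ => dp_nonneg q N z)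
  have hD := s.dpb
  have e7 : ((N a).card : ℤ) * dp q N a ≤ (q + 1) * 1 :=
    mul_le_mul (by omega) hdp (dp_nonneg q N a) (by omega)
  have e8 : (q : ℤ) * ∑ z ∈ (N a).erase w, dl q N z ≤ q * 10 ^ 6 :=
    mul_le_mul_of_nonneg_left e3 (by omega)
  rw [e1]
  omega

/-- double counting of incidences -/
private theorem exch {N : V → Finset V} (h : Cls N) (W S : Finset V) :
    ∑ a' ∈ W, (S ∩ N a').card = ∑ v ∈ S, (W ∩ N v).card := by
  have h1 : ∀ a' ∈ W, (S ∩ N a').card = ∑ v ∈ S, if v ∈ N a' then 1 else 0 := by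
    intro a' _
    rw [← card_filter, filter_mem_eq_inter]
  have h2 : ∀ v ∈ S, (W ∩ N v).card = ∑ a' ∈ W, if v ∈ N a' then 1 else 0 := by
    intro v _
    rw [← filter_mem_eq_inter, card_filter]
    exact sum_congr rfl fun a' _ => if_congr h.mem_comm rfl rfl
  rw [sum_congr rfl h1, sum_congr rfl h2, sum_comm]

/-- a vertex of `Sf z` is different from `w` -/
private theorem ne_w {N : V → Finset V} (h : Cls N) {w a z v : V} (ha : a ∈ N w) (hz : z ∈ N a)
    (hv : v ∈ Sf N z) : v ≠ w := by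
  rintro rfl
  exact not_Sf_of_common (h.symm _ _ hz) ha hv

private theorem split_w {N : V → Finset V} (h : Cls N) {w a : V} (ha : a ∈ N w) (F : V → ℕ) :
    ∑ z ∈ N a, F z = F w + ∑ z ∈ (N a).erase w, F z :=
  (add_sum_erase (N a) F (h.symm _ _ ha)).symm

theorem sum_sg {N : V → Finset V} (h : Cls N) {w a : V} (ha : a ∈ N w) :
    ∑ a' ∈ (N w).erase a, sg N a a' ≤ ∑ z ∈ (N a).erase w, (Sf N z).card := by
  unfold sg
  rw [sum_comm, split_w h ha]
  have h0 : ∑ a' ∈ (N w).erase a, (Sf N w ∩ N a').card = 0 := by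
    refine sum_eq_zero fun a' ha' => ?_
    rw [card_eq_zero, eq_empty_iff_forall_notMem]
    intro v hv
    rw [mem_inter] at hv
    exact not_Sf_of_common (mem_erase.1 ha').2 (h.symm _ _ hv.2) hv.1
  rw [h0, zero_add]
  refine sum_le_sum fun z hz => ?_
  rw [exch h, card_eq_sum_ones]
  refine sum_le_sum fun v hv => ?_
  have h1 : (N w).erase a ∩ N v ⊆ N w ∩ N v := inter_subset_inter (erase_subset _ _) (subset_refl _)
  exact (card_le_card h1).trans (h.cod w v (ne_w h ha (mem_erase.1 hz).2 hv).symm)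

theorem sum_NS {N : V → Finset V} (h : Cls N) {w a : V} (ha : a ∈ N w) :
    ∑ a' ∈ (N w).erase a, (N a ∩ Sf N a').card ≤
      (N w).card + ∑ z ∈ (N a).erase w, (Sf N z).card := by
  have e1 : ∑ a' ∈ (N w).erase a, (N a ∩ Sf N a').card =
      ∑ z ∈ N a, ((N w).erase a ∩ Sf N z).card := by
    have h1 : ∀ a' ∈ (N w).erase a, (N a ∩ Sf N a').card = ∑ z ∈ N a, if z ∈ Sf N a' then 1 else 0 := by
      intro a' _
      rw [← card_filter, filter_mem_eq_inter]
    have h2 : ∀ z ∈ N a, ((N w).erase a ∩ Sf N z).card =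
        ∑ a' ∈ (N w).erase a, if z ∈ Sf N a' then 1 else 0 := by
      intro z _
      rw [← filter_mem_eq_inter, card_filter]
      exact sum_congr rfl fun a' _ => if_congr Sf_symm rfl rfl
    rw [sum_congr rfl h1, sum_congr rfl h2, sum_comm]
  rw [e1, split_w h ha]
  refine add_le_add ?_ (sum_le_sum fun z _ => card_le_card inter_subset_right)
  exact card_le_card (inter_subset_left.trans (erase_subset _ _))

end Pool.Agent.C4E
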