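import Pool.Agent.C4E.Defs3
import Pool.Agent.C4E.Cn

/-!
# C4E-Pt1: many good full neighbours
-/

set_option linter.unusedSectionVars false

namespace Pool.Agent.C4E

open Finset

variable {V : Type} [Fintype V] [DecidableEq V]

theorem card_Pz {q : ℕ} {N : V → Finset V} (g : SysG q N) {y : V} (h1 : 1 ≤ dl q N y)
    (h8 : 8 * ff q N y ≤ q + 8) : 869 * (q : ℤ) ≤ 1000 * (Pz q N y).card := by
  have h := g.cls
  have hbig : (10 : ℤ) ^ 100 ≤ q := by exact_mod_cast g.big
  have hsm := g.sm y
  have hN := card_N q N y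
  have hHH := g.h2
  have hdpb := g.dpb
  have hsplit := card_split q N (N y)
  have hdy : dp q N y = dl q N y := dp_of_pos (by omega)
  -- deficient neighbours
  have hY : (((N y ∩ Yd q N).card : ℕ) : ℤ) ≤ pp q N y := by
    have e1 : (((N y ∩ Yd q N).card : ℕ) : ℤ) = ∑ _z ∈ N y ∩ Yd q N, (1 : ℤ) := by simp
    rw [e1]
    refine (sum_le_sum fun z hz => (mem_Yd.1 (mem_inter.1 hz).2).trans (dl_le_dp q N z)).trans ?_
    exact sum_le_sum_of_subset_of_nonneg inter_subset_left fun z _ _ => dp_nonneg q N z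
  have hff := ff_eq q N y
  have hph := ph_le_HH q N y
  -- heavy neighbours
  have hH : (((N y ∩ Hv q N).card : ℕ) : ℤ) ≤ 2 := by
    have e1 : (N y ∩ Hv q N).card ≤ (Hv q N).card := card_le_card inter_subset_right
    have e2 := card_Hv_le q N
    omega
  -- neighbours with a large sum
  have hB : 421 * ((((N y).filter fun z => dl q N y + 421 ≤ ff q N z).card : ℕ) : ℤ) ≤ 2 * q := by
    have e1 := nb_cnt h (fun z => dp q N z) (fun z => dp_nonneg q N z) y
    have e2 : ∑ z ∈ univ.erase y, dp q N z ≤ DP q N :=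
      sum_le_sum_of_subset_of_nonneg (erase_subset _ _) fun z _ _ => dp_nonneg q N z
    have e3 : 421 * ((((N y).filter fun z => dl q N y + 421 ≤ ff q N z).card : ℕ) : ℤ) =
        ∑ _z ∈ (N y).filter (fun z => dl q N y + 421 ≤ ff q N z), (421 : ℤ) := by
      rw [sum_const, nsmul_eq_mul]
      ring
    have e4 : ∑ _z ∈ (N y).filter (fun z => dl q N y + 421 ≤ ff q N z), (421 : ℤ) ≤
        ∑ z ∈ (N y).filter (fun z => dl q N y + 421 ≤ ff q N z), ∑ z' ∈ (N z).erase y, dp q N z' := by
      refine sum_le_sum fun z hz => ?_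
      obtain ⟨hz1, hz2⟩ := mem_filter.1 hz
      have e5 := ff_le_pp q N z
      have e6 : pp q N z = dp q N y + ∑ z' ∈ (N z).erase y, dp q N z' := by
        unfold pp
        rw [add_sum_erase (N z) (fun z => dp q N z) (h.symm y z hz1)]
      omega
    have e7 : ∑ z ∈ (N y).filter (fun z => dl q N y + 421 ≤ ff q N z),
        ∑ z' ∈ (N z).erase y, dp q N z' ≤ ∑ z ∈ N y, ∑ z' ∈ (N z).erase y, dp q N z' :=
      sum_le_sum_of_subset_of_nonneg (filter_subset _ _)
        fun z _ _ => sum_nonneg fun z' _ => dp_nonneg q N z'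
    linarith
  have hF : (N y ∩ Fl q N).card ≤ (Pz q N y).card +
      ((N y).filter fun z => dl q N y + 421 ≤ ff q N z).card := by
    refine (card_le_card ?_).trans (card_union_le _ _)
    intro z hz
    obtain ⟨hz1, hz2⟩ := mem_inter.1 hz
    rw [mem_union, mem_Pz, mem_filter]
    by_cases hc : ff q N z ≤ dl q N y + 420
    · left
      exact ⟨hz1, mem_Fl.1 hz2, hc⟩
    · right
      exact ⟨hz1, by omega⟩
  omega

end Pool.Agent.C4E
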