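import Pool.Agent.C4E.Sw2

/-!
# C4E-Sm: small and big deficient vertices
-/

set_option linter.unusedSectionVars false

namespace Pool.Agent.C4E

open Finset

variable {V : Type} [Fintype V] [DecidableEq V]

/-- a product of two deficiencies is not large -/
private theorem no_prod {q a b : ℤ} (hq : 10 ^ 30 ≤ q) (ha : a ^ 2 ≤ 9 * q) (hb : 25 * b ^ 2 ≤ q)
    (hp : 618 * q ≤ 1000 * (a * b) + 2000) : False := by
  have h1 : 3 * q < 5 * (a * b) := by
    norm_num at hq
    omega
  have hq0 : 0 < q := lt_of_lt_of_le (by norm_num) hq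
  have h2 : (3 * q) * (3 * q) < (5 * (a * b)) * (5 * (a * b)) := by
    exact mul_self_lt_mul_self (by omega) h1
  have h3 : a ^ 2 * (25 * b ^ 2) ≤ (9 * q) * q :=
    mul_le_mul ha hb (by positivity) (by omega)
  nlinarith

private theorem not_Fh {q : ℕ} {N : V → Finset V} {x : V} (hx : x ∉ Fh q N) : 8 * ff q N x < q := by
  rw [mem_Fh] at hx
  omega

theorem Cz_small {q : ℕ} {N : V → Finset V} (s : Sys q N) (g : SysG q N) {y : V}
    (hy : y ∉ Fh q N) (h1 : 1 ≤ dl q N y) (h25 : 25 * dl q N y ^ 2 ≤ q) : Cz q N y ⊆ {y} := by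
  intro c hc
  rw [mem_singleton]
  by_contra hcy
  have hbig : (10 : ℤ) ^ 100 ≤ q := by exact_mod_cast g.big
  have hb : (10 : ℤ) ^ 30 ≤ q := le_trans (by norm_num) hbig
  have hfy := not_Fh hy
  have h8 : 8 * ff q N y ≤ q + 8 := by omega
  have hcS := Cz_Sf g h1 h8 hc
  have hcN := Cz_nb g h1 h8 hcS
  have hyN : y ∉ N c := fun h => hcN (g.cls.symm _ _ h)
  have hm := s.m1 c y hcy hyN
  have hsub : N c \ Sf N y ⊆ Fh q N := by
    intro x hx
    rw [mem_sdiff] at hx
    by_contra hxF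
    have hxy : x ≠ y := by
      rintro rfl
      exact hyN hx.1
    have e1 := exc1 g h1 h8 hcS hx.1 hxy hx.2
    have hfx := not_Fh hxF
    have e2 : 618 * (q : ℤ) ≤ 1000 * (dl q N x * dl q N y) + 2000 := by omega
    have e3 : 1 ≤ dl q N x := by
      by_contra hcon
      have h2 : dl q N x * dl q N y ≤ 0 := mul_nonpos_of_nonpos_of_nonneg (by omega) (by omega)
      norm_num at hb
      omega
    exact no_prod hb (dl_sq s g hxF e3) h25 e2
  have h2 := card_le_card hsub
  have h3 := card_Fh_G g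
  have h4 : (N c \ Sf N y).card ≤ 16 := h2.trans h3
  have h5 : 16 < 10 ^ 30 := by norm_num
  omega

theorem Cz_big {q : ℕ} {N : V → Finset V} (s : Sys q N) (g : SysG q N) {y c : V}
    (hy : y ∉ Fh q N) (h1 : 1 ≤ dl q N y) (hc : c ∈ Cz q N y) (hcy : c ≠ y) (hcF : c ∉ Fh q N) :
    1 ≤ dl q N c ∧ q < 25 * dl q N c ^ 2 := by
  by_contra hcon
  have hbig : (10 : ℤ) ^ 100 ≤ q := by exact_mod_cast g.big
  have hb : (10 : ℤ) ^ 30 ≤ q := le_trans (by norm_num) hbig
  have hfy := not_Fh hy
  have hfc := not_Fh hcF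
  have h8 : 8 * ff q N y ≤ q + 8 := by omega
  have hcS := Cz_Sf g h1 h8 hc
  have hcN := Cz_nb g h1 h8 hcS
  have hm := s.m1 y c hcy.symm hcN
  have hlow : ∀ v, -1 ≤ dl q N v := by
    intro v
    have h2 := neg_hh_le q N v
    have h3 := g.h1 v
    omega
  have hsub : N y \ Sf N c ⊆ Fh q N := by
    intro z hz
    rw [mem_sdiff] at hz
    by_contra hzF
    have e1 := exc2 g h1 h8 hcS hcy hcN hz.1 hz.2
    have hfz := not_Fh hzF
    have e2 : 618 * (q : ℤ) ≤ 1000 * (dl q N z * dl q N c) + 2000 := by omega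
    have e4 : 2 ≤ dl q N z * dl q N c := by
      norm_num at hb
      omega
    have hz1 := hlow z
    have hc1 := hlow c
    have e5 : 1 ≤ dl q N c := by
      by_contra hc2
      have h3 : dl q N c = 0 ∨ dl q N c = -1 := by omega
      rcases h3 with h3 | h3
      · rw [h3, mul_zero] at e4
        omega
      · rw [h3] at e4
        omega
    have e3 : 1 ≤ dl q N z := by
      by_contra hc2
      have h2 : dl q N z * dl q N c ≤ 0 := mul_nonpos_of_nonpos_of_nonneg (by omega) (by omega)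
      omega
    have e6 : 25 * dl q N c ^ 2 ≤ q := by
      by_contra hc2
      exact hcon ⟨e5, by omega⟩
    exact no_prod hb (dl_sq s g hzF e3) e6 e2
  have h2 := card_le_card hsub
  have h3 := card_Fh_G g
  have h4 : (N y \ Sf N c).card ≤ 16 := h2.trans h3
  have h5 : 16 < 10 ^ 30 := by norm_num
  omega

end Pool.Agent.C4E
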