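import Pool.Agent.C4E.Pt2
import Pool.Agent.C4E.Pt3
import Pool.Agent.C4E.FhB
import Pool.Agent.C4E.QuadZ

/-!
# C4E-Sw1: the swap

The set `M = (N y \ Z) ∪ C'` is not larger than `N y`; the elements of `Z` outside `Fh` have large
deficiency.
-/

set_option linter.unusedSectionVars false

namespace Pool.Agent.C4E

open Finset

variable {V : Type} [Fintype V] [DecidableEq V]

theorem swap_le {q : ℕ} {N : V → Finset V} (s : Sys q N) (g : SysG q N) {y : V}
    (hy : y ∉ Fh q N) (h1 : 1 ≤ dl q N y) (τ : ℤ) (h0 : 0 ≤ τ) (hτ : 100 * τ ^ 2 ≤ 57 * q)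
    (C' : Finset V) (hC : ∀ c ∈ C', c ∈ Cz q N y ∧ c ≠ y ∧ c ∉ Fh q N ∧ dl q N c ≤ τ) :
    100 * (C'.card : ℤ) ≤ 1600 + 21 * τ := by
  classical
  have hq : (10 ^ 6 : ℤ) ≤ q := by
    have h2 : 10 ^ 6 ≤ q := le_trans (by norm_num) g.big
    exact_mod_cast h2
  have hyF : 8 * ff q N y < q := by
    rw [mem_Fh] at hy
    omega
  have h8 : 8 * ff q N y ≤ q + 8 := by omega
  have hcS : ∀ c ∈ C', ∀ z ∈ Pz q N y, c ∈ Sf N z := fun c hc => Cz_Sf g h1 h8 (hC c hc).1
  have hcn : ∀ c ∈ C', c ∉ N y := fun c hc => Cz_nb g h1 h8 (hcS c hc)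
  have hcF : ∀ c ∈ C', 8 * ff q N c < q := by
    intro c hc
    have h2 := (hC c hc).2.2.1
    rw [mem_Fh] at h2
    omega
  have hlo : ∀ v, -1 ≤ dl q N v := by
    intro v
    have h2 := neg_hh_le q N v
    have h3 := g.h1 v
    omega
  have hP := card_Pz g h1 h8
  -- no two partners have a common neighbour
  have hCC : ∀ a ∈ C', ∀ b ∈ C', a ≠ b → ∀ e, e ∈ N a → e ∈ N b → False := by
    intro a ha b hb hab e hea heb
    have h2 := quad_zero q 1 g.cls (by rw [g.card]) hab hea heb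
    have h3 : (Pz q N y).card ≤ (Sf N a ∩ Sf N b).card := by
      refine card_le_card fun z hz => mem_inter.2 ⟨?_, ?_⟩
      · exact Sf_symm.1 (hcS a ha z hz)
      · exact Sf_symm.1 (hcS b hb z hz)
    have h3' : ((Pz q N y).card : ℤ) ≤ ((Sf N a ∩ Sf N b).card : ℤ) := by exact_mod_cast h3
    have h4 := hlo e
    have h5 : (0 : ℤ) ≤ (sg N a b : ℤ) := Int.natCast_nonneg _
    have h6 := hcF a ha
    have h7 := hcF b hb
    have ha1 := hlo a
    have hb1 := hlo b
    have ha2 := (hC a ha).2.2.2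
    have hb2 := (hC b hb).2.2.2
    have h9 : dl q N a * dl q N b ≤ τ ^ 2 + 1 := by
      rcases le_or_gt 0 (dl q N a) with h | h
      · rcases le_or_gt 0 (dl q N b) with h' | h'
        · nlinarith [mul_le_mul ha2 hb2 h' h0]
        · nlinarith [sq_nonneg τ]
      · have ha3 : dl q N a = -1 := by omega
        rw [ha3]
        nlinarith [sq_nonneg τ]
    push_cast at h2
    nlinarith
  obtain ⟨Z, hZ⟩ : ∃ Z, Z = (N y).filter fun z => ∃ c ∈ C', z ∉ Sf N c := ⟨_, rfl⟩
  have hZy : Z ⊆ N y := by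
    rw [hZ]
    exact filter_subset _ _
  have hmZ : ∀ z ∈ N y, z ∉ Z → ∀ c ∈ C', z ∈ Sf N c := by
    intro z hz hzZ c hc
    by_contra hn
    apply hzZ
    rw [hZ]
    exact mem_filter.2 ⟨hz, c, hc, hn⟩
  have hcard := s.m2 y ((N y \ Z) ∪ C') (by
    intro h
    rcases mem_union.1 h with h2 | h2
    · exact s.nol y (mem_sdiff.1 h2).1
    · exact (hC y h2).2.1 rfl) (by
    have hmix : ∀ a ∈ N y \ Z, ∀ b ∈ C', ∀ e, e ∈ N a → e ∈ N b → False := by
      intro a ha b hb e hea heb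
      obtain ⟨ha1, ha2⟩ := mem_sdiff.1 ha
      exact not_Sf_of_common heb hea (hmZ a ha1 ha2 b hb)
    intro a ha b hb hab e hea heb
    rcases mem_union.1 ha with ha' | ha'
    · rcases mem_union.1 hb with hb' | hb'
      · exact g.cls.uniq hab hea heb (g.cls.symm _ _ (mem_sdiff.1 ha').1) (g.cls.symm _ _ (mem_sdiff.1 hb').1)
      · exact (hmix a ha' b hb' e hea heb).elim
    · rcases mem_union.1 hb with hb' | hb'
      · exact (hmix b hb' a ha' e heb hea).elim
      · exact (hCC a ha' b hb' hab e hea heb).elim)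
  have hdisj : Disjoint (N y \ Z) C' := by
    rw [disjoint_left]
    intro a ha hb
    exact hcn a hb (mem_sdiff.1 ha).1
  rw [card_union_of_disjoint hdisj, card_sdiff_of_subset hZy] at hcard
  have hZc := card_le_card hZy
  have hCZ : C'.card ≤ Z.card := by omega
  have hZF : Z.card ≤ 16 + (Z \ Fh q N).card := by
    have h2 := card_le_card_sdiff_add_card (s := Z) (t := Fh q N)
    have h3 := card_Fh_G g
    omega
  -- the elements outside `Fh`
  have hz : ∀ z ∈ Z \ Fh q N, 618 * (q : ℤ) - 2000 ≤ 1000 * (τ * dl q N z) := by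
    intro z hz
    obtain ⟨hz1, hz2⟩ := mem_sdiff.1 hz
    have hz3 := hz1
    rw [hZ] at hz3
    obtain ⟨hzy, c, hc, hzc⟩ := mem_filter.1 hz3
    have h2 := exc2 g h1 h8 (hcS c hc) (hC c hc).2.1 (hcn c hc) hzy hzc
    have h3 := hcF c hc
    have h4 : 8 * ff q N z < q := by
      rw [mem_Fh] at hz2
      omega
    have h5 := hlo z
    have h6 := hlo c
    have h7 := (hC c hc).2.2.2
    have h9 : 618 * (q : ℤ) - 2000 ≤ 1000 * (dl q N z * dl q N c) := by omega
    have h10 : 0 < dl q N z := by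
      by_contra hn
      rcases le_or_gt 0 (dl q N c) with h | h
      · nlinarith
      · have h11 : dl q N c = -1 := by omega
        rw [h11] at h9
        nlinarith
    have h12 : dl q N z * dl q N c ≤ τ * dl q N z := by nlinarith
    linarith
  have hsum : ∑ z ∈ Z \ Fh q N, dl q N z ≤ pp q N y := by
    refine (sum_le_sum fun z _ => dl_le_dp q N z).trans ?_
    refine sum_le_sum_of_subset_of_nonneg (fun z hz => hZy (mem_sdiff.1 hz).1) fun z _ _ => dp_nonneg q N z
  have hpp : 8 * pp q N y ≤ q + 16 := by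
    have h2 := ff_eq q N y
    have h3 := ph_le_HH q N y
    have h4 := g.h2
    omega
  have hS : ((Z \ Fh q N).card : ℤ) * (618 * (q : ℤ) - 2000) ≤ 1000 * (τ * ∑ z ∈ Z \ Fh q N, dl q N z) := by
    rw [mul_sum, mul_sum, ← nsmul_eq_mul, ← sum_const]
    exact sum_le_sum hz
  have hfin : 100 * ((Z \ Fh q N).card : ℤ) ≤ 21 * τ := by
    generalize ((Z \ Fh q N).card : ℤ) = A at hS
    generalize ∑ z ∈ Z \ Fh q N, dl q N z = B at hS hsum
    by_contra hn
    push Not at hn
    have h2 : 8 * B ≤ q + 16 := by linarith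
    have h3 : τ * (8 * B) ≤ τ * (q + 16) := mul_le_mul_of_nonneg_left h2 h0
    have h4 : (21 * τ + 1) * (618 * (q : ℤ) - 2000) ≤ 100 * A * (618 * (q : ℤ) - 2000) :=
      mul_le_mul_of_nonneg_right (by omega) (by linarith)
    have h5 : 0 ≤ τ * (q - 10 ^ 6) := mul_nonneg h0 (by linarith)
    nlinarith
  have e1 : (C'.card : ℤ) ≤ Z.card := by exact_mod_cast hCZ
  have e2 : (Z.card : ℤ) ≤ 16 + (Z \ Fh q N).card := by exact_mod_cast hZF
  linarith

end Pool.Agent.C4E
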