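import Pool.Agent.C4E.Sw1

/-!
# C4E-Sw2: deficiencies outside `Fh` are at most `3 √q`
-/

set_option linter.unusedSectionVars false

namespace Pool.Agent.C4E

open Finset

variable {V : Type} [Fintype V] [DecidableEq V]

theorem Cz_lower {q : ℕ} {N : V → Finset V} (g : SysG q N) {y : V} (hy : y ∉ Fh q N)
    (h1 : 1 ≤ dl q N y) : 999 * dl q N y ≤ 1000 * (Cz q N y).card + 2001 := by
  rw [mem_Fh] at hy
  have h2 := Cz_card g h1 (by omega)
  have h3 : (Sf N y ∩ Yd q N).card ≤ ((Yd q N).erase y).card := by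
    refine card_le_card fun z hz => ?_
    rw [mem_inter, mem_Sf] at hz
    rw [mem_erase]
    exact ⟨hz.1.1, hz.2⟩
  have h4 := card_erase_Yd q N y
  have h5 := dp_of_pos (q := q) (N := N) (x := y) (by omega)
  have h6 := g.dpb
  have h7 := g.sm y
  have h8 := g.big
  have h9 : (10 : ℤ) ^ 100 ≤ q := by exact_mod_cast h8
  have h10 : ((Sf N y ∩ Yd q N).card : ℤ) ≤ ((Yd q N).erase y).card := by exact_mod_cast h3
  rw [h5] at h4
  obtain ⟨k, hk⟩ : ∃ k, k = dl q N y := ⟨_, rfl⟩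
  obtain ⟨C, hC⟩ : ∃ C : ℤ, C = (Cz q N y).card := ⟨_, rfl⟩
  obtain ⟨Q, hQ⟩ : ∃ Q : ℤ, Q = q := ⟨_, rfl⟩
  rw [← hk, ← hC, ← hQ] at h2
  rw [← hk] at h1 h4 h7 ⊢
  rw [← hQ] at h6 h7 h9
  rw [← hC]
  have h11 : Q * k ≤ 2 * Q - 10 ^ 13 - k + C * (Q + 2) + (k + 421) ^ 2 + 3 := by linarith
  have h12 : 2000 * k * k ≤ Q * k := mul_le_mul_of_nonneg_right h7 (by omega)
  have h13 : (10 : ℤ) ^ 100 * k ≤ Q * k := mul_le_mul_of_nonneg_right h9 (by omega)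
  by_contra hcon
  have h14 : 1000 * C + 2002 ≤ 999 * k := by omega
  have h15 : (1000 * C + 2002) * (Q + 2) ≤ 999 * k * (Q + 2) :=
    mul_le_mul_of_nonneg_right h14 (by linarith)
  nlinarith

theorem dl_sq {q : ℕ} {N : V → Finset V} (s : Sys q N) (g : SysG q N) {y : V}
    (hy : y ∉ Fh q N) (h1 : 1 ≤ dl q N y) : dl q N y ^ 2 ≤ 9 * q := by
  obtain ⟨r, hr⟩ : ∃ r, r = Nat.sqrt q := ⟨_, rfl⟩
  have hr1 : r * r ≤ q := hr ▸ Nat.sqrt_le q
  have hr2 : q < (r + 1) * (r + 1) := hr ▸ Nat.lt_succ_sqrt q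
  have hbig := g.big
  have hr3 : 10 ^ 49 ≤ r := by
    by_contra hcon
    have h2 : r + 1 ≤ 10 ^ 49 := by omega
    have h3 : (r + 1) * (r + 1) ≤ 10 ^ 49 * 10 ^ 49 := Nat.mul_le_mul h2 h2
    omega
  obtain ⟨τ, hτ⟩ : ∃ τ : ℕ, τ = 3 * r / 4 := ⟨_, rfl⟩
  have hτ1 : 4 * τ ≤ 3 * r := by omega
  have hτ2 : 3 * r < 4 * (τ + 1) := by omega
  have hτ3 : 100 * (τ : ℤ) ^ 2 ≤ 57 * q := by
    have h2 : 4 * τ * (4 * τ) ≤ 3 * r * (3 * r) := Nat.mul_le_mul hτ1 hτ1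
    have h3 : 100 * τ ^ 2 ≤ 57 * q := by nlinarith
    exact_mod_cast h3
  obtain ⟨C', hC'⟩ : ∃ C' : Finset V, C' = (Cz q N y).filter fun c =>
    c ≠ y ∧ c ∉ Fh q N ∧ dl q N c ≤ τ := ⟨_, rfl⟩
  obtain ⟨B, hB⟩ : ∃ B : Finset V, B = univ.filter fun c => (τ : ℤ) + 1 ≤ dl q N c := ⟨_, rfl⟩
  have hsw := swap_le s g hy h1 τ (by omega) hτ3 C' (by
    intro c hc
    rw [hC', mem_filter] at hc
    exact hc)
  have hsub : Cz q N y ⊆ insert y (C' ∪ Fh q N ∪ B) := by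
    intro c hc
    rw [mem_insert, mem_union, mem_union, hC', hB, mem_filter, mem_filter]
    by_cases h2 : c = y
    · exact Or.inl h2
    · by_cases h3 : c ∈ Fh q N
      · exact Or.inr (Or.inl (Or.inr h3))
      · by_cases h4 : dl q N c ≤ τ
        · exact Or.inr (Or.inl (Or.inl ⟨hc, h2, h3, h4⟩))
        · exact Or.inr (Or.inr ⟨mem_univ _, by omega⟩)
  have hc0 := card_le_card hsub
  have hc1 := card_insert_le y (C' ∪ Fh q N ∪ B)
  have hc2 := card_union_le (C' ∪ Fh q N) B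
  have hc3 := card_union_le C' (Fh q N)
  have hFh := card_Fh_G g
  have hDP : ((τ : ℤ) + 1) * B.card ≤ DP q N := by
    have e1 : ∑ t ∈ B, ((τ : ℤ) + 1) ≤ ∑ t ∈ B, dp q N t := by
      refine sum_le_sum fun t ht => ?_
      rw [hB, mem_filter] at ht
      exact ht.2.trans (dl_le_dp q N t)
    rw [sum_const, nsmul_eq_mul, mul_comm] at e1
    refine e1.trans ?_
    exact sum_le_sum_of_subset_of_nonneg (subset_univ _) fun t _ _ => dp_nonneg q N t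
  have hdpb := g.dpb
  have hB3 : 3 * B.card ≤ 8 * r + 17 := by
    have h2 : ((τ : ℤ) + 1) * B.card ≤ 2 * q := by linarith
    have h3 : (τ + 1) * B.card ≤ 2 * q := by exact_mod_cast h2
    have h4 : 3 * r * B.card ≤ 4 * (τ + 1) * B.card := Nat.mul_le_mul_right _ hτ2.le
    by_contra hcon
    have h5 : 8 * r + 18 ≤ 3 * B.card := by omega
    have h6 : r * (8 * r + 18) ≤ r * (3 * B.card) := Nat.mul_le_mul_left _ h5
    nlinarith
  have hlow := Cz_lower g hy h1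
  have hk : dl q N y ≤ 3 * r := by omega
  have hk2 : dl q N y ^ 2 ≤ (3 * (r : ℤ)) ^ 2 := pow_le_pow_left₀ (by omega) hk 2
  have hr4 : (r : ℤ) * r ≤ q := by exact_mod_cast hr1
  nlinarith

end Pool.Agent.C4E
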