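import Pool.Agent.C4E.Var

/-!
# C4E-VrA: the variance bound for the positive and the negative parts

PLAN. Apply `var` with `v x = (dp q N x : ℝ)` and `v x = (hh q N x : ℝ)`. Let `n = |V|`.
`var_dp`: `∑ x, ∑ y, dp x * ee x y * dp y ≥ 0`: off the diagonal all factors are `≥ 0` (`ee x y` is 0
or 1 for `x ≠ y`), on the diagonal `dp x * dl x * dp x = dp x ^ 3 ≥ 0` (`dp x * dl x = dp x ^ 2`,
because `dp x = 0` or `dl x = dp x`). `∑ dp * dl = ∑ dp² = QQ`.
`var_hh`: `∑ x, ∑ y, hh x * ee x y * hh y ≥ ∑ x, hh x * dl x * hh x = - ∑ hh³ ≥ - t * XX` if `hh ≤ t`;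
`∑ hh * dl = - XX ≤ 0` and `μ ≥ 0`, so the last term of `var` is `≤ 0`.
-/

set_option linter.unusedSectionVars false

namespace Pool.Agent.C4E

open Finset

variable {V : Type} [Fintype V] [DecidableEq V]

theorem var_dp (q b : ℕ) {N : V → Finset V} (h : Cls N)
    (hn : Fintype.card V = q ^ 2 + q + 1 + b) (hb : b ≤ q) (μ : ℝ)
    (hμ : μ = (q + 1) * (DP q N : ℝ) / (Fintype.card V : ℝ)) :
    ∑ x, ((pp q N x : ℝ) - μ) ^ 2 ≤ (q + 2 * μ) * (QQ q N : ℝ) := by
  have hv := var q b h hn hb (fun x => (dp q N x : ℝ)) μ (by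
    rw [hμ]
    unfold DP
    push_cast
    rfl)
  have e1 : ∀ x, (pp q N x : ℝ) = ∑ z ∈ N x, (dp q N z : ℝ) := by
    intro x
    unfold pp
    push_cast
    rfl
  have e2 : (QQ q N : ℝ) = ∑ x, (dp q N x : ℝ) ^ 2 := by
    unfold QQ
    push_cast
    rfl
  have hdd : ∀ x, (dp q N x : ℝ) * (dl q N x : ℝ) = (dp q N x : ℝ) ^ 2 := by
    intro x
    rcases le_total 0 (dl q N x) with h0 | h0
    · rw [dp_of_pos h0]; ring
    · rw [dp_of_nonpos h0]; push_cast; ring
  have e3 : 0 ≤ ∑ x, ∑ y, (dp q N x : ℝ) * (ee q N x y : ℝ) * (dp q N y : ℝ) := by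
    refine sum_nonneg fun x _ => sum_nonneg fun y _ => ?_
    have hx : (0 : ℝ) ≤ (dp q N x : ℝ) := by exact_mod_cast dp_nonneg q N x
    have hy : (0 : ℝ) ≤ (dp q N y : ℝ) := by exact_mod_cast dp_nonneg q N y
    by_cases hxy : x = y
    · subst hxy
      have he : ee q N x x = dl q N x := by unfold ee; rw [if_pos rfl]
      rw [he, hdd]
      positivity
    · refine mul_nonneg (mul_nonneg hx ?_) hy
      have he : 0 ≤ ee q N x y := by
        unfold ee
        rw [if_neg hxy]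
        split_ifs <;> norm_num
      exact_mod_cast he
  have e4 : ∑ x, (dp q N x : ℝ) * (dl q N x : ℝ) = (QQ q N : ℝ) := by
    rw [e2]
    exact sum_congr rfl fun x _ => hdd x
  simp only [← e1] at hv
  rw [← e2, e4] at hv
  linarith

theorem var_hh (q b : ℕ) {N : V → Finset V} (h : Cls N)
    (hn : Fintype.card V = q ^ 2 + q + 1 + b) (hb : b ≤ q) (μ t : ℝ)
    (hμ : μ = (q + 1) * (HH q N : ℝ) / (Fintype.card V : ℝ)) (ht : ∀ x, (hh q N x : ℝ) ≤ t) :
    ∑ x, ((ph q N x : ℝ) - μ) ^ 2 ≤ (q + t) * (XX q N : ℝ) := by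
  have hv := var q b h hn hb (fun x => (hh q N x : ℝ)) μ (by
    rw [hμ]
    unfold HH
    push_cast
    rfl)
  have e1 : ∀ x, (ph q N x : ℝ) = ∑ z ∈ N x, (hh q N z : ℝ) := by
    intro x
    unfold ph
    push_cast
    rfl
  have e2 : (XX q N : ℝ) = ∑ x, (hh q N x : ℝ) ^ 2 := by
    unfold XX
    push_cast
    rfl
  have hdd : ∀ x, (hh q N x : ℝ) * (dl q N x : ℝ) = -(hh q N x : ℝ) ^ 2 := by
    intro x
    rcases le_total 0 (dl q N x) with h0 | h0
    · rw [hh_of_nonneg h0]; push_cast; ring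
    · rw [hh_of_nonpos h0]; push_cast; ring
  have hnn : ∀ x, (0 : ℝ) ≤ (hh q N x : ℝ) := fun x => by exact_mod_cast hh_nonneg q N x
  have e3 : -(t * (XX q N : ℝ)) ≤
      ∑ x, ∑ y, (hh q N x : ℝ) * (ee q N x y : ℝ) * (hh q N y : ℝ) := by
    rw [e2, mul_sum, ← sum_neg_distrib]
    refine sum_le_sum fun x _ => ?_
    have h1 : -(t * (hh q N x : ℝ) ^ 2) =
        ∑ y, if x = y then -(t * (hh q N x : ℝ) ^ 2) else 0 := by
      rw [sum_ite_eq univ x, if_pos (mem_univ x)]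
    rw [h1]
    refine sum_le_sum fun y _ => ?_
    by_cases hxy : x = y
    · subst hxy
      have he : ee q N x x = dl q N x := by unfold ee; rw [if_pos rfl]
      rw [if_pos rfl, he, hdd]
      have h2 := mul_le_mul_of_nonneg_right (ht x) (sq_nonneg (hh q N x : ℝ))
      linarith
    · rw [if_neg hxy]
      refine mul_nonneg (mul_nonneg (hnn x) ?_) (hnn y)
      have he : 0 ≤ ee q N x y := by
        unfold ee
        rw [if_neg hxy]
        split_ifs <;> norm_num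
      exact_mod_cast he
  have e4 : ∑ x, (hh q N x : ℝ) * (dl q N x : ℝ) = -(XX q N : ℝ) := by
    rw [e2, ← sum_neg_distrib]
    exact sum_congr rfl fun x _ => hdd x
  have hX : (0 : ℝ) ≤ (XX q N : ℝ) := by exact_mod_cast XX_nonneg q N
  have hμ0 : 0 ≤ μ := by
    rw [hμ]
    have : (0 : ℝ) ≤ (HH q N : ℝ) := by exact_mod_cast HH_nonneg q N
    positivity
  simp only [← e1] at hv
  rw [← e2, e4] at hv
  have h5 := mul_nonneg hμ0 hX
  linarith

end Pool.Agent.C4E
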